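import Pool.Agent.Lib.MP_dd2a0a_lc.OR.StmR

/-! Toolbox for part R (all proved). -/

namespace DDA

variable {M : ℕ}

@[simp] theorem St.set_mem (s : St) (r v : ℕ) : (s.set r v).mem = s.mem := rfl
@[simp] theorem St.put_reg (s : St) (a v : ℕ) : (s.put a v).reg = s.reg := rfl
@[simp] theorem St.set_reg (s : St) (r v r' : ℕ) :
    (s.set r v).reg r' = if r' = r then v else s.reg r' := by
  simp [St.set, Function.update_apply]
@[simp] theorem St.put_mem (s : St) (a v a' : ℕ) :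
    (s.put a v).mem a' = if a' = a then v else s.mem a' := by
  simp [St.put, Function.update_apply]

/-- `EX M P s post` : there is an execution whose time and final state satisfy `post` -/
def EX (M : ℕ) (P : Cmd) (s : St) (post : ℕ → St → Prop) : Prop :=
  ∃ (t : ℕ) (s' : St), Exec M P s t s' ∧ post t s'

theorem EX.mono {P : Cmd} {s : St} {p q : ℕ → St → Prop} (h : EX M P s p)
    (hpq : ∀ t s', p t s' → q t s') : EX M P s q := by
  obtain ⟨t, s', h1, h2⟩ := h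
  exact ⟨t, s', h1, hpq _ _ h2⟩

theorem EX.seq {c d : Cmd} {s : St} {p : ℕ → St → Prop}
    (h : EX M c s (fun t s' => EX M d s' (fun t' s'' => p (t + t') s''))) : EX M (Cmd.seq c d) s p := by
  obtain ⟨t, s', h1, t', s'', h2, h3⟩ := h
  exact ⟨t + t', s'', Exec.seq _ _ _ _ _ _ _ h1 h2, h3⟩

/-- first command of a block -/
theorem EX.cons {c d : Cmd} {l : List Cmd} {s : St} {p : ℕ → St → Prop}
    (h : EX M c s (fun t s' => EX M (blk (d :: l)) s' (fun t' s'' => p (t + t') s''))) :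
    EX M (blk (c :: d :: l)) s p := EX.seq h

/-- last command of a block -/
theorem EX.last {c : Cmd} {s : St} {p : ℕ → St → Prop} (h : EX M c s p) : EX M (blk [c]) s p := h

theorem EX.skip {s : St} {p : ℕ → St → Prop} (h : p 1 s) : EX M Cmd.skip s p :=
  ⟨_, _, Exec.skip s, h⟩
theorem EX.const {r v : ℕ} {s : St} {p : ℕ → St → Prop} (hv : v < M) (h : p 1 (s.set r v)) :
    EX M (Cmd.const r v) s p := ⟨_, _, Exec.const r v s hv, h⟩
theorem EX.add {r a b : ℕ} {s : St} {p : ℕ → St → Prop} (hv : s.reg a + s.reg b < M)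
    (h : p 1 (s.set r (s.reg a + s.reg b))) :
    EX M (Cmd.add r a b) s p := ⟨_, _, Exec.add r a b s hv, h⟩
theorem EX.sub {r a b : ℕ} {s : St} {p : ℕ → St → Prop}
    (h : p 1 (s.set r (s.reg a - s.reg b))) :
    EX M (Cmd.sub r a b) s p := ⟨_, _, Exec.sub r a b s, h⟩
theorem EX.load {r a : ℕ} {s : St} {p : ℕ → St → Prop}
    (h : p 1 (s.set r (s.mem (s.reg a)))) :
    EX M (Cmd.load r a) s p := ⟨_, _, Exec.load r a s, h⟩
theorem EX.store {r a : ℕ} {s : St} {p : ℕ → St → Prop}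
    (h : p 1 (s.put (s.reg a) (s.reg r))) :
    EX M (Cmd.store a r) s p := ⟨_, _, Exec.store a r s, h⟩
theorem EX.iteT {r : ℕ} {c d : Cmd} {s : St} {p : ℕ → St → Prop} (hr : s.reg r ≠ 0)
    (h : EX M c s (fun t s' => p (t + 1) s')) : EX M (Cmd.ite r c d) s p := by
  obtain ⟨t, s', h1, h2⟩ := h
  exact ⟨_, _, Exec.ite_true r c d s s' t hr h1, h2⟩
theorem EX.iteF {r : ℕ} {c d : Cmd} {s : St} {p : ℕ → St → Prop} (hr : s.reg r = 0)
    (h : EX M d s (fun t s' => p (t + 1) s')) : EX M (Cmd.ite r c d) s p := by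
  obtain ⟨t, s', h1, h2⟩ := h
  exact ⟨_, _, Exec.ite_false r c d s s' t hr h1, h2⟩
theorem EX.loop0 {r : ℕ} {c : Cmd} {s : St} {p : ℕ → St → Prop} (hr : s.reg r = 0)
    (h : p 1 s) : EX M (Cmd.loop r c) s p := ⟨_, _, Exec.loop_stop r c s hr, h⟩
theorem EX.loop1 {r : ℕ} {c : Cmd} {s : St} {p : ℕ → St → Prop} (hr : s.reg r ≠ 0)
    (h : EX M c s (fun t s' => EX M (Cmd.loop r c) s' (fun t' s'' => p (t + 1 + t') s''))) :
    EX M (Cmd.loop r c) s p := by
  obtain ⟨t, s', h1, t', s'', h2, h3⟩ := h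
  exact ⟨_, _, Exec.loop_step r c s s' s'' t t' hr h1 h2, h3⟩

theorem ListAt.congr {mem mem' : ℕ → ℕ} {Q : ℕ → Prop} (h : ∀ a, Q a → mem' a = mem a) :
    ∀ (l : List ℕ) (p : ℕ), ListAt mem Q p l → ListAt mem' Q p l
  | [], p, hl => ⟨(h p hl.2).trans hl.1, hl.2⟩
  | _ :: l, p, hl => ⟨(h p hl.2.1).trans hl.1, hl.2.1, ListAt.congr h l (p + 1) hl.2.2⟩

theorem ListAt.mono {mem : ℕ → ℕ} {Q Q' : ℕ → Prop} (h : ∀ a, Q a → Q' a) :
    ∀ (l : List ℕ) (p : ℕ), ListAt mem Q p l → ListAt mem Q' p l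
  | [], p, hl => ⟨hl.1, h p hl.2⟩
  | _ :: l, p, hl => ⟨hl.1, h p hl.2.1, ListAt.mono h l (p + 1) hl.2.2⟩

theorem Lay.congr {I : Inst} {mem mem' : ℕ → ℕ} {S : ℕ} {rp : ℕ → ℕ} {f lp : ℕ → ℕ → ℕ}
    (h : ∀ a, a < S → mem' a = mem a) (L : Lay I mem S rp f lp) : Lay I mem' S rp f lp where
  s5 := L.s5
  p0 := by rw [h _ (by have := L.s5; omega)]; exact L.p0
  p1 := by rw [h _ (by have := L.s5; omega)]; exact L.p1
  p2 := by rw [h _ (by have := L.s5; omega)]; exact L.p2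
  p3 := by rw [h _ (by have := L.s5; omega)]; exact L.p3
  p4 := by rw [h _ (by have := L.s5; omega)]; exact L.p4
  rc v hv := ⟨(h _ (L.rc v hv).2).trans (L.rc v hv).1, (L.rc v hv).2⟩
  fld v hv j hj := ⟨(h _ (L.fld v hv j hj).2).trans (L.fld v hv j hj).1, (L.fld v hv j hj).2⟩
  fb := L.fb
  f0 := L.f0
  f1 v hv hb x hx := ⟨(h _ (L.f1 v hv hb x hx).2).trans (L.f1 v hv hb x hx).1, (L.f1 v hv hb x hx).2⟩
  f2 v hv := ListAt.congr (fun a ha => h a ha) _ _ (L.f2 v hv)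
  f3 v hv := ListAt.congr (fun a ha => h a ha) _ _ (L.f3 v hv)
  f4 v hv u hu := ⟨(h _ (L.f4 v hv u hu).2).trans (L.f4 v hv u hu).1, (L.f4 v hv u hu).2⟩
  f5 v hv u hu := ⟨(h _ (L.f5 v hv u hu).2).trans (L.f5 v hv u hu).1, (L.f5 v hv u hu).2⟩
  f6 v hv := ListAt.congr (fun a ha => h a ha) _ _ (L.f6 v hv)
  f7 v hv u hu := ⟨(h _ (L.f7 v hv u hu).2).trans (L.f7 v hv u hu).1, (L.f7 v hv u hu).2⟩
  f8 v hv u hu := ⟨(h _ (L.f8 v hv u hu).2).trans (L.f8 v hv u hu).1, (L.f8 v hv u hu).2⟩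
  fl i hi v hv := ⟨ListAt.congr (fun a ha => h a ha) _ _ (L.fl i hi v hv).1, (L.fl i hi v hv).2⟩

/-- all register names, for `simp` -/
theorem fetchRec_ex {dst v : ℕ} {s : St} {p : ℕ → St → Prop} (h6 : 6 < M) (hs : s.reg v + 6 < M) (hv : v ≠ rT3)
    (h : p 3 (((s.set rT3 6).set dst (s.reg v + 6)).set dst (s.mem (s.reg v + 6)))) :
    EX M (fetchRec dst v) s p := by
  refine EX.cons (EX.const h6 (EX.cons (EX.add ?_ (EX.last (EX.load ?_)))))
  · simpa [hv] using hs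
  · simpa [hv] using h

theorem field_ex {dst q j : ℕ} {s : St} {p : ℕ → St → Prop} (hj : j < M) (hs : s.reg q + j < M) (hv : q ≠ rT3)
    (h : p 3 (((s.set rT3 j).set dst (s.reg q + j)).set dst (s.mem (s.reg q + j)))) :
    EX M (field dst q j) s p := by
  refine EX.cons (EX.const hj (EX.cons (EX.add ?_ (EX.last (EX.load ?_)))))
  · simpa [hv] using hs
  · simpa [hv] using h

end DDA
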