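import Pool.Agent.Lib.MP_dd2a0a_lc.OR.Machine

/-!
# MP_dd2a0a_lc : the query program (word RAM, see Machine.lean)
-/

namespace DDA

/-! ## The query program -/

/-- a block of instructions -/
def blk : List Cmd → Cmd
  | [] => Cmd.skip
  | [c] => c
  | c :: l => Cmd.seq c (blk l)

/-! register names -/
def rX : ℕ := 0
def rZ : ℕ := 1
def rRes : ℕ := 2
def rOne : ℕ := 3
def rZero : ℕ := 4
def rT1 : ℕ := 5
def rT2 : ℕ := 6
def rT3 : ℕ := 7
def rK : ℕ := 8
def rB : ℕ := 9
def rFuel : ℕ := 10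
def rSI : ℕ := 11
def rSL : ℕ := 12
def rSV : ℕ := 13
def rSp : ℕ := 14
def rP : ℕ := 15
def rE : ℕ := 16
def rCnt : ℕ := 17
def rD : ℕ := 18
def rRun : ℕ := 19
def rV : ℕ := 20
def rVal : ℕ := 21
def rPass : ℕ := 22
def rCb : ℕ := 23
def rQb : ℕ := 24
def rRv : ℕ := 25
def rAb : ℕ := 26
def rPw : ℕ := 27
def rPz : ℕ := 28
def rI : ℕ := 29
def rQ : ℕ := 30
def rPP : ℕ := 31
def rEE : ℕ := 32
def rCn : ℕ := 33
def rRun2 : ℕ := 34
def rA1 : ℕ := 35
def rC1 : ℕ := 36
def rFound : ℕ := 37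
def rY : ℕ := 38
def rRz : ℕ := 39

/-- `dst := pointer of the record of vertex (register v)`; the table of record pointers starts at address 6 -/
def fetchRec (dst v : ℕ) : Cmd := blk [Cmd.const rT3 6, Cmd.add dst v rT3, Cmd.load dst dst]

/-- `dst := field j of the record at (register rp)` -/
def field (dst rp j : ℕ) : Cmd := blk [Cmd.const rT3 j, Cmd.add dst rp rT3, Cmd.load dst dst]

/-- `T1 := 0` iff the registers `a`, `b` are equal -/
def eqTest (a b : ℕ) : Cmd := blk [Cmd.sub rT1 a b, Cmd.sub rT2 b a, Cmd.add rT1 rT1 rT2]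

/-- the body of the scan of one list -/
def scanBody : Cmd := blk [
  Cmd.sub rCn rCn rOne,
  Cmd.sub rT1 rEE rOne,
  Cmd.add rA1 rAb rT1, Cmd.load rA1 rA1,
  Cmd.add rC1 rCb rT1, Cmd.load rC1 rC1,
  Cmd.ite rA1 (Cmd.ite rC1 (Cmd.const rPass 0) Cmd.skip) Cmd.skip,
  Cmd.add rPP rPP rOne,
  Cmd.load rEE rPP,
  Cmd.ite rEE (Cmd.add rRun2 rCn rZero) (Cmd.const rRun2 0)]

/-- scan of the list that starts at (register PP), at most (register Cn) elements -/
def scanC : Cmd := blk [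
  Cmd.load rEE rPP,
  Cmd.ite rEE (Cmd.add rRun2 rCn rZero) (Cmd.const rRun2 0),
  Cmd.loop rRun2 scanBody,
  Cmd.ite rEE (Cmd.const rPass 0) Cmd.skip]

/-- one index of the test -/
def testBody : Cmd := blk [
  Cmd.sub rI rI rOne,
  Cmd.load rQ rPz,
  Cmd.load rPP rPw,
  Cmd.add rPz rPz rOne,
  Cmd.add rPw rPw rOne,
  Cmd.ite rQ (Cmd.ite rPP (blk [Cmd.add rPP rPP rQ, Cmd.sub rPP rPP rOne, scanC]) Cmd.skip) Cmd.skip]

/-- the test of the vertex (register V) for the target: result in (register Pass) -/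
def testC : Cmd := blk [
  Cmd.const rPass 1,
  fetchRec rRv rV,
  field rAb rRv 7,
  field rPw rRv 8,
  Cmd.add rPz rQb rZero,
  Cmd.add rCn rB rZero,
  Cmd.add rI rK rZero,
  Cmd.loop rI testBody]

/-- look up vertex (register V) in the sparse map: (register Val) := value, (register Y) := index -/
def lookupC : Cmd := blk [
  Cmd.add rT1 rSI rV,
  Cmd.load rY rT1,
  Cmd.sub rT2 rCnt rY,
  Cmd.ite rT2
    (blk [Cmd.add rT1 rSL rY, Cmd.load rT3 rT1, eqTest rT3 rV,
      Cmd.ite rT1 (Cmd.const rVal 0) (blk [Cmd.add rT1 rSV rY, Cmd.load rVal rT1])])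
    (Cmd.const rVal 0)]

/-- insert vertex (register V) with the value c -/
def insertC (c : ℕ) : Cmd := blk [
  Cmd.add rT1 rSL rCnt, Cmd.store rT1 rV,
  Cmd.add rT1 rSI rV, Cmd.store rT1 rCnt,
  Cmd.add rT1 rSV rCnt, Cmd.const rT2 c, Cmd.store rT1 rT2,
  Cmd.add rCnt rCnt rOne]

/-- push the adjacency list of (register V) -/
def pushC : Cmd := blk [
  fetchRec rRv rV, field rRv rRv 6,
  Cmd.add rSp rSp rOne, Cmd.store rSp rRv, Cmd.add rD rD rOne]

/-- treat the vertex (register V) (different from the target) -/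
def touchC : Cmd := blk [
  lookupC,
  Cmd.ite rVal
    (blk [Cmd.sub rT1 rVal rOne,
      Cmd.ite rT1 Cmd.skip
        (blk [Cmd.add rT1 rSV rY, Cmd.const rT2 2, Cmd.store rT1 rT2, pushC])])
    (blk [insertC 2, testC, Cmd.ite rPass pushC Cmd.skip])]

/-- one step of the exploration -/
def stepC : Cmd := blk [
  Cmd.sub rFuel rFuel rOne,
  Cmd.load rP rSp,
  Cmd.load rE rP,
  Cmd.ite rE
    (blk [Cmd.add rT1 rP rOne, Cmd.store rSp rT1, Cmd.sub rV rE rOne,
      eqTest rV rZ,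
      Cmd.ite rT1 touchC (blk [Cmd.const rRes 1, Cmd.const rD 0])])
    (blk [Cmd.sub rSp rSp rOne, Cmd.sub rD rD rOne]),
  Cmd.ite rD (Cmd.add rRun rFuel rZero) (Cmd.const rRun 0)]

/-- insert all elements of the list at (register P) with value 1 -/
def markC : Cmd := blk [
  Cmd.load rE rP,
  Cmd.loop rE (blk [Cmd.sub rV rE rOne, insertC 1, Cmd.add rP rP rOne, Cmd.load rE rP])]

/-- (register Found) := 1 iff (register X) occurs in the list at (register P) -/
def findC : Cmd := blk [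
  Cmd.const rFound 0,
  Cmd.load rE rP,
  Cmd.loop rE (blk [Cmd.sub rV rE rOne, eqTest rV rX,
    Cmd.ite rT1 Cmd.skip (Cmd.const rFound 1), Cmd.add rP rP rOne, Cmd.load rE rP])]

/-- the exploration from X -/
def exploreC : Cmd := blk [
  -- parameters
  Cmd.load rK rZero,
  Cmd.load rB rOne,
  Cmd.const rT3 2, Cmd.load rFuel rT3,
  Cmd.const rT3 3, Cmd.load rSI rT3,
  Cmd.const rT3 4, Cmd.load rT1 rT3,
  Cmd.add rSL rSI rT1,
  Cmd.add rSV rSL rT1,
  Cmd.add rSp rSV rT1,
  -- fields of the target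
  field rCb rRz 4,
  field rQb rRz 5,
  -- marks
  Cmd.const rCnt 0,
  field rP rRz 3,
  markC,
  -- the list [X] and the stack
  Cmd.add rT1 rX rOne,
  Cmd.store rSp rT1,
  Cmd.add rT1 rSp rZero,
  Cmd.add rSp rSp rOne,
  Cmd.store rSp rZero,
  Cmd.add rSp rSp rOne,
  Cmd.store rSp rT1,
  Cmd.const rD 1,
  Cmd.const rRes 0,
  Cmd.add rRun rFuel rZero,
  Cmd.loop rRun stepC,
  Cmd.ite rD (Cmd.const rRes 1) Cmd.skip]

/-- the query program: sources in register 0, target in register 1, answer in register 2 -/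
def prog : Cmd := blk [
  Cmd.const rOne 1,
  Cmd.const rZero 0,
  fetchRec rRz rZ,
  field rT1 rRz 0,
  Cmd.ite rT1
    (blk [field rT1 rRz 1, Cmd.add rT1 rT1 rX, Cmd.load rRes rT1])
    (blk [field rP rRz 2, findC,
      Cmd.ite rFound (Cmd.const rRes 0) exploreC])]

/-! ## What the program computes -/

/-- scan one list; state: (budget, nothing found) -/
def scan (good : ℕ → Bool) : List ℕ → ℕ × Bool → ℕ × Bool
  | [], s => s
  | _ :: _, (0, _) => (0, false)
  | u :: l, (c + 1, ps) => scan good l (c, ps && !(good u))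

/-- the data of the structure (all functions are tables) -/
structure Inst where
  n : ℕ
  N : ℕ
  K : ℕ
  b : ℕ
  B : ℕ
  bad : ℕ → Bool
  col : ℕ → ℕ → Bool
  exc1 : ℕ → List ℕ
  exc2 : ℕ → List ℕ
  adj : ℕ → List ℕ
  At : ℕ → ℕ → Bool
  Ct : ℕ → ℕ → Bool
  typ : ℕ → Bool
  inW : ℕ → ℕ → Bool
  inZ : ℕ → ℕ → Bool
  lst : ℕ → ℕ → List ℕ

/-- the list of index `i` for the pair `(w,z)` -/
def Inst.row (I : Inst) (w z i : ℕ) : List ℕ :=
  if I.inZ i z = true then
    if I.inW i w = true then (if I.typ i = true then I.lst i z else I.lst i w) else []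
  else []

/-- the test -/
def Inst.test (I : Inst) (z w : ℕ) : Bool :=
  ((List.range I.K).foldl (fun s i => scan (fun u => I.At w u && I.Ct z u) (I.row w z i) s)
    (I.b, true)).2

/-- depth first search with a stack of adjacency lists and a budget of steps -/
def explore (adj : ℕ → List ℕ) (tst : ℕ → Bool) (z : ℕ) :
    ℕ → List (List ℕ) → (ℕ → Bool) → Bool
  | _, [], _ => false
  | 0, _ :: _, _ => true
  | f + 1, [] :: st, seen => explore adj tst z f st seen
  | f + 1, (v :: r) :: st, seen =>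
      if v = z then true
      else if seen v = true then explore adj tst z f (r :: st) seen
      else if tst v = true then explore adj tst z f (adj v :: r :: st) (Function.update seen v true)
      else explore adj tst z f (r :: st) (Function.update seen v true)

/-- the answer of the program -/
def Inst.query (I : Inst) (x z : ℕ) : Bool :=
  if I.bad z = true then I.col z x
  else if x ∈ I.exc1 z then false
  else explore I.adj (fun v => decide (v ∈ I.exc2 z) || I.test z v) z I.B [[x]] (fun _ => false)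

/-- size conditions -/
structure Inst.Ok (I : Inst) (E1 m nb : ℕ) : Prop where
  l1 : ∀ z < I.n, (I.exc1 z).length ≤ E1
  l2 : ∀ z < I.n, (I.exc2 z).length ≤ E1
  nd : ∀ z < I.n, (I.exc2 z).Nodup
  e1 : ∀ z < I.n, ∀ x ∈ I.exc1 z, x < I.n
  e2 : ∀ z < I.n, ∀ x ∈ I.exc2 z, x < I.n
  la : ∑ v ∈ Finset.range I.n, (I.adj v).length ≤ m
  ea : ∀ v < I.n, ∀ x ∈ I.adj v, x < I.n
  ll : ∀ i < I.K, ∀ v < I.n, (I.lst i v).length ≤ I.N
  el : ∀ i < I.K, ∀ v < I.n, ∀ u ∈ I.lst i v, u < I.N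
  lb : ((Finset.range I.n).filter (fun z => I.bad z = true)).card ≤ nb

/-- size of the data structure -/
def Inst.sz (I : Inst) (E1 m nb : ℕ) : ℕ :=
  6 + 12 * I.n + nb * I.n + 2 * I.n * (E1 + 1) + m + 2 * I.n * I.N + 2 * I.n * I.K
    + I.n * I.K * (I.N + 1)

/-- query time -/
def Inst.tm (I : Inst) (E1 : ℕ) : ℕ := 1000 * (E1 + 1) + 1000 * ((I.B + 1) * (I.K + I.b + 1))

/-- word size -/
def Inst.wd (I : Inst) (E1 m nb : ℕ) : ℕ := 10 * (I.sz E1 m nb + I.n + I.N + I.K + I.b + I.B + 10)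

end DDA
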