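import Pool.Agent.Lib.MP_dd2a0a_lc.OR.Stm
import Pool.Agent.Lib.MP_dd2a0a_lc.OR.Ram

/-!
Part G: graphs, parameters, final assembly.
-/

namespace DDA

open Finset Filter

noncomputable section

/-- `z` is reachable from `x` in the digraph with the edge set `G` -/
def Rch (G : Finset (ℕ × ℕ)) (x z : ℕ) : Prop := Relation.ReflTransGen (fun a b => (a, b) ∈ G) x z

open Classical in
/-- the vertices `x < n` that reach `z` -/
def anc (G : Finset (ℕ × ℕ)) (n z : ℕ) : Finset ℕ := (range n).filter (fun x => Rch G x z)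

/-- G1. A hub set. Proof: count the functions `Fin N → Fin n` (there are `n^N`). For a pair `(w,z)` with
`t ≤ |anc w \ anc z|` at most `(n-t)^N` functions avoid the set `anc w \ anc z`; there are at most `n^2` pairs and
`n^2 (n-t)^N < n^N` by the hypothesis. (If `N = 0` the hypothesis says `n^2 < 1`.) -/
def S_hit : Prop := ∀ (n N t : ℕ) (G : Finset (ℕ × ℕ)), 0 < n → t ≤ n →
  (n : ℝ) ^ 2 * (1 - (t : ℝ) / n) ^ N < 1 →
  ∃ h : ℕ → ℕ, (∀ i < N, h i < n) ∧ ∀ w < n, ∀ z < n, t ≤ (anc G n w \ anc G n z).card →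
    ∃ i < N, h i ∈ anc G n w \ anc G n z

open Classical in
/-- cost of the exploration from `x` through the vertices with `ps` -/
def xcost (G : Finset (ℕ × ℕ)) (n : ℕ) (ps : ℕ → Prop) (od : ℕ → ℕ) (x : ℕ) : ℕ :=
  ∑ w ∈ (range n).filter (fun w => Rch G x w ∧ ps w), (1 + od w)

open Classical in
/-- G2. Double counting. Proof: `card * B ≤ sum over these x of xcost x = sum over w with ps w of (1 + od w) * #{x : Rch x w, ¬ Rch x z, ...}`
and the set of these `x` is contained in `anc w \ anc z`, which has at most `t` elements. -/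
def S_dc : Prop := ∀ (n m t B z : ℕ) (G : Finset (ℕ × ℕ)) (ps : ℕ → Prop) (od : ℕ → ℕ),
  ∑ w ∈ range n, od w ≤ m → (∀ w < n, ps w → (anc G n w \ anc G n z).card ≤ t) →
  ((range n).filter (fun x => ¬ Rch G x z ∧ B < xcost G n ps od x)).card * B ≤ t * (n + m)

/-- G3. The exploration finds a reachable target (or runs out of budget).
Proof: generalise to an arbitrary stack `st` and set `seen` with the invariant: (i) `seen z = false`; (ii) for every `v` with
`seen v = true` and `tst v = true` every `u ∈ adj v` is seen or occurs in a list of `st`; (iii) `x` is seen or occurs in a list of `st`.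
Every step keeps the invariant (or returns `true`); when the stack is empty, induction along the path from `x` to `z`
shows that all its vertices are seen (they reach `z`, so `tst = true`), contradiction with (i). -/
def S_exT : Prop := ∀ (G : Finset (ℕ × ℕ)) (adj : ℕ → List ℕ) (tst : ℕ → Bool) (x z B : ℕ),
  (∀ u v, v ∈ adj u ↔ (u, v) ∈ G) → (∀ v, Rch G v z → tst v = true) → Rch G x z →
  explore adj tst z B [[x]] (fun _ => false) = true

/-- G4. The exploration ends within the budget if the target is not reachable.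
Proof: generalise: all elements of the lists of `st` are reachable from `x` (so `≠ z` and `< n`), and
`sum over l ∈ st of (l.length + 1) + sum over w < n with Rch G x w, tst w = true, seen w = false of (1 + (adj w).length) ≤ fuel`;
every step decreases the left side by at least 1; at the end `explore _ _ _ _ [] _ = false`. (`x < n` and the edges are in `range n`.) -/
def S_exF : Prop := ∀ (n : ℕ) (G : Finset (ℕ × ℕ)) (adj : ℕ → List ℕ) (tst : ℕ → Bool) (x z B : ℕ),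
  (∀ e ∈ G, e.1 < n ∧ e.2 < n) → (∀ u v, v ∈ adj u ↔ (u, v) ∈ G) → x < n → ¬ Rch G x z →
  2 + xcost G n (fun w => tst w = true) (fun w => (adj w).length) x ≤ B →
  explore adj tst z B [[x]] (fun _ => false) = false

/-- G5. What the scans compute. Proof: first `scan good l (c, ps) = if l.length ≤ c then (c - l.length, ps && l.all (! good ·)) else (0, false)`
by induction on `l`; then induction on `K` (`List.range_succ`, `List.foldl_append`). -/
def S_scanF : Prop := ∀ (K b : ℕ) (row : ℕ → List ℕ) (good : ℕ → Bool),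
  ((List.range K).foldl (fun s i => scan good (row i) s) (b, true)).2 = true ↔
    (∑ i ∈ range K, (row i).length ≤ b ∧ ∀ i < K, ∀ u ∈ row i, good u = false)

/-- the bound for the number of entries -/
def KD (D : ℕ) : ℕ := (2 * 2 ^ (D * (q1 D + q2 D + 2) + 2)) ^ D

/-- G6. The instance. Proof. `h` from the hypothesis. `A` = pairs `(w,i)`, `w < n`, `i < N`, `Rch G (h i) w`; `C` = pairs `(z,i)` with
`¬ Rch G (h i) z`; `l` = list of `S_sud D (range n) (range N) (range n) A C`. `I.K = l.length`; `typ, inW, inZ` from the entry `l[i]`;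
`lst i v` = the elements of `l[i].L v` as a list; `adj u` = the list of the `v < n` with `(u,v) ∈ G`; `At w i = ((w,i) ∈ A)`,
`Ct z i = ((z,i) ∈ C)`; `I.b = b`, `I.B = B0 + 2`; `X z = {w < n : Disj A C (range N) w z and b < ecost l w z}`; `bad z` iff `E1 < |X z|`;
`col z x = Rch G x z`; `exc2 z` = list of `X z` (empty if bad); `exc1 z` (empty if bad) = list of the `x < n` with `¬ Rch G x z` and
`B0 < xcost G n (fun w => I.tst z w = true) (fun w => (adj w).length) x`.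
For `z` not bad and `w < n`: (G5) `tst z w = true` iff `Disj w z`: `sum of the row lengths = ecost l w z`; if not `Disj` a common
column `u` lies in some row (cover) and is good. `Disj w z` implies `|anc w \ anc z| ≤ t` (indeed `< t`) by the property of `h`.
`|exc1 z| * B0 ≤ t (n + m) ≤ E1 * B0` by G2. Query: bad `z`: clear; `x ∈ exc1 z`: not reachable; otherwise if `Rch G x z`: G3 (a vertex `v` that
reaches `z < n` is `< n`, and hubs that reach `v` reach `z`, so `Disj v z`); if not reachable: G4.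
`nb` = number of bad `z`; `nb * E1 ≤ sum |X z|`, `b * sum |X z| ≤ sum over disjoint pairs of ecost`. -/
def S_inst : Prop := ∀ (n m N t b B0 E1 D : ℕ) (G : Finset (ℕ × ℕ)), 1 ≤ D → 0 < B0 →
  (∀ e ∈ G, e.1 < n ∧ e.2 < n) → G.card ≤ m →
  (∃ h : ℕ → ℕ, (∀ i < N, h i < n) ∧ ∀ w < n, ∀ z < n, t ≤ (anc G n w \ anc G n z).card →
    ∃ i < N, h i ∈ anc G n w \ anc G n z) →
  t * (n + m) ≤ E1 * B0 →
  ∃ (I : Inst) (nb : ℕ), I.n = n ∧ I.N = N ∧ I.K ≤ KD D ∧ I.b = b ∧ I.B = B0 + 2 ∧ I.Ok E1 m nb ∧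
    (∀ x < n, ∀ z < n, (I.query x z = true ↔ Rch G x z)) ∧
    (nb : ℝ) * E1 * b ≤
      (6 * ((D : ℝ) + 1) ^ 2 + 1) * (1 / 2 : ℝ) ^ D * ((n : ℝ) * (N : ℝ) * (n : ℝ))

/-- G7. The trivial instance (used for small `n`): everything is bad. `K = N = b = B = 0`, all lists empty,
`bad = fun _ => true`, `col z x = Rch G x z`. -/
def S_triv : Prop := ∀ (n : ℕ) (G : Finset (ℕ × ℕ)), ∃ I : Inst, I.n = n ∧ I.Ok 0 0 n ∧
  (∀ x < n, ∀ z < n, (I.query x z = true ↔ Rch G x z)) ∧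
  I.sz 0 0 n ≤ n * n + 14 * n + 6 ∧ I.tm 0 ≤ 2000 ∧ I.wd 0 0 n ≤ 2 ^ (16 * (Nat.log 2 n + 1))

/-! Parameters. `L = log2 n`, `l = log2 L`, `D = l^2`, `g = 2^(D/16)`, `N = n^(1/4)`. -/

def pL (n : ℕ) : ℕ := Nat.log 2 n
def pl (n : ℕ) : ℕ := Nat.log 2 (Nat.log 2 n)
def pD (n : ℕ) : ℕ := (pl n) ^ 2
def pg (n : ℕ) : ℕ := 2 ^ (pD n / 16)
def pN (n : ℕ) : ℕ := Nat.sqrt (Nat.sqrt n)
def pt (n : ℕ) : ℕ := 4 * (pL n + 1) * n / pN n + 1
def pE (n : ℕ) : ℕ := n / pg n + 1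
def pB (c0 n : ℕ) : ℕ := pg n * pt n * (1 + c0) + 1
def pb (n : ℕ) : ℕ := pN n / pg n ^ 4

/-- G8. A power of `log log n` is eventually smaller than `log n`.
Proof: `l = pl n → ∞`, `2^l ≤ pL n`, and `c (l+1)^e ≤ 2^l` for large `l`. -/
def S_dom : Prop := ∀ c e : ℕ, ∀ᶠ n in atTop, c * (pl n + 1) ^ e ≤ pL n

/-- G9. `KD D` is at most `2` to a polynomial in `D`. Proof: `q2 D`, `q1 D` are polynomials in `D`; bound every factor by a power of `D + 1`. -/
def S_KD : Prop := ∃ c : ℕ, ∀ D : ℕ, KD D ≤ 2 ^ (c * (D + 1) ^ c)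

/-- G10. First numeric conditions. Proof: `n ≥ 2^L`, `N = sqrt(sqrt n) ≥ 2^(L/4) - 1`-ish (`(N+1)^4 > n`), `g^4 ≤ 2^(l^2/4)`; `S_dom`.
`t > 4 (L+1) n/N`, so `(1 - t/n)^N ≤ exp(-t N/n) ≤ exp(-4 (L+1))` and `n^2 < 4^(L+1)`. `t ≤ n` because `N ≥ 8 (L+1)` eventually. -/
def S_num1 : Prop := ∀ᶠ n in atTop, 1 ≤ pD n ∧ 0 < n ∧ 0 < pb n ∧ pt n ≤ n ∧
  (n : ℝ) ^ 2 * (1 - (pt n : ℝ) / n) ^ (pN n) < 1

/-- G11. `E1 * B0` is large enough. Proof: `n ≤ (n/g + 1) g`. -/
def S_num2 : Prop := ∀ c0 n : ℕ, pt n * (n + c0 * n) ≤ pE n * pB c0 n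

/-- G12. The size of the data structure. Proof: `L^k < 2^((l+1) k)`; `g ≥ 2^(l^2/16 - 1)`; `n g^(-1) L^k` and all other terms are at most
`n^2/20` eventually: `nb * n ≤ (6(D+1)^2+1) 2^(-D) n^3 N/(E1 b)` with `E1 ≥ n/g`, `b ≥ N/(2 g^4)`, so `nb * n ≤ 2 (6(D+1)^2+1) 2^(-D) g^5 n^2`;
`K ≤ KD (l^2) ≤ 2^(poly l) ≤ 2^(L/8)` (`S_KD`, `S_dom`); `N ≤ n^(1/4)`. -/
def S_size : Prop := ∀ c0 k : ℕ, ∀ᶠ n in atTop, ∀ K nb : ℕ, K ≤ KD (pD n) →
  (nb : ℝ) * (pE n : ℝ) * (pb n : ℝ) ≤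
    (6 * ((pD n : ℝ) + 1) ^ 2 + 1) * (1 / 2 : ℝ) ^ (pD n) * ((n : ℝ) * (pN n : ℝ) * (n : ℝ)) →
  (6 + 12 * n + nb * n + 2 * n * (pE n + 1) + c0 * n + 2 * n * pN n + 2 * n * K
    + n * K * (pN n + 1)) * (pL n) ^ k ≤ n ^ 2

/-- G13. The query time. Proof: as G12: `(B0 + 3)(K + b + 1)` with `B0 ≤ 2 (1+c0) g t`, `t ≤ 8 (L+1) n/N`, `b ≤ N/g^4`, `K + 1 ≤ N/g^4`
eventually, so the product is at most `C (L+1) n / g^3`. -/
def S_time : Prop := ∀ c0 k : ℕ, ∀ᶠ n in atTop, ∀ K : ℕ, K ≤ KD (pD n) →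
  (1000 * (pE n + 1) + 1000 * ((pB c0 n + 2 + 1) * (K + pb n + 1))) * (pL n) ^ k ≤ n

/-- the final theorem -/
def Final : Prop := ∃ P : Cmd, ∀ c0 : ℕ, ∃ S T : ℕ → ℕ,
  (∀ k : ℕ, ∀ᶠ n in atTop, S n * (Nat.log 2 n) ^ k ≤ n ^ 2 ∧ T n * (Nat.log 2 n) ^ k ≤ n) ∧
  ∀ (n : ℕ) (G : Finset (ℕ × ℕ)), (∀ e ∈ G, e.1 < n ∧ e.2 < n) → G.card ≤ c0 * n →
    ∃ data : List ℕ, data.length ≤ S n ∧
      (∀ a ∈ data, a < 2 ^ (16 * (Nat.log 2 n + 1))) ∧
      ∀ u < n, ∀ v < n, ∀ s : St, s.reg 0 = u → s.reg 1 = v →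
        (∀ i < data.length, s.mem i = data.getD i 0) →
        ∃ (t : ℕ) (s' : St), Exec (2 ^ (16 * (Nat.log 2 n + 1))) P s t s' ∧ t ≤ T n ∧
          (Relation.ReflTransGen (fun a b => (a, b) ∈ G) u v → s'.reg 2 = 1) ∧
          (¬ Relation.ReflTransGen (fun a b => (a, b) ∈ G) u v → s'.reg 2 = 0)

end

end DDA
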