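import Pool.Agent.Lib.MP_dd2a0a_lc.OR.StmR
import Pool.Agent.Lib.MP_dd2a0a_lc.OR.StmG

/-!
Part R, second version: the query program leaves the data (the cells below `S`) intact, and it writes only into the
cells below `S + 3 n + B + 3`.
-/

namespace DDA

/-- the memory contents `m'` and `m` agree outside the scratch area -/
def MemOut (I : Inst) (S : ℕ) (m m' : ℕ → ℕ) : Prop :=
  ∀ a, (a < S ∨ S + 3 * I.n + I.B + 3 ≤ a) → m' a = m a

/-- R8'. -/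
def S_touch2 : Prop := ∀ (M S : ℕ) (I : Inst) (E1 m nb : ℕ) (rp : ℕ → ℕ) (f lp : ℕ → ℕ → ℕ) (z v c fuel : ℕ)
  (seen : ℕ → Bool) (st : List (List ℕ)) (s : St),
  I.Ok E1 m nb → EInv I z S rp f lp s c seen st fuel → st.length + fuel + 1 ≤ I.B + 1 →
  4 * (S + I.n + I.b + I.K + I.B + 10) ≤ M → v < I.n → s.reg rV = v →
  ∃ (t : ℕ) (s' : St) (c' : ℕ) (seen' : ℕ → Bool) (st' : List (List ℕ)),
    Exec M touchC s t s' ∧ t ≤ 60 + 20 * I.K + 14 * I.b ∧ s'.reg rRes = s.reg rRes ∧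
    MemOut I S s.mem s'.mem ∧
    EInv I z S rp f lp s' c' seen' st' fuel ∧
    ((seen v = true ∧ seen' = seen ∧ st' = st) ∨
     (seen v = false ∧ I.tst z v = true ∧ seen' = Function.update seen v true ∧ st' = I.adj v :: st) ∨
     (seen v = false ∧ I.tst z v = false ∧ seen' = Function.update seen v true ∧ st' = st))

/-- R9'. -/
def S_step2 : Prop := ∀ (M S : ℕ) (I : Inst) (E1 m nb : ℕ) (rp : ℕ → ℕ) (f lp : ℕ → ℕ → ℕ) (z c fuel : ℕ)
  (seen : ℕ → Bool) (st : List (List ℕ)) (s : St),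
  I.Ok E1 m nb → EInv I z S rp f lp s c seen st (fuel + 1) → st ≠ [] →
  4 * (S + I.n + I.b + I.K + I.B + 10) ≤ M →
  ∃ (t : ℕ) (s' : St), Exec M stepC s t s' ∧ t ≤ 80 + 20 * I.K + 14 * I.b ∧
    MemOut I S s.mem s'.mem ∧
    ((s'.reg rD = 0 ∧ s'.reg rRun = 0 ∧ s'.reg rRes = 1 ∧
        explore I.adj (I.tst z) z (fuel + 1) st seen = true) ∨
     (∃ (c' : ℕ) (seen' : ℕ → Bool) (st' : List (List ℕ)),
        EInv I z S rp f lp s' c' seen' st' fuel ∧ s'.reg rRes = s.reg rRes ∧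
        s'.reg rRun = (if st' = [] then 0 else fuel) ∧
        explore I.adj (I.tst z) z (fuel + 1) st seen = explore I.adj (I.tst z) z fuel st' seen'))

/-- R10'. -/
def S_loop2 : Prop := ∀ (M S : ℕ) (I : Inst) (E1 m nb : ℕ) (rp : ℕ → ℕ) (f lp : ℕ → ℕ → ℕ) (z c fuel : ℕ)
  (seen : ℕ → Bool) (st : List (List ℕ)) (s : St),
  I.Ok E1 m nb → EInv I z S rp f lp s c seen st fuel →
  s.reg rRun = (if st = [] then 0 else fuel) → s.reg rRes = 0 →
  4 * (S + I.n + I.b + I.K + I.B + 10) ≤ M →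
  ∃ (t : ℕ) (s' : St),
    Exec M (blk [Cmd.loop rRun stepC, Cmd.ite rD (Cmd.const rRes 1) Cmd.skip]) s t s' ∧
    t ≤ fuel * (81 + 20 * I.K + 14 * I.b) + 3 ∧
    MemOut I S s.mem s'.mem ∧
    s'.reg rRes = (if explore I.adj (I.tst z) z fuel st seen = true then 1 else 0)

/-- R13'. -/
def S_explC2 : Prop := ∀ (M S : ℕ) (I : Inst) (E1 m nb : ℕ) (rp : ℕ → ℕ) (f lp : ℕ → ℕ → ℕ) (x z : ℕ) (s : St),
  I.Ok E1 m nb → Lay I s.mem S rp f lp → x < I.n → z < I.n →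
  4 * (S + I.n + I.b + I.K + I.B + 10) ≤ M →
  s.reg rOne = 1 → s.reg rZero = 0 → s.reg rX = x → s.reg rZ = z → s.reg rRz = rp z →
  ∃ (t : ℕ) (s' : St), Exec M exploreC s t s' ∧
    t ≤ 60 + 12 * E1 + I.B * (81 + 20 * I.K + 14 * I.b) ∧
    MemOut I S s.mem s'.mem ∧
    s'.reg rRes = (if explore I.adj (I.tst z) z I.B [[x]] (fun _ => false) = true then 1 else 0)

/-- R14'. -/
def S_ram2 : Prop := ∀ (I : Inst) (E1 m nb : ℕ), I.Ok E1 m nb → ∀ M : ℕ, I.wd E1 m nb ≤ M →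
  ∃ data : List ℕ, data.length ≤ I.sz E1 m nb ∧ (∀ a ∈ data, a < M) ∧
    ∀ x < I.n, ∀ z < I.n, ∀ s : St, s.reg 0 = x → s.reg 1 = z →
      (∀ i < data.length, s.mem i = data.getD i 0) →
      ∃ (t : ℕ) (s' : St), Exec M prog s t s' ∧ t ≤ I.tm E1 ∧
        MemOut I data.length s.mem s'.mem ∧
        s'.reg 2 = (if I.query x z = true then 1 else 0)

open Filter in
/-- the final theorem: the data and the scratch area lie in the cells below `S n`; the query program leaves the data and all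
cells from `S n` on intact -/
def Final2 : Prop := ∃ P : Cmd, ∀ c0 : ℕ, ∃ S T : ℕ → ℕ,
  (∀ k : ℕ, ∀ᶠ n in atTop, S n * (Nat.log 2 n) ^ k ≤ n ^ 2 ∧ T n * (Nat.log 2 n) ^ k ≤ n) ∧
  ∀ (n : ℕ) (G : Finset (ℕ × ℕ)), (∀ e ∈ G, e.1 < n ∧ e.2 < n) → G.card ≤ c0 * n →
    ∃ data : List ℕ, data.length ≤ S n ∧
      (∀ a ∈ data, a < 2 ^ (16 * (Nat.log 2 n + 1))) ∧
      ∀ u < n, ∀ v < n, ∀ s : St, s.reg 0 = u → s.reg 1 = v →
        (∀ i < data.length, s.mem i = data.getD i 0) →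
        ∃ (t : ℕ) (s' : St), Exec (2 ^ (16 * (Nat.log 2 n + 1))) P s t s' ∧ t ≤ T n ∧
          (∀ i, (i < data.length ∨ S n ≤ i) → s'.mem i = s.mem i) ∧
          (Relation.ReflTransGen (fun a b => (a, b) ∈ G) u v → s'.reg 2 = 1) ∧
          (¬ Relation.ReflTransGen (fun a b => (a, b) ∈ G) u v → s'.reg 2 = 0)

end DDA
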