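import Pool.Agent.Lib.MP_dd2a0a_lc.OR.StmR2

/-! The final assembly, second version. -/

namespace DDA

open Finset Filter

noncomputable section

/-- the largest possible number of bad targets -/
private def nbm (n : ℕ) : ℕ :=
  ⌊(6 * ((pD n : ℝ) + 1) ^ 2 + 1) * (1 / 2 : ℝ) ^ (pD n) * ((n : ℝ) * (pN n : ℝ) * (n : ℝ)) /
    ((pE n : ℝ) * (pb n : ℝ))⌋₊

private def S1 (c0 n : ℕ) : ℕ :=
  6 + 12 * n + nbm n * n + 2 * n * (pE n + 1) + c0 * n + 2 * n * pN n + 2 * n * KD (pD n)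
    + n * KD (pD n) * (pN n + 1)

private def T1 (c0 n : ℕ) : ℕ :=
  1000 * (pE n + 1) + 1000 * ((pB c0 n + 2 + 1) * (KD (pD n) + pb n + 1))

private theorem pE_pos (n : ℕ) : 0 < pE n := Nat.succ_pos _

private theorem nbm_le (n : ℕ) (hb : 0 < pb n) :
    (nbm n : ℝ) * (pE n : ℝ) * (pb n : ℝ) ≤
    (6 * ((pD n : ℝ) + 1) ^ 2 + 1) * (1 / 2 : ℝ) ^ (pD n) * ((n : ℝ) * (pN n : ℝ) * (n : ℝ)) := by
  have h1 : (0 : ℝ) < (pE n : ℝ) * (pb n : ℝ) := by
    have := pE_pos n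
    positivity
  have h2 : (nbm n : ℝ) ≤ (6 * ((pD n : ℝ) + 1) ^ 2 + 1) * (1 / 2 : ℝ) ^ (pD n) *
      ((n : ℝ) * (pN n : ℝ) * (n : ℝ)) / ((pE n : ℝ) * (pb n : ℝ)) := by
    unfold nbm
    exact Nat.floor_le (by positivity)
  rw [le_div_iff₀ h1] at h2
  calc _ = (nbm n : ℝ) * ((pE n : ℝ) * (pb n : ℝ)) := by ring
    _ ≤ _ := h2

private theorem le_nbm (n nb : ℕ) (hb : 0 < pb n) (h : (nb : ℝ) * (pE n : ℝ) * (pb n : ℝ) ≤
    (6 * ((pD n : ℝ) + 1) ^ 2 + 1) * (1 / 2 : ℝ) ^ (pD n) * ((n : ℝ) * (pN n : ℝ) * (n : ℝ))) :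
    nb ≤ nbm n := by
  have h1 : (0 : ℝ) < (pE n : ℝ) * (pb n : ℝ) := by
    have := pE_pos n
    positivity
  unfold nbm
  apply Nat.le_floor
  rw [le_div_iff₀ h1]
  calc _ = (nb : ℝ) * (pE n : ℝ) * (pb n : ℝ) := by ring
    _ ≤ _ := h

private theorem tm_ge (I : Inst) (E : ℕ) : I.K + I.b + I.B ≤ I.tm E := by
  unfold Inst.tm
  generalize I.K = a
  generalize I.b = b
  generalize I.B = c
  have h : a + b + c ≤ (c + 1) * (a + b + 1) := by nlinarith [Nat.zero_le (c * a), Nat.zero_le (c * b)]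
  have h2 : (c + 1) * (a + b + 1) ≤ 1000 * ((c + 1) * (a + b + 1)) := by omega
  omega

private theorem B_le_T1 (c0 n : ℕ) : pB c0 n + 5 ≤ T1 c0 n := by
  unfold T1
  generalize pB c0 n = c
  generalize KD (pD n) + pb n = a
  generalize pE n = e
  have h : (c + 2 + 1) * 1 ≤ (c + 2 + 1) * (a + 1) := Nat.mul_le_mul_left _ (by omega)
  omega

private theorem wd_aux (a n N K b B X : ℕ) (h1 : a ≤ X) (h3 : K + b + B ≤ n) (h4 : N ≤ n) :
    10 * (a + n + N + K + b + B + 10) ≤ 10 * (X + 3 * n + 10) := by omega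

private theorem pw_aux (n L : ℕ) (hl : 0 < L) (hL : n < 2 ^ L) :
    10 * (n ^ 2 + 3 * n + 10) ≤ 2 ^ (16 * L) := by
  have e1 : 2 ^ (16 * L) = (2 ^ L) ^ 16 := by
    rw [← pow_mul]; congr 1; ring
  rw [e1]
  have hX2 : 2 ≤ 2 ^ L := by
    calc 2 = 2 ^ 1 := by norm_num
      _ ≤ 2 ^ L := Nat.pow_le_pow_right (by norm_num) hl
  generalize 2 ^ L = X at *
  have h2 : n ^ 2 ≤ X ^ 2 := Nat.pow_le_pow_left hL.le 2
  have h4 : 1 ≤ X ^ 2 := Nat.one_le_pow _ _ (by omega)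
  have h3 : n ≤ X ^ 2 := hL.le.trans (Nat.le_self_pow (by norm_num) X)
  have e3 : 140 ≤ X ^ 14 := by
    calc 140 ≤ 2 ^ 14 := by norm_num
      _ ≤ X ^ 14 := Nat.pow_le_pow_left hX2 14
  calc 10 * (n ^ 2 + 3 * n + 10) ≤ 10 * (X ^ 2 * 14) := by omega
    _ = X ^ 2 * 140 := by ring
    _ ≤ X ^ 2 * X ^ 14 := by gcongr
    _ = X ^ 16 := by ring

theorem piece_final2 (hram : S_ram2) (hhit : S_hit) (hinst : S_inst) (htriv : S_triv)
    (hn1 : S_num1) (hn2 : S_num2) (hsz : S_size) (htm : S_time) : Final2 := by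
  refine ⟨prog, fun c0 => ?_⟩
  -- thresholds
  have ev : ∀ᶠ n in atTop, (1 ≤ pD n ∧ 0 < n ∧ 0 < pb n ∧ pt n ≤ n ∧
      (n : ℝ) ^ 2 * (1 - (pt n : ℝ) / n) ^ (pN n) < 1) ∧
      S1 c0 n ≤ n ^ 2 ∧ T1 c0 n ≤ n := by
    filter_upwards [hn1, hsz c0 0, htm c0 0] with n h1 h2 h3
    refine ⟨h1, ?_, ?_⟩
    · have := h2 (KD (pD n)) (nbm n) le_rfl (nbm_le n h1.2.2.1)
      simpa [S1] using this
    · have := h3 (KD (pD n)) le_rfl
      simpa [T1] using this
  obtain ⟨n0, hn0⟩ := eventually_atTop.1 ev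
  refine ⟨fun n => if n < n0 then n * n + 17 * n + 20 else S1 c0 n + 3 * n + pB c0 n + 5,
    fun n => if n < n0 then 2000 else T1 c0 n, ?_, ?_⟩
  · intro k
    filter_upwards [hn1, hsz c0 (k + 1), htm c0 k, eventually_ge_atTop n0, eventually_ge_atTop 4]
      with n h1 h2 h3 h4 h4'
    have h5 : ¬ n < n0 := not_lt.2 h4
    simp only [h5, if_false]
    refine ⟨?_, h3 (KD (pD n)) le_rfl⟩
    have hT : T1 c0 n ≤ n := (hn0 n h4).2.2
    have hB := B_le_T1 c0 n
    have h6 : S1 c0 n * (Nat.log 2 n) ^ (k + 1) ≤ n ^ 2 := h2 (KD (pD n)) (nbm n) le_rfl (nbm_le n h1.2.2.1)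
    have h7 : 12 * n ≤ S1 c0 n := by
      unfold S1
      generalize nbm n * n = a1
      generalize 2 * n * (pE n + 1) = a2
      generalize c0 * n = a3
      generalize 2 * n * pN n = a4
      generalize 2 * n * KD (pD n) = a5
      generalize n * KD (pD n) * (pN n + 1) = a6
      omega
    have h8 : 2 ≤ Nat.log 2 n := by
      apply Nat.le_log_of_pow_le (by norm_num)
      omega
    calc (S1 c0 n + 3 * n + pB c0 n + 5) * (Nat.log 2 n) ^ k
        ≤ (S1 c0 n * 2) * (Nat.log 2 n) ^ k := Nat.mul_le_mul_right _ (by omega)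
      _ ≤ (S1 c0 n * Nat.log 2 n) * (Nat.log 2 n) ^ k :=
          Nat.mul_le_mul_right _ (Nat.mul_le_mul_left _ h8)
      _ = S1 c0 n * (Nat.log 2 n) ^ (k + 1) := by ring
      _ ≤ n ^ 2 := h6
  · intro n G hG hcard
    by_cases hlt : n < n0
    · obtain ⟨I, hIn, hOk, hq, hs, ht, hw⟩ := htriv n G
      obtain ⟨data, hd1, hd2, hd3⟩ := hram I 0 0 n hOk _ hw
      have hIB : I.B ≤ 1 := by
        have h1 : 1000 * (0 + 1) + 1000 * ((I.B + 1) * (I.K + I.b + 1)) ≤ 2000 := ht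
        have h2 : (I.B + 1) * 1 ≤ (I.B + 1) * (I.K + I.b + 1) := Nat.mul_le_mul_left _ (by omega)
        omega
      refine ⟨data, ?_, hd2, ?_⟩
      · simp only [hlt, if_true]; exact (hd1.trans hs).trans (by omega)
      · intro u hu v hv s hsu hsv hmem
        obtain ⟨t, s', he, hts, hmo, hres⟩ := hd3 u (by omega) v (by omega) s hsu hsv hmem
        refine ⟨t, s', he, ?_, ?_, ?_, ?_⟩
        · simp only [hlt, if_true]; exact hts.trans ht
        · intro i hi
          simp only [hlt, if_true] at hi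
          refine hmo i ?_
          have := hd1.trans hs
          rw [hIn]
          omega
        · intro hr
          rw [hres, if_pos ((hq u hu v hv).2 hr)]
        · intro hr
          rw [hres, if_neg (fun h => hr ((hq u hu v hv).1 h))]
    · obtain ⟨⟨hD, hnp, hbp, htn, hnum⟩, hS, hT⟩ := hn0 n (not_lt.1 hlt)
      obtain ⟨I, nb, hIn, hIN, hIK, hIb, hIB, hOk, hq, hnb⟩ :=
        hinst n (c0 * n) (pN n) (pt n) (pb n) (pB c0 n) (pE n) (pD n) G hD
          (Nat.succ_pos _) hG hcard (hhit n (pN n) (pt n) G hnp htn hnum) (hn2 c0 n)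
      have hnb' : nb ≤ nbm n := le_nbm n nb hbp hnb
      have hsz1 : I.sz (pE n) (c0 * n) nb ≤ S1 c0 n := by
        unfold Inst.sz S1
        rw [hIn, hIN]
        gcongr
      have htm1 : I.tm (pE n) ≤ T1 c0 n := by
        unfold Inst.tm T1
        rw [hIB, hIb]
        exact Nat.add_le_add_left (Nat.mul_le_mul_left _ (Nat.mul_le_mul_left _
          (Nat.add_le_add_right (Nat.add_le_add_right hIK _) _))) _
      have hL : n < 2 ^ (Nat.log 2 n + 1) := Nat.lt_pow_succ_log_self (by norm_num) n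
      have hwd : I.wd (pE n) (c0 * n) nb ≤ 2 ^ (16 * (Nat.log 2 n + 1)) := by
        have a1 : I.sz (pE n) (c0 * n) nb ≤ n ^ 2 := hsz1.trans hS
        have a2 : I.tm (pE n) ≤ n := htm1.trans hT
        have a3 : I.K + I.b + I.B ≤ n := by
          exact (tm_ge I (pE n)).trans a2
        have a4 : I.N ≤ n := by
          rw [hIN]
          exact (Nat.sqrt_le_self _).trans (Nat.sqrt_le_self _)
        have a5 : I.wd (pE n) (c0 * n) nb ≤ 10 * (n ^ 2 + 3 * n + 10) := by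
          unfold Inst.wd
          rw [hIn]
          exact wd_aux _ _ _ _ _ _ _ a1 a3 a4
        refine a5.trans ?_
        exact pw_aux n _ (Nat.succ_pos _) hL
      obtain ⟨data, hd1, hd2, hd3⟩ := hram I (pE n) (c0 * n) nb hOk _ hwd
      have hdS : data.length ≤ S1 c0 n := hd1.trans hsz1
      refine ⟨data, ?_, hd2, ?_⟩
      · simp only [hlt, if_false]; omega
      · intro u hu v hv s hsu hsv hmem
        obtain ⟨t, s', he, hts, hmo, hres⟩ := hd3 u (by omega) v (by omega) s hsu hsv hmem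
        refine ⟨t, s', he, ?_, ?_, ?_, ?_⟩
        · simp only [hlt, if_false]; exact hts.trans htm1
        · intro i hi
          simp only [hlt, if_false] at hi
          refine hmo i ?_
          rw [hIn, hIB]
          omega
        · intro hr
          rw [hres, if_pos ((hq u hu v hv).2 hr)]
        · intro hr
          rw [hres, if_neg (fun h => hr ((hq u hu v hv).1 h))]

end

end DDA
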