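import Pool.Agent.Lib.MP_dd2a0a_lc.OR.RTool
import Pool.Agent.Lib.MP_dd2a0a_lc.OR.StmR2

namespace DDA

private theorem loop_nil {adj : ℕ → List ℕ} {tst : ℕ → Bool} {z fuel : ℕ} {seen : ℕ → Bool} :
    explore adj tst z fuel [] seen = false := by
  cases fuel <;> rfl

private theorem loop_zero {adj : ℕ → List ℕ} {tst : ℕ → Bool} {z : ℕ} {seen : ℕ → Bool}
    {st : List (List ℕ)} (h : st ≠ []) : explore adj tst z 0 st seen = true := by
  cases st with
  | nil => exact absurd rfl h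
  | cons a l => rfl

private theorem loop_aux (h9 : S_step2) (M S : ℕ) (I : Inst) (E1 m nb : ℕ) (rp : ℕ → ℕ)
    (f lp : ℕ → ℕ → ℕ) (z : ℕ) (hok : I.Ok E1 m nb)
    (hM : 4 * (S + I.n + I.b + I.K + I.B + 10) ≤ M) : ∀ (fuel c : ℕ) (seen : ℕ → Bool)
    (st : List (List ℕ)) (s : St), EInv I z S rp f lp s c seen st fuel →
    s.reg rRun = (if st = [] then 0 else fuel) → s.reg rRes = 0 →
    ∃ (t : ℕ) (s' : St), Exec M (Cmd.loop rRun stepC) s t s' ∧
      t ≤ fuel * (81 + 20 * I.K + 14 * I.b) + 1 ∧ MemOut I S s.mem s'.mem ∧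
      ((s'.reg rD = 0 ∧
        s'.reg rRes = (if explore I.adj (I.tst z) z fuel st seen = true then 1 else 0)) ∨
        (s'.reg rD ≠ 0 ∧ explore I.adj (I.tst z) z fuel st seen = true)) := by
  intro fuel
  induction fuel with
  | zero =>
    intro c seen st s hE hrun hres
    have hrun0 : s.reg rRun = 0 := by
      rw [hrun]
      split <;> rfl
    refine ⟨1, s, Exec.loop_stop _ _ _ hrun0, by omega, fun a _ => rfl, ?_⟩
    by_cases hst : st = []
    · left
      subst hst
      rw [loop_nil, hE.d, hres]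
      simp
    · right
      rw [hE.d]
      exact ⟨by simpa using hst, loop_zero hst⟩
  | succ fuel ih =>
    intro c seen st s hE hrun hres
    by_cases hst : st = []
    · subst hst
      have hrun0 : s.reg rRun = 0 := by
        rw [hrun]
        simp
      refine ⟨1, s, Exec.loop_stop _ _ _ hrun0, by omega, fun a _ => rfl, Or.inl ?_⟩
      rw [loop_nil, hE.d, hres]
      simp
    · have hrun0 : s.reg rRun ≠ 0 := by
        rw [hrun, if_neg hst]
        omega
      obtain ⟨t, s1, h1, h2, hmo, h3⟩ := h9 M S I E1 m nb rp f lp z c fuel seen st s hok hE hst hM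
      rcases h3 with ⟨h4, h5, h6, h7⟩ | ⟨c', seen', st', h4, h5, h6, h7⟩
      · refine ⟨t + 1 + 1, s1, Exec.loop_step _ _ _ _ _ _ _ hrun0 h1 (Exec.loop_stop _ _ _ h5),
          ?_, hmo, Or.inl ⟨h4, by rw [h7, h6]; simp⟩⟩
        have : (fuel + 1) * (81 + 20 * I.K + 14 * I.b) =
          fuel * (81 + 20 * I.K + 14 * I.b) + (81 + 20 * I.K + 14 * I.b) := by ring
        rw [this]
        have h8 : 0 ≤ fuel * (81 + 20 * I.K + 14 * I.b) := Nat.zero_le _
        omega
      · obtain ⟨t', s2, h8, h9', hmo2, h10⟩ := ih c' seen' st' s1 h4 h6 (by rw [h5, hres])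
        refine ⟨t + 1 + t', s2, Exec.loop_step _ _ _ _ _ _ _ hrun0 h1 h8, ?_,
          fun a ha => (hmo2 a ha).trans (hmo a ha), ?_⟩
        · have : (fuel + 1) * (81 + 20 * I.K + 14 * I.b) =
            fuel * (81 + 20 * I.K + 14 * I.b) + (81 + 20 * I.K + 14 * I.b) := by ring
          rw [this]
          omega
        · rw [h7]
          exact h10

theorem piece_loop2 (h9 : S_step2) : S_loop2 := by
  intro M S I E1 m nb rp f lp z c fuel seen st s hok hE hrun hres hM
  obtain ⟨t, s', h1, h2, hmo, h3⟩ := loop_aux h9 M S I E1 m nb rp f lp z hok hM fuel c seen st s hE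
    hrun hres
  rcases h3 with ⟨h4, h5⟩ | ⟨h4, h5⟩
  · refine ⟨t + 2, s', ?_, by omega, hmo, h5⟩
    exact Exec.seq _ _ _ _ _ _ _ h1 (Exec.ite_false _ _ _ _ _ _ h4 (Exec.skip _))
  · refine ⟨t + 2, s'.set rRes 1, ?_, by omega, hmo, ?_⟩
    · exact Exec.seq _ _ _ _ _ _ _ h1 (Exec.ite_true _ _ _ _ _ _ h4
        (Exec.const _ _ _ (by omega)))
    · rw [h5]
      simp

end DDA
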