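import Pool.Agent.Lib.MP_dd2a0a_lc.OR.RTool
import Pool.Agent.Lib.MP_dd2a0a_lc.OR.StmR2

namespace DDA

private theorem sub_of (l l' : List ℕ) (h : l.all (fun a => decide (a ∈ l')) = true) (r : ℕ)
    (hr : r ∈ l) : r ∈ l' := by
  rw [List.all_eq_true] at h
  simpa using h r hr

private theorem stack_congr {mem mem' : ℕ → ℕ} {Q : ℕ → Prop} {base : ℕ}
    (hQ : ∀ a, Q a → mem' a = mem a) :
    ∀ (st : List (List ℕ)), (∀ a, base < a → a ≤ base + st.length → mem' a = mem a) →
      StackAt mem Q base st → StackAt mem' Q base st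
  | [], _, _ => trivial
  | l :: st, h, hs => by
      refine ⟨?_, stack_congr hQ st (fun a h1 h2 => h a h1 (by simp; omega)) hs.2⟩
      rw [h (base + st.length + 1) (by omega) (by simp)]
      exact ListAt.congr hQ l _ hs.1

private theorem push_ex {M S v : ℕ} {I : Inst} {rp : ℕ → ℕ} {f lp : ℕ → ℕ → ℕ} {s : St}
    {p : ℕ → St → Prop}
    (L : Lay I s.mem S rp f lp) (hv : v < I.n) (hV : s.reg rV = v) (hM : S + 6 < M)
    (h1 : s.reg rOne = 1) (hsp : s.reg rSp + 1 < M) (hd : s.reg rD + 1 < M)
    (h : ∀ s' : St, (∀ r, r ∉ [rT3, rRv, rSp, rD] → s'.reg r = s.reg r) →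
      s'.reg rSp = s.reg rSp + 1 → s'.reg rD = s.reg rD + 1 →
      s'.mem = Function.update s.mem (s.reg rSp + 1) (f v 6) → p 9 s') :
    EX M pushC s p := by
  have hrc := L.rc v hv
  have hfl := L.fld v hv 6 (by omega)
  have hrc' : s.mem (v + 6) = rp v := by rw [Nat.add_comm]; exact hrc.1
  simp only [rOne, rV, rSp, rD] at h1 hV hsp hd
  unfold pushC
  refine EX.cons (fetchRec_ex (by omega) ?_ (by decide) (EX.cons (field_ex (by omega) ?_ (by decide)
    (EX.cons (EX.add ?_ (EX.cons (EX.store (EX.last (EX.add ?_ (h _ ?_ ?_ ?_ ?_))))))))))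
  · simp only [rV, hV]; have := hrc.2; omega
  · simp [rRv, rV, rT3, hV, hrc']; have := hfl.2; omega
  · simp [rRv, rV, rT3, rSp, rOne, h1]; omega
  · simp [rRv, rV, rT3, rSp, rOne, rD, h1]; omega
  · intro r hr
    simp [rRv, rT3, rSp, rD] at hr ⊢
    simp [hr]
  · simp [rRv, rV, rT3, rSp, rOne, rD, h1]
  · simp [rRv, rV, rT3, rSp, rOne, rD, h1]
  · funext a
    simp [rRv, rV, rT3, rSp, rOne, rD, h1, hV, hrc', hfl.1, Function.update_apply]

/-- transfer of the invariant -/
private theorem EInv.tr {I : Inst} {z S c c' fuel : ℕ} {rp : ℕ → ℕ} {f lp : ℕ → ℕ → ℕ} {s s' : St}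
    {seen seen' : ℕ → Bool} {st : List (List ℕ)}
    (E : EInv I z S rp f lp s c seen st fuel)
    (hr : ∀ r, r ∉ [rT1, rT2, rT3, rY, rVal, rCnt, rPass, rRv, rAb, rPw, rPz, rCn, rI, rQ, rPP,
      rEE, rRun2, rA1, rC1] → s'.reg r = s.reg r)
    (hm : ∀ a, (a < S ∨ S + 3 * I.n ≤ a) → s'.mem a = s.mem a)
    (hc : s'.reg rCnt = c')
    (hmap : MapInv s'.mem S I.n c'
      (fun v => if seen' v = true then 2 else if v ∈ I.exc2 z then 1 else 0)) :
    EInv I z S rp f lp s' c' seen' st fuel where
  lay := Lay.congr (fun a ha => hm a (Or.inl ha)) E.lay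
  hz := E.hz
  one := by rw [hr _ (by decide)]; exact E.one
  zero := by rw [hr _ (by decide)]; exact E.zero
  rz := by rw [hr _ (by decide)]; exact E.rz
  k := by rw [hr _ (by decide)]; exact E.k
  b := by rw [hr _ (by decide)]; exact E.b
  si := by rw [hr _ (by decide)]; exact E.si
  sl := by rw [hr _ (by decide)]; exact E.sl
  sv := by rw [hr _ (by decide)]; exact E.sv
  cb := by rw [hr _ (by decide)]; exact E.cb
  qb := by rw [hr _ (by decide)]; exact E.qb
  sp := by rw [hr _ (by decide)]; exact E.sp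
  d := by rw [hr _ (by decide)]; exact E.d
  cnt := hc
  fl := by rw [hr _ (by decide)]; exact E.fl
  map := hmap
  stk := by
    refine stack_congr ?_ st ?_ E.stk
    · intro a ha
      refine hm a ?_
      rcases ha with h | h | h
      · exact Or.inl h
      · right; omega
      · right; omega
    · intro a h1 h2
      exact hm a (Or.inr (by omega))
  el := E.el
  le := E.le

/-- push for the invariant -/
private theorem EInv.push {M I} {z S c fuel v : ℕ} {rp : ℕ → ℕ} {f lp : ℕ → ℕ → ℕ} {s : St}
    {seen : ℕ → Bool} {st : List (List ℕ)} {p : ℕ → St → Prop}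
    (E : EInv I z S rp f lp s c seen st fuel) (hea : ∀ v < I.n, ∀ x ∈ I.adj v, x < I.n)
    (hfu : st.length + fuel + 1 ≤ I.B + 1) (hM : 4 * (S + I.n + I.b + I.K + I.B + 10) ≤ M)
    (hv : v < I.n) (hV : s.reg rV = v)
    (h : ∀ s' : St, s'.reg rRes = s.reg rRes → MemOut I S s.mem s'.mem →
      EInv I z S rp f lp s' c seen (I.adj v :: st) fuel → p 9 s') :
    EX M pushC s p := by
  have hsp := E.sp
  have hd := E.d
  refine push_ex E.lay hv hV (by omega) E.one (by omega) (by omega) ?_
  intro s' hr h1 h2 h3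
  have hm : ∀ a, a ≠ s.reg rSp + 1 → s'.mem a = s.mem a := by
    intro a ha
    rw [h3, Function.update_of_ne ha]
  refine h s' (hr _ (by decide)) (fun a ha => hm a (by omega)) ?_
  exact
  { lay := Lay.congr (fun a ha => hm a (by omega)) E.lay
    hz := E.hz
    one := by rw [hr _ (by decide)]; exact E.one
    zero := by rw [hr _ (by decide)]; exact E.zero
    rz := by rw [hr _ (by decide)]; exact E.rz
    k := by rw [hr _ (by decide)]; exact E.k
    b := by rw [hr _ (by decide)]; exact E.b
    si := by rw [hr _ (by decide)]; exact E.si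
    sl := by rw [hr _ (by decide)]; exact E.sl
    sv := by rw [hr _ (by decide)]; exact E.sv
    cb := by rw [hr _ (by decide)]; exact E.cb
    qb := by rw [hr _ (by decide)]; exact E.qb
    sp := by rw [h1, hsp]; simp; omega
    d := by rw [h2, hd]; simp
    cnt := by rw [hr _ (by decide)]; exact E.cnt
    fl := by rw [hr _ (by decide)]; exact E.fl
    map := by
      obtain ⟨m1, m2, m3⟩ := E.map
      refine ⟨m1, ?_, ?_⟩
      · intro j hj
        obtain ⟨a1, a2, a3⟩ := m2 j hj
        have e1 : s'.mem (S + I.n + j) = s.mem (S + I.n + j) := hm _ (by omega)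
        have e2 : s'.mem (S + s.mem (S + I.n + j)) = s.mem (S + s.mem (S + I.n + j)) :=
          hm _ (by omega)
        have e3 : s'.mem (S + I.n + I.n + j) = s.mem (S + I.n + I.n + j) := hm _ (by omega)
        rw [e1, e2, e3]
        exact ⟨a1, a2, a3⟩
      · intro u hu
        have e1 : s'.mem (S + u) = s.mem (S + u) := hm _ (by omega)
        have := m3 u hu
        rw [e1]
        by_cases hlt : s.mem (S + u) < c
        · have e2 : s'.mem (S + I.n + s.mem (S + u)) = s.mem (S + I.n + s.mem (S + u)) :=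
            hm _ (by omega)
          have e3 : s'.mem (S + I.n + I.n + s.mem (S + u)) = s.mem (S + I.n + I.n + s.mem (S + u)) :=
            hm _ (by omega)
          rw [e2, e3]
          exact this
        · rw [if_neg (fun h => hlt h.1)] at this ⊢
          exact this
    stk := by
      refine ⟨?_, ?_⟩
      · have e : S + 3 * I.n + 1 + st.length + 1 = s.reg rSp + 1 := by omega
        rw [e, h3, Function.update_self]
        have := E.lay.f6 v hv
        refine ListAt.congr ?_ _ _ (ListAt.mono (fun a ha => Or.inl ha) _ _ this)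
        intro a ha
        rw [← h3]
        refine hm a ?_
        rcases ha with h | h | h <;> omega
      · refine stack_congr ?_ st ?_ E.stk
        · intro a ha
          refine hm a ?_
          rcases ha with h | h | h <;> omega
        · intro a h1 h2
          exact hm a (by omega)
    el := by
      intro l hl u hu
      rcases List.mem_cons.1 hl with rfl | hl
      · exact hea v hv u hu
      · exact E.el l hl u hu
    le := by simp; omega }

private theorem assoc3 {M} {a b c d : Cmd} {s : St} {p : ℕ → St → Prop}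
    (h : EX M (blk [a, b, c]) s (fun t s' => EX M d s' (fun t' s'' => p (t + t') s''))) :
    EX M (blk [a, b, c, d]) s p := by
  obtain ⟨t, s', h1, t', s'', h2, h3⟩ := h
  cases h1 with
  | seq _ _ _ x1 _ t1 t2 e1 e2 =>
    cases e2 with
    | seq _ _ _ x2 _ t3 t4 e3 e4 =>
      refine ⟨t1 + (t3 + (t4 + t')), s'', Exec.seq _ _ _ _ _ _ _ e1
        (Exec.seq _ _ _ _ _ _ _ e3 (Exec.seq _ _ _ _ _ _ _ e4 h2)), ?_⟩
      have : t1 + (t3 + (t4 + t')) = t1 + (t3 + t4) + t' := by omega
      rw [this]
      exact h3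

theorem piece_touch2 (h4 : S_test) (h5 : S_lookup) (h6 : S_insert) (h7 : S_setval) : S_touch2 := by
  intro M S I E1 m nb rp f lp z v c fuel seen st s hOk E hfu hM hv hV
  obtain ⟨t0, s1, x1, m1, k1, ht0, hval, hy⟩ := h5 M S I.n c v _ s E.map hv (by omega) E.si E.sl
    E.sv E.cnt hV
  have hr1 : ∀ r, r ∉ [rT1, rT2, rT3, rY, rVal] → s1.reg r = s.reg r := k1
  have E1' : EInv I z S rp f lp s1 c seen st fuel := by
    refine E.tr ?_ ?_ ?_ ?_
    · intro r hr
      refine hr1 r (fun h => hr ?_)
      exact sub_of _ _ (by decide) r h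
    · intro a _; rw [m1]
    · rw [hr1 _ (by decide)]; exact E.cnt
    · rw [m1]; exact E.map
  have hV1 : s1.reg rV = v := by rw [hr1 _ (by decide)]; exact hV
  have hres1 : s1.reg rRes = s.reg rRes := hr1 _ (by decide)
  by_cases hs : seen v = true
  · -- seen
    simp only [hs, if_true] at hval
    have key : EX M touchC s (fun t s' => t ≤ 60 + 20 * I.K + 14 * I.b ∧
        s'.reg rRes = s.reg rRes ∧ MemOut I S s.mem s'.mem ∧
        EInv I z S rp f lp s' c seen st fuel) := by
      refine EX.cons ⟨t0, s1, x1, EX.last (EX.iteT (by rw [hval]; omega)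
        (EX.cons (EX.sub (EX.last (EX.iteT ?_ (EX.skip ?_))))))⟩
      · simp [hval, E1'.one]
      · refine ⟨by omega, by simpa [rRes, rT1] using hres1, fun a _ => by rw [St.set_mem, m1], ?_⟩
        refine E1'.tr ?_ ?_ ?_ ?_
        · intro r hr
          simp only [List.mem_cons, not_or] at hr
          simp [hr.1]
        · intro a _; rfl
        · simpa [rCnt, rT1] using E1'.cnt
        · exact E1'.map
    obtain ⟨t, s', h1, h2, h3, h4', h5'⟩ := key
    exact ⟨t, s', c, seen, st, h1, h2, h3, h4', h5', Or.inl ⟨hs, rfl, rfl⟩⟩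
  have hsf : seen v = false := by simpa using hs
  have hupd : (Function.update (fun u => if seen u = true then 2 else
      if u ∈ I.exc2 z then 1 else 0) v 2) = (fun u => if (Function.update seen v true) u = true then 2
        else if u ∈ I.exc2 z then 1 else 0) := by
    funext u
    by_cases hu : u = v
    · subst hu; simp
    · simp [Function.update_of_ne hu]
  by_cases he : v ∈ I.exc2 z
  · -- value 1
    have hval1 : s1.reg rVal = 1 := by rw [hval]; simp [hsf, he]
    have hy' := hy (by simp [hsf, he])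
    have key : EX M touchC s (fun t s' => t ≤ 60 + 20 * I.K + 14 * I.b ∧
        s'.reg rRes = s.reg rRes ∧ MemOut I S s.mem s'.mem ∧
        EInv I z S rp f lp s' c (Function.update seen v true) (I.adj v :: st) fuel) := by
      refine EX.cons ⟨t0, s1, x1, EX.last (EX.iteT (by rw [hval1]; omega)
        (EX.cons (EX.sub (EX.last (EX.iteF ?_ (assoc3 ?_))))))⟩
      · simp [hval1, E1'.one]
      · have E2 : EInv I z S rp f lp (s1.set rT1 (s1.reg rVal - s1.reg rOne)) c seen st fuel := by
          refine E1'.tr ?_ ?_ ?_ ?_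
          · intro r hr
            simp only [List.mem_cons, not_or] at hr
            simp [hr.1]
          · intro a _; rfl
          · simpa [rCnt, rT1] using E1'.cnt
          · exact E1'.map
        have hV2 : (s1.set rT1 (s1.reg rVal - s1.reg rOne)).reg rV = v := by
          simpa [rV, rT1] using hV1
        have hres2 : (s1.set rT1 (s1.reg rVal - s1.reg rOne)).reg rRes = s.reg rRes := by
          simpa [rRes, rT1] using hres1
        have hy2 : (s1.set rT1 (s1.reg rVal - s1.reg rOne)).reg rY = s1.reg rY := by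
          simp [rY, rT1]
        have hmem2 : (s1.set rT1 (s1.reg rVal - s1.reg rOne)).mem = s.mem := m1
        generalize (s1.set rT1 (s1.reg rVal - s1.reg rOne)) = s2 at *
        obtain ⟨t3, s3, x3, k3, ht3, hm3, hmm3⟩ := h7 M S I.n c v _ s2 E2.map hv (by omega) E2.sv
          (by rw [hy2]; exact hy'.1) (by rw [hmem2, hy2]; exact hy'.2)
        have hr3 : ∀ r, r ∉ [rT1, rT2] → s3.reg r = s2.reg r := k3
        rw [hupd] at hm3
        have E3 : EInv I z S rp f lp s3 c (Function.update seen v true) st fuel := by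
          refine E2.tr ?_ hmm3 ?_ hm3
          · intro r hr
            refine hr3 r (fun h => hr ?_)
            exact sub_of _ _ (by decide) r h
          · rw [hr3 _ (by decide)]; exact E2.cnt
        refine ⟨t3, s3, x3, ?_⟩
        refine E3.push hOk.ea hfu hM hv (by rw [hr3 _ (by decide)]; exact hV2) ?_
        intro s4 hres4 mo4 E4
        refine ⟨by omega, ?_, ?_, E4⟩
        · rw [hres4, hr3 _ (by decide)]
          exact hres2
        · intro a ha
          rw [mo4 a ha, hmm3 a (by omega), hmem2]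
    obtain ⟨t, s', h1, h2, h3, h4', h5'⟩ := key
    exact ⟨t, s', c, _, _, h1, h2, h3, h4', h5', Or.inr (Or.inl ⟨hsf, by simp [Inst.tst, he], rfl, rfl⟩)⟩
  · -- value 0
    have hval1 : s1.reg rVal = 0 := by rw [hval]; simp [hsf, he]
    obtain ⟨t2, s2, x2, k2, ht2, hc2, hm2, hmm2⟩ := h6 M S I.n c v 2 _ s1 E1'.map hv (by omega)
      (by omega) (by simp [hsf, he]) (by omega) E1'.si E1'.sl E1'.sv E1'.cnt hV1 E1'.one
    have hr2 : ∀ r, r ∉ [rT1, rT2, rCnt] → s2.reg r = s1.reg r := k2
    rw [hupd] at hm2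
    have E2 : EInv I z S rp f lp s2 (c + 1) (Function.update seen v true) st fuel := by
      refine E1'.tr ?_ hmm2 hc2 hm2
      intro r hr
      refine hr2 r (fun h => hr ?_)
      exact sub_of _ _ (by decide) r h
    have hV2 : s2.reg rV = v := by rw [hr2 _ (by decide)]; exact hV1
    obtain ⟨t3, s3, x3, m3, k3, ht3, hp3⟩ := h4 M S I rp f lp z v s2 E2.lay hOk.el (by omega) E2.hz hv
      E2.one E2.zero hV2 E2.cb E2.qb E2.b E2.k
    have hr3 : ∀ r, r ∉ [rPass, rRv, rT3, rAb, rPw, rPz, rCn, rI, rQ, rPP, rEE, rRun2, rT1, rA1, rC1] →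
      s3.reg r = s2.reg r := k3
    have E3 : EInv I z S rp f lp s3 (c + 1) (Function.update seen v true) st fuel := by
      refine E2.tr ?_ ?_ ?_ ?_
      · intro r hr
        refine hr3 r (fun h => hr ?_)
        exact sub_of _ _ (by decide) r h
      · intro a _; rw [m3]
      · rw [hr3 _ (by decide)]; exact E2.cnt
      · rw [m3]; exact E2.map
    have hV3 : s3.reg rV = v := by rw [hr3 _ (by decide)]; exact hV2
    have hres3 : s3.reg rRes = s.reg rRes := by
      rw [hr3 _ (by decide), hr2 _ (by decide)]; exact hres1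
    by_cases ht : I.test z v = true
    · rw [if_pos ht] at hp3
      have key : EX M touchC s (fun t s' => t ≤ 60 + 20 * I.K + 14 * I.b ∧
          s'.reg rRes = s.reg rRes ∧ MemOut I S s.mem s'.mem ∧
          EInv I z S rp f lp s' (c + 1) (Function.update seen v true) (I.adj v :: st) fuel) := by
        refine EX.cons ⟨t0, s1, x1, EX.last (EX.iteF hval1
          (EX.cons ⟨t2, s2, x2, EX.cons ⟨t3, s3, x3, EX.last (EX.iteT (by rw [hp3]; omega) ?_)⟩⟩))⟩
        refine E3.push hOk.ea hfu hM hv hV3 ?_
        intro s4 hres4 mo4 E4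
        refine ⟨by omega, hres4.trans hres3, ?_, E4⟩
        intro a ha
        rw [mo4 a ha, m3, hmm2 a (by omega), m1]
      obtain ⟨t, s', h1, h2, h3, h4', h5'⟩ := key
      exact ⟨t, s', c + 1, _, _, h1, h2, h3, h4', h5',
        Or.inr (Or.inl ⟨hsf, by simp [Inst.tst, ht], rfl, rfl⟩)⟩
    · rw [if_neg ht] at hp3
      have key : EX M touchC s (fun t s' => t ≤ 60 + 20 * I.K + 14 * I.b ∧
          s'.reg rRes = s.reg rRes ∧ MemOut I S s.mem s'.mem ∧
          EInv I z S rp f lp s' (c + 1) (Function.update seen v true) st fuel) := by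
        refine EX.cons ⟨t0, s1, x1, EX.last (EX.iteF hval1
          (EX.cons ⟨t2, s2, x2, EX.cons ⟨t3, s3, x3, EX.last (EX.iteF hp3 (EX.skip ?_))⟩⟩))⟩
        exact ⟨by omega, hres3, fun a ha => by rw [m3, hmm2 a (by omega), m1], E3⟩
      obtain ⟨t, s', h1, h2, h3, h4', h5'⟩ := key
      exact ⟨t, s', c + 1, _, _, h1, h2, h3, h4', h5',
        Or.inr (Or.inr ⟨hsf, by simp [Inst.tst, ht, he], rfl, rfl⟩)⟩

end DDA
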