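import Pool.Agent.Lib.MP_dd2a0a_lc.OR.StmG

set_option autoImplicit false

/-! The number of entries is at most `2` to a polynomial. -/

namespace DDA

private theorem kd_poly (D : ℕ) :
    D * (D * (q1 D + q2 D + 2) + 3) ≤ 2000000000 * (D + 1) ^ 10 := by
  unfold q1 q2 mm kk pp
  ring_nf
  omega

theorem piece_KD : S_KD := by
  obtain ⟨c, hc, hc'⟩ : ∃ c : ℕ, 2000000000 ≤ c ∧ 10 ≤ c := ⟨2000000000, le_rfl, by norm_num⟩
  refine ⟨c, fun D => ?_⟩
  have h1 : KD D = 2 ^ (D * (D * (q1 D + q2 D + 2) + 3)) := by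
    unfold KD
    rw [← pow_succ', ← pow_mul]
    congr 1
    ring
  rw [h1]
  refine Nat.pow_le_pow_right (by norm_num) ((kd_poly D).trans ?_)
  exact Nat.mul_le_mul hc (Nat.pow_le_pow_right (Nat.succ_pos D) hc')

end DDA
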