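import Pool.Agent.Lib.MP_dd2a0a_lc.OR.Stm

set_option autoImplicit false

/-!
# MP_dd2a0a_lc : K3, decoupling
-/

namespace DDA

open Finset

noncomputable section

/-- centred indicator of the entry `(w, u)` -/
private def csI (A : Mat) (U : Finset ℕ) (w u : ℕ) : ℝ :=
  (if (w, u) ∈ A then 1 else 0) - rd A U w

private theorem cs_rd (A : Mat) (U : Finset ℕ) (w : ℕ) :
    rd A U w = (∑ u ∈ U, (if (w, u) ∈ A then (1 : ℝ) else 0)) / (U.card : ℝ) := by
  unfold rd
  rw [Finset.card_filter]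
  push_cast
  rfl

private theorem cs_cross (A C : Mat) (U : Finset ℕ) (w z : ℕ) (hU : U.Nonempty) :
    cross A C U w z = (∑ u ∈ U, csI A U w u * csI C U z u) / (U.card : ℝ) := by
  have hN : (U.card : ℝ) ≠ 0 := by
    have := hU.card_pos
    positivity
  have h1 : jn A C U w z = (∑ u ∈ U, (if (w, u) ∈ A then (1 : ℝ) else 0) *
      (if (z, u) ∈ C then (1 : ℝ) else 0)) / (U.card : ℝ) := by
    unfold jn
    rw [Finset.card_filter]
    push_cast
    congr 1
    refine Finset.sum_congr rfl fun u _ => ?_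
    by_cases ha : (w, u) ∈ A <;> by_cases hc : (z, u) ∈ C <;> simp [ha, hc]
  have ha := cs_rd A U w
  have hc := cs_rd C U z
  rw [eq_div_iff hN] at ha hc
  unfold cross csI
  rw [h1, eq_div_iff hN, sub_mul, div_mul_cancel₀ _ hN]
  have h2 : ∀ u, ((if (w, u) ∈ A then (1 : ℝ) else 0) - rd A U w) *
      ((if (z, u) ∈ C then (1 : ℝ) else 0) - rd C U z) =
      (if (w, u) ∈ A then (1 : ℝ) else 0) * (if (z, u) ∈ C then (1 : ℝ) else 0) -
        (if (w, u) ∈ A then (1 : ℝ) else 0) * rd C U z -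
        rd A U w * (if (z, u) ∈ C then (1 : ℝ) else 0) + rd A U w * rd C U z := fun u => by ring
  simp only [h2]
  rw [Finset.sum_add_distrib, Finset.sum_sub_distrib, Finset.sum_sub_distrib,
    ← Finset.sum_mul, ← Finset.mul_sum, ← ha, ← hc, Finset.sum_const, nsmul_eq_mul]
  ring

private theorem cs_pow (W Z U : Finset ℕ) (k : ℕ) (f g : ℕ → ℕ → ℝ) (N : ℝ) :
    ∑ w ∈ W, ∑ z ∈ Z, ((∑ u ∈ U, f w u * g z u) / N) ^ k =
      (∑ v ∈ Fintype.piFinset (fun _ : Fin k => U),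
        (∑ w ∈ W, ∏ i, f w (v i)) * (∑ z ∈ Z, ∏ i, g z (v i))) / N ^ k := by
  simp only [div_pow, Finset.sum_pow', Finset.prod_mul_distrib, Finset.sum_mul_sum,
    ← Finset.sum_div]
  congr 1
  calc ∑ w ∈ W, ∑ z ∈ Z, ∑ v ∈ Fintype.piFinset (fun _ : Fin k => U),
        (∏ i, f w (v i)) * ∏ i, g z (v i)
      = ∑ w ∈ W, ∑ v ∈ Fintype.piFinset (fun _ : Fin k => U), ∑ z ∈ Z,
        (∏ i, f w (v i)) * ∏ i, g z (v i) :=
        Finset.sum_congr rfl fun w _ => Finset.sum_comm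
    _ = _ := Finset.sum_comm

theorem piece_cs : S_cs := by
  intro A C W Z U k hU
  simp only [cs_cross _ _ _ _ _ hU]
  rw [cs_pow, cs_pow, cs_pow]
  have h := Finset.sum_mul_sq_le_sq_mul_sq (Fintype.piFinset (fun _ : Fin k => U))
    (fun v => ∑ w ∈ W, ∏ i, csI A U w (v i)) (fun v => ∑ z ∈ Z, ∏ i, csI C U z (v i))
  have hN : 0 < (U.card : ℝ) ^ k := by
    have := hU.card_pos
    positivity
  rw [div_pow, div_mul_div_comm, ← sq ((U.card : ℝ) ^ k)]
  refine div_le_div_of_nonneg_right ?_ (by positivity)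
  simpa only [sq] using h

end

end DDA
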