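import Pool.Agent.Lib.MP_dd2a0a_lc.OR.Stm

set_option autoImplicit false

namespace DDA

open Finset

private theorem deg_real (q : ℕ) (hq : 1 ≤ q) (α m d : ℝ) (hα : 0 < α) (hm : 1 < m)
    (hd : α * (1 + 1 / ((q : ℝ) * (m - 1))) < d) : α ^ q * m < d ^ q * (m - 1) := by
  have hq0 : (0 : ℝ) < q := by exact_mod_cast hq
  have hm1 : 0 < m - 1 := by linarith
  have h1 : 1 + (q : ℝ) * (1 / ((q : ℝ) * (m - 1))) ≤ (1 + 1 / ((q : ℝ) * (m - 1))) ^ q :=
    one_add_mul_le_pow (by
      have : 0 < 1 / ((q : ℝ) * (m - 1)) := by positivity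
      linarith) q
  have h2 : 1 + (q : ℝ) * (1 / ((q : ℝ) * (m - 1))) = m / (m - 1) := by
    field_simp
    ring
  rw [h2] at h1
  have h3 : (α * (1 + 1 / ((q : ℝ) * (m - 1)))) ^ q < d ^ q :=
    pow_lt_pow_left₀ hd (by positivity) (by omega)
  rw [mul_pow] at h3
  have h4 : α ^ q * (m / (m - 1)) ≤ α ^ q * (1 + 1 / ((q : ℝ) * (m - 1))) ^ q :=
    mul_le_mul_of_nonneg_left h1 (by positivity)
  have h5 : α ^ q * (m / (m - 1)) < d ^ q := h4.trans_lt h3
  have h6 : α ^ q * (m / (m - 1)) * (m - 1) < d ^ q * (m - 1) := mul_lt_mul_of_pos_right h5 hm1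
  have h7 : α ^ q * (m / (m - 1)) * (m - 1) = α ^ q * m := by
    field_simp
  rwa [h7] at h6

private theorem deg_abs (q : ℕ) (hq : 1 ≤ q) (S : Finset ℕ) (f : ℕ → ℝ) (α : ℝ) (hα : 0 < α)
    (hsum : α = (∑ x ∈ S, f x) / (S.card : ℝ)) (x : ℕ) (hx : x ∈ S)
    (hmax : (S.erase x).Nonempty → ((∑ y ∈ S.erase x, f y) / ((S.erase x).card : ℝ)) ^ q *
      ((S.erase x).card : ℝ) ≤ α ^ q * (S.card : ℝ)) :
    (1 - 1 / (q : ℝ)) * α ≤ f x := by
  have hq0 : (0 : ℝ) < q := by exact_mod_cast hq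
  have hS : 0 < S.card := Finset.card_pos.2 ⟨x, hx⟩
  have hS' : (0 : ℝ) < S.card := by exact_mod_cast hS
  have hsum' : ∑ y ∈ S, f y = α * S.card := by
    rw [hsum]
    field_simp
  have hsplit : ∑ y ∈ S.erase x, f y = α * S.card - f x := by
    have := Finset.sum_erase_add S f hx
    linarith
  have hcard : ((S.erase x).card : ℝ) = S.card - 1 := by
    rw [Finset.card_erase_of_mem hx, Nat.cast_sub hS]
    simp
  by_cases hne : (S.erase x).Nonempty
  · by_contra hcon
    push Not at hcon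
    have h1 := hmax hne
    have hm : (0 : ℝ) < (S.erase x).card := by exact_mod_cast Finset.card_pos.2 hne
    rw [hcard] at h1 hm
    rw [hsplit] at h1
    refine absurd h1 (not_le.2 (deg_real q hq α S.card _ hα (by linarith) ?_))
    rw [lt_div_iff₀ hm]
    have h2 : α * (1 + 1 / ((q : ℝ) * ((S.card : ℝ) - 1))) * ((S.card : ℝ) - 1) =
        α * S.card - (1 - 1 / (q : ℝ)) * α := by
      field_simp
      ring
    rw [h2]
    linarith
  · rw [Finset.not_nonempty_iff_eq_empty] at hne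
    rw [hne, Finset.sum_empty] at hsplit
    rw [hne, Finset.card_empty, Nat.cast_zero] at hcard
    have h1 : (S.card : ℝ) = 1 := by linarith
    rw [h1, mul_one] at hsplit
    have h2 : 0 < 1 / (q : ℝ) := by positivity
    nlinarith

theorem piece_deg (h1 : S_avg) : S_deg := by
  intro q A W U hq hW hU hα hmax
  have hWc : (0 : ℝ) < W.card := by exact_mod_cast Finset.card_pos.2 hW
  have hUc : (0 : ℝ) < U.card := by exact_mod_cast Finset.card_pos.2 hU
  constructor
  · intro u hu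
    refine deg_abs q hq U (fun u => cd A W u) _ hα (h1 A W U hW hU).2 u hu fun hne => ?_
    rw [← (h1 A W (U.erase u) hW hne).2]
    have h2 := hmax W Finset.Subset.rfl (U.erase u) (Finset.erase_subset _ _) hW hne
    have h3 : (dens A W (U.erase u)) ^ q * ((U.erase u).card : ℝ) * (W.card : ℝ) ≤
        (dens A W U) ^ q * (U.card : ℝ) * (W.card : ℝ) := by
      linarith
    exact le_of_mul_le_mul_right h3 hWc
  · intro w hw
    refine deg_abs q hq W (fun w => rd A U w) _ hα (h1 A W U hW hU).1 w hw fun hne => ?_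
    rw [← (h1 A (W.erase w) U hne hU).1]
    have h2 := hmax (W.erase w) (Finset.erase_subset _ _) U Finset.Subset.rfl hne hU
    have h3 : (dens A (W.erase w) U) ^ q * ((W.erase w).card : ℝ) * (U.card : ℝ) ≤
        (dens A W U) ^ q * (W.card : ℝ) * (U.card : ℝ) := by
      linarith
    exact le_of_mul_le_mul_right h3 hUc

end DDA
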