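import Pool.Agent.Lib.MP_dd2a0a_lc.OR.StmR

namespace DDA

private theorem exec_det_aux (M : ℕ) (P : Cmd) (s : St) (t : ℕ) (s' : St)
    (h : Exec M P s t s') : ∀ (t' : ℕ) (s'' : St), Exec M P s t' s'' → t = t' ∧ s' = s'' := by
  induction h with
  | skip s => intro t' s'' h2; cases h2; exact ⟨rfl, rfl⟩
  | const r v s hv => intro t' s'' h2; cases h2; exact ⟨rfl, rfl⟩
  | add r a b s hv => intro t' s'' h2; cases h2; exact ⟨rfl, rfl⟩
  | sub r a b s => intro t' s'' h2; cases h2; exact ⟨rfl, rfl⟩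
  | load r a s => intro t' s'' h2; cases h2; exact ⟨rfl, rfl⟩
  | store a r s => intro t' s'' h2; cases h2; exact ⟨rfl, rfl⟩
  | seq c d s s1 s2 t1 t2 hc hd ihc ihd =>
    intro t' s'' h2
    cases h2 with
    | seq _ _ _ s3 _ t3 t4 hc' hd' =>
      obtain ⟨h1, h1'⟩ := ihc _ _ hc'
      subst h1'
      obtain ⟨h3, h3'⟩ := ihd _ _ hd'
      exact ⟨by omega, h3'⟩
  | ite_true r c d s s1 t1 hr hc ihc =>
    intro t' s'' h2
    cases h2 with
    | ite_true _ _ _ _ _ t3 _ hc' =>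
      obtain ⟨h1, h1'⟩ := ihc _ _ hc'
      exact ⟨by omega, h1'⟩
    | ite_false _ _ _ _ _ t3 hr' hc' => exact absurd hr' hr
  | ite_false r c d s s1 t1 hr hc ihc =>
    intro t' s'' h2
    cases h2 with
    | ite_true _ _ _ _ _ t3 hr' hc' => exact absurd hr hr'
    | ite_false _ _ _ _ _ t3 _ hc' =>
      obtain ⟨h1, h1'⟩ := ihc _ _ hc'
      exact ⟨by omega, h1'⟩
  | loop_stop r c s hr =>
    intro t' s'' h2
    cases h2 with
    | loop_stop _ _ _ _ => exact ⟨rfl, rfl⟩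
    | loop_step _ _ _ s3 _ t3 t4 hr' hc' hd' => exact absurd hr hr'
  | loop_step r c s s1 s2 t1 t2 hr hc hd ihc ihd =>
    intro t' s'' h2
    cases h2 with
    | loop_stop _ _ _ hr' => exact absurd hr' hr
    | loop_step _ _ _ s3 _ t3 t4 hr' hc' hd' =>
      obtain ⟨h1, h1'⟩ := ihc _ _ hc'
      subst h1'
      obtain ⟨h3, h3'⟩ := ihd _ _ hd'
      exact ⟨by omega, h3'⟩

/-- the machine is deterministic -/
theorem piece_det : S_det := by
  intro M P s s' s'' t t' h1 h2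
  exact exec_det_aux M P s t s' h1 t' s'' h2

end DDA
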