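import Mathlib
import Pool.Agent.Lib.MP_dd2a0a_lc.OR.StmG

set_option autoImplicit false

open Filter

namespace DDA

private lemma dom_log : Tendsto (fun n : ℕ => Nat.log 2 n) atTop atTop := by
  refine tendsto_atTop_atTop.2 fun b => ⟨2 ^ b, fun n hn => ?_⟩
  exact Nat.le_log_of_pow_le (by norm_num) hn

private lemma dom_pow (c e : ℕ) : ∀ᶠ l : ℕ in atTop, c * (l + 1) ^ e ≤ 2 ^ l := by
  have h1 : (fun l : ℕ => (l : ℝ) ^ e) =o[atTop] fun l => (2 : ℝ) ^ l :=
    isLittleO_pow_const_const_pow_of_one_lt e (by norm_num)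
  have h2 := h1.comp_tendsto (tendsto_add_atTop_nat 1)
  have h3 := h2.def (show (0 : ℝ) < 1 / (2 * (c + 1)) by positivity)
  filter_upwards [h3] with l hl
  simp only [Function.comp, Real.norm_eq_abs] at hl
  rw [abs_of_nonneg (by positivity), abs_of_nonneg (by positivity)] at hl
  have hc : (0 : ℝ) < 2 * (c + 1) := by positivity
  rw [div_mul_eq_mul_div, one_mul, le_div_iff₀ hc, pow_succ] at hl
  push_cast at hl
  have h5 : (0 : ℝ) ≤ ((l : ℝ) + 1) ^ e := by positivity
  have h6 : (c : ℝ) * ((l : ℝ) + 1) ^ e ≤ (2 : ℝ) ^ l := by nlinarith only [hl, h5]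
  exact_mod_cast h6

theorem piece_dom : S_dom := by
  intro c e
  have h1 : Tendsto (fun n : ℕ => pl n) atTop atTop := dom_log.comp dom_log
  filter_upwards [h1.eventually (dom_pow c e), dom_log.eventually (eventually_ge_atTop 1)]
    with n hn h2
  refine hn.trans ?_
  unfold pl pL
  exact Nat.pow_log_le_self 2 (by omega)

end DDA
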