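import Pool.Agent.Lib.MP_dd2a0a_lc.OR.StmG

namespace DDA

open Finset

open Classical in
private noncomputable def exFpot (G : Finset (ℕ × ℕ)) (n : ℕ) (adj : ℕ → List ℕ) (tst : ℕ → Bool)
    (x : ℕ) (seen : ℕ → Bool) : ℕ :=
  ∑ w ∈ ((range n).filter (fun w => Rch G x w ∧ tst w = true)).filter (fun w => seen w = false),
    (1 + (adj w).length)

private def exFst (st : List (List ℕ)) : ℕ := (st.map (fun l => l.length + 1)).sum

private theorem exF_cons (l : List ℕ) (st : List (List ℕ)) :
    exFst (l :: st) = l.length + 1 + exFst st := by
  simp [exFst]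

private theorem exFpot_mono (G : Finset (ℕ × ℕ)) (n : ℕ) (adj : ℕ → List ℕ) (tst : ℕ → Bool)
    (x : ℕ) (seen : ℕ → Bool) (v : ℕ) :
    exFpot G n adj tst x (Function.update seen v true) ≤ exFpot G n adj tst x seen := by
  classical
  unfold exFpot
  refine Finset.sum_le_sum_of_subset ?_
  intro w hw
  rw [Finset.mem_filter] at hw ⊢
  refine ⟨hw.1, ?_⟩
  by_cases h : w = v
  · subst h
    have := hw.2
    simp at this
  · have := hw.2
    rwa [Function.update_of_ne h] at this

private theorem exFpot_dec (G : Finset (ℕ × ℕ)) (n : ℕ) (adj : ℕ → List ℕ) (tst : ℕ → Bool)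
    (x : ℕ) (seen : ℕ → Bool) (v : ℕ) (hv : v < n) (hr : Rch G x v) (ht : tst v = true)
    (hs : seen v = false) :
    exFpot G n adj tst x (Function.update seen v true) + (1 + (adj v).length) ≤
      exFpot G n adj tst x seen := by
  classical
  unfold exFpot
  have hmem : v ∈ ((range n).filter (fun w => Rch G x w ∧ tst w = true)).filter
      (fun w => seen w = false) := by
    rw [Finset.mem_filter, Finset.mem_filter]
    exact ⟨⟨Finset.mem_range.mpr hv, hr, ht⟩, hs⟩
  rw [← Finset.sum_erase_add _ _ hmem]
  refine Nat.add_le_add_right (Finset.sum_le_sum_of_subset ?_) _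
  intro w hw
  rw [Finset.mem_filter] at hw
  have hne : w ≠ v := by
    rintro rfl
    have := hw.2
    simp at this
  rw [Finset.mem_erase, Finset.mem_filter]
  have h2 := hw.2
  rw [Function.update_of_ne hne] at h2
  exact ⟨hne, hw.1, h2⟩

private theorem exF_gen (n : ℕ) (G : Finset (ℕ × ℕ)) (adj : ℕ → List ℕ) (tst : ℕ → Bool) (x z : ℕ)
    (hG : ∀ e ∈ G, e.1 < n ∧ e.2 < n) (hadj : ∀ u v, v ∈ adj u ↔ (u, v) ∈ G) (hx : x < n)
    (hz : ¬ Rch G x z) :
    ∀ (f : ℕ) (st : List (List ℕ)) (seen : ℕ → Bool),
      (∀ l ∈ st, ∀ v ∈ l, Rch G x v) →
      exFst st + exFpot G n adj tst x seen ≤ f →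
      explore adj tst z f st seen = false := by
  have hlt : ∀ v, Rch G x v → v < n := by
    intro v hv
    rcases Relation.ReflTransGen.cases_tail hv with h | ⟨b, _, hb⟩
    · rw [h]; exact hx
    · exact (hG _ hb).2
  intro f
  induction f with
  | zero =>
    intro st seen h1 h2
    cases st with
    | nil => rfl
    | cons l st =>
      rw [exF_cons] at h2
      omega
  | succ f ih =>
    intro st seen h1 h2
    cases st with
    | nil => rfl
    | cons l st =>
      cases l with
      | nil =>
        rw [exF_cons] at h2
        simp only [List.length_nil] at h2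
        have := ih st seen (fun l hl => h1 l (List.mem_cons_of_mem _ hl)) (by omega)
        rw [explore]
        exact this
      | cons v r =>
        have hv : Rch G x v := h1 _ List.mem_cons_self v List.mem_cons_self
        have hvz : v ≠ z := by
          rintro rfl
          exact hz hv
        have hr : ∀ l ∈ r :: st, ∀ u ∈ l, Rch G x u := by
          intro l hl u hu
          rcases List.mem_cons.mp hl with rfl | hl
          · exact h1 _ List.mem_cons_self u (List.mem_cons_of_mem _ hu)
          · exact h1 l (List.mem_cons_of_mem _ hl) u hu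
        rw [exF_cons] at h2
        simp only [List.length_cons] at h2
        rw [explore, if_neg hvz]
        split_ifs with h3 h4
        · refine ih _ _ hr ?_
          rw [exF_cons]
          omega
        · refine ih _ _ ?_ ?_
          · intro l hl u hu
            rcases List.mem_cons.mp hl with rfl | hl
            · exact hv.tail ((hadj v u).mp hu)
            · exact hr l hl u hu
          · rw [exF_cons, exF_cons]
            have h5 := exFpot_dec G n adj tst x seen v (hlt v hv) hv h4
              (by simpa using h3)
            omega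
        · refine ih _ _ hr ?_
          rw [exF_cons]
          have h5 := exFpot_mono G n adj tst x seen v
          omega

theorem piece_exF : S_exF := by
  intro n G adj tst x z B hG hadj hx hz hB
  refine exF_gen n G adj tst x z hG hadj hx hz B [[x]] (fun _ => false) ?_ ?_
  · intro l hl v hv
    rw [List.mem_singleton] at hl
    subst hl
    rw [List.mem_singleton] at hv
    subst hv
    exact Relation.ReflTransGen.refl
  · have h1 : exFst [[x]] = 2 := by simp [exFst]
    have h2 : exFpot G n adj tst x (fun _ => false) =
        xcost G n (fun w => tst w = true) (fun w => (adj w).length) x := by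
      classical
      unfold exFpot xcost
      refine Finset.sum_congr ?_ (fun _ _ => rfl)
      ext w
      simp
    rw [h1, h2]
    exact hB

end DDA
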