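import Pool.Agent.Lib.MP_dd2a0a_lc.OR.StmG

/-! # [OR G3] the exploration finds a reachable target -/

namespace DDA

private lemma exT_aux (G : Finset (ℕ × ℕ)) (adj : ℕ → List ℕ) (tst : ℕ → Bool) (x z : ℕ)
    (hadj : ∀ u v, v ∈ adj u ↔ (u, v) ∈ G) (htst : ∀ v, Rch G v z → tst v = true)
    (hxz : Rch G x z) : ∀ (f : ℕ) (st : List (List ℕ)) (seen : ℕ → Bool),
    seen z = false →
    (∀ v, seen v = true → tst v = true → ∀ u ∈ adj v, seen u = true ∨ ∃ l ∈ st, u ∈ l) →
    (seen x = true ∨ ∃ l ∈ st, x ∈ l) →
    explore adj tst z f st seen = true := by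
  intro f st seen
  induction f, st, seen using explore.induct adj tst z with
  | case1 f seen =>
    intro h1 h2 h3
    exfalso
    have key : ∀ v, Rch G x v → Rch G v z → seen v = true := by
      intro v hv
      induction hv with
      | refl =>
        intro _
        rcases h3 with h | ⟨l, hl, _⟩
        · exact h
        · simp at hl
      | tail hab hbc ih =>
        intro hcz
        have hbz := Relation.ReflTransGen.head hbc hcz
        have hb := ih hbz
        rcases h2 _ hb (htst _ hbz) _ ((hadj _ _).mpr hbc) with h | ⟨l, hl, _⟩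
        · exact h
        · simp at hl
    have := key z hxz Relation.ReflTransGen.refl
    rw [h1] at this
    exact Bool.false_ne_true this
  | case2 l st seen => intro _ _ _; rw [explore]
  | case3 f st seen ih =>
    intro h1 h2 h3
    rw [explore]
    apply ih h1
    · intro v hv hv2 u hu
      rcases h2 v hv hv2 u hu with h | ⟨l, hl, hul⟩
      · exact Or.inl h
      · rcases List.mem_cons.mp hl with h | h
        · rw [h] at hul; simp at hul
        · exact Or.inr ⟨l, h, hul⟩
    · rcases h3 with h | ⟨l, hl, hul⟩
      · exact Or.inl h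
      · rcases List.mem_cons.mp hl with h | h
        · rw [h] at hul; simp at hul
        · exact Or.inr ⟨l, h, hul⟩
  | case4 f r st seen =>
    intro h1 h2 h3
    rw [explore, if_pos rfl]
  | case5 f v r st seen hvz hs ih =>
    intro h1 h2 h3
    rw [explore, if_neg hvz, if_pos hs]
    have tr : ∀ u, (∃ l ∈ (v :: r) :: st, u ∈ l) → seen u = true ∨ ∃ l ∈ r :: st, u ∈ l := by
      rintro u ⟨l, hl, hul⟩
      rcases List.mem_cons.mp hl with h | h
      · rw [h] at hul
        rcases List.mem_cons.mp hul with h' | h'
        · rw [h']; exact Or.inl hs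
        · exact Or.inr ⟨r, List.mem_cons_self, h'⟩
      · exact Or.inr ⟨l, List.mem_cons_of_mem _ h, hul⟩
    apply ih h1
    · intro v' hv' hv2 u hu
      rcases h2 v' hv' hv2 u hu with h | h
      · exact Or.inl h
      · exact tr u h
    · rcases h3 with h | h
      · exact Or.inl h
      · exact tr x h
  | case6 f v r st seen hvz hs ht ih =>
    intro h1 h2 h3
    rw [explore, if_neg hvz, if_neg hs, if_pos ht]
    have tr : ∀ u, (seen u = true ∨ ∃ l ∈ (v :: r) :: st, u ∈ l) →
        Function.update seen v true u = true ∨ ∃ l ∈ adj v :: r :: st, u ∈ l := by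
      rintro u (h | ⟨l, hl, hul⟩)
      · left
        by_cases huv : u = v
        · rw [huv, Function.update_self]
        · rw [Function.update_of_ne huv]; exact h
      · rcases List.mem_cons.mp hl with h | h
        · rw [h] at hul
          rcases List.mem_cons.mp hul with h' | h'
          · left; rw [h', Function.update_self]
          · exact Or.inr ⟨r, List.mem_cons_of_mem _ List.mem_cons_self, h'⟩
        · exact Or.inr ⟨l, List.mem_cons_of_mem _ (List.mem_cons_of_mem _ h), hul⟩
    apply ih
    · rw [Function.update_of_ne (Ne.symm hvz)]; exact h1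
    · intro v' hv' hv2 u hu
      by_cases hvv : v' = v
      · rw [hvv] at hu
        exact Or.inr ⟨adj v, List.mem_cons_self, hu⟩
      · rw [Function.update_of_ne hvv] at hv'
        exact tr u (h2 v' hv' hv2 u hu)
    · exact tr x h3
  | case7 f v r st seen hvz hs ht ih =>
    intro h1 h2 h3
    rw [explore, if_neg hvz, if_neg hs, if_neg ht]
    have tr : ∀ u, (seen u = true ∨ ∃ l ∈ (v :: r) :: st, u ∈ l) →
        Function.update seen v true u = true ∨ ∃ l ∈ r :: st, u ∈ l := by
      rintro u (h | ⟨l, hl, hul⟩)
      · left
        by_cases huv : u = v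
        · rw [huv, Function.update_self]
        · rw [Function.update_of_ne huv]; exact h
      · rcases List.mem_cons.mp hl with h | h
        · rw [h] at hul
          rcases List.mem_cons.mp hul with h' | h'
          · left; rw [h', Function.update_self]
          · exact Or.inr ⟨r, List.mem_cons_self, h'⟩
        · exact Or.inr ⟨l, List.mem_cons_of_mem _ h, hul⟩
    apply ih
    · rw [Function.update_of_ne (Ne.symm hvz)]; exact h1
    · intro v' hv' hv2 u hu
      by_cases hvv : v' = v
      · rw [hvv] at hv2
        exact absurd hv2 ht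
      · rw [Function.update_of_ne hvv] at hv'
        exact tr u (h2 v' hv' hv2 u hu)
    · exact tr x h3

theorem piece_exT : S_exT := by
  intro G adj tst x z B hadj htst hxz
  apply exT_aux G adj tst x z hadj htst hxz
  · rfl
  · intro v hv
    exact absurd hv Bool.false_ne_true
  · exact Or.inr ⟨[x], List.mem_cons_self, List.mem_cons_self⟩

end DDA
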