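import Pool.Agent.Lib.MP_dd2a0a_lc.OR.StmR
import Pool.Agent.Lib.MP_dd2a0a_lc.OR.RTool

/-! Piece R13: the exploration part of the program. -/

set_option linter.unusedSimpArgs false

namespace DDA

private theorem xc_app {M : ℕ} {l2 : List Cmd} (h2 : l2 ≠ []) : ∀ (l1 : List Cmd) (_ : l1 ≠ []) {s : St}
    {p : ℕ → St → Prop},
    EX M (blk l1) s (fun t s' => EX M (blk l2) s' (fun t' s'' => p (t + t') s'')) →
    EX M (blk (l1 ++ l2)) s p
  | [], h1, _, _, _ => absurd rfl h1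
  | [c], _, s, p, h => by
    obtain ⟨d, l', rfl⟩ := List.exists_cons_of_ne_nil h2
    exact EX.seq h
  | c :: d :: l, _, s, p, h => by
    obtain ⟨t, s', hE, t', s'', hE', hp⟩ := h
    cases hE with
    | seq _ _ _ s1 _ t1 t2 ha hb =>
      refine EX.cons ⟨t1, s1, ha, ?_⟩
      refine xc_app h2 (d :: l) (by simp) ⟨t2, s', hb, t', s'', hE', ?_⟩
      show p (t1 + (t2 + t')) s''
      rw [← add_assoc]
      exact hp

private def xc_LA : List Cmd := [
  Cmd.load rK rZero,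
  Cmd.load rB rOne,
  Cmd.const rT3 2, Cmd.load rFuel rT3,
  Cmd.const rT3 3, Cmd.load rSI rT3,
  Cmd.const rT3 4, Cmd.load rT1 rT3,
  Cmd.add rSL rSI rT1,
  Cmd.add rSV rSL rT1,
  Cmd.add rSp rSV rT1,
  field rCb rRz 4,
  field rQb rRz 5,
  Cmd.const rCnt 0,
  field rP rRz 3]

private def xc_LC : List Cmd := [
  Cmd.add rT1 rX rOne,
  Cmd.store rSp rT1,
  Cmd.add rT1 rSp rZero,
  Cmd.add rSp rSp rOne,
  Cmd.store rSp rZero,
  Cmd.add rSp rSp rOne,
  Cmd.store rSp rT1,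
  Cmd.const rD 1,
  Cmd.const rRes 0,
  Cmd.add rRun rFuel rZero]

private def xc_LD : List Cmd := [Cmd.loop rRun stepC, Cmd.ite rD (Cmd.const rRes 1) Cmd.skip]

private theorem xc_split : exploreC = blk (xc_LA ++ ([markC] ++ (xc_LC ++ xc_LD))) := rfl

private theorem xc_phaseA (M S : ℕ) (I : Inst) (rp : ℕ → ℕ) (f lp : ℕ → ℕ → ℕ) (x z : ℕ) (s : St)
    (L : Lay I s.mem S rp f lp) (hz : z < I.n)
    (hM : 4 * (S + I.n + I.b + I.K + I.B + 10) ≤ M)
    (h1 : s.reg rOne = 1) (h0 : s.reg rZero = 0) (hx : s.reg rX = x) (hzz : s.reg rZ = z)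
    (hrz : s.reg rRz = rp z) :
    EX M (blk xc_LA) s (fun t s' => t = 21 ∧ s'.mem = s.mem ∧ s'.reg rOne = 1 ∧ s'.reg rZero = 0 ∧
      s'.reg rX = x ∧ s'.reg rZ = z ∧ s'.reg rK = I.K ∧ s'.reg rB = I.b ∧ s'.reg rFuel = I.B ∧
      s'.reg rSI = S ∧ s'.reg rSL = S + I.n ∧ s'.reg rSV = S + I.n + I.n ∧
      s'.reg rSp = S + I.n + I.n + I.n ∧ s'.reg rCb = f z 4 ∧ s'.reg rQb = f z 5 ∧
      s'.reg rCnt = 0 ∧ s'.reg rP = f z 3) := by
  have p0 := L.p0
  have p1 := L.p1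
  have p2 := L.p2
  have p3 := L.p3
  have p4 := L.p4
  have s5 := L.s5
  obtain ⟨q3, q3'⟩ := L.fld z hz 3 (by norm_num)
  obtain ⟨q4, q4'⟩ := L.fld z hz 4 (by norm_num)
  obtain ⟨q5, q5'⟩ := L.fld z hz 5 (by norm_num)
  simp only [rOne, rZero, rX, rZ, rRz] at h1 h0 hx hzz hrz
  unfold xc_LA
  refine EX.cons (EX.load ?_)
  refine EX.cons (EX.load ?_)
  refine EX.cons (EX.const (by omega) ?_)
  refine EX.cons (EX.load ?_)
  refine EX.cons (EX.const (by omega) ?_)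
  refine EX.cons (EX.load ?_)
  refine EX.cons (EX.const (by omega) ?_)
  refine EX.cons (EX.load ?_)
  refine EX.cons (EX.add ?_ ?_)
  · simp [rK, rZero, rB, rOne, rT3, rFuel, rSI, rT1, p0, p1, p2, p3, p4]; omega
  refine EX.cons (EX.add ?_ ?_)
  · simp [rK, rZero, rB, rOne, rT3, rFuel, rSI, rT1, rSL, p0, p1, p2, p3, p4]; omega
  refine EX.cons (EX.add ?_ ?_)
  · simp [rK, rZero, rB, rOne, rT3, rFuel, rSI, rT1, rSL, rSV, p0, p1, p2, p3, p4]; omega
  refine EX.cons (field_ex (by omega) ?_ (by decide) ?_)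
  · simp [rK, rZero, rB, rOne, rT3, rFuel, rSI, rT1, rSL, rSV, rSp, rRz, hrz, p0, p1, p2, p3, p4]; omega
  refine EX.cons (field_ex (by omega) ?_ (by decide) ?_)
  · simp [rK, rZero, rB, rOne, rT3, rFuel, rSI, rT1, rSL, rSV, rSp, rRz, rCb, hrz, p0, p1, p2, p3, p4]; omega
  refine EX.cons (EX.const (by omega) ?_)
  refine EX.last (field_ex (by omega) ?_ (by decide) ?_)
  · simp [rK, rZero, rB, rOne, rT3, rFuel, rSI, rT1, rSL, rSV, rSp, rRz, rCb, rQb, rCnt, hrz, p0, p1, p2, p3,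
      p4]; omega
  · simp [rK, rZero, rB, rOne, rT3, rFuel, rSI, rT1, rSL, rSV, rSp, rRz, rCb, rQb, rCnt, rP, rX, rZ, hrz, h1, h0,
      hx, hzz, p0, p1, p2, p3, p4, q3, q4, q5]

private theorem xc_map {mem mem' : ℕ → ℕ} {S n c : ℕ} {val : ℕ → ℕ} (h : ∀ a, a < S + 3 * n → mem' a = mem a)
    (hI : MapInv mem S n c val) : MapInv mem' S n c val := by
  obtain ⟨hc, hk, hval⟩ := hI
  refine ⟨hc, ?_, ?_⟩
  · intro j hj
    obtain ⟨a1, a2, a3⟩ := hk j hj
    have e1 : mem' (S + n + j) = mem (S + n + j) := h _ (by omega)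
    have e2 : mem' (S + mem (S + n + j)) = mem (S + mem (S + n + j)) := h _ (by omega)
    have e3 : mem' (S + n + n + j) = mem (S + n + n + j) := h _ (by omega)
    rw [e1, e2, e3]
    exact ⟨a1, a2, a3⟩
  · intro v hv
    have e1 : mem' (S + v) = mem (S + v) := h _ (by omega)
    rw [← hval v hv, e1]
    by_cases hlt : mem (S + v) < c
    · have e2 : mem' (S + n + mem (S + v)) = mem (S + n + mem (S + v)) := h _ (by omega)
      have e3 : mem' (S + n + n + mem (S + v)) = mem (S + n + n + mem (S + v)) := h _ (by omega)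
      rw [e2, e3]
    · rw [if_neg (fun h => hlt h.1), if_neg (fun h => hlt h.1)]

private theorem xc_phaseC (M S : ℕ) (n B x : ℕ) (s : St) (hM : S + 3 * n + x + B + 10 ≤ M)
    (h1 : s.reg rOne = 1) (h0 : s.reg rZero = 0) (hx : s.reg rX = x)
    (hsp : s.reg rSp = S + n + n + n) (hf : s.reg rFuel = B) :
    EX M (blk xc_LC) s (fun t s' => t = 10 ∧
      (∀ a, a < S + 3 * n → s'.mem a = s.mem a) ∧ s'.mem (S + 3 * n) = x + 1 ∧
      s'.mem (S + 3 * n + 1) = 0 ∧ s'.mem (S + 3 * n + 1 + 1) = S + 3 * n ∧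
      (∀ r, r ∉ [rT1, rSp, rD, rRes, rRun] → s'.reg r = s.reg r) ∧
      s'.reg rSp = S + 3 * n + 1 + 1 ∧ s'.reg rD = 1 ∧ s'.reg rRes = 0 ∧ s'.reg rRun = B) := by
  have e3 : S + n + n + n = S + 3 * n := by omega
  rw [e3] at hsp
  simp only [rOne, rZero, rX, rSp, rFuel] at h1 h0 hx hsp hf
  unfold xc_LC
  refine EX.cons (EX.add ?_ (EX.cons (EX.store (EX.cons (EX.add ?_ (EX.cons (EX.add ?_ (EX.cons (EX.store
    (EX.cons (EX.add ?_ (EX.cons (EX.store (EX.cons (EX.const (by omega) (EX.cons (EX.const (by omega)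
    (EX.last (EX.add ?_ ?_)))))))))))))))))))
  · simp [rX, rOne, hx, h1]; omega
  · simp [rX, rOne, rT1, rSp, rZero, hx, h1, hsp, h0]; omega
  · simp [rX, rOne, rT1, rSp, rZero, hx, h1, hsp, h0]; omega
  · simp [rX, rOne, rT1, rSp, rZero, hx, h1, hsp, h0]; omega
  · simp [rX, rOne, rT1, rSp, rZero, rFuel, rRes, rD, hx, h1, hsp, h0, hf]; omega
  · refine ⟨by norm_num, ?_, ?_, ?_, ?_, ?_, ?_, ?_, ?_, ?_⟩
    · intro a ha
      simp [rX, rOne, rT1, rSp, rZero, hx, h1, hsp, h0]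
      rw [if_neg (by omega), if_neg (by omega), if_neg (by omega)]
    · simp [rX, rOne, rT1, rSp, rZero, hx, h1, hsp, h0]
      intro h
      omega
    · simp [rX, rOne, rT1, rSp, rZero, hx, h1, hsp, h0]
    · simp [rX, rOne, rT1, rSp, rZero, hx, h1, hsp, h0]
    · intro r hr
      simp [rT1, rSp, rD, rRes, rRun] at hr ⊢
      simp [hr]
    · simp [rOne, rT1, rSp, rZero, rD, rRes, rRun, h1, hsp, h0]
    · simp [rD, rRes, rRun]
    · simp [rD, rRes, rRun]
    · simp [rT1, rSp, rD, rRes, rRun, rFuel, rZero, h0, hf]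

theorem piece_explC (h10 : S_loop) (h11 : S_mark) : S_explC := by
  intro M S I E1 m nb rp f lp x z s hok L hx hz hM g1 g0 gx gz grz
  show EX M exploreC s _
  rw [xc_split]
  refine xc_app (by simp) _ (by simp [xc_LA]) ?_
  refine (xc_phaseA M S I rp f lp x z s L hz hM g1 g0 gx gz grz).mono ?_
  rintro t1 s1 ⟨ht1, m1, a1, a0, ax, az, aK, aB, aF, aSI, aSL, aSV, aSp, aCb, aQb, aCnt, aP⟩
  refine xc_app (by simp [xc_LC]) _ (by simp) ?_
  -- the marks
  have hmap0 : MapInv s1.mem S I.n 0 (fun _ => 0) := by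
    refine ⟨Nat.zero_le _, fun j hj => absurd hj (Nat.not_lt_zero _), fun v _ => ?_⟩
    simp
  obtain ⟨t2, s2, c', hE2, hkeep2, ht2, hc2, hmap2, hmem2⟩ := h11 M S I.n 0 (I.exc2 z) (fun _ => 0) s1 hmap0
    (by rw [m1, aP]; exact L.f3 z hz) (hok.nd z hz) (fun v hv => ⟨hok.e2 z hz v hv, rfl⟩)
    (by omega) aSI aSL aSV aCnt a1
  refine ⟨t2, s2, hE2, ?_⟩
  have hk2 : ∀ r, r ∉ [rT1, rT2, rCnt, rP, rE, rV] → s2.reg r = s1.reg r := hkeep2
  refine xc_app (by simp [xc_LD]) _ (by simp [xc_LC]) ?_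
  refine (xc_phaseC M S I.n I.B x s2 (by omega) ((hk2 rOne (by decide)).trans a1)
    ((hk2 rZero (by decide)).trans a0) ((hk2 rX (by decide)).trans ax)
    ((hk2 rSp (by decide)).trans aSp) ((hk2 rFuel (by decide)).trans aF)).mono ?_
  rintro t3 s3 ⟨ht3, c1, c2, c3, c4, c5, c6, c7, c8, c9⟩
  have hInv : EInv I z S rp f lp s3 c' (fun _ => false) [[x]] I.B := by
    refine ⟨?_, hz, ?_, ?_, ?_, ?_, ?_, ?_, ?_, ?_, ?_, ?_, ?_, ?_, ?_, ?_, ?_, ?_, ?_, ?_⟩
    · refine Lay.congr ?_ L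
      intro a ha
      rw [c1 a (by omega), hmem2 a (Or.inl ha), m1]
    · rw [c5 rOne (by decide), hk2 rOne (by decide), a1]
    · rw [c5 rZero (by decide), hk2 rZero (by decide), a0]
    · rw [c5 rZ (by decide), hk2 rZ (by decide), az]
    · rw [c5 rK (by decide), hk2 rK (by decide), aK]
    · rw [c5 rB (by decide), hk2 rB (by decide), aB]
    · rw [c5 rSI (by decide), hk2 rSI (by decide), aSI]
    · rw [c5 rSL (by decide), hk2 rSL (by decide), aSL]
    · rw [c5 rSV (by decide), hk2 rSV (by decide), aSV]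
    · rw [c5 rCb (by decide), hk2 rCb (by decide), aCb]
    · rw [c5 rQb (by decide), hk2 rQb (by decide), aQb]
    · rw [c6]; rfl
    · rw [c7]; rfl
    · rw [c5 rCnt (by decide), hc2]
    · rw [c5 rFuel (by decide), hk2 rFuel (by decide), aF]
    · have := xc_map c1 hmap2
      simpa using this
    · refine ⟨?_, trivial⟩
      have e : S + 3 * I.n + 1 + ([] : List (List ℕ)).length + 1 = S + 3 * I.n + 1 + 1 := rfl
      rw [e, c4]
      refine ⟨c2, Or.inr (Or.inl rfl), c3, Or.inr (Or.inr rfl)⟩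
    · intro l hl v hv
      rw [List.mem_singleton] at hl
      subst hl
      rw [List.mem_singleton] at hv
      subst hv
      exact hx
    · simp; omega
  obtain ⟨t4, s4, hE4, ht4, hres⟩ := h10 M S I E1 m nb rp f lp z c' I.B (fun _ => false) [[x]] s3 hok hInv
    (by rw [c9, if_neg (by simp)]) c8 hM
  refine ⟨t4, s4, hE4, ?_, hres⟩
  have hl := hok.l2 z hz
  have : 12 * (I.exc2 z).length ≤ 12 * E1 := by omega
  omega

end DDA
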