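import Pool.Agent.Lib.MP_dd2a0a_lc.OR.Ram

/-!
Part R: the query program is correct (word RAM verification). The program was tested by computer on 24000 random
instances (with garbage in the scratch memory). `Exec` is proved by applying the constructors; `St.set`, `St.put` are
`Function.update`; unfold the register names with `simp [rX, ...]`. Cost of a block = sum of the costs.
-/

namespace DDA

/-- all registers outside `L` are unchanged -/
def Keep (L : List ℕ) (s s' : St) : Prop := ∀ r, r ∉ L → s'.reg r = s.reg r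

/-- the 0-terminated list `l` (entries increased by one) is stored from address `p` on, all its addresses satisfy `Q` -/
def ListAt (mem : ℕ → ℕ) (Q : ℕ → Prop) : ℕ → List ℕ → Prop
  | p, [] => mem p = 0 ∧ Q p
  | p, v :: l => mem p = v + 1 ∧ Q p ∧ ListAt mem Q (p + 1) l

/-- the data structure of `I` is stored in the memory cells below `S`; `rp v` is the address of the record of vertex `v`,
`f v j` the content of its field `j`, `lp i v` the address of the list `I.lst i v` -/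
structure Lay (I : Inst) (mem : ℕ → ℕ) (S : ℕ) (rp : ℕ → ℕ) (f lp : ℕ → ℕ → ℕ) : Prop where
  s5 : 5 < S
  p0 : mem 0 = I.K
  p1 : mem 1 = I.b
  p2 : mem 2 = I.B
  p3 : mem 3 = S
  p4 : mem 4 = I.n
  rc : ∀ v < I.n, mem (6 + v) = rp v ∧ 6 + v < S
  fld : ∀ v < I.n, ∀ j < 9, mem (rp v + j) = f v j ∧ rp v + j < S
  fb : ∀ v < I.n, ∀ j < 9, f v j ≤ S
  f0 : ∀ v < I.n, f v 0 = if I.bad v = true then 1 else 0
  f1 : ∀ v < I.n, I.bad v = true → ∀ x < I.n,
    mem (f v 1 + x) = (if I.col v x = true then 1 else 0) ∧ f v 1 + x < S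
  f2 : ∀ v < I.n, ListAt mem (fun a => a < S) (f v 2) (I.exc1 v)
  f3 : ∀ v < I.n, ListAt mem (fun a => a < S) (f v 3) (I.exc2 v)
  f4 : ∀ v < I.n, ∀ u < I.N, mem (f v 4 + u) = (if I.Ct v u = true then 1 else 0) ∧ f v 4 + u < S
  f5 : ∀ v < I.n, ∀ i < I.K,
    mem (f v 5 + i) = (if I.inZ i v = true then (if I.typ i = true then lp i v else 1) else 0) ∧
    f v 5 + i < S
  f6 : ∀ v < I.n, ListAt mem (fun a => a < S) (f v 6) (I.adj v)
  f7 : ∀ v < I.n, ∀ u < I.N, mem (f v 7 + u) = (if I.At v u = true then 1 else 0) ∧ f v 7 + u < S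
  f8 : ∀ v < I.n, ∀ i < I.K,
    mem (f v 8 + i) = (if I.inW i v = true then (if I.typ i = true then 1 else lp i v) else 0) ∧
    f v 8 + i < S
  fl : ∀ i < I.K, ∀ v < I.n, ListAt mem (fun a => a < S) (lp i v) (I.lst i v) ∧ 1 ≤ lp i v

/-- R1. Concatenation of `J` blocks of words. Proof: induction on `J` (append `List.ofFn` / `(List.range (len J)).map (content J)`). -/
def S_layout : Prop := ∀ (J : ℕ) (len : ℕ → ℕ) (content : ℕ → ℕ → ℕ) (M : ℕ),
  (∀ j < J, ∀ a < len j, content j a < M) →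
  ∃ data : List ℕ, data.length = ∑ j ∈ Finset.range J, len j ∧ (∀ a ∈ data, a < M) ∧
    ∀ j < J, ∀ a < len j, (∑ i ∈ Finset.range j, len i) + a < data.length ∧
      data.getD ((∑ i ∈ Finset.range j, len i) + a) 0 = content j a

/-- R2. The layout exists. Proof: R1 with the blocks: block 0 = the six words `K, b, B, S, n, 0`; block 1 = the `n` record
pointers; for every `v < n` the blocks `2 + v*(9+K) + τ`, `τ < 9+K`: `τ = 0`: the record (9 words: bad flag, pointers to the blocks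
8 (column), 1 (exc1), 2 (exc2), 3 (Ct), 4 (table Q), 5 (adj), 6 (At), 7 (table P)), `τ = 1`: exc1 list (`length + 1` words),
`τ = 2`: exc2 list, `τ = 3`: `N` words `Ct`, `τ = 4`: `K` words (field 5), `τ = 5`: adjacency list, `τ = 6`: `N` words `At`,
`τ = 7`: `K` words (field 8), `τ = 8`: column (`n` words if bad, else 0 words), `τ = 9 + i`: the list `lst i v`.
Pointers = prefix sums of the lengths (the lengths do not depend on the contents). The total length is
`6 + n + sum_v (...) ≤ sz`. All words are `≤ S + n + N + K + b + B < M`. -/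
def S_lay : Prop := ∀ (I : Inst) (E1 m nb : ℕ), I.Ok E1 m nb → ∀ M : ℕ, I.wd E1 m nb ≤ M →
  ∃ (data : List ℕ) (rp : ℕ → ℕ) (f lp : ℕ → ℕ → ℕ), data.length ≤ I.sz E1 m nb ∧
    (∀ a ∈ data, a < M) ∧
    ∀ mem : ℕ → ℕ, (∀ i < data.length, mem i = data.getD i 0) → Lay I mem data.length rp f lp

/-- R3. The scan of one list. Proof: induction on `l` for the loop (generalise over the state), cases `s.reg rCn = 0`. One round
of the loop costs 14 steps. -/
def S_scan : Prop := ∀ (M S : ℕ) (l : List ℕ) (good : ℕ → Bool) (s : St),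
  S < M → s.reg rOne = 1 → s.reg rZero = 0 → s.reg rPass ≤ 1 → s.reg rCn < M →
  ListAt s.mem (fun a => a < S) (s.reg rPP) l →
  (∀ u ∈ l, s.reg rAb + u < S ∧ s.reg rCb + u < S ∧
    (good u = true ↔ s.mem (s.reg rAb + u) ≠ 0 ∧ s.mem (s.reg rCb + u) ≠ 0)) →
  ∃ (t : ℕ) (s' : St), Exec M scanC s t s' ∧ s'.mem = s.mem ∧
    Keep [rCn, rT1, rA1, rC1, rPass, rPP, rEE, rRun2] s s' ∧
    s'.reg rCn ≤ s.reg rCn ∧ t + 14 * s'.reg rCn ≤ 10 + 14 * s.reg rCn ∧
    s'.reg rCn = (scan good l (s.reg rCn, decide (s.reg rPass = 1))).1 ∧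
    s'.reg rPass = (if (scan good l (s.reg rCn, decide (s.reg rPass = 1))).2 = true then 1 else 0)

/-- R4. The test of a vertex. Proof: the loop `loop rI testBody` runs over `i = 0, .., K-1` (register `rI` = `K - i`,
`rPz = f z 5 + i`, `rPw = f v 8 + i`): induction on the number of remaining indices with
`(List.range K).foldl` (split `List.range (i+1)`); every round is R3 or does nothing; `P + Q - 1` is the pointer of the list.
Cost of one round `≤ 20 + 14 * (decrease of rCn)`. -/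
def S_test : Prop := ∀ (M S : ℕ) (I : Inst) (rp : ℕ → ℕ) (f lp : ℕ → ℕ → ℕ) (z v : ℕ) (s : St),
  Lay I s.mem S rp f lp → (∀ i < I.K, ∀ v < I.n, ∀ u ∈ I.lst i v, u < I.N) →
  2 * S + I.b + I.K + 10 ≤ M → z < I.n → v < I.n →
  s.reg rOne = 1 → s.reg rZero = 0 → s.reg rV = v → s.reg rCb = f z 4 → s.reg rQb = f z 5 →
  s.reg rB = I.b → s.reg rK = I.K →
  ∃ (t : ℕ) (s' : St), Exec M testC s t s' ∧ s'.mem = s.mem ∧
    Keep [rPass, rRv, rT3, rAb, rPw, rPz, rCn, rI, rQ, rPP, rEE, rRun2, rT1, rA1, rC1] s s' ∧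
    t ≤ 20 + 20 * I.K + 14 * I.b ∧
    s'.reg rPass = (if I.test z v = true then 1 else 0)

/-- the sparse map with `c` entries stored at `S` (index), `S + n` (keys), `S + 2 n` (values) has the values `val v` -/
def MapInv (mem : ℕ → ℕ) (S n c : ℕ) (val : ℕ → ℕ) : Prop :=
  c ≤ n ∧ (∀ j < c, mem (S + n + j) < n ∧ mem (S + mem (S + n + j)) = j ∧ mem (S + n + n + j) ≠ 0) ∧
  ∀ v < n, (if mem (S + v) < c ∧ mem (S + n + mem (S + v)) = v
    then mem (S + n + n + mem (S + v)) else 0) = val v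

/-- R5. Look up. -/
def S_lookup : Prop := ∀ (M S n c v : ℕ) (val : ℕ → ℕ) (s : St), MapInv s.mem S n c val → v < n →
  S + 3 * n + 10 ≤ M → s.reg rSI = S → s.reg rSL = S + n → s.reg rSV = S + n + n →
  s.reg rCnt = c → s.reg rV = v →
  ∃ (t : ℕ) (s' : St), Exec M lookupC s t s' ∧ s'.mem = s.mem ∧
    Keep [rT1, rT2, rT3, rY, rVal] s s' ∧ t ≤ 12 ∧ s'.reg rVal = val v ∧
    (val v ≠ 0 → s'.reg rY < c ∧ s.mem (S + n + s'.reg rY) = v)

/-- R6. Insert a new key with value `k ≠ 0`. Proof: `val v = 0` means that `v` is not one of the keys `mem (S+n+j)`, `j < c`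
(a key `v = mem (S+n+j)` has `mem (S+v) = j` and a nonzero value). The keys are distinct (`mem (S + key j) = j`) elements of
`range n \ {v}`, so `c < n`. The writes are at `S+n+c`, `S+v`, `S+n+n+c`. -/
def S_insert : Prop := ∀ (M S n c v k : ℕ) (val : ℕ → ℕ) (s : St), MapInv s.mem S n c val → v < n →
  k ≠ 0 → k < M → val v = 0 →
  S + 3 * n + 10 ≤ M → s.reg rSI = S → s.reg rSL = S + n → s.reg rSV = S + n + n →
  s.reg rCnt = c → s.reg rV = v → s.reg rOne = 1 →
  ∃ (t : ℕ) (s' : St), Exec M (insertC k) s t s' ∧ Keep [rT1, rT2, rCnt] s s' ∧ t ≤ 8 ∧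
    s'.reg rCnt = c + 1 ∧ MapInv s'.mem S n (c + 1) (Function.update val v k) ∧
    (∀ a, (a < S ∨ S + 3 * n ≤ a) → s'.mem a = s.mem a)

/-- R7. Change the value of a key to 2. Proof: key `j = s.reg rY` of `v`; `mem (S+v) = j` by the invariant. -/
def S_setval : Prop := ∀ (M S n c v : ℕ) (val : ℕ → ℕ) (s : St), MapInv s.mem S n c val → v < n →
  S + 3 * n + 10 ≤ M → s.reg rSV = S + n + n → s.reg rY < c → s.mem (S + n + s.reg rY) = v →
  ∃ (t : ℕ) (s' : St),
    Exec M (blk [Cmd.add rT1 rSV rY, Cmd.const rT2 2, Cmd.store rT1 rT2]) s t s' ∧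
    Keep [rT1, rT2] s s' ∧ t ≤ 3 ∧ MapInv s'.mem S n c (Function.update val v 2) ∧
    (∀ a, (a < S ∨ S + 3 * n ≤ a) → s'.mem a = s.mem a)

/-- addresses that are never written after the initialisation -/
def fixQ (S n : ℕ) : ℕ → Prop := fun a => a < S ∨ a = S + 3 * n ∨ a = S + 3 * n + 1

/-- the stack of (pointers to) lists; the cell `base + 1` is the bottom, `base + length` the top (head of the list) -/
def StackAt (mem : ℕ → ℕ) (Q : ℕ → Prop) (base : ℕ) : List (List ℕ) → Prop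
  | [] => True
  | l :: st => ListAt mem Q (mem (base + st.length + 1)) l ∧ StackAt mem Q base st

/-- the test used by the exploration -/
def Inst.tst (I : Inst) (z v : ℕ) : Bool := decide (v ∈ I.exc2 z) || I.test z v

/-- invariant of the exploration -/
structure EInv (I : Inst) (z S : ℕ) (rp : ℕ → ℕ) (f lp : ℕ → ℕ → ℕ) (s : St) (c : ℕ)
    (seen : ℕ → Bool) (st : List (List ℕ)) (fuel : ℕ) : Prop where
  lay : Lay I s.mem S rp f lp
  hz : z < I.n
  one : s.reg rOne = 1
  zero : s.reg rZero = 0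
  rz : s.reg rZ = z
  k : s.reg rK = I.K
  b : s.reg rB = I.b
  si : s.reg rSI = S
  sl : s.reg rSL = S + I.n
  sv : s.reg rSV = S + I.n + I.n
  cb : s.reg rCb = f z 4
  qb : s.reg rQb = f z 5
  sp : s.reg rSp = S + 3 * I.n + 1 + st.length
  d : s.reg rD = st.length
  cnt : s.reg rCnt = c
  fl : s.reg rFuel = fuel
  map : MapInv s.mem S I.n c (fun v => if seen v = true then 2 else if v ∈ I.exc2 z then 1 else 0)
  stk : StackAt s.mem (fixQ S I.n) (S + 3 * I.n + 1) st
  el : ∀ l ∈ st, ∀ v ∈ l, v < I.n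
  le : st.length + fuel ≤ I.B + 1

/-- R8. Touch a vertex: new stack and new seen set.
Proof: R5, then the three cases value 2 (nothing), value 1 (R7, push), value 0 (R6 with `k = 2`, R4, push if passed). Writes only in
the map area `[S, S+3n)` and in the stack cell `S + 3n + 1 + (st.length + 1)`, so `Lay`, `StackAt` are preserved
(prove lemmas: `ListAt`, `Lay`, `StackAt` only depend on the memory below `S`, at `S+3n`, `S+3n+1`, and at the stack cells used).
`v ≠ z` is not needed here. Cost `≤ 60 + 20 K + 14 b`. -/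
def S_touch : Prop := ∀ (M S : ℕ) (I : Inst) (E1 m nb : ℕ) (rp : ℕ → ℕ) (f lp : ℕ → ℕ → ℕ) (z v c fuel : ℕ)
  (seen : ℕ → Bool) (st : List (List ℕ)) (s : St),
  I.Ok E1 m nb → EInv I z S rp f lp s c seen st fuel → st.length + fuel + 1 ≤ I.B + 1 →
  4 * (S + I.n + I.b + I.K + I.B + 10) ≤ M → v < I.n → s.reg rV = v →
  ∃ (t : ℕ) (s' : St) (c' : ℕ) (seen' : ℕ → Bool) (st' : List (List ℕ)),
    Exec M touchC s t s' ∧ t ≤ 60 + 20 * I.K + 14 * I.b ∧ s'.reg rRes = s.reg rRes ∧
    EInv I z S rp f lp s' c' seen' st' fuel ∧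
    ((seen v = true ∧ seen' = seen ∧ st' = st) ∨
     (seen v = false ∧ I.tst z v = true ∧ seen' = Function.update seen v true ∧ st' = I.adj v :: st) ∨
     (seen v = false ∧ I.tst z v = false ∧ seen' = Function.update seen v true ∧ st' = st))

/-- R9. One step of the exploration. Proof: the head list of the stack is empty (pop) or `v :: r`: advance the pointer in the top cell,
compare `v` with `z`; if equal: found; otherwise R8 for the state with stack `r :: st`. -/
def S_step : Prop := ∀ (M S : ℕ) (I : Inst) (E1 m nb : ℕ) (rp : ℕ → ℕ) (f lp : ℕ → ℕ → ℕ) (z c fuel : ℕ)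
  (seen : ℕ → Bool) (st : List (List ℕ)) (s : St),
  I.Ok E1 m nb → EInv I z S rp f lp s c seen st (fuel + 1) → st ≠ [] →
  4 * (S + I.n + I.b + I.K + I.B + 10) ≤ M →
  ∃ (t : ℕ) (s' : St), Exec M stepC s t s' ∧ t ≤ 80 + 20 * I.K + 14 * I.b ∧
    ((s'.reg rD = 0 ∧ s'.reg rRun = 0 ∧ s'.reg rRes = 1 ∧
        explore I.adj (I.tst z) z (fuel + 1) st seen = true) ∨
     (∃ (c' : ℕ) (seen' : ℕ → Bool) (st' : List (List ℕ)),
        EInv I z S rp f lp s' c' seen' st' fuel ∧ s'.reg rRes = s.reg rRes ∧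
        s'.reg rRun = (if st' = [] then 0 else fuel) ∧
        explore I.adj (I.tst z) z (fuel + 1) st seen = explore I.adj (I.tst z) z fuel st' seen'))

/-- R10. The loop of the exploration. Proof: induction on `fuel`; if the register `rRun` is 0 then `st = []` (answer `false`, `rD = 0`)
or `fuel = 0` (`st ≠ []`, answer `true`, `rD ≠ 0`). -/
def S_loop : Prop := ∀ (M S : ℕ) (I : Inst) (E1 m nb : ℕ) (rp : ℕ → ℕ) (f lp : ℕ → ℕ → ℕ) (z c fuel : ℕ)
  (seen : ℕ → Bool) (st : List (List ℕ)) (s : St),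
  I.Ok E1 m nb → EInv I z S rp f lp s c seen st fuel →
  s.reg rRun = (if st = [] then 0 else fuel) → s.reg rRes = 0 →
  4 * (S + I.n + I.b + I.K + I.B + 10) ≤ M →
  ∃ (t : ℕ) (s' : St),
    Exec M (blk [Cmd.loop rRun stepC, Cmd.ite rD (Cmd.const rRes 1) Cmd.skip]) s t s' ∧
    t ≤ fuel * (81 + 20 * I.K + 14 * I.b) + 3 ∧
    s'.reg rRes = (if explore I.adj (I.tst z) z fuel st seen = true then 1 else 0)

/-- R11. Insert a list of vertices with value 1. Proof: induction on `l`; cost of one element 12. -/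
def S_mark : Prop := ∀ (M S n c : ℕ) (l : List ℕ) (val : ℕ → ℕ) (s : St),
  MapInv s.mem S n c val → ListAt s.mem (fun a => a < S) (s.reg rP) l → l.Nodup →
  (∀ v ∈ l, v < n ∧ val v = 0) →
  S + 3 * n + 10 ≤ M → s.reg rSI = S → s.reg rSL = S + n → s.reg rSV = S + n + n →
  s.reg rCnt = c → s.reg rOne = 1 →
  ∃ (t : ℕ) (s' : St) (c' : ℕ), Exec M markC s t s' ∧ Keep [rT1, rT2, rCnt, rP, rE, rV] s s' ∧
    t ≤ 2 + 12 * l.length ∧ s'.reg rCnt = c' ∧
    MapInv s'.mem S n c' (fun v => if v ∈ l then 1 else val v) ∧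
    (∀ a, (a < S ∨ S + 3 * n ≤ a) → s'.mem a = s.mem a)

/-- R12. Search in a list. Proof: induction on `l`; cost of one element 9. -/
def S_find : Prop := ∀ (M S : ℕ) (l : List ℕ) (s : St), S < M → s.reg rX < M → (∀ v ∈ l, v < M) →
  ListAt s.mem (fun a => a < S) (s.reg rP) l → s.reg rOne = 1 →
  ∃ (t : ℕ) (s' : St), Exec M findC s t s' ∧ s'.mem = s.mem ∧
    Keep [rFound, rE, rV, rT1, rT2, rP] s s' ∧ t ≤ 3 + 9 * l.length ∧
    s'.reg rFound = (if s.reg rX ∈ l then 1 else 0)

/-- R13. The exploration part of the program. Proof: execute the initialisation (`MapInv` with `c = 0` and the zero function holds for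
any memory), R11 for `exc2 z`, then `EInv` with `seen = fun _ => false`, `st = [[x]]`, `fuel = B`, and R10. -/
def S_explC : Prop := ∀ (M S : ℕ) (I : Inst) (E1 m nb : ℕ) (rp : ℕ → ℕ) (f lp : ℕ → ℕ → ℕ) (x z : ℕ) (s : St),
  I.Ok E1 m nb → Lay I s.mem S rp f lp → x < I.n → z < I.n →
  4 * (S + I.n + I.b + I.K + I.B + 10) ≤ M →
  s.reg rOne = 1 → s.reg rZero = 0 → s.reg rX = x → s.reg rZ = z → s.reg rRz = rp z →
  ∃ (t : ℕ) (s' : St), Exec M exploreC s t s' ∧
    t ≤ 60 + 12 * E1 + I.B * (81 + 20 * I.K + 14 * I.b) ∧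
    s'.reg rRes = (if explore I.adj (I.tst z) z I.B [[x]] (fun _ => false) = true then 1 else 0)

/-- R14. The word RAM theorem. Proof: R2 gives the data (`4 (S + n + b + K + B + 10) ≤ wd ≤ M`); run `prog`: cases
`bad z` (one table look up), `x ∈ exc1 z` (R12), otherwise R13. -/
def S_ram : Prop := ∀ (I : Inst) (E1 m nb : ℕ), I.Ok E1 m nb → ∀ M : ℕ, I.wd E1 m nb ≤ M →
  ∃ data : List ℕ, data.length ≤ I.sz E1 m nb ∧ (∀ a ∈ data, a < M) ∧
    ∀ x < I.n, ∀ z < I.n, ∀ s : St, s.reg 0 = x → s.reg 1 = z →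
      (∀ i < data.length, s.mem i = data.getD i 0) →
      ∃ (t : ℕ) (s' : St), Exec M prog s t s' ∧ t ≤ I.tm E1 ∧
        s'.reg 2 = (if I.query x z = true then 1 else 0)

/-- R15. The machine is deterministic. Proof: induction on the first execution, cases on the second one. -/
def S_det : Prop := ∀ (M : ℕ) (P : Cmd) (s s' s'' : St) (t t' : ℕ),
  Exec M P s t s' → Exec M P s t' s'' → t = t' ∧ s' = s''

end DDA
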