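import Pool.Agent.Lib.MP_dd2a0a_lc.OR.RTool

namespace DDA

private def findBody : Cmd := blk [Cmd.sub rV rE rOne, eqTest rV rX,
    Cmd.ite rT1 Cmd.skip (Cmd.const rFound 1), Cmd.add rP rP rOne, Cmd.load rE rP]

private theorem find_body {M : ℕ} {s : St} {v : ℕ} (hE : s.reg rE = v + 1) (h1 : s.reg rOne = 1)
    (hv : v < M) (hx : s.reg rX < M) (hp : s.reg rP + 1 < M) :
    EX M findBody s (fun t s' => t = 8 ∧ s'.mem = s.mem ∧
      Keep [rFound, rE, rV, rT1, rT2, rP] s s' ∧ s'.reg rP = s.reg rP + 1 ∧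
      s'.reg rE = s.mem (s.reg rP + 1) ∧
      s'.reg rFound = if s.reg rX = v then 1 else s.reg rFound) := by
  unfold findBody eqTest
  refine EX.cons (EX.sub (EX.cons ?_))
  refine EX.cons (EX.sub (EX.cons (EX.sub (EX.last (EX.add ?_ (EX.cons ?_))))))
  · simp only [rE, rOne, rX] at hE h1 hx
    simp [rT1, rT2, rV, rX, rE, rOne, hE, h1]
    omega
  by_cases hxv : s.reg rX = v
  · refine EX.iteF ?_ (EX.const ?_ (EX.cons (EX.add ?_ (EX.last (EX.load ?_)))))
    · simp only [rE, rOne, rX] at hE h1 hxv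
      simp [rT1, rT2, rV, rX, rE, rOne, hE, h1, hxv]
    · omega
    · simp only [rOne, rP] at h1 hp
      simp [rT1, rT2, rV, rFound, rP, rOne, h1]
      exact hp
    · refine ⟨by norm_num, by simp, ?_, ?_, ?_, ?_⟩
      · intro r hr
        simp [rT1, rT2, rV, rFound, rP, rE] at hr ⊢
        simp [hr]
      · simp only [rOne] at h1
        simp [rT1, rT2, rV, rFound, rP, rE, rOne, h1]
      · simp only [rOne] at h1
        simp [rT1, rT2, rV, rFound, rP, rE, rOne, h1]
      · simp [rFound, rP, rE, hxv]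
  · refine EX.iteT ?_ (EX.skip (EX.cons (EX.add ?_ (EX.last (EX.load ?_)))))
    · simp only [rE, rOne, rX] at hE h1 hxv
      simp [rT1, rT2, rV, rX, rE, rOne, hE, h1]
      omega
    · simp only [rOne, rP] at h1 hp
      simp [rT1, rT2, rV, rP, rOne, h1]
      exact hp
    · refine ⟨by norm_num, by simp, ?_, ?_, ?_, ?_⟩
      · intro r hr
        simp [rT1, rT2, rV, rFound, rP, rE] at hr ⊢
        simp [hr]
      · simp only [rOne] at h1
        simp [rT1, rT2, rV, rP, rE, rOne, h1]
      · simp only [rOne] at h1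
        simp [rT1, rT2, rV, rP, rE, rOne, h1]
      · simp [rT1, rT2, rV, rFound, rP, rE, hxv]

private theorem find_loop {M S : ℕ} (hS : S < M) : ∀ (l : List ℕ) (s : St), s.reg rX < M →
    (∀ v ∈ l, v < M) → ListAt s.mem (fun a => a < S) (s.reg rP) l → s.reg rOne = 1 →
    s.reg rE = s.mem (s.reg rP) →
    EX M (Cmd.loop rE findBody) s (fun t s' => s'.mem = s.mem ∧
      Keep [rFound, rE, rV, rT1, rT2, rP] s s' ∧ t ≤ 1 + 9 * l.length ∧
      s'.reg rFound = if s.reg rX ∈ l then 1 else s.reg rFound)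
  | [], s, hx, hl, hL, h1, hE => by
    refine EX.loop0 ?_ ?_
    · rw [hE]
      exact hL.1
    · refine ⟨rfl, fun _ _ => rfl, by simp, by simp⟩
  | v :: l, s, hx, hl, hL, h1, hE => by
    obtain ⟨hL1, hL2, hL3⟩ := hL
    have hL2' : s.reg rP < S := hL2
    refine EX.loop1 ?_ ?_
    · rw [hE, hL1]
      omega
    refine (find_body (v := v) (hE.trans hL1) h1 (hl v (by simp)) hx (by omega)).mono ?_
    rintro t s1 ⟨ht, hm, hk, hp, hE1, hf⟩
    have hX1 : s1.reg rX = s.reg rX := hk rX (by simp [rX, rFound, rE, rV, rT1, rT2, rP])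
    have hO1 : s1.reg rOne = s.reg rOne :=
      hk rOne (by simp [rOne, rFound, rE, rV, rT1, rT2, rP])
    refine (find_loop hS l s1 (by rw [hX1]; exact hx) (fun u hu => hl u (by simp [hu]))
      (by rw [hm, hp]; exact hL3) (by rw [hO1]; exact h1) (by rw [hm, hp]; exact hE1)).mono ?_
    rintro t' s2 ⟨hm2, hk2, ht2, hf2⟩
    refine ⟨hm2.trans hm, fun r hr => (hk2 r hr).trans (hk r hr), ?_, ?_⟩
    · simp only [List.length_cons]
      omega
    · rw [hf2, hX1, hf]
      by_cases h3 : s.reg rX ∈ l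
      · simp [h3]
      · by_cases h4 : s.reg rX = v
        · simp [h4]
        · simp [h3, h4]

theorem piece_find : S_find := by
  intro M S l s hS hx hl hL h1
  have hM : 0 < M := by omega
  show EX M findC s _
  unfold findC
  refine EX.cons (EX.const hM (EX.cons (EX.load (EX.last ?_))))
  refine (find_loop hS l _ ?_ hl ?_ ?_ ?_).mono ?_
  · simpa [rX, rFound, rE] using hx
  · simpa [rP, rFound, rE] using hL
  · simpa [rOne, rFound, rE] using h1
  · simp [rP, rFound, rE]
  · rintro t s' ⟨h2, h3, h4, h5⟩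
    refine ⟨by simpa using h2, ?_, by omega, ?_⟩
    · intro r hr
      rw [h3 r hr]
      simp [rFound, rE, rV, rT1, rT2, rP] at hr
      simp [rFound, rE, hr]
    · rw [h5]
      simp [rX, rFound, rE]

end DDA
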