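import Pool.Agent.Lib.MP_dd2a0a_lc.OR.Stm

set_option autoImplicit false

namespace DDA

open Finset

private theorem gr_le_one (A : Mat) (W U : Finset ℕ) : dens A W U ≤ 1 := by
  unfold dens
  refine div_le_one_of_le₀ ?_ (by positivity)
  have : cnt A W U ≤ W.card * U.card := by
    unfold cnt
    refine (Finset.card_filter_le _ _).trans ?_
    rw [Finset.card_product]
  exact_mod_cast this

private theorem gr_congr (A A' : Mat) (W U : Finset ℕ) (h : ∀ e ∈ W ×ˢ U, (e ∈ A ↔ e ∈ A')) :
    dens A W U = dens A' W U := by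
  unfold dens cnt
  rw [Finset.filter_congr h]

private theorem gr_cnt (A : Mat) (W U : Finset ℕ) :
    cnt A W U = (A.filter (fun e => e ∈ W ×ˢ U)).card := by
  unfold cnt
  congr 1
  ext e
  simp only [Finset.mem_filter]
  exact and_comm

private theorem gr_main (D q : ℕ) (W U : Finset ℕ) (hq : 1 ≤ q) (hW : W.Nonempty)
    (hU : U.Nonempty) : ∀ (n : ℕ) (A : Mat), A.card = n → A ⊆ W ×ˢ U → ∃ l : List Pc,
    (∀ P ∈ l, P.W ⊆ W ∧ P.U ⊆ U ∧ P.W.Nonempty ∧ P.U.Nonempty ∧ P.A ⊆ A ∧ P.A ⊆ P.W ×ˢ P.U ∧
      QMax q P.A P.W P.U ∧ (1 / 2 : ℝ) ^ D < dens P.A P.W P.U ∧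
      (1 / 2 : ℝ) ^ (D * q) * ((W.card : ℝ) * (U.card : ℝ)) ≤ (P.W.card : ℝ) * (P.U.card : ℝ)) ∧
    ((A.filter (fun e => ∀ P ∈ l, e ∉ P.A)).card : ℝ) ≤
      (1 / 2 : ℝ) ^ D * ((W.card : ℝ) * (U.card : ℝ)) ∧
    (l.map (fun P => (P.W.card : ℝ) * (P.U.card : ℝ))).sum ≤
      (if (1 / 2 : ℝ) ^ D < (A.card : ℝ) / ((W.card : ℝ) * (U.card : ℝ)) then
        1 + Real.log ((A.card : ℝ) / ((W.card : ℝ) * (U.card : ℝ)) * 2 ^ D) else 0) *
        ((W.card : ℝ) * (U.card : ℝ)) ∧
    (l.length : ℝ) ≤ (A.card : ℝ) / ((W.card : ℝ) * (U.card : ℝ)) * 2 ^ (D * (q + 1)) := by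
  classical
  have hWc : (0 : ℝ) < W.card := by exact_mod_cast Finset.card_pos.2 hW
  have hUc : (0 : ℝ) < U.card := by exact_mod_cast Finset.card_pos.2 hU
  set V : ℝ := (W.card : ℝ) * (U.card : ℝ) with hV
  have hV0 : 0 < V := mul_pos hWc hUc
  clear_value V
  intro n
  induction n using Nat.strong_induction_on with
  | _ n ih =>
    intro A hAn hAW
    set a : ℝ := (A.card : ℝ) / V with ha
    have haV : (A.card : ℝ) = a * V := by
      rw [ha, div_mul_cancel₀ _ hV0.ne']
    have ha00 : 0 ≤ a := div_nonneg (Nat.cast_nonneg _) hV0.le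
    clear_value a
    by_cases hcase : (1 / 2 : ℝ) ^ D < a
    swap
    · refine ⟨[], by simp, ?_, ?_, ?_⟩
      · have : A.filter (fun e => ∀ P ∈ ([] : List Pc), e ∉ P.A) = A := by
          rw [Finset.filter_true_of_mem]
          intro e _ P hP
          simp at hP
        rw [this, haV]
        exact mul_le_mul_of_nonneg_right (not_lt.1 hcase) hV0.le
      · rw [if_neg hcase]
        simp
      · simp only [List.length_nil, Nat.cast_zero]
        positivity
    · -- the maximal rectangle
      have ha0 : 0 < a := lt_trans (by positivity) hcase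
      set S := (W.powerset ×ˢ U.powerset).filter (fun x => x.1.Nonempty ∧ x.2.Nonempty) with hS
      obtain ⟨⟨W₁, U₁⟩, hmem, hmax⟩ := S.exists_max_image
        (fun x => (dens A x.1 x.2) ^ q * ((x.1.card : ℝ) * (x.2.card : ℝ)))
        ⟨(W, U), by
          rw [hS, Finset.mem_filter, Finset.mem_product, Finset.mem_powerset, Finset.mem_powerset]
          exact ⟨⟨Finset.Subset.rfl, Finset.Subset.rfl⟩, hW, hU⟩⟩
      rw [hS, Finset.mem_filter, Finset.mem_product, Finset.mem_powerset,
        Finset.mem_powerset] at hmem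
      obtain ⟨⟨hW₁, hU₁⟩, hW₁n, hU₁n⟩ := hmem
      simp only at hW₁ hU₁ hW₁n hU₁n hmax
      have hmax' : ∀ W' ⊆ W₁, ∀ U' ⊆ U₁, W'.Nonempty → U'.Nonempty →
          (dens A W' U') ^ q * ((W'.card : ℝ) * (U'.card : ℝ)) ≤
            (dens A W₁ U₁) ^ q * ((W₁.card : ℝ) * (U₁.card : ℝ)) := by
        intro W' h1 U' h2 h3 h4
        refine hmax (W', U') ?_
        rw [hS, Finset.mem_filter, Finset.mem_product, Finset.mem_powerset, Finset.mem_powerset]
        exact ⟨⟨h1.trans hW₁, h2.trans hU₁⟩, h3, h4⟩
      set α := dens A W₁ U₁ with hα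
      set V₁ : ℝ := (W₁.card : ℝ) * (U₁.card : ℝ) with hV₁
      have hW₁c : (0 : ℝ) < W₁.card := by exact_mod_cast Finset.card_pos.2 hW₁n
      have hU₁c : (0 : ℝ) < U₁.card := by exact_mod_cast Finset.card_pos.2 hU₁n
      have hV₁0 : 0 < V₁ := mul_pos hW₁c hU₁c
      clear_value V₁
      have hV₁V : V₁ ≤ V := by
        rw [hV, hV₁]
        have h1 : (W₁.card : ℝ) ≤ W.card := by exact_mod_cast Finset.card_le_card hW₁
        have h2 : (U₁.card : ℝ) ≤ U.card := by exact_mod_cast Finset.card_le_card hU₁
        exact mul_le_mul h1 h2 hU₁c.le hWc.le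
      have hα1 : α ≤ 1 := gr_le_one _ _ _
      have hα0 : 0 ≤ α := div_nonneg (Nat.cast_nonneg _)
        (mul_nonneg (Nat.cast_nonneg _) (Nat.cast_nonneg _))
      clear_value α
      have hda : dens A W U = a := by
        unfold dens
        rw [gr_cnt, Finset.filter_true_of_mem fun e he => hAW he, ha, hV]
      have hF : a ^ q * V ≤ α ^ q * V₁ := by
        have := hmax (W, U) (by
          rw [hS, Finset.mem_filter, Finset.mem_product, Finset.mem_powerset,
            Finset.mem_powerset]
          exact ⟨⟨Finset.Subset.rfl, Finset.Subset.rfl⟩, hW, hU⟩)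
        simp only [hda] at this
        rw [← hV] at this
        exact this
      have haα : a ≤ α := by
        have h1 : a ^ q * V ≤ α ^ q * V :=
          hF.trans (mul_le_mul_of_nonneg_left hV₁V (by positivity))
        have h2 : a ^ q ≤ α ^ q := le_of_mul_le_mul_right h1 hV0
        exact le_of_pow_le_pow_left₀ (by omega) hα0 h2
      have hVq : (1 / 2 : ℝ) ^ (D * q) * V ≤ V₁ := by
        have h1 : (1 / 2 : ℝ) ^ (D * q) ≤ a ^ q := by
          rw [pow_mul]
          exact pow_le_pow_left₀ (by positivity) hcase.le q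
        have h2 : α ^ q * V₁ ≤ 1 * V₁ :=
          mul_le_mul_of_nonneg_right (pow_le_one₀ hα0 hα1) hV₁0.le
        have h3 := mul_le_mul_of_nonneg_right h1 hV0.le
        linarith
      -- the piece
      set A1 := A.filter (fun e => e ∈ W₁ ×ˢ U₁) with hA1
      set A' := A.filter (fun e => ¬ e ∈ W₁ ×ˢ U₁) with hA'
      have hA1c : (A1.card : ℝ) = α * V₁ := by
        rw [hα]
        unfold dens
        rw [gr_cnt, ← hA1, ← hV₁, div_mul_cancel₀ _ hV₁0.ne']
      have hcard : A1.card + A'.card = A.card :=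
        Finset.card_filter_add_card_filter_not (s := A) (fun e => e ∈ W₁ ×ˢ U₁)
      have hA1pos : 0 < A1.card := by
        have : (0 : ℝ) < A1.card := by
          rw [hA1c]
          exact mul_pos (ha0.trans_le haα) hV₁0
        exact_mod_cast this
      have ha' : (A'.card : ℝ) / V = a - α * V₁ / V := by
        have : (A'.card : ℝ) = A.card - A1.card := by
          rw [← hcard]
          push_cast
          ring
        rw [this, hA1c, ha]
        ring
      have hd1 : dens A1 W₁ U₁ = α := by
        rw [hα]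
        refine gr_congr _ _ _ _ fun e he => ?_
        rw [hA1, Finset.mem_filter]
        exact ⟨fun h => h.1, fun h => ⟨h, he⟩⟩
      obtain ⟨l', hl1, hl2, hl3, hl4⟩ := ih A'.card (by omega) A' rfl
        ((Finset.filter_subset _ _).trans hAW)
      rw [ha'] at hl3 hl4
      refine ⟨⟨W₁, U₁, A1⟩ :: l', ?_, ?_, ?_, ?_⟩
      · intro P hP
        rcases List.mem_cons.1 hP with rfl | hP
        · refine ⟨hW₁, hU₁, hW₁n, hU₁n, Finset.filter_subset _ _, ?_, ?_, ?_, hV₁ ▸ hVq⟩
          · intro e he
            exact (Finset.mem_filter.1 he).2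
          · intro W' h1 U' h2 h3 h4
            simp only at h1 h2 ⊢
            rw [hd1]
            have : dens A1 W' U' = dens A W' U' := by
              refine gr_congr _ _ _ _ fun e he => ?_
              rw [hA1, Finset.mem_filter]
              refine ⟨fun h => h.1, fun h => ⟨h, ?_⟩⟩
              rw [Finset.mem_product] at he ⊢
              exact ⟨h1 he.1, h2 he.2⟩
            rw [this, ← hV₁]
            exact hmax' W' h1 U' h2 h3 h4
          · simp only
            rw [hd1]
            exact hcase.trans_le haα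
        · obtain ⟨b1, b2, b3, b4, b5, b6⟩ := hl1 P hP
          exact ⟨b1, b2, b3, b4, b5.trans (Finset.filter_subset _ _), b6⟩
      · have : A.filter (fun e => ∀ P ∈ (⟨W₁, U₁, A1⟩ :: l' : List Pc), e ∉ P.A) =
            A'.filter (fun e => ∀ P ∈ l', e ∉ P.A) := by
          ext e
          simp only [Finset.mem_filter, List.forall_mem_cons, hA', hA1]
          constructor
          · rintro ⟨h1, h2, h3⟩
            exact ⟨⟨h1, fun h => h2 ⟨h1, h⟩⟩, h3⟩
          · rintro ⟨⟨h1, h2⟩, h3⟩
            exact ⟨h1, fun h => h2 h.2, h3⟩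
        rw [this]
        exact hl2
      · rw [List.map_cons, List.sum_cons, if_pos hcase]
        have h2D : (0 : ℝ) < 2 ^ D := by positivity
        have hone : (1 / 2 : ℝ) ^ D * 2 ^ D = 1 := by
          rw [← mul_pow]
          norm_num
        have hlog0 : 0 ≤ Real.log (a * 2 ^ D) := by
          apply Real.log_nonneg
          rw [← hone]
          exact mul_le_mul_of_nonneg_right hcase.le h2D.le
        have key : V₁ / V + (if (1 / 2 : ℝ) ^ D < a - α * V₁ / V then
            1 + Real.log ((a - α * V₁ / V) * 2 ^ D) else 0) ≤ 1 + Real.log (a * 2 ^ D) := by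
          split_ifs with hc
          · have hb0 : 0 < a - α * V₁ / V := lt_trans (by positivity) hc
            rw [Real.log_mul hb0.ne' h2D.ne', Real.log_mul ha0.ne' h2D.ne']
            have h1 : Real.log ((a - α * V₁ / V) / a) ≤ (a - α * V₁ / V) / a - 1 :=
              Real.log_le_sub_one_of_pos (by positivity)
            rw [Real.log_div hb0.ne' ha0.ne'] at h1
            have h2 : (a - α * V₁ / V) / a - 1 = -(α / a * (V₁ / V)) := by
              field_simp
              ring
            have h3 : 1 * (V₁ / V) ≤ α / a * (V₁ / V) := by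
              refine mul_le_mul_of_nonneg_right ?_ (by positivity)
              rw [le_div_iff₀ ha0]
              linarith
            rw [h2] at h1
            linarith
          · have : V₁ / V ≤ 1 := by
              rw [div_le_one hV0]
              exact hV₁V
            linarith
        have h4 : V₁ / V * V = V₁ := by field_simp
        have h5 := mul_le_mul_of_nonneg_right key hV0.le
        rw [add_mul, h4] at h5
        simp only
        linarith
      · rw [List.length_cons]
        push_cast
        have h1 : (1 : ℝ) ≤ α * V₁ / V * 2 ^ (D * (q + 1)) := by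
          have e1 : (1 / 2 : ℝ) ^ D * ((1 / 2 : ℝ) ^ (D * q) * V) ≤ α * V₁ :=
            mul_le_mul (hcase.le.trans haα) hVq (by positivity) hα0
          have e2 : (1 / 2 : ℝ) ^ D * (1 / 2 : ℝ) ^ (D * q) * 2 ^ (D * (q + 1)) = 1 := by
            rw [← pow_add, show D + D * q = D * (q + 1) by ring, ← mul_pow]
            norm_num
          have e3 : (1 / 2 : ℝ) ^ D * (1 / 2 : ℝ) ^ (D * q) ≤ α * V₁ / V := by
            rw [le_div_iff₀ hV0]
            linarith
          rw [← e2]
          exact mul_le_mul_of_nonneg_right e3 (by positivity)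
        have h2 : (a - α * V₁ / V) * 2 ^ (D * (q + 1)) =
            a * 2 ^ (D * (q + 1)) - α * V₁ / V * 2 ^ (D * (q + 1)) := by ring
        rw [h2] at hl4
        linarith

theorem piece_greedy : S_greedy := by
  intro D q A W U hq hW hU hA
  have hWc : (0 : ℝ) < W.card := by exact_mod_cast Finset.card_pos.2 hW
  have hUc : (0 : ℝ) < U.card := by exact_mod_cast Finset.card_pos.2 hU
  obtain ⟨l, h1, h2, h3, h4⟩ := gr_main D q W U hq hW hU A.card A rfl hA
  have ha1 : (A.card : ℝ) / ((W.card : ℝ) * (U.card : ℝ)) ≤ 1 := by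
    rw [div_le_one (by positivity)]
    have := Finset.card_le_card hA
    rw [Finset.card_product] at this
    exact_mod_cast this
  refine ⟨l, h1, h2, h3.trans ?_, h4.trans ?_⟩
  · refine mul_le_mul_of_nonneg_right ?_ (by positivity)
    split_ifs with hc
    · have h0 : 0 < (A.card : ℝ) / ((W.card : ℝ) * (U.card : ℝ)) := lt_trans (by positivity) hc
      rw [Real.log_mul h0.ne' (by positivity)]
      have e1 : Real.log ((A.card : ℝ) / ((W.card : ℝ) * (U.card : ℝ))) ≤ 0 :=
        Real.log_nonpos h0.le ha1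
      have e2 : Real.log ((2 : ℝ) ^ D) ≤ D := by
        rw [Real.log_pow]
        have : Real.log 2 ≤ 1 := by
          have := Real.log_two_lt_d9
          linarith
        nlinarith [Nat.cast_nonneg (α := ℝ) D]
      linarith
    · positivity
  · have := mul_le_mul_of_nonneg_right ha1 (by positivity : (0 : ℝ) ≤ 2 ^ (D * (q + 1)))
    linarith

end DDA
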