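import Pool.Agent.Lib.MP_dd2a0a_lc.OR.StmG

/-! # [OR G1] a hub set -/

namespace DDA

open Finset

theorem piece_hit : S_hit := by
  classical
  intro n N t G hn htn hlt
  by_contra hcon
  push Not at hcon
  have hDsub : ∀ w z, anc G n w \ anc G n z ⊆ range n := by
    intro w z x hx
    unfold anc at hx
    exact (mem_filter.mp (mem_sdiff.mp hx).1).1
  set P : Finset (ℕ × ℕ) :=
    (range n ×ˢ range n).filter (fun p => t ≤ (anc G n p.1 \ anc G n p.2).card) with hP
  have hbad : ∀ f : Fin N → Fin n, ∃ p ∈ P, ∀ i, ((f i : ℕ) ∉ anc G n p.1 \ anc G n p.2) := by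
    intro f
    obtain ⟨w, hw, z, hz, ht, hav⟩ := hcon (fun i => if hi : i < N then (f ⟨i, hi⟩ : ℕ) else 0)
      (by intro i hi; simp only [hi, dif_pos]; exact Fin.is_lt _)
    refine ⟨(w, z), ?_, fun i => ?_⟩
    · rw [hP, mem_filter, mem_product, mem_range, mem_range]
      exact ⟨⟨hw, hz⟩, ht⟩
    · have := hav i i.2
      simpa using this
  have hcover : (univ : Finset (Fin N → Fin n)) ⊆ P.biUnion (fun p =>
      Fintype.piFinset (fun _ : Fin N =>
        (univ : Finset (Fin n)).filter (fun x : Fin n => (x : ℕ) ∉ anc G n p.1 \ anc G n p.2))) := by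
    intro f _
    obtain ⟨p, hp, h⟩ := hbad f
    rw [mem_biUnion]
    exact ⟨p, hp, Fintype.mem_piFinset.mpr (fun i => mem_filter.mpr ⟨mem_univ _, h i⟩)⟩
  have hcard1 := card_le_card hcover
  rw [card_univ, Fintype.card_fun, Fintype.card_fin, Fintype.card_fin] at hcard1
  have hcard2 := card_biUnion_le_card_mul P (fun p =>
      Fintype.piFinset (fun _ : Fin N =>
        (univ : Finset (Fin n)).filter (fun x : Fin n => (x : ℕ) ∉ anc G n p.1 \ anc G n p.2)))
      ((n - t) ^ N) (by
        intro p hp
        rw [Fintype.card_piFinset_const]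
        apply Nat.pow_le_pow_left
        have h1 : ((univ : Finset (Fin n)).filter
            (fun x : Fin n => (x : ℕ) ∉ anc G n p.1 \ anc G n p.2)).card ≤
            (range n \ (anc G n p.1 \ anc G n p.2)).card := by
          apply card_le_card_of_injOn (fun x : Fin n => (x : ℕ))
          · intro x hx
            have hx2 := (mem_filter.mp (mem_coe.mp hx)).2
            exact mem_coe.mpr (mem_sdiff.mpr ⟨mem_range.mpr x.2, hx2⟩)
          · intro x _ y _ hxy
            exact Fin.ext hxy
        rw [card_sdiff_of_subset (hDsub _ _), card_range] at h1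
        have h2 := (mem_filter.mp hp).2
        omega)
  have hPcard : P.card ≤ n * n := by
    refine (card_filter_le _ _).trans ?_
    rw [card_product, card_range]
  have hfin : n ^ N ≤ n * n * (n - t) ^ N :=
    hcard1.trans (hcard2.trans (Nat.mul_le_mul_right _ hPcard))
  have hreal : (n : ℝ) ^ N ≤ (n : ℝ) * n * ((n : ℝ) - t) ^ N := by
    have := (Nat.cast_le (α := ℝ)).mpr hfin
    push_cast [Nat.cast_sub htn] at this
    exact this
  have hn' : (0 : ℝ) < n := by exact_mod_cast hn
  have h3 : (1 - (t : ℝ) / n) ^ N = ((n : ℝ) - t) ^ N / (n : ℝ) ^ N := by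
    rw [← div_pow]
    congr 1
    field_simp
  rw [h3] at hlt
  have hpos : (0 : ℝ) < (n : ℝ) ^ N := by positivity
  rw [← mul_div_assoc, div_lt_one hpos] at hlt
  have : (n : ℝ) ^ 2 * ((n : ℝ) - t) ^ N = (n : ℝ) * n * ((n : ℝ) - t) ^ N := by ring
  linarith

end DDA
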