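import Pool.Agent.Lib.MP_dd2a0a_lc.OR.StmG

/-! Piece G6: the instance. -/

namespace DDA

open Finset Filter

def gi_ent (l : List Ent) (i : ℕ) : Ent := l.getD i ⟨false, ∅, ∅, fun _ => ∅⟩

theorem gi_sum {α : Type} (f : α → ℕ) (d : α) (l : List α) :
    ∑ i ∈ range l.length, f (l.getD i d) = (l.map f).sum := by
  induction l with
  | nil => simp
  | cons a l ih =>
    rw [List.length_cons, Finset.sum_range_succ']
    simp only [List.getD_cons_succ, List.getD_cons_zero, List.map_cons, List.sum_cons]
    rw [ih, add_comm]

theorem gi_mem {l : List Ent} {i : ℕ} (hi : i < l.length) : gi_ent l i ∈ l := by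
  unfold gi_ent
  rw [List.getD_eq_getElem _ _ hi]
  exact List.getElem_mem hi

theorem gi_mem' {l : List Ent} {e : Ent} (he : e ∈ l) : ∃ i < l.length, gi_ent l i = e := by
  obtain ⟨i, hi, h⟩ := List.mem_iff_getElem.mp he
  refine ⟨i, hi, ?_⟩
  unfold gi_ent
  rw [List.getD_eq_getElem _ _ hi]
  exact h

open Classical in
noncomputable def gi_X (n N b : ℕ) (A C : Mat) (l : List Ent) (z : ℕ) : Finset ℕ :=
  (range n).filter (fun w => Disj A C (range N) w z ∧ b < ecost l w z)

open Classical in
noncomputable def gi_adj (n : ℕ) (G : Finset (ℕ × ℕ)) (u : ℕ) : List ℕ :=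
  ((range n).filter (fun v => (u, v) ∈ G)).toList

open Classical in
noncomputable def gi_Y (n N B0 : ℕ) (G : Finset (ℕ × ℕ)) (A C : Mat) (z : ℕ) : Finset ℕ :=
  (range n).filter (fun x => ¬ Rch G x z ∧
    B0 < xcost G n (fun w => Disj A C (range N) w z) (fun w => (gi_adj n G w).length) x)

open Classical in
noncomputable def gi_I (n N b B0 E1 : ℕ) (G : Finset (ℕ × ℕ)) (A C : Mat) (l : List Ent) : Inst where
  n := n
  N := N
  K := l.length
  b := b
  B := B0 + 2
  bad := fun z => decide (E1 < (gi_X n N b A C l z).card)
  col := fun z x => decide (Rch G x z)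
  exc1 := fun z => if E1 < (gi_X n N b A C l z).card then [] else (gi_Y n N B0 G A C z).toList
  exc2 := fun z => if E1 < (gi_X n N b A C l z).card then [] else (gi_X n N b A C l z).toList
  adj := gi_adj n G
  At := fun w i => decide ((w, i) ∈ A)
  Ct := fun z i => decide ((z, i) ∈ C)
  typ := fun i => (gi_ent l i).typ
  inW := fun i w => decide (w ∈ (gi_ent l i).W)
  inZ := fun i z => decide (z ∈ (gi_ent l i).Z)
  lst := fun i v => ((gi_ent l i).L v).toList

theorem gi_row (n N b B0 E1 : ℕ) (G : Finset (ℕ × ℕ)) (A C : Mat) (l : List Ent) (w z i : ℕ) :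
    (gi_I n N b B0 E1 G A C l).row w z i = ((gi_ent l i).lst w z).toList := by
  unfold Inst.row Ent.lst gi_I
  simp only [decide_eq_true_eq]
  by_cases h1 : z ∈ (gi_ent l i).Z
  · by_cases h2 : w ∈ (gi_ent l i).W
    · by_cases h3 : (gi_ent l i).typ = true
      · simp [h1, h2, h3]
      · simp [h1, h2, h3]
    · simp [h1, h2]
  · simp [h1]

theorem gi_test (h5 : S_scanF) (n N b B0 E1 : ℕ) (G : Finset (ℕ × ℕ)) (A C : Mat) (l : List Ent)
    (hl3 : ∀ w u z, (w, u) ∈ A → (z, u) ∈ C → ∃ e ∈ l, u ∈ e.lst w z)
    (hA : ∀ w u, (w, u) ∈ A → u < N) (w z : ℕ) :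
    (gi_I n N b B0 E1 G A C l).test z w = true ↔
      (ecost l w z ≤ b ∧ Disj A C (range N) w z) := by
  unfold Inst.test
  rw [h5]
  have e1 : ∑ i ∈ range (gi_I n N b B0 E1 G A C l).K, ((gi_I n N b B0 E1 G A C l).row w z i).length =
      ecost l w z := by
    have : ∀ i, ((gi_I n N b B0 E1 G A C l).row w z i).length = ((gi_ent l i).lst w z).card := by
      intro i
      rw [gi_row, Finset.length_toList]
    simp only [this]
    exact gi_sum (fun e => (e.lst w z).card) _ l
  rw [e1]
  apply and_congr_right
  intro _
  constructor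
  · intro H u hu ⟨h1, h2⟩
    obtain ⟨e, he, hue⟩ := hl3 w u z h1 h2
    obtain ⟨i, hi, rfl⟩ := gi_mem' he
    have := H i hi u (by rw [gi_row, Finset.mem_toList]; exact hue)
    have h3 : (gi_I n N b B0 E1 G A C l).At w u = true := by
      change decide ((w, u) ∈ A) = true
      exact decide_eq_true h1
    have h4 : (gi_I n N b B0 E1 G A C l).Ct z u = true := by
      change decide ((z, u) ∈ C) = true
      exact decide_eq_true h2
    simp [h3, h4] at this
  · intro H i hi u hu
    by_contra hcon
    rw [Bool.not_eq_false, Bool.and_eq_true] at hcon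
    have h3 : (w, u) ∈ A := by
      have := hcon.1
      change decide ((w, u) ∈ A) = true at this
      exact of_decide_eq_true this
    have h4 : (z, u) ∈ C := by
      have := hcon.2
      change decide ((z, u) ∈ C) = true at this
      exact of_decide_eq_true this
    exact H u (mem_range.mpr (hA w u h3)) ⟨h3, h4⟩

theorem gi_xcost {G : Finset (ℕ × ℕ)} {n : ℕ} {ps ps' : ℕ → Prop} {od : ℕ → ℕ} {x : ℕ}
    (h : ∀ w < n, (ps w ↔ ps' w)) : xcost G n ps od x = xcost G n ps' od x := by
  unfold xcost
  apply Finset.sum_congr _ (fun _ _ => rfl)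
  ext w
  simp only [mem_filter, mem_range]
  constructor
  · rintro ⟨hw, h1, h2⟩
    exact ⟨hw, h1, (h w hw).mp h2⟩
  · rintro ⟨hw, h1, h2⟩
    exact ⟨hw, h1, (h w hw).mpr h2⟩

theorem gi_adj_mem {n : ℕ} {G : Finset (ℕ × ℕ)} (hG : ∀ e ∈ G, e.1 < n ∧ e.2 < n) (u v : ℕ) :
    v ∈ gi_adj n G u ↔ (u, v) ∈ G := by
  unfold gi_adj
  rw [Finset.mem_toList, Finset.mem_filter, mem_range]
  exact ⟨fun h => h.2, fun h => ⟨(hG _ h).2, h⟩⟩

theorem gi_adj_sum {n : ℕ} {G : Finset (ℕ × ℕ)} (hG : ∀ e ∈ G, e.1 < n ∧ e.2 < n) :
    ∑ v ∈ range n, (gi_adj n G v).length ≤ G.card := by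
  classical
  have h1 : G.card = ∑ v ∈ range n, (G.filter (fun e => e.1 = v)).card :=
    Finset.card_eq_sum_card_fiberwise (fun e he => by
      simp only [coe_range, Set.mem_Iio]
      exact (hG e he).1)
  rw [h1]
  apply Finset.sum_le_sum
  intro v hv
  unfold gi_adj
  rw [Finset.length_toList]
  apply Finset.card_le_card_of_injOn (fun u => (v, u))
  · intro u hu
    rw [Finset.mem_coe, Finset.mem_filter] at hu ⊢
    exact ⟨hu.2, rfl⟩
  · intro a _ c _ hac
    exact (Prod.mk.injEq _ _ _ _ ▸ hac).2

theorem gi_rch_lt {n : ℕ} {G : Finset (ℕ × ℕ)} (hG : ∀ e ∈ G, e.1 < n ∧ e.2 < n) {v z : ℕ}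
    (hz : z < n) (h : Rch G v z) : v < n := by
  unfold Rch at h
  rcases Relation.ReflTransGen.cases_head h with h | ⟨c, h, _⟩
  · rw [h]; exact hz
  · exact (hG _ h).1

theorem piece_inst (h1 : S_sud) (h2 : S_dc) (h3 : S_exT) (h4 : S_exF) (h5 : S_scanF) : S_inst := by
  intro n m N t b B0 E1 D G hD hB0 hG hGm hhub hEB
  obtain ⟨h, hhn, hh⟩ := hhub
  classical
  let A : Mat := (range n ×ˢ range N).filter (fun e => Rch G (h e.2) e.1)
  let C : Mat := (range n ×ˢ range N).filter (fun e => ¬ Rch G (h e.2) e.1)
  have memA : ∀ w u, (w, u) ∈ A ↔ (w < n ∧ u < N) ∧ Rch G (h u) w := by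
    intro w u
    simp only [A, mem_filter, mem_product, mem_range]
  have memC : ∀ w u, (w, u) ∈ C ↔ (w < n ∧ u < N) ∧ ¬ Rch G (h u) w := by
    intro w u
    simp only [C, mem_filter, mem_product, mem_range]
  obtain ⟨l, hl1, hl2, hl3, hl4⟩ := h1 D hD (range n) (range N) (range n) A C
    (filter_subset _ _) (filter_subset _ _)
  have hdisj : ∀ w < n, ∀ z < n, Disj A C (range N) w z ↔ ∀ i < N, Rch G (h i) w → Rch G (h i) z := by
    intro w hw z hz
    constructor
    · intro H i hi hiw
      by_contra hiz
      exact H i (mem_range.mpr hi) ⟨(memA w i).mpr ⟨⟨hw, hi⟩, hiw⟩, (memC z i).mpr ⟨⟨hz, hi⟩, hiz⟩⟩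
    · intro H i hi ⟨ha, hc⟩
      exact ((memC z i).mp hc).2 (H i (mem_range.mp hi) ((memA w i).mp ha).2)
  have hDt : ∀ z < n, ∀ w < n, Disj A C (range N) w z → (anc G n w \ anc G n z).card ≤ t := by
    intro z hz w hw hd
    by_contra hcon
    push Not at hcon
    obtain ⟨i, hi, hmem⟩ := hh w hw z hz hcon.le
    rw [Finset.mem_sdiff] at hmem
    unfold anc at hmem
    rw [mem_filter, mem_filter, mem_range] at hmem
    exact hmem.2 ⟨hhn i hi, (hdisj w hw z hz).mp hd i hi hmem.1.2⟩
  set I := gi_I n N b B0 E1 G A C l with hI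
  have htst : ∀ z, ¬ (E1 < (gi_X n N b A C l z).card) → ∀ w < n,
      (((decide (w ∈ I.exc2 z) || I.test z w) = true) ↔ Disj A C (range N) w z) := by
    intro z hz w hw
    rw [Bool.or_eq_true, decide_eq_true_eq, hI, gi_test h5 n N b B0 E1 G A C l hl3
      (fun w u hwu => ((memA w u).mp hwu).1.2)]
    have e1 : w ∈ (gi_I n N b B0 E1 G A C l).exc2 z ↔ w ∈ gi_X n N b A C l z := by
      change w ∈ (if E1 < (gi_X n N b A C l z).card then [] else (gi_X n N b A C l z).toList) ↔ _
      rw [if_neg hz, Finset.mem_toList]
    rw [e1]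
    unfold gi_X
    rw [mem_filter, mem_range]
    constructor
    · rintro (⟨_, h, _⟩ | ⟨_, h⟩)
      · exact h
      · exact h
    · intro h
      by_cases hb : ecost l w z ≤ b
      · exact Or.inr ⟨hb, h⟩
      · exact Or.inl ⟨hw, h, by omega⟩
  have hlst : ∀ i < l.length, ∀ v, (gi_ent l i).L v ⊆ range N := fun i hi v =>
    hl2 _ (gi_mem hi) v
  have hYcard : ∀ z < n, (gi_Y n N B0 G A C z).card ≤ E1 := by
    intro z hz
    have := h2 n m t B0 z G (fun w => Disj A C (range N) w z) (fun w => (gi_adj n G w).length)
      ((gi_adj_sum hG).trans hGm) (hDt z hz)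
    exact Nat.le_of_mul_le_mul_right (this.trans hEB) hB0
  refine ⟨I, ((range n).filter (fun z => I.bad z = true)).card, rfl, rfl, hl1, rfl, rfl, ?_, ?_, ?_⟩
  · -- Ok
    refine ⟨?_, ?_, ?_, ?_, ?_, ?_, ?_, ?_, ?_, le_of_eq rfl⟩
    · intro z hz
      change (if E1 < (gi_X n N b A C l z).card then [] else (gi_Y n N B0 G A C z).toList).length ≤ E1
      split_ifs
      · simp
      · rw [Finset.length_toList]; exact hYcard z hz
    · intro z hz
      change (if E1 < (gi_X n N b A C l z).card then [] else (gi_X n N b A C l z).toList).length ≤ E1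
      split_ifs with hc
      · simp
      · rw [Finset.length_toList]; omega
    · intro z hz
      change (if E1 < (gi_X n N b A C l z).card then [] else (gi_X n N b A C l z).toList).Nodup
      split_ifs with hc
      · exact List.nodup_nil
      · exact Finset.nodup_toList _
    · intro z hz x hx
      change x ∈ (if E1 < (gi_X n N b A C l z).card then [] else (gi_Y n N B0 G A C z).toList) at hx
      split_ifs at hx with hc
      · exact absurd hx (List.not_mem_nil)
      · rw [Finset.mem_toList] at hx
        unfold gi_Y at hx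
        exact mem_range.mp (mem_filter.mp hx).1
    · intro z hz x hx
      change x ∈ (if E1 < (gi_X n N b A C l z).card then [] else (gi_X n N b A C l z).toList) at hx
      split_ifs at hx with hc
      · exact absurd hx (List.not_mem_nil)
      · rw [Finset.mem_toList] at hx
        unfold gi_X at hx
        exact mem_range.mp (mem_filter.mp hx).1
    · exact (gi_adj_sum hG).trans hGm
    · intro v hv x hx
      exact (hG _ ((gi_adj_mem hG v x).mp hx)).2
    · intro i hi v hv
      change ((gi_ent l i).L v).toList.length ≤ N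
      rw [Finset.length_toList]
      have := card_le_card (hlst i hi v)
      rwa [card_range] at this
    · intro i hi v hv u hu
      change u ∈ ((gi_ent l i).L v).toList at hu
      rw [Finset.mem_toList] at hu
      exact mem_range.mp (hlst i hi v hu)
  · -- query
    intro x hx z hz
    unfold Inst.query
    by_cases hbad : E1 < (gi_X n N b A C l z).card
    · have e1 : I.bad z = true := decide_eq_true hbad
      rw [if_pos e1]
      change decide (Rch G x z) = true ↔ _
      exact decide_eq_true_iff
    · have e1 : ¬ (I.bad z = true) := by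
        change ¬ (decide (E1 < (gi_X n N b A C l z).card) = true)
        rw [decide_eq_true_eq]
        exact hbad
      rw [if_neg e1]
      have e2 : x ∈ I.exc1 z ↔ x ∈ gi_Y n N B0 G A C z := by
        change x ∈ (if E1 < (gi_X n N b A C l z).card then [] else (gi_Y n N B0 G A C z).toList) ↔ _
        rw [if_neg hbad, Finset.mem_toList]
      by_cases hY : x ∈ gi_Y n N B0 G A C z
      · rw [if_pos (e2.mpr hY)]
        unfold gi_Y at hY
        have := (mem_filter.mp hY).2.1
        simp [this]
      · rw [if_neg (fun hc => hY (e2.mp hc))]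
        constructor
        · intro hex
          by_contra hnr
          have hcost : ¬ (B0 < xcost G n (fun w => Disj A C (range N) w z)
              (fun w => (gi_adj n G w).length) x) := by
            intro hc
            apply hY
            unfold gi_Y
            exact mem_filter.mpr ⟨mem_range.mpr hx, hnr, hc⟩
          have hf := h4 n G I.adj (fun v => decide (v ∈ I.exc2 z) || I.test z v) x z I.B hG
            (gi_adj_mem hG) hx hnr (by
              rw [gi_xcost (ps' := fun w => Disj A C (range N) w z) (htst z hbad)]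
              change 2 + xcost G n (fun w => Disj A C (range N) w z)
                (fun w => (gi_adj n G w).length) x ≤ B0 + 2
              omega)
          rw [hf] at hex
          exact Bool.noConfusion hex
        · intro hr
          apply h3 G I.adj (fun v => decide (v ∈ I.exc2 z) || I.test z v) x z I.B
            (gi_adj_mem hG) _ hr
          intro v hv
          have hvn := gi_rch_lt hG hz hv
          exact (htst z hbad v hvn).mpr ((hdisj v hvn z hz).mpr (fun i _ hiv => hiv.trans hv))
  · -- the number of bad targets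
    have hsum : ((((range n).filter (fun z => I.bad z = true)).card : ℕ) : ℝ) * E1 * b ≤
        ∑ w ∈ range n, ∑ z ∈ range n,
          (if Disj A C (range N) w z then (ecost l w z : ℝ) else 0) := by
      rw [Finset.sum_comm]
      have e1 : ∀ z ∈ (range n).filter (fun z => I.bad z = true), (E1 : ℝ) * b ≤
          ∑ w ∈ range n, (if Disj A C (range N) w z then (ecost l w z : ℝ) else 0) := by
        intro z hz
        have hbz : I.bad z = true := (mem_filter.mp hz).2
        have hcz : E1 < (gi_X n N b A C l z).card := of_decide_eq_true hbz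
        calc (E1 : ℝ) * b ≤ ((gi_X n N b A C l z).card : ℝ) * b := by
              apply mul_le_mul_of_nonneg_right _ (Nat.cast_nonneg _)
              exact_mod_cast hcz.le
          _ = ∑ w ∈ gi_X n N b A C l z, (b : ℝ) := by
              rw [Finset.sum_const, nsmul_eq_mul]
          _ ≤ ∑ w ∈ gi_X n N b A C l z,
              (if Disj A C (range N) w z then (ecost l w z : ℝ) else 0) := by
              apply Finset.sum_le_sum
              intro w hw
              unfold gi_X at hw
              have hw2 := (mem_filter.mp hw).2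
              rw [if_pos hw2.1]
              exact_mod_cast hw2.2.le
          _ ≤ ∑ w ∈ range n, (if Disj A C (range N) w z then (ecost l w z : ℝ) else 0) := by
              apply Finset.sum_le_sum_of_subset_of_nonneg
              · unfold gi_X
                exact filter_subset _ _
              · intro w _ _
                split_ifs
                · exact Nat.cast_nonneg _
                · exact le_refl _
      calc ((((range n).filter (fun z => I.bad z = true)).card : ℕ) : ℝ) * E1 * b
          = ∑ z ∈ (range n).filter (fun z => I.bad z = true), (E1 : ℝ) * b := by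
            rw [Finset.sum_const, nsmul_eq_mul]; ring
        _ ≤ ∑ z ∈ (range n).filter (fun z => I.bad z = true),
            ∑ w ∈ range n, (if Disj A C (range N) w z then (ecost l w z : ℝ) else 0) :=
            Finset.sum_le_sum e1
        _ ≤ ∑ z ∈ range n,
            ∑ w ∈ range n, (if Disj A C (range N) w z then (ecost l w z : ℝ) else 0) := by
            apply Finset.sum_le_sum_of_subset_of_nonneg (filter_subset _ _)
            intro z _ _
            apply Finset.sum_nonneg
            intro w _
            split_ifs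
            · exact Nat.cast_nonneg _
            · exact le_refl _
    refine hsum.trans ?_
    simpa [card_range] using hl4

end DDA
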