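import Pool.Agent.Lib.MP_dd2a0a_lc.OR.Stm

/-!
# MP_dd2a0a_lc, piece K15: `r` levels of the box decomposition
-/

namespace DDA

open Finset

noncomputable section

private theorem vsum_append (l l' : List Box) : vsum (l ++ l') = vsum l + vsum l' := by
  simp [vsum]

private theorem vsum_flatMap_le (f : Box → List Box) (C : ℝ) : ∀ l : List Box,
    (∀ b ∈ l, vsum (f b) ≤ C * b.vol) → vsum (l.flatMap f) ≤ C * vsum l := by
  intro l
  induction l with
  | nil => intro _; simp [vsum]
  | cons a l ih =>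
    intro h
    rw [List.flatMap_cons, vsum_append]
    have h1 := h a List.mem_cons_self
    have h2 := ih fun b hb => h b (List.mem_cons_of_mem _ hb)
    have h3 : vsum (a :: l) = a.vol + vsum l := by simp [vsum]
    rw [h3, mul_add]
    exact add_le_add h1 h2

private theorem vsum3_flatMap_le (f g h : Box → List Box) (C : ℝ) : ∀ l : List Box,
    (∀ b ∈ l, vsum (f b ++ g b ++ h b) ≤ C * b.vol) →
      vsum (l.flatMap f) + vsum (l.flatMap g) + vsum (l.flatMap h) ≤ C * vsum l := by
  intro l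
  induction l with
  | nil => intro _; simp [vsum]
  | cons a l ih =>
    intro hh
    rw [List.flatMap_cons, List.flatMap_cons, List.flatMap_cons, vsum_append, vsum_append,
      vsum_append]
    have h1 := hh a List.mem_cons_self
    rw [vsum_append, vsum_append] at h1
    have h2 := ih fun b hb => hh b (List.mem_cons_of_mem _ hb)
    have h3 : vsum (a :: l) = a.vol + vsum l := by simp [vsum]
    rw [h3, mul_add]
    linarith

private theorem len_flatMap_le (f g h k : Box → List Box) (N : ℕ) : ∀ l : List Box,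
    (∀ b ∈ l, (f b ++ g b ++ h b ++ k b).length ≤ N) →
      (l.flatMap f).length + (l.flatMap g).length + (l.flatMap h).length +
        (l.flatMap k).length ≤ l.length * N := by
  intro l
  induction l with
  | nil => intro _; simp
  | cons a l ih =>
    intro hh
    have h1 := hh a List.mem_cons_self
    have h2 := ih fun b hb => hh b (List.mem_cons_of_mem _ hb)
    simp only [List.flatMap_cons, List.length_append, List.length_cons] at h1 h2 ⊢
    rw [add_mul, one_mul]
    omega

private theorem sub_trans {a b c : Box} (h : a.sub b) (h' : b.sub c) : a.sub c :=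
  ⟨h.1.trans h'.1, h.2.trans h'.2⟩

theorem piece_iter (h14 : S_one) : S_iter := by
  intro D hD r
  set X : ℕ := 2 ^ (D * (q1 D + q2 D + 2) + 2) with hX
  have hX1 : 1 ≤ X := Nat.one_le_two_pow
  induction r with
  | zero =>
    intro b hb
    refine ⟨[], [], [], [b], ?_, ?_, ?_, ?_, ?_, ?_, ?_, ?_⟩
    · intro b' hb'
      have : b' = b := by simpa using hb'
      subst this
      exact ⟨hb, Finset.Subset.refl _, Finset.Subset.refl _⟩
    · intro b' hb'; exact absurd hb' List.not_mem_nil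
    · intro b' hb'; exact absurd hb' List.not_mem_nil
    · intro b' hb'; exact absurd hb' List.not_mem_nil
    · intro w u z h1 h2
      exact ⟨b, by simp, h1, h2⟩
    · have h1 : vsum ([] ++ [] ++ [] : List Box) = 0 := by simp [vsum]
      rw [h1]
      have : 0 ≤ b.vol := by unfold Box.vol; positivity
      positivity
    · simp [vsum]
    · simp
  | succ r ih =>
    intro b hb
    choose! fa fc fg fl p1 p2 p3 p4 p5 p6 p7 p8 using ih
    obtain ⟨sa, sc, gd, lo, o1, o2, o3, o4, o5, o6, o7, o8⟩ := h14 D hD b hb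
    have hlo : ∀ b' ∈ lo, b'.ok ∧ b'.sub b := fun b' h =>
      o1 b' (List.mem_append.2 (Or.inr h))
    refine ⟨sa ++ lo.flatMap fa, sc ++ lo.flatMap fc, gd ++ lo.flatMap fg, lo.flatMap fl,
      ?_, ?_, ?_, ?_, ?_, ?_, ?_, ?_⟩
    · intro b' hb'
      have aux : ∀ c ∈ lo, b' ∈ fa c ++ fc c ++ fg c ++ fl c → b'.ok ∧ b'.sub b := by
        intro c hc h
        obtain ⟨g1, g2⟩ := hlo c hc
        obtain ⟨g3, g4⟩ := p1 c g1 b' h
        exact ⟨g3, sub_trans g4 g2⟩
      simp only [List.mem_append, List.mem_flatMap] at hb' aux o1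
      rcases hb' with ((((h | ⟨c, hc, h⟩) | (h | ⟨c, hc, h⟩)) | (h | ⟨c, hc, h⟩)) | ⟨c, hc, h⟩)
      · exact o1 b' (Or.inl (Or.inl (Or.inl h)))
      · exact aux c hc (Or.inl (Or.inl (Or.inl h)))
      · exact o1 b' (Or.inl (Or.inl (Or.inr h)))
      · exact aux c hc (Or.inl (Or.inl (Or.inr h)))
      · exact o1 b' (Or.inl (Or.inr h))
      · exact aux c hc (Or.inl (Or.inr h))
      · exact aux c hc (Or.inr h)
    · intro b' hb'
      rw [List.mem_append, List.mem_flatMap] at hb'
      rcases hb' with h | ⟨c, hc, h⟩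
      · exact o2 b' h
      · exact p2 c (hlo c hc).1 b' h
    · intro b' hb'
      rw [List.mem_append, List.mem_flatMap] at hb'
      rcases hb' with h | ⟨c, hc, h⟩
      · exact o3 b' h
      · exact p3 c (hlo c hc).1 b' h
    · intro b' hb'
      rw [List.mem_append, List.mem_flatMap] at hb'
      rcases hb' with h | ⟨c, hc, h⟩
      · exact o4 b' h
      · exact p4 c (hlo c hc).1 b' h
    · intro w u z h1 h2
      obtain ⟨b', hb', g1, g2⟩ := o5 w u z h1 h2
      simp only [List.mem_append, List.mem_flatMap] at hb' p5 ⊢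
      rcases hb' with (((h | h) | h) | h)
      · exact ⟨b', Or.inl (Or.inl (Or.inl (Or.inl h))), g1, g2⟩
      · exact ⟨b', Or.inl (Or.inl (Or.inr (Or.inl h))), g1, g2⟩
      · exact ⟨b', Or.inl (Or.inr (Or.inl h)), g1, g2⟩
      · obtain ⟨b'', hb'', g3, g4⟩ := p5 b' (hlo b' h).1 w u z g1 g2
        rcases hb'' with (((k | k) | k) | k)
        · exact ⟨b'', Or.inl (Or.inl (Or.inl (Or.inr ⟨b', h, k⟩))), g3, g4⟩
        · exact ⟨b'', Or.inl (Or.inl (Or.inr (Or.inr ⟨b', h, k⟩))), g3, g4⟩
        · exact ⟨b'', Or.inl (Or.inr (Or.inr ⟨b', h, k⟩)), g3, g4⟩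
        · exact ⟨b'', Or.inr ⟨b', h, k⟩, g3, g4⟩
    · have h1 := vsum3_flatMap_le fa fc fg (6 * ((D : ℝ) + 1) ^ 2) lo
        fun c hc => p6 c (hlo c hc).1
      rw [vsum_append, vsum_append] at o6
      rw [vsum_append, vsum_append, vsum_append, vsum_append, vsum_append]
      have h2 : 6 * ((D : ℝ) + 1) ^ 2 * vsum lo ≤ 6 * ((D : ℝ) + 1) ^ 2 * (1 / 2 * b.vol) :=
        mul_le_mul_of_nonneg_left o7 (by positivity)
      have h3 : 6 * ((D : ℝ) + 1) ^ 2 * (1 / 2 * b.vol) = 3 * ((D : ℝ) + 1) ^ 2 * b.vol := by ring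
      have h4 : 6 * ((D : ℝ) + 1) ^ 2 * b.vol =
        3 * ((D : ℝ) + 1) ^ 2 * b.vol + 3 * ((D : ℝ) + 1) ^ 2 * b.vol := by ring
      rw [h3] at h2
      rw [h4]
      linarith
    · have h1 := vsum_flatMap_le fl ((1 / 2 : ℝ) ^ r) lo fun c hc => p7 c (hlo c hc).1
      have h2 : (1 / 2 : ℝ) ^ r * vsum lo ≤ (1 / 2 : ℝ) ^ r * (1 / 2 * b.vol) :=
        mul_le_mul_of_nonneg_left o7 (by positivity)
      calc vsum (lo.flatMap fl) ≤ (1 / 2 : ℝ) ^ r * (1 / 2 * b.vol) := h1.trans h2
        _ = (1 / 2 : ℝ) ^ (r + 1) * b.vol := by ring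
    · have h1 := len_flatMap_le fa fc fg fl ((2 * X) ^ r) lo fun c hc => p8 c (hlo c hc).1
      have h2 : 1 ≤ (2 * X) ^ r := Nat.one_le_pow _ _ (by omega)
      have h3 : (2 * X) ^ (r + 1) = X * (2 * X) ^ r + X * (2 * X) ^ r := by ring
      simp only [List.length_append] at o8 ⊢
      have h4 : lo.length * (2 * X) ^ r ≤ X * (2 * X) ^ r :=
        Nat.mul_le_mul_right _ (by omega)
      have h5 : X * 1 ≤ X * (2 * X) ^ r := Nat.mul_le_mul_left _ h2
      rw [h3]
      omega

end

end DDA
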