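import Pool.Agent.Lib.MP_dd2a0a_lc.OR.StmR

/-!
# MP_dd2a0a_lc: piece R2 (the layout exists)
-/

namespace DDA

/-- content of the block of a 0-terminated list -/
private def lcont (l : List ℕ) (a : ℕ) : ℕ := if a < l.length then l.getD a 0 + 1 else 0

private theorem listAt_of (mem : ℕ → ℕ) (Q : ℕ → Prop) : ∀ (l : List ℕ) (p : ℕ),
    (∀ a < l.length + 1, mem (p + a) = lcont l a ∧ Q (p + a)) → ListAt mem Q p l
  | [], p, h => by
      have h0 := h 0 (by simp)
      simpa [ListAt, lcont] using h0
  | v :: l, p, h => by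
      have h0 := h 0 (by simp)
      refine ⟨by simpa [lcont] using h0.1, by simpa using h0.2, ?_⟩
      refine listAt_of mem Q l (p + 1) ?_
      intro a ha
      have h1 := h (a + 1) (by simpa using ha)
      have e : p + 1 + a = p + (a + 1) := by omega
      rw [e]
      refine ⟨?_, h1.2⟩
      rw [h1.1]
      unfold lcont
      simp

private theorem lcont_le (l : List ℕ) (B : ℕ) (h : ∀ x ∈ l, x < B) (a : ℕ) : lcont l a ≤ B := by
  unfold lcont
  split_ifs with ha
  · have h1 : l.getD a 0 = l[a] := List.getD_eq_getElem l 0 ha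
    rw [h1]
    exact h _ (List.getElem_mem ha)
  · exact Nat.zero_le _

/-- length of the block `τ` of the vertex `v` -/
private def lB (I : Inst) (v : ℕ) : ℕ → ℕ
  | 0 => 9
  | 1 => (I.exc1 v).length + 1
  | 2 => (I.exc2 v).length + 1
  | 3 => I.N
  | 4 => I.K
  | 5 => (I.adj v).length + 1
  | 6 => I.N
  | 7 => I.K
  | 8 => if I.bad v = true then I.n else 0
  | i + 9 => (I.lst i v).length + 1

/-- block lengths -/
private def ln (I : Inst) : ℕ → ℕ
  | 0 => 6
  | 1 => I.n
  | j + 2 => lB I (j / (9 + I.K)) (j % (9 + I.K))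

private def ps (I : Inst) (j : ℕ) : ℕ := ∑ i ∈ Finset.range j, ln I i

private def bi (I : Inst) (v τ : ℕ) : ℕ := v * (9 + I.K) + τ + 2

private def JJ (I : Inst) : ℕ := I.n * (9 + I.K) + 2

private def ff (I : Inst) (v j : ℕ) : ℕ :=
  if j = 0 then (if I.bad v = true then 1 else 0)
  else if j = 1 then ps I (bi I v 8) else ps I (bi I v (j - 1))

private def lpp (I : Inst) (i v : ℕ) : ℕ := ps I (bi I v (i + 9))

/-- content of the block `τ` of the vertex `v` -/
private def cB (I : Inst) (v : ℕ) : ℕ → ℕ → ℕ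
  | 0, a => ff I v a
  | 1, a => lcont (I.exc1 v) a
  | 2, a => lcont (I.exc2 v) a
  | 3, a => if I.Ct v a = true then 1 else 0
  | 4, a => if I.inZ a v = true then (if I.typ a = true then lpp I a v else 1) else 0
  | 5, a => lcont (I.adj v) a
  | 6, a => if I.At v a = true then 1 else 0
  | 7, a => if I.inW a v = true then (if I.typ a = true then 1 else lpp I a v) else 0
  | 8, a => if I.col v a = true then 1 else 0
  | i + 9, a => lcont (I.lst i v) a

private def c0 (I : Inst) : ℕ → ℕ
  | 0 => I.K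
  | 1 => I.b
  | 2 => I.B
  | 3 => ps I (JJ I)
  | 4 => I.n
  | _ => 0

private def cc (I : Inst) : ℕ → ℕ → ℕ
  | 0, a => c0 I a
  | 1, a => ps I (bi I a 0)
  | j + 2, a => cB I (j / (9 + I.K)) (j % (9 + I.K)) a

private theorem bi_div (I : Inst) (v τ : ℕ) (h : τ < 9 + I.K) :
    (v * (9 + I.K) + τ) / (9 + I.K) = v := by
  rw [Nat.mul_comm, Nat.mul_add_div (by omega), Nat.div_eq_of_lt h, Nat.add_zero]

private theorem bi_mod (I : Inst) (v τ : ℕ) (h : τ < 9 + I.K) :
    (v * (9 + I.K) + τ) % (9 + I.K) = τ := by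
  rw [Nat.mul_comm, Nat.mul_add_mod, Nat.mod_eq_of_lt h]

private theorem ln_bi (I : Inst) (v τ : ℕ) (h : τ < 9 + I.K) : ln I (bi I v τ) = lB I v τ := by
  show lB I ((v * (9 + I.K) + τ) / (9 + I.K)) ((v * (9 + I.K) + τ) % (9 + I.K)) = _
  rw [bi_div I v τ h, bi_mod I v τ h]

private theorem cc_bi (I : Inst) (v τ : ℕ) (h : τ < 9 + I.K) (a : ℕ) :
    cc I (bi I v τ) a = cB I v τ a := by
  show cB I ((v * (9 + I.K) + τ) / (9 + I.K)) ((v * (9 + I.K) + τ) % (9 + I.K)) a = _
  rw [bi_div I v τ h, bi_mod I v τ h]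

private theorem bi_lt (I : Inst) (v τ : ℕ) (hv : v < I.n) (h : τ < 9 + I.K) : bi I v τ < JJ I := by
  unfold bi JJ
  have h1 : (v + 1) * (9 + I.K) ≤ I.n * (9 + I.K) := Nat.mul_le_mul_right _ hv
  have h2 : (v + 1) * (9 + I.K) = v * (9 + I.K) + (9 + I.K) := by ring
  omega

private theorem ps_mono (I : Inst) {i j : ℕ} (h : i ≤ j) : ps I i ≤ ps I j := by
  unfold ps
  exact Finset.sum_le_sum_of_subset (Finset.range_mono h)

private theorem sum_block (W : ℕ) (hW : 0 < W) (g : ℕ → ℕ → ℕ) : ∀ n : ℕ,
    ∑ x ∈ Finset.range (n * W), g (x / W) (x % W) =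
      ∑ v ∈ Finset.range n, ∑ t ∈ Finset.range W, g v t
  | 0 => by simp
  | n + 1 => by
      have e : (n + 1) * W = n * W + W := by ring
      rw [e, Finset.sum_range_add, sum_block W hW g n, Finset.sum_range_succ]
      congr 1
      refine Finset.sum_congr rfl ?_
      intro t ht
      have ht' := Finset.mem_range.mp ht
      rw [Nat.mul_comm n W, Nat.mul_add_div hW, Nat.div_eq_of_lt ht', Nat.add_zero,
        Nat.mul_add_mod, Nat.mod_eq_of_lt ht']

private theorem total_le (I : Inst) (E1 m nb : ℕ) (h : I.Ok E1 m nb) : ps I (JJ I) ≤ I.sz E1 m nb := by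
  have e1 : ps I (JJ I) = 6 + I.n + ∑ v ∈ Finset.range I.n, ∑ t ∈ Finset.range (9 + I.K), lB I v t := by
    unfold ps JJ
    rw [Nat.add_comm, Finset.sum_range_add]
    have e2 : ∀ x, ln I (2 + x) = lB I (x / (9 + I.K)) (x % (9 + I.K)) := by
      intro x
      rw [Nat.add_comm]
      rfl
    simp only [e2]
    rw [sum_block (9 + I.K) (by omega) (lB I)]
    congr 1
  have e3 : ∀ v ∈ Finset.range I.n, ∑ t ∈ Finset.range (9 + I.K), lB I v t ≤
      (12 + 2 * (E1 + 1) - 2 + 2 * I.N + 2 * I.K + I.K * (I.N + 1)) +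
        (I.adj v).length + (if I.bad v = true then I.n else 0) := by
    intro v hv
    have hv' := Finset.mem_range.mp hv
    rw [Finset.sum_range_add]
    have h9 : ∑ t ∈ Finset.range 9, lB I v t = 9 + ((I.exc1 v).length + 1) + ((I.exc2 v).length + 1) +
        I.N + I.K + ((I.adj v).length + 1) + I.N + I.K + (if I.bad v = true then I.n else 0) := by
      simp [Finset.sum_range_succ, lB]
    have hK : ∑ t ∈ Finset.range I.K, lB I v (9 + t) ≤ I.K * (I.N + 1) := by
      calc ∑ t ∈ Finset.range I.K, lB I v (9 + t) ≤ ∑ t ∈ Finset.range I.K, (I.N + 1) := by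
            refine Finset.sum_le_sum ?_
            intro i hi
            have hi' := Finset.mem_range.mp hi
            rw [Nat.add_comm 9 i]
            show (I.lst i v).length + 1 ≤ I.N + 1
            have := h.ll i hi' v hv'
            omega
        _ = I.K * (I.N + 1) := by simp
    have h1 := h.l1 v hv'
    have h2 := h.l2 v hv'
    rw [h9]
    split_ifs <;> omega
  have e4 := Finset.sum_le_sum e3
  rw [Finset.sum_add_distrib, Finset.sum_add_distrib] at e4
  have e5 : ∑ v ∈ Finset.range I.n, (if I.bad v = true then I.n else 0) ≤ nb * I.n := by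
    rw [← Finset.sum_filter, Finset.sum_const, smul_eq_mul]
    exact Nat.mul_le_mul_right _ h.lb
  have e6 := h.la
  have e7 : ∑ _v ∈ Finset.range I.n, (12 + 2 * (E1 + 1) - 2 + 2 * I.N + 2 * I.K + I.K * (I.N + 1)) =
      I.n * (12 + 2 * (E1 + 1) - 2 + 2 * I.N + 2 * I.K + I.K * (I.N + 1)) := by simp
  rw [e7] at e4
  rw [e1]
  unfold Inst.sz
  have e8 : 12 + 2 * (E1 + 1) - 2 + 2 * I.N + 2 * I.K + I.K * (I.N + 1) =
      10 + 2 * (E1 + 1) + 2 * I.N + 2 * I.K + I.K * (I.N + 1) := by omega
  rw [e8] at e4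
  nlinarith [e4, e5, e6]

private theorem ff_le (I : Inst) (v j : ℕ) (hv : v < I.n) (hj : j < 9) : ff I v j ≤ ps I (JJ I) := by
  unfold ff
  have h6 : 6 ≤ ps I (JJ I) := by
    have h1 : ps I 1 ≤ ps I (JJ I) := ps_mono I (by unfold JJ; omega)
    have h2 : ps I 1 = 6 := by simp [ps, ln]
    omega
  split_ifs with h1 h2 h3
  · omega
  · omega
  · exact ps_mono I (bi_lt I v 8 hv (by omega)).le
  · exact ps_mono I (bi_lt I v (j - 1) hv (by omega)).le

private theorem cB_le (I : Inst) (E1 m nb : ℕ) (h : I.Ok E1 m nb) (v τ a : ℕ) (hv : v < I.n)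
    (hτ : τ < 9 + I.K) (ha : a < lB I v τ) : cB I v τ a ≤ ps I (JJ I) + I.n + I.N + 1 := by
  have hl : ∀ i, i < I.K → lpp I i v ≤ ps I (JJ I) := by
    intro i hi
    exact ps_mono I (bi_lt I v (i + 9) hv (by omega)).le
  match τ, hτ, ha with
  | 0, _, ha =>
      have := ff_le I v a hv ha
      show ff I v a ≤ _
      omega
  | 1, _, _ =>
      have := lcont_le (I.exc1 v) I.n (h.e1 v hv) a
      show lcont (I.exc1 v) a ≤ _
      omega
  | 2, _, _ =>
      have := lcont_le (I.exc2 v) I.n (h.e2 v hv) a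
      show lcont (I.exc2 v) a ≤ _
      omega
  | 3, _, _ =>
      show (if I.Ct v a = true then 1 else 0) ≤ _
      split_ifs <;> omega
  | 4, _, ha =>
      have := hl a ha
      show (if I.inZ a v = true then (if I.typ a = true then lpp I a v else 1) else 0) ≤ _
      split_ifs <;> omega
  | 5, _, _ =>
      have := lcont_le (I.adj v) I.n (h.ea v hv) a
      show lcont (I.adj v) a ≤ _
      omega
  | 6, _, _ =>
      show (if I.At v a = true then 1 else 0) ≤ _
      split_ifs <;> omega
  | 7, _, ha =>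
      have := hl a ha
      show (if I.inW a v = true then (if I.typ a = true then 1 else lpp I a v) else 0) ≤ _
      split_ifs <;> omega
  | 8, _, _ =>
      show (if I.col v a = true then 1 else 0) ≤ _
      split_ifs <;> omega
  | i + 9, hτ, _ =>
      have := lcont_le (I.lst i v) I.N (h.el i (by omega) v hv) a
      show lcont (I.lst i v) a ≤ _
      omega

theorem piece_lay (h1 : S_layout) : S_lay := by
  intro I E1 m nb hOk M hM
  have htot := total_le I E1 m nb hOk
  have hwd : 10 * (I.sz E1 m nb + I.n + I.N + I.K + I.b + I.B + 10) ≤ M := hM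
  have hcont : ∀ j < JJ I, ∀ a < ln I j, cc I j a < M := by
    intro j hj a ha
    match j, hj, ha with
    | 0, _, ha =>
        show c0 I a < M
        have ha' : a < 6 := ha
        unfold c0
        split <;> omega
    | 1, _, ha =>
        show ps I (bi I a 0) < M
        have ha' : a < I.n := ha
        have := ps_mono I (bi_lt I a 0 ha' (by omega)).le
        omega
    | j + 2, hj, ha =>
        have hW : 0 < 9 + I.K := by omega
        have hj' : j < I.n * (9 + I.K) := by unfold JJ at hj; omega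
        have hv : j / (9 + I.K) < I.n := Nat.div_lt_of_lt_mul (by rw [Nat.mul_comm]; exact hj')
        have hτ : j % (9 + I.K) < 9 + I.K := Nat.mod_lt _ hW
        have := cB_le I E1 m nb hOk _ _ a hv hτ ha
        show cB I (j / (9 + I.K)) (j % (9 + I.K)) a < M
        omega
  obtain ⟨data, hlen, hlt, hget⟩ := h1 (JJ I) (ln I) (cc I) M hcont
  have hlen' : data.length = ps I (JJ I) := hlen
  refine ⟨data, fun v => ps I (bi I v 0), ff I, lpp I, by rw [hlen']; exact htot, hlt, ?_⟩
  intro mem hmem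
  have key : ∀ j < JJ I, ∀ a < ln I j, mem (ps I j + a) = cc I j a ∧ ps I j + a < data.length := by
    intro j hj a ha
    obtain ⟨k1, k2⟩ := hget j hj a ha
    exact ⟨by rw [← k2]; exact hmem _ k1, k1⟩
  have kb : ∀ v < I.n, ∀ τ < 9 + I.K, ∀ a < lB I v τ,
      mem (ps I (bi I v τ) + a) = cB I v τ a ∧ ps I (bi I v τ) + a < data.length := by
    intro v hv τ hτ a ha
    have := key (bi I v τ) (bi_lt I v τ hv hτ) a (by rw [ln_bi I v τ hτ]; exact ha)
    rwa [cc_bi I v τ hτ] at this
  have hJ2 : 2 ≤ JJ I := by unfold JJ; omega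
  have hps0 : ps I 0 = 0 := by simp [ps]
  have hps1 : ps I 1 = 6 := by simp [ps, ln]
  have k0 : ∀ a < 6, mem a = c0 I a ∧ a < data.length := by
    intro a ha
    have := key 0 (by omega) a ha
    rw [hps0, Nat.zero_add] at this
    exact this
  refine
    { s5 := (k0 5 (by norm_num)).2
      p0 := (k0 0 (by norm_num)).1
      p1 := (k0 1 (by norm_num)).1
      p2 := (k0 2 (by norm_num)).1
      p3 := by rw [hlen']; exact (k0 3 (by norm_num)).1
      p4 := (k0 4 (by norm_num)).1
      rc := ?_
      fld := ?_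
      fb := ?_
      f0 := ?_
      f1 := ?_
      f2 := ?_
      f3 := ?_
      f4 := ?_
      f5 := ?_
      f6 := ?_
      f7 := ?_
      f8 := ?_
      fl := ?_ }
  · intro v hv
    have := key 1 (by omega) v hv
    rw [hps1] at this
    exact this
  · intro v hv j hj
    exact kb v hv 0 (by omega) j hj
  · intro v hv j hj
    rw [hlen']
    exact ff_le I v j hv hj
  · intro v _
    simp [ff]
  · intro v hv hbad x hx
    have := kb v hv 8 (by omega) x (by show x < (if I.bad v = true then I.n else 0); rw [if_pos hbad]; exact hx)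
    exact this
  · intro v hv
    exact listAt_of _ _ _ _ (fun a ha => kb v hv 1 (by omega) a ha)
  · intro v hv
    exact listAt_of _ _ _ _ (fun a ha => kb v hv 2 (by omega) a ha)
  · intro v hv u hu
    exact kb v hv 3 (by omega) u hu
  · intro v hv i hi
    exact kb v hv 4 (by omega) i hi
  · intro v hv
    exact listAt_of _ _ _ _ (fun a ha => kb v hv 5 (by omega) a ha)
  · intro v hv u hu
    exact kb v hv 6 (by omega) u hu
  · intro v hv i hi
    exact kb v hv 7 (by omega) i hi
  · intro i hi v hv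
    refine ⟨listAt_of _ _ _ _ (fun a ha => kb v hv (i + 9) (by omega) a ha), ?_⟩
    have : ps I 1 ≤ lpp I i v := ps_mono I (by unfold bi; omega)
    omega

end DDA
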