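import Pool.Agent.Lib.MP_dd2a0a_lc.OR.StmR

/-!
Piece R1: concatenation of blocks of words.
-/

namespace DDA

theorem piece_layout : S_layout := by
  intro J
  induction J with
  | zero =>
    intro len content M _
    refine ⟨[], by simp, by simp, ?_⟩
    intro j hj
    omega
  | succ J ih =>
    intro len content M h
    obtain ⟨data, h1, h2, h3⟩ := ih len content M (fun j hj => h j (by omega))
    refine ⟨data ++ (List.range (len J)).map (content J), ?_, ?_, ?_⟩
    · rw [List.length_append, h1, Finset.sum_range_succ, List.length_map, List.length_range]
    · intro a ha
      rw [List.mem_append, List.mem_map] at ha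
      rcases ha with ha | ⟨b, hb, rfl⟩
      · exact h2 a ha
      · exact h J (by omega) b (List.mem_range.1 hb)
    · intro j hj a ha
      rcases Nat.lt_or_ge j J with hjJ | hjJ
      · obtain ⟨h4, h5⟩ := h3 j hjJ a ha
        refine ⟨by rw [List.length_append]; omega, ?_⟩
        rw [List.getD_append _ _ _ _ h4]
        exact h5
      · have hj' : j = J := by omega
        subst hj'
        refine ⟨?_, ?_⟩
        · rw [List.length_append, List.length_map, List.length_range, h1]
          omega
        · rw [List.getD_append_right _ _ _ _ (by rw [h1]; omega), h1, Nat.add_sub_cancel_left]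
          rw [List.getD_eq_getElem _ _ (by rw [List.length_map, List.length_range]; exact ha)]
          simp

end DDA
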