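import Pool.Agent.Lib.MP_dd2a0a_lc.OR.RTool

namespace DDA

theorem piece_lookup : S_lookup := by
  intro M S n c v val s hI hv hM h1 h2 h3 h4 h5
  obtain ⟨hc, hk, hval⟩ := hI
  have hvv := hval v hv
  show EX M lookupC s _
  simp only [rSI, rSL, rSV, rCnt, rV] at h1 h2 h3 h4 h5
  unfold lookupC
  refine EX.cons (EX.add ?_ (EX.cons (EX.load (EX.cons (EX.sub (EX.last ?_))))))
  · simp only [rSI, rV]; omega
  by_cases hlt : s.mem (S + v) < c
  · have hk' := hk _ hlt
    refine EX.iteT ?_ ?_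
    · simp [rT1, rT2, rY, rSI, rV, rCnt, h1, h4, h5]; omega
    refine EX.cons (EX.add ?_ (EX.cons (EX.load (EX.cons ?_))))
    · simp [rT1, rT2, rY, rSI, rSL, rV, rCnt, h1, h2, h4, h5]; omega
    unfold eqTest
    refine EX.cons (EX.sub (EX.cons (EX.sub (EX.last (EX.add ?_ (EX.last ?_))))))
    · simp [rT1, rT2, rT3, rY, rSI, rSL, rV, rCnt, h1, h2, h4, h5]; omega
    by_cases heq : s.mem (S + n + s.mem (S + v)) = v
    · refine EX.iteF ?_ ?_
      · simp [rT1, rT2, rT3, rY, rSI, rSL, rV, rCnt, h1, h2, h4, h5, heq]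
      refine EX.cons (EX.add ?_ (EX.last (EX.load ?_)))
      · simp [rT1, rT2, rT3, rY, rSI, rSL, rSV, rV, rCnt, h1, h2, h3, h4, h5, heq]; omega
      rw [if_pos ⟨hlt, heq⟩] at hvv
      refine ⟨by simp, ?_, by simp, ?_, ?_⟩
      · intro r hr
        simp [rT1, rT2, rT3, rY, rVal] at hr ⊢
        simp [hr]
      · simp [rT1, rT2, rT3, rY, rVal, rSI, rSL, rSV, rV, rCnt, h1, h2, h3, h4, h5, hvv]
      · intro _
        simp [rT1, rT2, rT3, rY, rVal, rSI, rSL, rSV, rV, rCnt, h1, h2, h3, h4, h5, heq, hlt]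
    · refine EX.iteT ?_ (EX.const (by omega) ?_)
      · simp [rT1, rT2, rT3, rY, rSI, rSL, rV, rCnt, h1, h2, h4, h5]; omega
      rw [if_neg (fun h => heq h.2)] at hvv
      refine ⟨by simp, ?_, by simp, ?_, ?_⟩
      · intro r hr
        simp [rT1, rT2, rT3, rY, rVal] at hr ⊢
        simp [hr]
      · simp [rVal, ← hvv]
      · intro h; exact absurd hvv.symm h
  · refine EX.iteF ?_ (EX.const (by omega) ?_)
    · simp [rT1, rT2, rY, rSI, rV, rCnt, h1, h4, h5]; omega
    rw [if_neg (fun h => hlt h.1)] at hvv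
    refine ⟨by simp, ?_, by simp, ?_, ?_⟩
    · intro r hr
      simp [rT1, rT2, rT3, rY, rVal] at hr ⊢
      simp [hr]
    · simp [rVal, ← hvv]
    · intro h; exact absurd hvv.symm h

end DDA
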