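import Pool.Agent.Lib.MP_dd2a0a_lc.OR.RTool

/-! # MP_dd2a0a_lc, piece R11: insert a list of vertices with value 1 -/

namespace DDA

/-- the body of the loop -/
private def mkBody : Cmd := blk [Cmd.sub rV rE rOne, insertC 1, Cmd.add rP rP rOne, Cmd.load rE rP]

private theorem mark_loop (h6 : S_insert) (M S n : ℕ) (hM : S + 3 * n + 10 ≤ M) :
    ∀ (l : List ℕ) (c : ℕ) (val : ℕ → ℕ) (s : St),
    MapInv s.mem S n c val → ListAt s.mem (fun a => a < S) (s.reg rP) l → l.Nodup →
    (∀ v ∈ l, v < n ∧ val v = 0) → s.reg rSI = S → s.reg rSL = S + n → s.reg rSV = S + n + n →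
    s.reg rCnt = c → s.reg rOne = 1 → s.reg rE = s.mem (s.reg rP) →
    EX M (Cmd.loop rE mkBody) s (fun t s' => ∃ c' : ℕ,
      Keep [rT1, rT2, rCnt, rP, rE, rV] s s' ∧ t ≤ 1 + 12 * l.length ∧ s'.reg rCnt = c' ∧
      MapInv s'.mem S n c' (fun v => if v ∈ l then 1 else val v) ∧
      (∀ a, (a < S ∨ S + 3 * n ≤ a) → s'.mem a = s.mem a)) := by
  intro l
  induction l with
  | nil =>
    intro c val s hI hL _ _ _ _ _ hc _ hE
    refine EX.loop0 ?_ ⟨c, ?_, by simp, hc, ?_, fun _ _ => rfl⟩
    · rw [hE]; exact hL.1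
    · intro r _; rfl
    · simpa using hI
  | cons v l ih =>
    intro c val s hI hL hN hv hSI hSL hSV hc h1 hE
    obtain ⟨hL1, hL2, hL3⟩ := hL
    have hL2' : s.reg rP < S := hL2
    obtain ⟨hvn, hv0⟩ := hv v List.mem_cons_self
    have hEv : s.reg rE = v + 1 := hE.trans hL1
    refine EX.loop1 (by rw [hEv]; omega) ?_
    have hsub : s.reg rE - s.reg rOne = v := by rw [hEv, h1]; omega
    refine EX.cons (EX.sub (EX.cons ?_))
    rw [hsub]
    obtain ⟨t2, s2, x1, x2, x3, x4, x5, x6⟩ := h6 M S n c v 1 val (s.set rV v) hI hvn one_ne_zero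
      (by omega) hv0 hM (by simpa [rSI, rV] using hSI) (by simpa [rSL, rV] using hSL)
      (by simpa [rSV, rV] using hSV) (by simpa [rCnt, rV] using hc) (by simp [rV])
      (by simpa [rOne, rV] using h1)
    have k2 : ∀ r, r ≠ rT1 → r ≠ rT2 → r ≠ rCnt → r ≠ rV → s2.reg r = s.reg r := by
      intro r g1 g2 g3 g4
      rw [x2 r (by simp [g1, g2, g3])]
      simp [g4]
    have kP : s2.reg rP = s.reg rP := k2 rP (by decide) (by decide) (by decide) (by decide)
    have k1 : s2.reg rOne = 1 := by
      rw [k2 rOne (by decide) (by decide) (by decide) (by decide)]; exact h1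
    refine ⟨t2, s2, x1, ?_⟩
    refine EX.cons (EX.add ?_ (EX.last (EX.load ?_)))
    · rw [kP, k1]; omega
    rw [kP, k1]
    set s4 : St := (s2.set rP (s.reg rP + 1)).set rE
      ((s2.set rP (s.reg rP + 1)).mem ((s2.set rP (s.reg rP + 1)).reg rP)) with hs4
    have m4 : s4.mem = s2.mem := rfl
    have r4P : s4.reg rP = s.reg rP + 1 := by simp [hs4, rP, rE]
    have r4E : s4.reg rE = s4.mem (s4.reg rP) := by rw [r4P]; simp [hs4, rP, rE]
    have r4 : ∀ r, r ≠ rP → r ≠ rE → s4.reg r = s2.reg r := by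
      intro r g1 g2
      simp [hs4, g1, g2]
    have hmem : ∀ a, (a < S ∨ S + 3 * n ≤ a) → s4.mem a = s.mem a := fun a ha => x6 a ha
    have q1 : MapInv s4.mem S n (c + 1) (Function.update val v 1) := x5
    have q2 : ListAt s4.mem (fun a => a < S) (s4.reg rP) l := by
      rw [r4P]
      exact ListAt.congr (fun a ha => hmem a (Or.inl ha)) _ _ hL3
    obtain ⟨hN1, hN2⟩ := List.nodup_cons.1 hN
    have q3 : ∀ x ∈ l, x < n ∧ Function.update val v 1 x = 0 := by
      intro x hx
      have hne : x ≠ v := fun e => hN1 (e ▸ hx)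
      rw [Function.update_of_ne hne]
      exact hv x (List.mem_cons_of_mem _ hx)
    have q4 : s4.reg rSI = S := by
      rw [r4 _ (by decide) (by decide), k2 _ (by decide) (by decide) (by decide) (by decide)]
      exact hSI
    have q5 : s4.reg rSL = S + n := by
      rw [r4 _ (by decide) (by decide), k2 _ (by decide) (by decide) (by decide) (by decide)]
      exact hSL
    have q6 : s4.reg rSV = S + n + n := by
      rw [r4 _ (by decide) (by decide), k2 _ (by decide) (by decide) (by decide) (by decide)]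
      exact hSV
    have q7 : s4.reg rCnt = c + 1 := by
      rw [r4 _ (by decide) (by decide)]
      exact x4
    have q8 : s4.reg rOne = 1 := by
      rw [r4 _ (by decide) (by decide)]
      exact k1
    refine (ih (c + 1) _ s4 q1 q2 hN2 q3 q4 q5 q6 q7 q8 r4E).mono ?_
    rintro t' s' ⟨c', y1, y2, y3, y4, y5⟩
    refine ⟨c', ?_, ?_, y3, ?_, ?_⟩
    · intro r hr
      rw [y1 r hr]
      simp only [List.mem_cons, List.not_mem_nil, or_false, not_or] at hr
      obtain ⟨g1, g2, g3, g4, g5, g6⟩ := hr
      rw [r4 r g4 g5, k2 r g1 g2 g3 g6]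
    · rw [List.length_cons]
      omega
    · have e : (fun x => if x ∈ v :: l then 1 else val x) =
          fun x => if x ∈ l then 1 else Function.update val v 1 x := by
        funext x
        by_cases hx : x ∈ l
        · rw [if_pos hx, if_pos (List.mem_cons_of_mem _ hx)]
        · rw [if_neg hx]
          by_cases hxv : x = v
          · rw [hxv, if_pos List.mem_cons_self, Function.update_self]
          · rw [Function.update_of_ne hxv, if_neg (fun h => by
              rcases List.mem_cons.1 h with h | h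
              · exact hxv h
              · exact hx h)]
      rw [e]
      exact y4
    · intro a ha
      rw [y5 a ha]
      exact hmem a ha

theorem piece_mark (h6 : S_insert) : S_mark := by
  intro M S n c l val s hI hL hN hv hM hSI hSL hSV hc h1
  show ∃ (t : ℕ) (s' : St) (c' : ℕ), _
  have key : EX M markC s (fun t s' => ∃ c' : ℕ,
      Keep [rT1, rT2, rCnt, rP, rE, rV] s s' ∧ t ≤ 2 + 12 * l.length ∧ s'.reg rCnt = c' ∧
      MapInv s'.mem S n c' (fun v => if v ∈ l then 1 else val v) ∧
      (∀ a, (a < S ∨ S + 3 * n ≤ a) → s'.mem a = s.mem a)) := by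
    unfold markC
    refine EX.cons (EX.load (EX.last ?_))
    set s1 : St := s.set rE (s.mem (s.reg rP)) with hs1
    have r1 : ∀ r, r ≠ rE → s1.reg r = s.reg r := by
      intro r hr
      simp [hs1, hr]
    have hP : s1.reg rP = s.reg rP := r1 _ (by decide)
    refine (mark_loop h6 M S n hM l c val s1 hI (by rw [hP]; exact hL) hN hv
      (by rw [r1 _ (by decide)]; exact hSI) (by rw [r1 _ (by decide)]; exact hSL)
      (by rw [r1 _ (by decide)]; exact hSV) (by rw [r1 _ (by decide)]; exact hc)
      (by rw [r1 _ (by decide)]; exact h1) (by rw [hP]; simp [hs1])).mono ?_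
    rintro t' s' ⟨c', y1, y2, y3, y4, y5⟩
    refine ⟨c', ?_, by omega, y3, y4, y5⟩
    intro r hr
    rw [y1 r hr]
    apply r1
    simp only [List.mem_cons, List.not_mem_nil, or_false, not_or] at hr
    exact hr.2.2.2.2.1
  obtain ⟨t, s', h, c', hc'⟩ := key
  exact ⟨t, s', c', h, hc'⟩

end DDA
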