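import Pool.Agent.Lib.MP_dd2a0a_lc.OR.Stm

set_option autoImplicit false

/-!
# MP_dd2a0a_lc : large moments of the codegree
-/

namespace DDA

open Finset

private theorem mo_key (D k : ℕ) (hk : 20 ≤ k) :
    (13 / 10 : ℝ) ^ (pp D k) ≤
      (1 / 8 : ℝ) * (9 / 20 * (1 / 4 : ℝ) ^ D) ^ (k + 1) * (137 / 100) ^ (pp D k) := by
  have h1 : (1 / 128 : ℝ) ^ (k * (D + 1)) ≤ (1 / 8 : ℝ) * (9 / 20 * (1 / 4 : ℝ) ^ D) ^ (k + 1) := by
    have e1 : (1 / 128 : ℝ) ^ (k * (D + 1)) = (1 / 8) ^ (k * (D + 1)) * (1 / 16) ^ (k * (D + 1)) := by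
      rw [← mul_pow]
      norm_num
    have e2 : (1 / 8 : ℝ) ^ (k * (D + 1)) ≤ 1 / 8 := by
      calc (1 / 8 : ℝ) ^ (k * (D + 1)) ≤ (1 / 8) ^ 1 :=
            pow_le_pow_of_le_one (by norm_num) (by norm_num) (Nat.mul_pos (by omega) (by omega))
        _ = _ := pow_one _
    have e3 : (1 / 16 : ℝ) ^ (k * (D + 1)) ≤ (9 / 20 * (1 / 4 : ℝ) ^ D) ^ (k + 1) := by
      have h : (1 / 16 : ℝ) ^ (k * (D + 1)) = ((1 / 4) ^ (D + 1)) ^ (2 * k) := by
        rw [← pow_mul, show (1 / 16 : ℝ) = (1 / 4) ^ 2 by norm_num, ← pow_mul]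
        congr 1
        ring
      rw [h]
      calc ((1 / 4 : ℝ) ^ (D + 1)) ^ (2 * k) ≤ ((1 / 4 : ℝ) ^ (D + 1)) ^ (k + 1) :=
            pow_le_pow_of_le_one (by positivity) (pow_le_one₀ (by norm_num) (by norm_num))
              (by omega)
        _ ≤ _ := by
            refine pow_le_pow_left₀ (by positivity) ?_ _
            rw [pow_succ, mul_comm]
            exact mul_le_mul_of_nonneg_right (by norm_num) (by positivity)
    rw [e1]
    exact mul_le_mul e2 e3 (by positivity) (by norm_num)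
  have h2 : (13 / 10 : ℝ) ^ (pp D k) ≤ (1 / 128) ^ (k * (D + 1)) * (137 / 100) ^ (pp D k) := by
    have h : pp D k = 100 * (k * (D + 1)) := by
      unfold pp
      ring
    rw [h, pow_mul (13 / 10 : ℝ) 100 (k * (D + 1)), pow_mul (137 / 100 : ℝ) 100 (k * (D + 1)),
      ← mul_pow]
    exact pow_le_pow_left₀ (by positivity) (by norm_num) _
  exact h2.trans (mul_le_mul_of_nonneg_right h1 (by positivity))

theorem piece_moment : S_moment := by
  intro D k α A W U hk hα _ hrd hP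
  have hjn : ∀ w w', 0 ≤ jn A A U w w' := fun w w' => by
    unfold jn
    positivity
  set P := (W ×ˢ W).filter (fun e => 63 / 160 * α ^ 2 ≤ cross A A U e.1 e.2) with hPdef
  have h1 : ∑ w ∈ W, ∑ w' ∈ W, (jn A A U w w') ^ (pp D k) =
      ∑ e ∈ W ×ˢ W, (jn A A U e.1 e.2) ^ (pp D k) := by
    rw [Finset.sum_product]
  have h2 : ∑ e ∈ P, (jn A A U e.1 e.2) ^ (pp D k) ≤
      ∑ e ∈ W ×ˢ W, (jn A A U e.1 e.2) ^ (pp D k) :=
    Finset.sum_le_sum_of_subset_of_nonneg (Finset.filter_subset _ _)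
      (fun e _ _ => pow_nonneg (hjn _ _) _)
  have h3 : (P.card : ℝ) * (137 / 100 * α ^ 2) ^ (pp D k) ≤
      ∑ e ∈ P, (jn A A U e.1 e.2) ^ (pp D k) := by
    rw [← nsmul_eq_mul]
    refine Finset.card_nsmul_le_sum _ _ _ fun e he => ?_
    refine pow_le_pow_left₀ (by positivity) ?_ _
    obtain ⟨he1, he2⟩ := Finset.mem_filter.1 he
    obtain ⟨hw, hw'⟩ := Finset.mem_product.1 he1
    have a1 := hrd _ hw
    have a2 := hrd _ hw'
    have a3 : (99 / 100 * α) * (99 / 100 * α) ≤ rd A U e.1 * rd A U e.2 :=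
      mul_le_mul a1 a2 (by positivity) ((by positivity : (0 : ℝ) ≤ 99 / 100 * α).trans a1)
    unfold cross at he2
    nlinarith [sq_nonneg α]
  have h4 := mo_key D k hk
  have h5 : (13 / 10 * α ^ 2) ^ (pp D k) * (W.card : ℝ) ^ 2 ≤
      (P.card : ℝ) * (137 / 100 * α ^ 2) ^ (pp D k) := by
    have h6 : (0 : ℝ) ≤ (α ^ 2) ^ (pp D k) := by positivity
    calc (13 / 10 * α ^ 2) ^ (pp D k) * (W.card : ℝ) ^ 2
        = (13 / 10) ^ (pp D k) * ((α ^ 2) ^ (pp D k) * (W.card : ℝ) ^ 2) := by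
          rw [mul_pow]
          ring
      _ ≤ ((1 / 8 : ℝ) * (9 / 20 * (1 / 4 : ℝ) ^ D) ^ (k + 1) * (137 / 100) ^ (pp D k)) *
          ((α ^ 2) ^ (pp D k) * (W.card : ℝ) ^ 2) :=
          mul_le_mul_of_nonneg_right h4 (by positivity)
      _ = ((1 / 8 : ℝ) * (9 / 20 * (1 / 4 : ℝ) ^ D) ^ (k + 1) * (W.card : ℝ) ^ 2) *
          (137 / 100 * α ^ 2) ^ (pp D k) := by
          rw [mul_pow (137 / 100 : ℝ)]
          ring
      _ ≤ _ := mul_le_mul_of_nonneg_right hP (by positivity)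
  rw [h1]
  exact h5.trans (h3.trans h2)

end DDA
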