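import Pool.Agent.Lib.MP_dd2a0a_lc.OR.StmG

namespace DDA

open Finset Filter

private lemma num1_pow (m : ℕ) (h : 9 ≤ m) : 32 * (m + 1) ≤ 2 ^ m := by
  induction m, h using Nat.le_induction with
  | base => norm_num
  | succ k hk ih => rw [pow_succ]; omega

private lemma num1_N (n : ℕ) (hn : n ≠ 0) : 2 ^ (pL n / 4) ≤ pN n := by
  unfold pN
  rw [Nat.le_sqrt, Nat.le_sqrt]
  have h1 : 2 ^ pL n ≤ n := Nat.pow_log_le_self 2 hn
  calc 2 ^ (pL n / 4) * 2 ^ (pL n / 4) * (2 ^ (pL n / 4) * 2 ^ (pL n / 4))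
      = 2 ^ (4 * (pL n / 4)) := by
        rw [← pow_add, ← pow_add]; congr 1; ring
    _ ≤ 2 ^ pL n := Nat.pow_le_pow_right (by norm_num) (Nat.mul_div_le _ _)
    _ ≤ n := h1

theorem piece_num1 (h8 : S_dom) : S_num1 := by
  unfold S_num1
  filter_upwards [h8 40 0, h8 1 2, eventually_ge_atTop 2] with n h40 h2 hn2
  have hn0 : n ≠ 0 := by omega
  have hL : 40 ≤ pL n := by simpa using h40
  have hl2 : (pl n + 1) ^ 2 ≤ pL n := by simpa using h2
  have hl1 : 1 ≤ pl n := by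
    unfold pl
    apply Nat.log_pos (by norm_num)
    have : pL n = Nat.log 2 n := rfl
    omega
  have hD : 1 ≤ pD n := by
    unfold pD
    exact Nat.one_le_pow _ _ hl1
  have hDL : pD n ≤ pL n := by
    refine le_trans ?_ hl2
    unfold pD
    exact Nat.pow_le_pow_left (by omega) 2
  have hN := num1_N n hn0
  have hN0 : 0 < pN n := lt_of_lt_of_le (by positivity) hN
  have hb : 0 < pb n := by
    unfold pb
    apply Nat.div_pos _ (by unfold pg; positivity)
    refine le_trans ?_ hN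
    unfold pg
    rw [← pow_mul]
    apply Nat.pow_le_pow_right (by norm_num)
    omega
  have hN8 : 8 * (pL n + 1) ≤ pN n := by
    refine le_trans ?_ hN
    refine le_trans ?_ (num1_pow (pL n / 4) (by omega))
    omega
  have ht : pt n ≤ n := by
    unfold pt
    have h1 : 4 * (pL n + 1) * n / pN n ≤ 4 * (pL n + 1) * n / (8 * (pL n + 1)) :=
      Nat.div_le_div_left hN8 (by omega)
    have h3 : 4 * (pL n + 1) * n / (8 * (pL n + 1)) = n / 2 := by
      rw [show 4 * (pL n + 1) * n = (4 * (pL n + 1)) * n by ring,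
        show 8 * (pL n + 1) = (4 * (pL n + 1)) * 2 by ring]
      exact Nat.mul_div_mul_left n 2 (by omega)
    omega
  refine ⟨hD, by omega, hb, ht, ?_⟩
  have hnR : (0 : ℝ) < n := by exact_mod_cast Nat.pos_of_ne_zero hn0
  have htN : 4 * (pL n + 1) * n < pt n * pN n := by
    unfold pt
    have := Nat.lt_div_mul_add hN0 (a := 4 * (pL n + 1) * n)
    rw [add_mul, one_mul]
    exact this
  have htNR : (4 * ((pL n : ℝ) + 1)) * n < (pt n : ℝ) * pN n := by exact_mod_cast htN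
  have h1 : (1 - (pt n : ℝ) / n) ^ (pN n) ≤ Real.exp (-(4 * ((pL n : ℝ) + 1))) := by
    have h4 : (1 - (pt n : ℝ) / n) ≤ Real.exp (-((pt n : ℝ) / n)) := by
      have := Real.add_one_le_exp (-((pt n : ℝ) / n))
      linarith
    have h5 : 0 ≤ 1 - (pt n : ℝ) / n := by
      rw [sub_nonneg, div_le_one hnR]
      exact_mod_cast ht
    calc (1 - (pt n : ℝ) / n) ^ (pN n) ≤ (Real.exp (-((pt n : ℝ) / n))) ^ (pN n) :=
          pow_le_pow_left₀ h5 h4 _
      _ = Real.exp ((pN n : ℝ) * (-((pt n : ℝ) / n))) := by rw [← Real.exp_nat_mul]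
      _ ≤ Real.exp (-(4 * ((pL n : ℝ) + 1))) := by
          apply Real.exp_le_exp.mpr
          have h6 : 4 * ((pL n : ℝ) + 1) ≤ (pt n : ℝ) * pN n / n := by
            rw [le_div_iff₀ hnR]; exact htNR.le
          have h7 : (pN n : ℝ) * (-((pt n : ℝ) / n)) = -((pt n : ℝ) * pN n / n) := by ring
          rw [h7]
          linarith
  have h2' : (n : ℝ) ^ 2 < Real.exp (4 * ((pL n : ℝ) + 1)) := by
    have h3 : n < 2 ^ (pL n + 1) := Nat.lt_pow_succ_log_self (by norm_num) n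
    have h3R : (n : ℝ) < 2 ^ (pL n + 1) := by exact_mod_cast h3
    have h4 : (n : ℝ) ^ 2 < (2 ^ (pL n + 1)) ^ 2 := pow_lt_pow_left₀ h3R hnR.le (by norm_num)
    refine lt_of_lt_of_le h4 ?_
    have h5 : (4 : ℝ) ≤ Real.exp 4 := by
      have := Real.add_one_le_exp (4 : ℝ)
      linarith
    calc ((2 : ℝ) ^ (pL n + 1)) ^ 2 = 4 ^ (pL n + 1) := by
          rw [← pow_mul, mul_comm, pow_mul]; norm_num
      _ ≤ (Real.exp 4) ^ (pL n + 1) := pow_le_pow_left₀ (by norm_num) h5 _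
      _ = Real.exp (4 * ((pL n : ℝ) + 1)) := by
          rw [← Real.exp_nat_mul]; congr 1; push_cast; ring
  calc (n : ℝ) ^ 2 * (1 - (pt n : ℝ) / n) ^ (pN n)
      ≤ (n : ℝ) ^ 2 * Real.exp (-(4 * ((pL n : ℝ) + 1))) :=
        mul_le_mul_of_nonneg_left h1 (by positivity)
    _ < Real.exp (4 * ((pL n : ℝ) + 1)) * Real.exp (-(4 * ((pL n : ℝ) + 1))) :=
        mul_lt_mul_of_pos_right h2' (Real.exp_pos _)
    _ = 1 := by rw [← Real.exp_add]; simp

end DDA
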