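import Mathlib
import Pool.Agent.Lib.MP_dd2a0a_lc.OR.StmG

set_option autoImplicit false

namespace DDA

theorem piece_num2 : S_num2 := by
  intro c0 n
  have hg : 0 < pg n := by unfold pg; positivity
  have h1 : n ≤ (n / pg n + 1) * pg n := by
    have := Nat.lt_div_mul_add hg (a := n)
    have h2 : (n / pg n + 1) * pg n = n / pg n * pg n + pg n := by ring
    omega
  unfold pE pB
  calc pt n * (n + c0 * n) = n * (pt n * (1 + c0)) := by ring
    _ ≤ ((n / pg n + 1) * pg n) * (pt n * (1 + c0)) := Nat.mul_le_mul_right _ h1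
    _ = (n / pg n + 1) * (pg n * pt n * (1 + c0)) := by ring
    _ ≤ (n / pg n + 1) * (pg n * pt n * (1 + c0) + 1) := Nat.mul_le_mul_left _ (Nat.le_succ _)

end DDA
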