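import Pool.Agent.Lib.MP_dd2a0a_lc.OR.Stm

/-!
# Part K : nonnegativity of the moments of the covariance
-/

namespace DDA

open Finset

noncomputable section

/-- the centred indicator -/
private def odd_g (A : Mat) (U : Finset ℕ) (w u : ℕ) : ℝ :=
  (if (w, u) ∈ A then 1 else 0) - rd A U w

private theorem odd_cross (A C : Mat) (U : Finset ℕ) (hU : U.Nonempty) (w z : ℕ) :
    cross A C U w z = (U.card : ℝ)⁻¹ * ∑ u ∈ U, odd_g A U w u * odd_g C U z u := by
  have hc : (U.card : ℝ) ≠ 0 := by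
    have := hU.card_pos
    positivity
  have h1 : ∀ (B : Mat) (x : ℕ), ∑ u ∈ U, (if (x, u) ∈ B then (1 : ℝ) else 0) =
      rd B U x * (U.card : ℝ) := by
    intro B x
    rw [rd, div_mul_cancel₀ _ hc, ← Finset.sum_filter, Finset.sum_const, nsmul_eq_mul, mul_one]
  have h2 : ∑ u ∈ U, (if (w, u) ∈ A then (1 : ℝ) else 0) * (if (z, u) ∈ C then (1 : ℝ) else 0) =
      jn A C U w z * (U.card : ℝ) := by
    have : ∀ u ∈ U, (if (w, u) ∈ A then (1 : ℝ) else 0) * (if (z, u) ∈ C then (1 : ℝ) else 0) =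
        if (w, u) ∈ A ∧ (z, u) ∈ C then (1 : ℝ) else 0 := by
      intro u _
      by_cases h : (w, u) ∈ A <;> by_cases h' : (z, u) ∈ C <;> simp [h, h']
    rw [Finset.sum_congr rfl this, jn, div_mul_cancel₀ _ hc, ← Finset.sum_filter,
      Finset.sum_const, nsmul_eq_mul, mul_one]
  have h3 : ∑ u ∈ U, odd_g A U w u * odd_g C U z u =
      ∑ u ∈ U, (if (w, u) ∈ A then (1 : ℝ) else 0) * (if (z, u) ∈ C then (1 : ℝ) else 0)
      - rd C U z * ∑ u ∈ U, (if (w, u) ∈ A then (1 : ℝ) else 0)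
      - rd A U w * ∑ u ∈ U, (if (z, u) ∈ C then (1 : ℝ) else 0)
      + (U.card : ℝ) * (rd A U w * rd C U z) := by
    rw [Finset.mul_sum, Finset.mul_sum, ← Finset.sum_sub_distrib, ← Finset.sum_sub_distrib]
    have : (U.card : ℝ) * (rd A U w * rd C U z) = ∑ _u ∈ U, rd A U w * rd C U z := by
      rw [Finset.sum_const, nsmul_eq_mul]
    rw [this, ← Finset.sum_add_distrib]
    refine Finset.sum_congr rfl fun u _ => ?_
    simp only [odd_g]
    ring
  rw [h3, h2, h1, h1, cross]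
  field_simp
  ring

theorem piece_odd : S_odd := by
  intro A W U j hU
  have h1 : ∀ w w' : ℕ, (cross A A U w w') ^ j = ((U.card : ℝ)⁻¹) ^ j *
      ∑ v ∈ Fintype.piFinset (fun _ : Fin j => U),
        (∏ i, odd_g A U w (v i)) * (∏ i, odd_g A U w' (v i)) := by
    intro w w'
    rw [odd_cross A A U hU, mul_pow, Finset.sum_pow']
    congr 1
    refine Finset.sum_congr rfl fun v _ => ?_
    rw [Finset.prod_mul_distrib]
  simp only [h1]
  simp only [← Finset.mul_sum]
  refine mul_nonneg (by positivity) ?_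
  have h2 : ∑ w ∈ W, ∑ w' ∈ W, ∑ v ∈ Fintype.piFinset (fun _ : Fin j => U),
      (∏ i, odd_g A U w (v i)) * (∏ i, odd_g A U w' (v i)) =
      ∑ v ∈ Fintype.piFinset (fun _ : Fin j => U), (∑ w ∈ W, ∏ i, odd_g A U w (v i)) ^ 2 := by
    have h3 : ∀ w ∈ W, ∑ w' ∈ W, ∑ v ∈ Fintype.piFinset (fun _ : Fin j => U),
        (∏ i, odd_g A U w (v i)) * (∏ i, odd_g A U w' (v i)) =
        ∑ v ∈ Fintype.piFinset (fun _ : Fin j => U), ∑ w' ∈ W,
        (∏ i, odd_g A U w (v i)) * (∏ i, odd_g A U w' (v i)) := fun w _ => Finset.sum_comm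
    rw [Finset.sum_congr rfl h3, Finset.sum_comm]
    refine Finset.sum_congr rfl fun v _ => ?_
    rw [sq, Finset.sum_mul_sum]
  rw [h2]
  exact Finset.sum_nonneg fun v _ => sq_nonneg _

end

end DDA
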