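import Pool.Agent.Lib.MP_dd2a0a_lc.OR.Stm

/-!
Piece K14: one level of the box decomposition.
-/

namespace DDA

open Finset

noncomputable section

private lemma one_vsum_append (l₁ l₂ : List Box) : vsum (l₁ ++ l₂) = vsum l₁ + vsum l₂ := by
  simp [vsum]

private lemma one_vsum_flatMap (l : List Pc) (f : Pc → List Box) :
    vsum (l.flatMap f) = (l.map (fun P => vsum (f P))).sum := by
  induction l with
  | nil => simp [vsum]
  | cons a l ih => rw [List.flatMap_cons, one_vsum_append, ih]; simp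

private lemma one_vsum_map (l : List Pc) (f : Pc → Box) :
    vsum (l.map f) = (l.map (fun P => (f P).vol)).sum := by
  simp [vsum, Function.comp_def]

/-- the part of `C` in the columns of the piece `P` -/
private def one_CP (C : Mat) (P : Pc) : Mat := C.filter (fun e => e.2 ∈ P.U)

/-- the thin rows -/
private def one_low (P R : Pc) : Finset ℕ :=
  P.W.filter (fun w => rd P.A R.U w < 99 / 100 * dens P.A P.W P.U)

/-- the other rows -/
private def one_nlow (P R : Pc) : Finset ℕ :=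
  P.W.filter (fun w => ¬ (rd P.A R.U w < 99 / 100 * dens P.A P.W P.U))

private def one_box (H : Finset ℕ) (P R : Pc) : Box :=
  ⟨H, R.U, R.W, P.A ∩ (H ×ˢ R.U), R.A⟩

private lemma one_kk (D : ℕ) : 20 ≤ kk D ∧ Even (kk D) ∧ D ≤ kk D := by
  refine ⟨by unfold kk; omega, ?_, by unfold kk; omega⟩
  exact ⟨D + 10, by unfold kk; omega⟩

/-- what the second greedy decomposition gives for the piece `P` -/
private def one_Sec (D : ℕ) (C : Mat) (Z : Finset ℕ) (P : Pc) (m : List Pc) : Prop :=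
  (∀ R ∈ m, R.W ⊆ Z ∧ R.U ⊆ P.U ∧ R.W.Nonempty ∧ R.U.Nonempty ∧ R.A ⊆ one_CP C P ∧
      R.A ⊆ R.W ×ˢ R.U ∧ QMax (q2 D) R.A R.W R.U ∧ (1 / 2 : ℝ) ^ D < dens R.A R.W R.U ∧
      (1 / 2 : ℝ) ^ (D * q2 D) * ((Z.card : ℝ) * (P.U.card : ℝ)) ≤
        (R.W.card : ℝ) * (R.U.card : ℝ)) ∧
    (((one_CP C P).filter (fun e => ∀ R ∈ m, e ∉ R.A)).card : ℝ) ≤
      (1 / 2 : ℝ) ^ D * ((Z.card : ℝ) * (P.U.card : ℝ)) ∧
    (m.map (fun R => (R.W.card : ℝ) * (R.U.card : ℝ))).sum ≤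
      (1 + (D : ℝ)) * ((Z.card : ℝ) * (P.U.card : ℝ)) ∧
    (m.length : ℝ) ≤ 2 ^ (D * (q2 D + 1))

private lemma one_colsize {D : ℕ} {C : Mat} {Z : Finset ℕ} {P R : Pc} {m : List Pc}
    (hZ : Z.Nonempty) (h : one_Sec D C Z P m) (hR : R ∈ m) :
    (1 / 2 : ℝ) ^ (D * q2 D) * (P.U.card : ℝ) ≤ (R.U.card : ℝ) := by
  obtain ⟨h1, -, -, -, -, -, -, -, h9⟩ := h.1 R hR
  have hZ' : (0 : ℝ) < (Z.card : ℝ) := by exact_mod_cast hZ.card_pos
  have h2 : (R.W.card : ℝ) ≤ (Z.card : ℝ) := by exact_mod_cast Finset.card_le_card h1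
  have h3 : (Z.card : ℝ) * ((1 / 2 : ℝ) ^ (D * q2 D) * (P.U.card : ℝ)) ≤
      (Z.card : ℝ) * (R.U.card : ℝ) := by
    calc (Z.card : ℝ) * ((1 / 2 : ℝ) ^ (D * q2 D) * (P.U.card : ℝ))
        = (1 / 2 : ℝ) ^ (D * q2 D) * ((Z.card : ℝ) * (P.U.card : ℝ)) := by ring
      _ ≤ (R.W.card : ℝ) * (R.U.card : ℝ) := h9
      _ ≤ (Z.card : ℝ) * (R.U.card : ℝ) := mul_le_mul_of_nonneg_right h2 (by positivity)
  exact le_of_mul_le_mul_left h3 hZ'

private lemma one_good (h8 : S_prod) (h12 : S_regA) (h13 : S_regC) {D : ℕ} (hD : 1 ≤ D)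
    {C : Mat} {Z : Finset ℕ} {P R : Pc} {m : List Pc} (hZ : Z.Nonempty)
    (hPW : P.W.Nonempty) (hmax : QMax (q1 D) P.A P.W P.U)
    (hdens : (1 / 2 : ℝ) ^ D < dens P.A P.W P.U)
    (h : one_Sec D C Z P m) (hR : R ∈ m) :
    GoodB D (one_box (one_nlow P R) P R) := by
  have hcol := one_colsize hZ h hR
  obtain ⟨-, hRU, hRWn, hRUn, -, -, hRmax, hRd, -⟩ := h.1 R hR
  obtain ⟨hne, hreg⟩ := h12 D P.A P.W P.U R.U hD hPW hRUn hRU hmax hdens hcol
  have hregC := h13 D R.A R.W R.U hD hRWn hRUn hRmax hRd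
  obtain ⟨hk1, hk2, hk3⟩ := one_kk D
  have hp := h8 D (kk D) _ _ _ P.A R.A _ R.W R.U hk1 hk2 hne hRWn hRUn hreg hregC
  unfold GoodB
  have hfil : ((one_nlow P R ×ˢ R.W).filter (fun p => ∀ u ∈ R.U,
      ¬ ((p.1, u) ∈ P.A ∩ (one_nlow P R ×ˢ R.U) ∧ (p.2, u) ∈ R.A))) =
      ((one_nlow P R ×ˢ R.W).filter (fun p => ∀ u ∈ R.U,
      ¬ ((p.1, u) ∈ P.A ∧ (p.2, u) ∈ R.A))) := by
    apply Finset.filter_congr
    intro p hp
    have hp1 : p.1 ∈ one_nlow P R := (Finset.mem_product.mp hp).1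
    constructor
    · intro H u hu hcon
      apply H u hu
      exact ⟨Finset.mem_inter.mpr ⟨hcon.1, Finset.mem_product.mpr ⟨hp1, hu⟩⟩, hcon.2⟩
    · intro H u hu hcon
      exact H u hu ⟨(Finset.mem_inter.mp hcon.1).1, hcon.2⟩
  show ((((one_nlow P R) ×ˢ R.W).filter (fun p => ∀ u ∈ R.U,
      ¬ ((p.1, u) ∈ P.A ∩ (one_nlow P R ×ˢ R.U) ∧ (p.2, u) ∈ R.A))).card : ℝ) ≤
      (1 / 2 : ℝ) ^ D * (((one_nlow P R).card : ℝ) * (R.W.card : ℝ))
  rw [hfil]
  refine le_trans hp ?_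
  apply mul_le_mul_of_nonneg_right _ (by positivity)
  exact pow_le_pow_of_le_one (by norm_num) (by norm_num) hk3

private lemma one_vol_gd {D : ℕ} {C : Mat} {Z : Finset ℕ} {P : Pc} {m : List Pc}
    (h : one_Sec D C Z P m) (H : Pc → Finset ℕ) (t : ℝ)
    (hH : ∀ R ∈ m, ((H R).card : ℝ) ≤ t * (P.W.card : ℝ)) (ht : 0 ≤ t) :
    vsum (m.map (fun R => one_box (H R) P R)) ≤
      t * (1 + (D : ℝ)) * (((P.W.card : ℝ) * (P.U.card : ℝ)) * (Z.card : ℝ)) := by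
  rw [one_vsum_map]
  have h1 : (m.map (fun R => (one_box (H R) P R).vol)).sum ≤
      (m.map (fun R => (t * (P.W.card : ℝ)) * ((R.W.card : ℝ) * (R.U.card : ℝ)))).sum := by
    apply List.sum_le_sum
    intro R hR
    show ((H R).card : ℝ) * (R.U.card : ℝ) * (R.W.card : ℝ) ≤ _
    have h2 := hH R hR
    calc ((H R).card : ℝ) * (R.U.card : ℝ) * (R.W.card : ℝ)
        = ((H R).card : ℝ) * ((R.W.card : ℝ) * (R.U.card : ℝ)) := by ring
      _ ≤ _ := mul_le_mul_of_nonneg_right h2 (by positivity)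
  refine le_trans h1 ?_
  rw [List.sum_map_mul_left]
  calc t * (P.W.card : ℝ) * (m.map (fun R => (R.W.card : ℝ) * (R.U.card : ℝ))).sum
      ≤ t * (P.W.card : ℝ) * ((1 + (D : ℝ)) * ((Z.card : ℝ) * (P.U.card : ℝ))) :=
        mul_le_mul_of_nonneg_left h.2.2.1 (by positivity)
    _ = _ := by ring

private lemma one_vol_flat {D : ℕ} {W U Z : Finset ℕ} (l : List Pc) (f : Pc → List Box) (t : ℝ)
    (ht : 0 ≤ t)
    (hl : (l.map (fun P => (P.W.card : ℝ) * (P.U.card : ℝ))).sum ≤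
      (1 + (D : ℝ)) * ((W.card : ℝ) * (U.card : ℝ)))
    (hf : ∀ P ∈ l, vsum (f P) ≤
      t * (1 + (D : ℝ)) * (((P.W.card : ℝ) * (P.U.card : ℝ)) * (Z.card : ℝ))) :
    vsum (l.flatMap f) ≤
      t * (1 + (D : ℝ)) ^ 2 * ((W.card : ℝ) * (U.card : ℝ) * (Z.card : ℝ)) := by
  rw [one_vsum_flatMap]
  have h1 : (l.map (fun P => vsum (f P))).sum ≤
      (l.map (fun P => (t * (1 + (D : ℝ)) * (Z.card : ℝ)) *
        ((P.W.card : ℝ) * (P.U.card : ℝ)))).sum := by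
    apply List.sum_le_sum
    intro P hP
    refine le_trans (hf P hP) (le_of_eq (by ring))
  refine le_trans h1 ?_
  rw [List.sum_map_mul_left]
  calc t * (1 + (D : ℝ)) * (Z.card : ℝ) *
        (l.map (fun P => (P.W.card : ℝ) * (P.U.card : ℝ))).sum
      ≤ t * (1 + (D : ℝ)) * (Z.card : ℝ) * ((1 + (D : ℝ)) * ((W.card : ℝ) * (U.card : ℝ))) :=
        mul_le_mul_of_nonneg_left hl (by positivity)
    _ = _ := by ring

private lemma one_len {l : List Pc} {f : Pc → List Box} {Y : ℕ}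
    (h : ∀ P ∈ l, (f P).length ≤ Y) : (l.flatMap f).length ≤ l.length * Y := by
  induction l with
  | nil => simp
  | cons a l ih =>
    rw [List.flatMap_cons, List.length_append, List.length_cons]
    have h1 := h a (by simp)
    have h2 := ih (fun P hP => h P (by simp [hP]))
    calc (f a).length + (l.flatMap f).length ≤ Y + l.length * Y := add_le_add h1 h2
      _ = (l.length + 1) * Y := by ring

theorem piece_one (h8 : S_prod) (h9 : S_greedy) (h11 : S_low) (h12 : S_regA) (h13 : S_regC) :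
    S_one := by
  classical
  intro D hD b hb
  obtain ⟨W, U, Z, A, C⟩ := b
  obtain ⟨hA, hC⟩ := hb
  simp only at hA hC
  have hvol0 : (0 : ℝ) ≤ (W.card : ℝ) * (U.card : ℝ) * (Z.card : ℝ) := by positivity
  by_cases hne : W.Nonempty ∧ U.Nonempty ∧ Z.Nonempty
  swap
  · refine ⟨[], [], [], [], by simp, by simp, by simp, by simp, ?_, ?_, ?_, by simp⟩
    · intro w u z hw hz
      exfalso
      apply hne
      have h1 := Finset.mem_product.mp (hA hw)
      have h2 := Finset.mem_product.mp (hC hz)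
      exact ⟨⟨w, h1.1⟩, ⟨u, h1.2⟩, ⟨z, h2.1⟩⟩
    · show vsum ([] ++ [] ++ []) ≤ 3 * ((D : ℝ) + 1) ^ 2 *
        ((W.card : ℝ) * (U.card : ℝ) * (Z.card : ℝ))
      simp only [vsum, List.append_nil, List.map_nil, List.sum_nil]
      positivity
    · show vsum [] ≤ 1 / 2 * ((W.card : ℝ) * (U.card : ℝ) * (Z.card : ℝ))
      simp only [vsum, List.map_nil, List.sum_nil]
      positivity
  obtain ⟨hW, hU, hZ⟩ := hne
  have hmpos : 0 < mm D := by unfold mm; positivity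
  have hq2 : 1 ≤ q2 D := by
    unfold q2
    exact Nat.mul_pos hmpos (Nat.succ_pos _)
  have hq1 : 1 ≤ q1 D := by
    unfold q1
    exact Nat.mul_pos hmpos (Nat.succ_pos _)
  obtain ⟨l, hl1, hl2, hl3, hl4⟩ := h9 D (q1 D) A W U hq1 hW hU hA
  have hsec : ∀ P : Pc, ∃ m : List Pc, P.U.Nonempty → one_Sec D C Z P m := by
    intro P
    by_cases hP : P.U.Nonempty
    · have hsub : one_CP C P ⊆ Z ×ˢ P.U := by
        intro e he
        have he' := Finset.mem_filter.mp he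
        exact Finset.mem_product.mpr ⟨(Finset.mem_product.mp (hC he'.1)).1, he'.2⟩
      obtain ⟨m, hm1, hm2, hm3, hm4⟩ := h9 D (q2 D) (one_CP C P) Z P.U hq2 hZ hP hsub
      exact ⟨m, fun _ => ⟨hm1, hm2, hm3, hm4⟩⟩
    · exact ⟨[], fun h => absurd h hP⟩
  choose m hm using hsec
  have hm' : ∀ P ∈ l, one_Sec D C Z P (m P) := fun P hP => hm P (hl1 P hP).2.2.2.1
  have hlowsize : ∀ P ∈ l, ∀ R ∈ m P, ((one_low P R).card : ℝ) ≤
      3 / (8 * ((D : ℝ) + 1) ^ 2) * (P.W.card : ℝ) := by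
    intro P hP R hR
    obtain ⟨-, -, hPW, hPU, -, -, hPmax, hPd, -⟩ := hl1 P hP
    obtain ⟨-, hRU, -, hRUn, -, -, -, -, -⟩ := (hm' P hP).1 R hR
    exact h11 D P.A P.W P.U R.U hD hPW hRUn hRU hPmax hPd (one_colsize hZ (hm' P hP) hR)
  have hnlowsize : ∀ P ∈ l, ∀ R ∈ m P, ((one_nlow P R).card : ℝ) ≤ 1 * (P.W.card : ℝ) := by
    intro P _ R _
    rw [one_mul]
    exact_mod_cast Finset.card_filter_le _ _
  let sa : List Box := [⟨W, U, Z, A.filter (fun e => ∀ P ∈ l, e ∉ P.A), C⟩]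
  let sc : List Box := l.map (fun P =>
    ⟨P.W, P.U, Z, P.A, (one_CP C P).filter (fun e => ∀ R ∈ m P, e ∉ R.A)⟩)
  let gd : List Box := l.flatMap (fun P => (m P).map (fun R => one_box (one_nlow P R) P R))
  let lo : List Box := l.flatMap (fun P => (m P).map (fun R => one_box (one_low P R) P R))
  have hCPC : ∀ P, one_CP C P ⊆ C := fun P => Finset.filter_subset _ _
  have hCPZ : ∀ P, one_CP C P ⊆ Z ×ˢ P.U := by
    intro P e he
    have he' := Finset.mem_filter.mp he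
    exact Finset.mem_product.mpr ⟨(Finset.mem_product.mp (hC he'.1)).1, he'.2⟩
  have hboxok : ∀ P ∈ l, ∀ R ∈ m P, ∀ H : Finset ℕ, (one_box H P R).ok ∧
      (one_box H P R).sub ⟨W, U, Z, A, C⟩ := by
    intro P hP R hR H
    obtain ⟨-, -, -, -, hPA, -, -, -, -⟩ := hl1 P hP
    obtain ⟨-, -, -, -, hRA, hRA2, -, -, -⟩ := (hm' P hP).1 R hR
    refine ⟨⟨Finset.inter_subset_right, hRA2⟩, ⟨?_, ?_⟩⟩
    · exact Finset.inter_subset_left.trans hPA
    · exact hRA.trans (hCPC P)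
  refine ⟨sa, sc, gd, lo, ?_, ?_, ?_, ?_, ?_, ?_, ?_, ?_⟩
  · intro b' hb'
    rw [List.mem_append, List.mem_append, List.mem_append] at hb'
    rcases hb' with ((hb' | hb') | hb') | hb'
    · rw [List.mem_singleton] at hb'
      subst hb'
      exact ⟨⟨(Finset.filter_subset _ _).trans hA, hC⟩,
        ⟨Finset.filter_subset _ _, Finset.Subset.refl _⟩⟩
    · obtain ⟨P, hP, rfl⟩ := List.mem_map.mp hb'
      obtain ⟨-, -, -, -, hPA, hPA2, -, -, -⟩ := hl1 P hP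
      exact ⟨⟨hPA2, (Finset.filter_subset _ _).trans (hCPZ P)⟩,
        ⟨hPA, (Finset.filter_subset _ _).trans (hCPC P)⟩⟩
    · obtain ⟨P, hP, hb''⟩ := List.mem_flatMap.mp hb'
      obtain ⟨R, hR, rfl⟩ := List.mem_map.mp hb''
      exact hboxok P hP R hR _
    · obtain ⟨P, hP, hb''⟩ := List.mem_flatMap.mp hb'
      obtain ⟨R, hR, rfl⟩ := List.mem_map.mp hb''
      exact hboxok P hP R hR _
  · intro b' hb'
    rw [List.mem_singleton] at hb'
    subst hb'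
    exact hl2
  · intro b' hb'
    obtain ⟨P, hP, rfl⟩ := List.mem_map.mp hb'
    exact (hm' P hP).2.1
  · intro b' hb'
    obtain ⟨P, hP, hb''⟩ := List.mem_flatMap.mp hb'
    obtain ⟨R, hR, rfl⟩ := List.mem_map.mp hb''
    obtain ⟨-, -, hPW, -, -, -, hPmax, hPd, -⟩ := hl1 P hP
    exact one_good h8 h12 h13 hD hZ hPW hPmax hPd (hm' P hP) hR
  · intro w u z hw hz
    by_cases h1 : ∀ P ∈ l, (w, u) ∉ P.A
    · refine ⟨⟨W, U, Z, A.filter (fun e => ∀ P ∈ l, e ∉ P.A), C⟩, ?_, ?_, hz⟩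
      · rw [List.mem_append, List.mem_append, List.mem_append]
        exact Or.inl (Or.inl (Or.inl (List.mem_singleton.mpr rfl)))
      · exact Finset.mem_filter.mpr ⟨hw, h1⟩
    push Not at h1
    obtain ⟨P, hP, hPe⟩ := h1
    obtain ⟨-, -, -, -, -, hPA2, -, -, -⟩ := hl1 P hP
    have hPe2 := Finset.mem_product.mp (hPA2 hPe)
    have hzP : (z, u) ∈ one_CP C P := Finset.mem_filter.mpr ⟨hz, hPe2.2⟩
    by_cases h2 : ∀ R ∈ m P, (z, u) ∉ R.A
    · refine ⟨⟨P.W, P.U, Z, P.A, (one_CP C P).filter (fun e => ∀ R ∈ m P, e ∉ R.A)⟩, ?_, hPe, ?_⟩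
      · rw [List.mem_append, List.mem_append, List.mem_append]
        exact Or.inl (Or.inl (Or.inr (List.mem_map.mpr ⟨P, hP, rfl⟩)))
      · exact Finset.mem_filter.mpr ⟨hzP, h2⟩
    push Not at h2
    obtain ⟨R, hR, hRe⟩ := h2
    obtain ⟨-, -, -, -, -, hRA2, -, -, -⟩ := (hm' P hP).1 R hR
    have hRe2 := Finset.mem_product.mp (hRA2 hRe)
    by_cases h3 : w ∈ one_low P R
    · refine ⟨one_box (one_low P R) P R, ?_, ?_, hRe⟩
      · rw [List.mem_append]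
        exact Or.inr (List.mem_flatMap.mpr ⟨P, hP, List.mem_map.mpr ⟨R, hR, rfl⟩⟩)
      · exact Finset.mem_inter.mpr ⟨hPe, Finset.mem_product.mpr ⟨h3, hRe2.2⟩⟩
    · refine ⟨one_box (one_nlow P R) P R, ?_, ?_, hRe⟩
      · rw [List.mem_append, List.mem_append]
        exact Or.inl (Or.inr (List.mem_flatMap.mpr ⟨P, hP, List.mem_map.mpr ⟨R, hR, rfl⟩⟩))
      · refine Finset.mem_inter.mpr ⟨hPe, Finset.mem_product.mpr ⟨?_, hRe2.2⟩⟩
        refine Finset.mem_filter.mpr ⟨hPe2.1, ?_⟩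
        intro hlt
        exact h3 (Finset.mem_filter.mpr ⟨hPe2.1, hlt⟩)
  · have v1 : vsum sa = (W.card : ℝ) * (U.card : ℝ) * (Z.card : ℝ) := by
      simp [sa, vsum, Box.vol]
    have v2 : vsum sc ≤ (1 + (D : ℝ)) * ((W.card : ℝ) * (U.card : ℝ) * (Z.card : ℝ)) := by
      rw [one_vsum_map]
      have h1 : (l.map (fun P => ((P.W.card : ℝ) * (P.U.card : ℝ)) * (Z.card : ℝ))).sum ≤
          (1 + (D : ℝ)) * ((W.card : ℝ) * (U.card : ℝ) * (Z.card : ℝ)) := by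
        rw [List.sum_map_mul_right]
        calc (l.map (fun P => (P.W.card : ℝ) * (P.U.card : ℝ))).sum * (Z.card : ℝ)
            ≤ ((1 + (D : ℝ)) * ((W.card : ℝ) * (U.card : ℝ))) * (Z.card : ℝ) :=
              mul_le_mul_of_nonneg_right hl3 (by positivity)
          _ = _ := by ring
      exact h1
    have v3 : vsum gd ≤ 1 * (1 + (D : ℝ)) ^ 2 *
        ((W.card : ℝ) * (U.card : ℝ) * (Z.card : ℝ)) := by
      apply one_vol_flat l _ 1 (by norm_num) hl3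
      intro P hP
      exact one_vol_gd (hm' P hP) _ 1 (hnlowsize P hP) (by norm_num)
    rw [one_vsum_append, one_vsum_append, v1]
    show _ ≤ 3 * ((D : ℝ) + 1) ^ 2 * ((W.card : ℝ) * (U.card : ℝ) * (Z.card : ℝ))
    have hD0 : (0 : ℝ) ≤ (D : ℝ) := by positivity
    have e1 : (W.card : ℝ) * (U.card : ℝ) * (Z.card : ℝ) ≤
        ((D : ℝ) + 1) ^ 2 * ((W.card : ℝ) * (U.card : ℝ) * (Z.card : ℝ)) := by
      have : (1 : ℝ) ≤ ((D : ℝ) + 1) ^ 2 := by nlinarith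
      exact le_mul_of_one_le_left hvol0 this
    have e2 : (1 + (D : ℝ)) * ((W.card : ℝ) * (U.card : ℝ) * (Z.card : ℝ)) ≤
        ((D : ℝ) + 1) ^ 2 * ((W.card : ℝ) * (U.card : ℝ) * (Z.card : ℝ)) := by
      apply mul_le_mul_of_nonneg_right _ hvol0
      nlinarith
    have e3 : 1 * (1 + (D : ℝ)) ^ 2 * ((W.card : ℝ) * (U.card : ℝ) * (Z.card : ℝ)) =
        ((D : ℝ) + 1) ^ 2 * ((W.card : ℝ) * (U.card : ℝ) * (Z.card : ℝ)) := by ring
    linarith
  · have v4 : vsum lo ≤ 3 / (8 * ((D : ℝ) + 1) ^ 2) * (1 + (D : ℝ)) ^ 2 *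
        ((W.card : ℝ) * (U.card : ℝ) * (Z.card : ℝ)) := by
      apply one_vol_flat l _ _ (by positivity) hl3
      intro P hP
      exact one_vol_gd (hm' P hP) _ _ (hlowsize P hP) (by positivity)
    refine le_trans v4 ?_
    show _ ≤ 1 / 2 * ((W.card : ℝ) * (U.card : ℝ) * (Z.card : ℝ))
    apply mul_le_mul_of_nonneg_right _ hvol0
    have hD1 : (0 : ℝ) < ((D : ℝ) + 1) ^ 2 := by positivity
    have : 3 / (8 * ((D : ℝ) + 1) ^ 2) * (1 + (D : ℝ)) ^ 2 = 3 / 8 := by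
      rw [add_comm (1 : ℝ) (D : ℝ)]
      field_simp
    rw [this]
    norm_num
  · have hL : l.length ≤ 2 ^ (D * (q1 D + 1)) := by exact_mod_cast hl4
    have hLm : ∀ P ∈ l, (m P).length ≤ 2 ^ (D * (q2 D + 1)) := by
      intro P hP
      exact_mod_cast (hm' P hP).2.2.2
    have g1 : gd.length ≤ l.length * 2 ^ (D * (q2 D + 1)) :=
      one_len (fun P hP => by simpa using hLm P hP)
    have g2 : lo.length ≤ l.length * 2 ^ (D * (q2 D + 1)) :=
      one_len (fun P hP => by simpa using hLm P hP)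
    have g3 : sc.length = l.length := by simp [sc]
    have g4 : sa.length = 1 := by simp [sa]
    rw [List.length_append, List.length_append, List.length_append, g3, g4]
    obtain ⟨X, hX⟩ : ∃ X, X = 2 ^ (D * (q1 D + 1)) := ⟨_, rfl⟩
    obtain ⟨Y, hY⟩ : ∃ Y, Y = 2 ^ (D * (q2 D + 1)) := ⟨_, rfl⟩
    have hXY : 2 ^ (D * (q1 D + q2 D + 2) + 2) = 4 * (X * Y) := by
      rw [hX, hY, ← pow_add, show (4 : ℕ) = 2 ^ 2 from rfl, ← pow_add]
      congr 1
      ring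
    rw [hXY]
    rw [← hX] at hL
    rw [← hY] at g1 g2
    have hX1 : 1 ≤ X := by rw [hX]; exact Nat.one_le_two_pow
    have hY1 : 1 ≤ Y := by rw [hY]; exact Nat.one_le_two_pow
    have k1 : l.length * Y ≤ X * Y := Nat.mul_le_mul_right _ hL
    have k2 : l.length ≤ X * Y := le_trans hL (Nat.le_mul_of_pos_right _ hY1)
    have k3 : 1 ≤ X * Y := Nat.mul_pos hX1 hY1
    omega

end

end DDA
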