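import Pool.Agent.Lib.MP_dd2a0a_lc.OR.Stm

/-! Piece K8: almost all pairs of rows have a common column. -/

namespace DDA

open Finset

noncomputable section

private theorem prod_nonneg (A C : Mat) (W Z U : Finset ℕ) (k : ℕ) (hk : Even k) :
    0 ≤ ∑ w ∈ W, ∑ z ∈ Z, (cross A C U w z) ^ k :=
  Finset.sum_nonneg fun _ _ => Finset.sum_nonneg fun _ _ => hk.pow_nonneg _

theorem piece_prod (h3 : S_cs) (h7 : S_sm) : S_prod := by
  classical
  intro D k c α κ A C W Z U hk hev hW hZ hU hA hC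
  have hα : 0 < α := lt_of_lt_of_le (by positivity) hA.1
  have hκ : 0 < κ := lt_of_lt_of_le (by positivity) hC.1
  set T : ℝ := ∑ w ∈ W, ∑ z ∈ Z, (cross A C U w z) ^ k with hT
  have hT0 : 0 ≤ T := prod_nonneg A C W Z U k hev
  have h1 := h7 D k c α A W U hk hev hW hU hA
  have h2 := h7 D k c κ C Z U hk hev hZ hU hC
  have h4 : T ^ 2 ≤ ((9 / 20 * (α * κ)) ^ k * ((W.card : ℝ) * (Z.card : ℝ))) ^ 2 := by
    calc T ^ 2 ≤ (∑ w ∈ W, ∑ w' ∈ W, (cross A A U w w') ^ k) *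
          (∑ z ∈ Z, ∑ z' ∈ Z, (cross C C U z z') ^ k) := h3 A C W Z U k hU
      _ ≤ ((9 / 20 * α ^ 2) ^ k * (W.card : ℝ) ^ 2) * ((9 / 20 * κ ^ 2) ^ k * (Z.card : ℝ) ^ 2) :=
          mul_le_mul h1 h2 (prod_nonneg C C Z Z U k hev) (by positivity)
      _ = ((9 / 20 * (α * κ)) ^ k * ((W.card : ℝ) * (Z.card : ℝ))) ^ 2 := by
          have e1 : (9 / 20 * α ^ 2) ^ k * (9 / 20 * κ ^ 2) ^ k =
              ((9 / 20 * (α * κ)) ^ k) ^ 2 := by
            rw [← mul_pow, ← pow_mul, mul_comm k 2, pow_mul]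
            congr 1
            ring
          calc ((9 / 20 * α ^ 2) ^ k * (W.card : ℝ) ^ 2) * ((9 / 20 * κ ^ 2) ^ k * (Z.card : ℝ) ^ 2)
              = ((9 / 20 * α ^ 2) ^ k * (9 / 20 * κ ^ 2) ^ k) *
                ((W.card : ℝ) * (Z.card : ℝ)) ^ 2 := by ring
            _ = _ := by rw [e1]; ring
  have h5 : T ≤ (9 / 20 * (α * κ)) ^ k * ((W.card : ℝ) * (Z.card : ℝ)) :=
    le_of_sq_le_sq h4 (by positivity)
  set X : Finset (ℕ × ℕ) :=
    (W ×ˢ Z).filter (fun p => ∀ u ∈ U, ¬ ((p.1, u) ∈ A ∧ (p.2, u) ∈ C)) with hX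
  have h6 : (X.card : ℝ) * ((99 / 100) ^ 2 * (α * κ)) ^ k ≤ T := by
    have e1 : T = ∑ p ∈ W ×ˢ Z, (cross A C U p.1 p.2) ^ k := by
      rw [hT, Finset.sum_product]
    rw [e1, ← nsmul_eq_mul, ← Finset.sum_const]
    calc ∑ _p ∈ X, ((99 / 100) ^ 2 * (α * κ)) ^ k ≤ ∑ p ∈ X, (cross A C U p.1 p.2) ^ k := by
          refine Finset.sum_le_sum fun p hp => ?_
          rw [hX, Finset.mem_filter, Finset.mem_product] at hp
          obtain ⟨⟨hp1, hp2⟩, hp3⟩ := hp
          have e2 : jn A C U p.1 p.2 = 0 := by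
            unfold jn
            rw [Finset.filter_eq_empty_iff.2 (fun u hu => hp3 u hu)]
            simp
          have e3 : cross A C U p.1 p.2 = -(rd A U p.1 * rd C U p.2) := by
            unfold cross
            rw [e2, zero_sub]
          rw [e3, hev.neg_pow]
          refine pow_le_pow_left₀ (by positivity) ?_ k
          have a1 := hA.2.2.2.2.1 p.1 hp1
          have a2 := hC.2.2.2.2.1 p.2 hp2
          calc (99 / 100) ^ 2 * (α * κ) = (99 / 100 * α) * (99 / 100 * κ) := by ring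
            _ ≤ rd A U p.1 * rd C U p.2 :=
              mul_le_mul a1 a2 (by positivity) (le_trans (by positivity) a1)
      _ ≤ ∑ p ∈ W ×ˢ Z, (cross A C U p.1 p.2) ^ k :=
          Finset.sum_le_sum_of_subset_of_nonneg (Finset.filter_subset _ _)
            (fun _ _ _ => hev.pow_nonneg _)
  have h8 : (X.card : ℝ) * ((99 / 100) ^ 2 * (α * κ)) ^ k ≤
      ((1 / 2 : ℝ) ^ k * ((W.card : ℝ) * (Z.card : ℝ))) * ((99 / 100) ^ 2 * (α * κ)) ^ k := by
    refine (h6.trans h5).trans ?_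
    have e1 : (9 / 20 * (α * κ)) ^ k ≤ (1 / 2 : ℝ) ^ k * ((99 / 100) ^ 2 * (α * κ)) ^ k := by
      rw [← mul_pow]
      refine pow_le_pow_left₀ (by positivity) ?_ k
      have : 0 < α * κ := by positivity
      nlinarith
    calc (9 / 20 * (α * κ)) ^ k * ((W.card : ℝ) * (Z.card : ℝ))
        ≤ ((1 / 2 : ℝ) ^ k * ((99 / 100) ^ 2 * (α * κ)) ^ k) * ((W.card : ℝ) * (Z.card : ℝ)) :=
          mul_le_mul_of_nonneg_right e1 (by positivity)
      _ = _ := by ring
  exact le_of_mul_le_mul_right h8 (by positivity)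

end

end DDA
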