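import Pool.Agent.Lib.MP_dd2a0a_lc.OR.RTool

/-! Piece R14: the word RAM theorem. -/

set_option linter.unusedSimpArgs false

namespace DDA

theorem piece_ram (h2 : S_lay) (h12 : S_find) (h13 : S_explC) : S_ram := by
  intro I E1 m nb hOk M hM
  obtain ⟨data, rp, f, lp, hlen, hlt, hlay⟩ := h2 I E1 m nb hOk M hM
  refine ⟨data, hlen, hlt, ?_⟩
  intro x hx z hz s hs0 hs1 hmem
  have L := hlay s.mem hmem
  obtain ⟨S, hS⟩ : ∃ S, S = data.length := ⟨_, rfl⟩
  rw [← hS] at L hlen
  have hbig : 4 * (S + I.n + I.b + I.K + I.B + 10) ≤ M := by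
    unfold Inst.wd at hM
    omega
  have hrc := L.rc z hz
  have hfl := L.fld z hz
  have hfb := L.fb z hz
  have hrc1 : s.mem (z + 6) = rp z := by rw [add_comm]; exact hrc.1
  have htm : 1000 * (E1 + 1) + 1000 * ((I.B + 1) * (I.K + I.b + 1)) = I.tm E1 := rfl
  have htm2 : I.B * (81 + 20 * I.K + 14 * I.b) ≤ 81 * ((I.B + 1) * (I.K + I.b + 1)) := by
    have h1 : I.B * (81 + 20 * I.K + 14 * I.b) ≤ I.B * (81 * (I.K + I.b + 1)) :=
      Nat.mul_le_mul_left _ (by omega)
    have h3 : I.B * (81 * (I.K + I.b + 1)) = 81 * (I.B * (I.K + I.b + 1)) := by ring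
    have h4 : (I.B + 1) * (I.K + I.b + 1) = I.B * (I.K + I.b + 1) + (I.K + I.b + 1) := by ring
    omega
  have htm3 : 1 ≤ (I.B + 1) * (I.K + I.b + 1) := Nat.mul_pos (by omega) (by omega)
  have g0 := hfl 0 (by omega)
  have g1 := hfl 1 (by omega)
  have g2 := hfl 2 (by omega)
  have gb1 := hfb 1 (by omega)
  have key : ∀ s3 : St, s3.mem = s.mem → s3.reg rT1 = f z 0 → s3.reg rOne = 1 →
      s3.reg rZero = 0 → s3.reg rRz = rp z → s3.reg rX = x → s3.reg rZ = z →
      EX M (Cmd.ite rT1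
    (blk [field rT1 rRz 1, Cmd.add rT1 rT1 rX, Cmd.load rRes rT1])
    (blk [field rP rRz 2, findC,
      Cmd.ite rFound (Cmd.const rRes 0) exploreC])) s3 (fun t s' =>
        t ≤ 200 + 21 * E1 + 81 * ((I.B + 1) * (I.K + I.b + 1)) ∧
          s'.reg 2 = (if I.query x z = true then 1 else 0)) := by
    intro s3 e3 eT eO eZ eR eX eZZ
    by_cases hb : I.bad z = true
    · have hf0 : f z 0 = 1 := by rw [L.f0 z hz, if_pos hb]
      have hf1 := L.f1 z hz hb x hx
      refine EX.iteT (by rw [eT, hf0]; decide) (EX.cons (field_ex (by omega)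
        (by rw [eR]; omega) (by decide) (EX.cons (EX.add ?_ (EX.last (EX.load ?_))))))
      · rw [eR, e3, g1.1]
        simp only [rX, rT1, rT3] at eX ⊢
        simp [eX]
        omega
      · refine ⟨by omega, ?_⟩
        rw [eR, e3, g1.1]
        simp only [rX, rT1, rT3, rRes] at eX ⊢
        simp only [St.set_reg, St.set_mem, e3, eX]
        simp only [if_true, Inst.query, hb]
        simpa using hf1.1
    · have hf0 : f z 0 = 0 := by rw [L.f0 z hz, if_neg hb]
      refine EX.iteF (by rw [eT, hf0]) (EX.cons (field_ex (by omega)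
        (by rw [eR]; omega) (by decide) ?_))
      rw [eR, e3, g2.1]
      obtain ⟨s4, hs4⟩ : ∃ s4 : St, s4 = ((s3.set rT3 2).set rP (rp z + 2)).set rP (f z 2) :=
        ⟨_, rfl⟩
      rw [← hs4]
      have m4 : s4.mem = s.mem := by rw [hs4]; simp [e3]
      have P4 : s4.reg rP = f z 2 := by rw [hs4]; simp
      have O4 : s4.reg rOne = 1 := by
        rw [hs4]; simp only [rT3, rP, rOne] at eO ⊢; simp [eO]
      have Z4 : s4.reg rZero = 0 := by
        rw [hs4]; simp only [rT3, rP, rZero] at eZ ⊢; simp [eZ]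
      have R4 : s4.reg rRz = rp z := by
        rw [hs4]; simp only [rT3, rP, rRz] at eR ⊢; simp [eR]
      have X4 : s4.reg rX = x := by
        rw [hs4]; simp only [rT3, rP, rX] at eX ⊢; simp [eX]
      have ZZ4 : s4.reg rZ = z := by
        rw [hs4]; simp only [rT3, rP, rZ] at eZZ ⊢; simp [eZZ]
      have hlen1 := hOk.l1 z hz
      obtain ⟨t5, s5, hx5, m5, k5, t5b, F5⟩ := h12 M S (I.exc1 z) s4 (by omega)
        (by rw [X4]; omega) (fun v hv => by
          have := hOk.e1 z hz v hv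
          omega) (by rw [m4, P4]; exact L.f2 z hz) O4
      refine EX.cons ⟨t5, s5, hx5, EX.last ?_⟩
      rw [X4] at F5
      have kr : ∀ r, r ∉ [rFound, rE, rV, rT1, rT2, rP] → s5.reg r = s4.reg r := k5
      by_cases hxe : x ∈ I.exc1 z
      · rw [if_pos hxe] at F5
        refine EX.iteT (by rw [F5]; decide) (EX.const (by omega) ⟨by omega, ?_⟩)
        simp [rRes, Inst.query, hb, hxe]
      · rw [if_neg hxe] at F5
        obtain ⟨t6, s6, hx6, t6b, F6⟩ := h13 M S I E1 m nb rp f lp x z s5 hOk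
          (by rw [m5, m4]; exact L) hx hz hbig
          ((kr rOne (by decide)).trans O4) ((kr rZero (by decide)).trans Z4)
          ((kr rX (by decide)).trans X4) ((kr rZ (by decide)).trans ZZ4)
          ((kr rRz (by decide)).trans R4)
        refine EX.iteF F5 ⟨t6, s6, hx6, by omega, ?_⟩
        have F6' : s6.reg 2 = (if explore I.adj (I.tst z) z I.B [[x]] (fun _ => false) = true
            then 1 else 0) := F6
        rw [F6']
        have hq : I.query x z = explore I.adj (I.tst z) z I.B [[x]] (fun _ => false) := by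
          unfold Inst.query
          rw [if_neg hb, if_neg hxe]
          rfl
        rw [hq]
  show EX M prog s _
  unfold prog
  refine EX.cons (EX.const (by omega) (EX.cons (EX.const (by omega) (EX.cons
    (fetchRec_ex (by omega) ?_ (by decide) (EX.cons (field_ex (by omega) ?_ (by decide)
      (EX.last ((key _ ?_ ?_ ?_ ?_ ?_ ?_ ?_).mono fun t s' h => ⟨by omega, h.2⟩)))))))))
  · simp [rZ, rZero, rOne, hs1]; omega
  · simp [rZ, rZero, rOne, rRz, rT3, hs1, hrc1]; omega
  · simp
  · simp [rZ, rZero, rOne, rRz, rT3, rT1, hs1, hrc1]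
    simpa using g0.1
  · simp [rZ, rZero, rOne, rRz, rT3, rT1]
  · simp [rZ, rZero, rOne, rRz, rT3, rT1]
  · simp [rZ, rZero, rOne, rRz, rT3, rT1, hs1, hrc1]
  · simp [rX, rZ, rZero, rOne, rRz, rT3, rT1, hs0]
  · simp [rX, rZ, rZero, rOne, rRz, rT3, rT1, hs1]

end DDA
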