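import Pool.Agent.Lib.MP_dd2a0a_lc.OR.Stm

/-!
MP_dd2a0a_lc : regularity of the rest of the rows
-/

namespace DDA

open Finset

private theorem regA_dens_le (A : Mat) (W U : Finset ℕ) : dens A W U ≤ 1 := by
  unfold dens
  apply div_le_one_of_le₀ _ (by positivity)
  have h : cnt A W U ≤ W.card * U.card := by
    unfold cnt
    exact (Finset.card_filter_le _ _).trans (Finset.card_product W U).le
  exact_mod_cast h

private theorem regA_two_pow (m E : ℕ) (hm : 0 < m) :
    (2 : ℝ) ^ E ≤ (1 + 1 / (m : ℝ)) ^ (m * E) := by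
  have hm' : (0 : ℝ) < m := by exact_mod_cast hm
  have h2 : (2 : ℝ) ≤ (1 + 1 / (m : ℝ)) ^ m := by
    have h := one_add_mul_le_pow (a := 1 / (m : ℝ)) (by
      have : (0 : ℝ) ≤ 1 / (m : ℝ) := by positivity
      linarith) m
    have h3 : (m : ℝ) * (1 / (m : ℝ)) = 1 := by field_simp
    linarith
  rw [pow_mul]
  exact pow_le_pow_left₀ (by norm_num) h2 E

theorem piece_regA (h11 : S_low) : S_regA := by
  intro D A W U U' hD hW hU' hUU hQ hα hU
  have hD1 : (1 : ℝ) ≤ D := by exact_mod_cast hD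
  set α := dens A W U with hαdef
  have hlow := h11 D A W U U' hD hW hU' hUU hQ hα hU
  rw [← hαdef] at hlow
  set W1 := W.filter (fun w => ¬ (rd A U' w < 99 / 100 * α)) with hW1
  have hα0 : 0 < α := lt_trans (by positivity) hα
  have hWc : (0 : ℝ) < W.card := by exact_mod_cast hW.card_pos
  have hU'c : (0 : ℝ) < U'.card := by exact_mod_cast hU'.card_pos
  have hsplit : ((W.filter (fun w => rd A U' w < 99 / 100 * α)).card : ℝ) + (W1.card : ℝ)
      = (W.card : ℝ) := by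
    have := Finset.card_filter_add_card_filter_not (s := W)
      (fun w => rd A U' w < 99 / 100 * α)
    exact_mod_cast this
  have hfr : 3 / (8 * ((D : ℝ) + 1) ^ 2) ≤ 1 / 2 := by
    rw [div_le_div_iff₀ (by positivity) (by norm_num)]
    nlinarith
  have hW1c : (W.card : ℝ) ≤ 2 * (W1.card : ℝ) := by
    have := mul_le_mul_of_nonneg_right hfr hWc.le
    linarith
  have hW1p : (0 : ℝ) < W1.card := by linarith
  have hmm : 0 < mm D := by unfold mm; positivity
  have hmm' : (0 : ℝ) < (mm D : ℝ) := by exact_mod_cast hmm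
  refine ⟨Finset.card_pos.1 (by exact_mod_cast hW1p), hα.le, regA_dens_le A W U, by positivity,
    ?_, ?_, ?_⟩
  · rw [div_le_div_iff₀ hmm' (by norm_num)]
    have : (mm D : ℝ) = 800 * ((D : ℝ) + 1) ^ 2 := by unfold mm; push_cast; ring
    rw [this]
    nlinarith
  · intro w hw
    exact not_lt.1 (Finset.mem_filter.1 hw).2
  · intro W2 hW2 U2 hU2 hW2n hU2n hrho
    by_contra hcon
    push Not at hcon
    have hq := hQ W2 (hW2.trans (Finset.filter_subset _ _)) U2 (hU2.trans hUU) hW2n hU2n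
    rw [← hαdef] at hq
    have hq1 : q1 D = mm D * (D * q2 D + D * (pp D (kk D) + 1) + 6) := rfl
    have hrh : rho D (kk D) = (1 / 2 : ℝ) ^ (D * (pp D (kk D) + 1)) / 20 := rfl
    set a := D * q2 D with ha
    set b := D * (pp D (kk D) + 1) with hb
    have hpow := regA_two_pow (mm D) (a + b + 6) hmm
    rw [← hq1] at hpow
    set c := 1 / (mm D : ℝ) with hc
    have hc0 : 0 < c := by positivity
    set X := (W2.card : ℝ) * (U2.card : ℝ) with hX
    have hX0 : 0 ≤ X := by positivity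
    have h1 : ((1 + c) * α) ^ (q1 D) * X ≤ α ^ (q1 D) * ((W.card : ℝ) * (U.card : ℝ)) :=
      (mul_le_mul_of_nonneg_right (pow_le_pow_left₀ (by positivity) hcon _) hX0).trans hq
    have h2 : (1 + c) ^ (q1 D) * X ≤ (W.card : ℝ) * (U.card : ℝ) := by
      have h3 : 0 < α ^ (q1 D) := by positivity
      rw [mul_pow] at h1
      have h4 : α ^ (q1 D) * ((1 + c) ^ (q1 D) * X) ≤ α ^ (q1 D) * ((W.card : ℝ) * (U.card : ℝ)) := by
        calc α ^ (q1 D) * ((1 + c) ^ (q1 D) * X) = (1 + c) ^ (q1 D) * α ^ (q1 D) * X := by ring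
          _ ≤ _ := h1
      exact le_of_mul_le_mul_left h4 h3
    have h5 : (2 : ℝ) ^ (a + b + 6) * X ≤ (W.card : ℝ) * (U.card : ℝ) :=
      (mul_le_mul_of_nonneg_right hpow hX0).trans h2
    have h6 : (U.card : ℝ) ≤ 2 ^ a * (U'.card : ℝ) := by
      have h7 := mul_le_mul_of_nonneg_left hU (show (0 : ℝ) ≤ 2 ^ a by positivity)
      have h8 : (2 : ℝ) ^ a * ((1 / 2 : ℝ) ^ a * (U.card : ℝ)) = U.card := by
        rw [← mul_assoc, ← mul_pow]
        norm_num
      linarith
    have h9 : (W.card : ℝ) * (U.card : ℝ) ≤ (2 * W1.card) * (2 ^ a * (U'.card : ℝ)) :=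
      mul_le_mul hW1c h6 (by positivity) (by positivity)
    -- compare
    rw [hrh] at hrho
    set Y := (W1.card : ℝ) * (U'.card : ℝ) with hY
    have hY0 : 0 < Y := by positivity
    have h10 : (2 : ℝ) ^ (a + b + 6) * ((1 / 2 : ℝ) ^ b / 20 * Y) ≤ 2 * 2 ^ a * Y := by
      calc (2 : ℝ) ^ (a + b + 6) * ((1 / 2 : ℝ) ^ b / 20 * Y) ≤ (2 : ℝ) ^ (a + b + 6) * X :=
            mul_le_mul_of_nonneg_left hrho (by positivity)
        _ ≤ (2 * W1.card) * (2 ^ a * (U'.card : ℝ)) := h5.trans h9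
        _ = 2 * 2 ^ a * Y := by rw [hY]; ring
    have h11' : (2 : ℝ) ^ (a + b + 6) * ((1 / 2 : ℝ) ^ b / 20 * Y) = 64 / 20 * (2 ^ a * Y) := by
      have h12 : (2 : ℝ) ^ b * (1 / 2 : ℝ) ^ b = 1 := by
        rw [← mul_pow]
        norm_num
      calc (2 : ℝ) ^ (a + b + 6) * ((1 / 2 : ℝ) ^ b / 20 * Y)
          = ((2 : ℝ) ^ b * (1 / 2 : ℝ) ^ b) * (64 / 20 * (2 ^ a * Y)) := by ring
        _ = _ := by rw [h12, one_mul]
    rw [h11'] at h10
    have h13 : (0 : ℝ) < 2 ^ a * Y := by positivity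
    have h14 : 2 * 2 ^ a * Y = 2 * (2 ^ a * Y) := mul_assoc _ _ _
    rw [h14] at h10
    generalize 2 ^ a * Y = t at h10 h13
    linarith

end DDA
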