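import Pool.Agent.Lib.MP_dd2a0a_lc.OR.Stm

/-!
Piece K13: regularity of a maximal rectangle with exponent `q2`.
-/

namespace DDA

open Finset

noncomputable section

private lemma regC_dens_le_one (A : Mat) (W U : Finset ℕ) : dens A W U ≤ 1 := by
  unfold dens cnt
  apply div_le_one_of_le₀
  · have h := Finset.card_filter_le (W ×ˢ U) (fun e => e ∈ A)
    rw [Finset.card_product] at h
    exact_mod_cast h
  · positivity

private lemma regC_two_le (m : ℕ) (hm : 0 < m) : (2 : ℝ) ≤ (1 + 1 / (m : ℝ)) ^ m := by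
  have hm' : (0 : ℝ) < m := by exact_mod_cast hm
  have h := one_add_mul_le_pow (a := 1 / (m : ℝ)) (by
    have : (0 : ℝ) ≤ 1 / (m : ℝ) := by positivity
    linarith) m
  have h2 : (m : ℝ) * (1 / (m : ℝ)) = 1 := by field_simp
  rw [h2] at h
  linarith

theorem piece_regC (h10 : S_deg) : S_regC := by
  intro D C Z U hD hZ hU hmax hdens
  have hm : 0 < mm D := by unfold mm; positivity
  have hm' : (0 : ℝ) < (mm D : ℝ) := by exact_mod_cast hm
  have hκ : 0 < dens C Z U := lt_trans (by positivity) hdens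
  have hmm100 : (100 : ℝ) ≤ (mm D : ℝ) := by
    have h1 : 1 ≤ (D + 1) ^ 2 := Nat.one_le_pow _ _ (Nat.succ_pos _)
    have : 100 ≤ mm D := by unfold mm; omega
    exact_mod_cast this
  obtain ⟨E, hE⟩ : ∃ E, E = D * (pp D (kk D) + 1) := ⟨_, rfl⟩
  have hq2E : q2 D = mm D * (E + 5) := by unfold q2; rw [hE]
  have hq2m : mm D ≤ q2 D := by
    rw [hq2E]
    exact Nat.le_mul_of_pos_right _ (Nat.succ_pos _)
  have hq2 : 1 ≤ q2 D := le_trans hm hq2m
  have hq2' : (100 : ℝ) ≤ (q2 D : ℝ) := by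
    have : (mm D : ℝ) ≤ (q2 D : ℝ) := by exact_mod_cast hq2m
    linarith
  refine ⟨hdens.le, regC_dens_le_one _ _ _, by positivity, ?_, ?_, ?_⟩
  · rw [div_le_div_iff₀ hm' (by norm_num)]; linarith
  · intro w hw
    have h := (h10 (q2 D) C Z U hq2 hZ hU hκ hmax).2 w hw
    refine le_trans ?_ h
    have h1 : 1 / (q2 D : ℝ) ≤ 1 / 100 := one_div_le_one_div_of_le (by norm_num) hq2'
    have h2 : (99 / 100 : ℝ) ≤ 1 - 1 / (q2 D : ℝ) := by linarith
    exact mul_le_mul_of_nonneg_right h2 hκ.le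
  · intro W' hW' U' hU' hWn hUn hrho
    by_contra hcon
    push Not at hcon
    have h := hmax W' hW' U' hU' hWn hUn
    have hc0 : (0 : ℝ) < 1 + 1 / (mm D : ℝ) := by positivity
    have harea' : (0 : ℝ) < (W'.card : ℝ) * (U'.card : ℝ) := by
      have h1 : (0 : ℝ) < (W'.card : ℝ) := by exact_mod_cast hWn.card_pos
      have h2 : (0 : ℝ) < (U'.card : ℝ) := by exact_mod_cast hUn.card_pos
      positivity
    have harea : (0 : ℝ) < (Z.card : ℝ) * (U.card : ℝ) := by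
      have h1 : (0 : ℝ) < (Z.card : ℝ) := by exact_mod_cast hZ.card_pos
      have h2 : (0 : ℝ) < (U.card : ℝ) := by exact_mod_cast hU.card_pos
      positivity
    have h1 : ((1 + 1 / (mm D : ℝ)) * dens C Z U) ^ (q2 D) ≤ (dens C W' U') ^ (q2 D) :=
      pow_le_pow_left₀ (by positivity) hcon _
    have h2 : (1 + 1 / (mm D : ℝ)) ^ (q2 D) * ((W'.card : ℝ) * (U'.card : ℝ)) ≤
        (Z.card : ℝ) * (U.card : ℝ) := by
      have h3 : (dens C Z U) ^ (q2 D) * ((1 + 1 / (mm D : ℝ)) ^ (q2 D) *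
          ((W'.card : ℝ) * (U'.card : ℝ))) ≤
          (dens C Z U) ^ (q2 D) * ((Z.card : ℝ) * (U.card : ℝ)) := by
        calc (dens C Z U) ^ (q2 D) * ((1 + 1 / (mm D : ℝ)) ^ (q2 D) *
              ((W'.card : ℝ) * (U'.card : ℝ)))
            = ((1 + 1 / (mm D : ℝ)) * dens C Z U) ^ (q2 D) *
              ((W'.card : ℝ) * (U'.card : ℝ)) := by rw [mul_pow]; ring
          _ ≤ (dens C W' U') ^ (q2 D) * ((W'.card : ℝ) * (U'.card : ℝ)) :=
              mul_le_mul_of_nonneg_right h1 harea'.le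
          _ ≤ _ := h
      exact le_of_mul_le_mul_left h3 (by positivity)
    have h4 : (2 : ℝ) ^ (E + 5) ≤ (1 + 1 / (mm D : ℝ)) ^ (q2 D) := by
      rw [hq2E, pow_mul]
      exact pow_le_pow_left₀ (by norm_num) (regC_two_le _ hm) _
    have h5 : (2 : ℝ) ^ (E + 5) * ((W'.card : ℝ) * (U'.card : ℝ)) ≤
        (Z.card : ℝ) * (U.card : ℝ) :=
      le_trans (mul_le_mul_of_nonneg_right h4 harea'.le) h2
    unfold rho at hrho
    rw [← hE] at hrho
    have hP : (0 : ℝ) < 2 ^ E := by positivity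
    have h6 : (2 : ℝ) ^ E * (1 / 2 : ℝ) ^ E = 1 := by
      rw [← mul_pow]; norm_num
    have h7 : (2 : ℝ) ^ E *
        ((1 / 2 : ℝ) ^ E / 20 * ((Z.card : ℝ) * (U.card : ℝ))) ≤
        (2 : ℝ) ^ E * ((W'.card : ℝ) * (U'.card : ℝ)) :=
      mul_le_mul_of_nonneg_left hrho hP.le
    have h8 : (2 : ℝ) ^ E *
        ((1 / 2 : ℝ) ^ E / 20 * ((Z.card : ℝ) * (U.card : ℝ))) =
        1 / 20 * ((Z.card : ℝ) * (U.card : ℝ)) := by
      calc (2 : ℝ) ^ E *
            ((1 / 2 : ℝ) ^ E / 20 * ((Z.card : ℝ) * (U.card : ℝ)))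
          = ((2 : ℝ) ^ E * (1 / 2 : ℝ) ^ E) *
            (1 / 20 * ((Z.card : ℝ) * (U.card : ℝ))) := by ring
        _ = _ := by rw [h6, one_mul]
    rw [h8] at h7
    have h9 : (2 : ℝ) ^ (E + 5) * ((W'.card : ℝ) * (U'.card : ℝ)) =
        32 * ((2 : ℝ) ^ E * ((W'.card : ℝ) * (U'.card : ℝ))) := by
      rw [pow_add]; ring
    rw [h9] at h5
    linarith

end

end DDA
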