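import Pool.Agent.Lib.MP_dd2a0a_lc.OR.RTool

namespace DDA

namespace ScanAux

variable {M : ℕ}

theorem set_self (s : St) (r : ℕ) : s.set r (s.reg r) = s := by
  cases s
  simp [St.set]

theorem mid_ex {s : St} {p : ℕ → St → Prop} (hM : 0 < M)
    (h : ∀ t ≤ 3, p t (s.set rPass (if s.reg rA1 ≠ 0 ∧ s.reg rC1 ≠ 0 then 0 else s.reg rPass))) :
    EX M (Cmd.ite rA1 (Cmd.ite rC1 (Cmd.const rPass 0) Cmd.skip) Cmd.skip) s p := by
  by_cases h1 : s.reg rA1 = 0
  · refine EX.iteF h1 (EX.skip ?_)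
    have := h 2 (by norm_num)
    rw [if_neg (by tauto), set_self] at this
    exact this
  · refine EX.iteT h1 ?_
    by_cases h2 : s.reg rC1 = 0
    · refine EX.iteF h2 (EX.skip ?_)
      have := h 3 (by norm_num)
      rw [if_neg (by tauto), set_self] at this
      exact this
    · refine EX.iteT h2 (EX.const hM ?_)
      have := h 3 (by norm_num)
      rw [if_pos ⟨h1, h2⟩] at this
      exact this

theorem run_ex {s : St} {p : ℕ → St → Prop} (hz : s.reg rZero = 0) (hc : s.reg rCn < M)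
    (h : p 2 (s.set rRun2 (if s.reg rEE = 0 then 0 else s.reg rCn))) :
    EX M (Cmd.ite rEE (Cmd.add rRun2 rCn rZero) (Cmd.const rRun2 0)) s p := by
  by_cases h1 : s.reg rEE = 0
  · refine EX.iteF h1 (EX.const (by omega) ?_)
    rw [if_pos h1] at h
    exact h
  · refine EX.iteT h1 (EX.add (by omega) ?_)
    rw [if_neg h1] at h
    rw [hz]
    exact h

theorem body_ex {s : St} {S v : ℕ} (hS : S < M) (h1 : s.reg rOne = 1) (hz : s.reg rZero = 0)
    (hc : s.reg rCn < M) (he : s.reg rEE = v + 1) (hP : s.reg rPP < S) (hA : s.reg rAb + v < S)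
    (hC : s.reg rCb + v < S) :
    EX M scanBody s (fun t s' => t ≤ 13 ∧ s'.mem = s.mem ∧
      Keep [rCn, rT1, rA1, rC1, rPass, rPP, rEE, rRun2] s s' ∧
      s'.reg rCn = s.reg rCn - 1 ∧ s'.reg rPP = s.reg rPP + 1 ∧
      s'.reg rEE = s.mem (s.reg rPP + 1) ∧
      s'.reg rRun2 = (if s.mem (s.reg rPP + 1) = 0 then 0 else s.reg rCn - 1) ∧
      s'.reg rPass = (if s.mem (s.reg rAb + v) ≠ 0 ∧ s.mem (s.reg rCb + v) ≠ 0 then 0
        else s.reg rPass)) := by
  unfold scanBody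
  simp only [rOne, rZero, rCn, rEE, rPP, rAb, rCb] at h1 hz hc he hP hA hC
  refine EX.cons (EX.sub (EX.cons (EX.sub (EX.cons (EX.add ?_ (EX.cons (EX.load
    (EX.cons (EX.add ?_ (EX.cons (EX.load (EX.cons (mid_ex (by omega) ?_)))))))))))))
  · simp [rCn, rT1, rEE, rAb, rOne, h1, he]; omega
  · simp [rCn, rT1, rEE, rAb, rOne, rCb, rA1, h1, he]; omega
  intro t ht
  refine EX.cons (EX.add ?_ (EX.cons (EX.load (EX.last (run_ex ?_ ?_ ?_)))))
  · simp [rCn, rT1, rEE, rAb, rOne, rCb, rA1, rC1, rPP, rPass, h1]; omega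
  · simp [rCn, rT1, rEE, rAb, rOne, rCb, rA1, rC1, rPP, rPass, rZero, hz]
  · simp [rCn, rT1, rEE, rAb, rOne, rCb, rA1, rC1, rPP, rPass, rZero]; omega
  refine ⟨by omega, by simp, ?_, ?_, ?_, ?_, ?_, ?_⟩
  · intro r hr
    simp [rCn, rT1, rA1, rC1, rPass, rPP, rEE, rRun2] at hr ⊢
    simp [hr]
  · simp [rCn, rT1, rEE, rAb, rOne, rCb, rA1, rC1, rPP, rPass, rZero, rRun2, h1]
  · simp [rCn, rT1, rEE, rAb, rOne, rCb, rA1, rC1, rPP, rPass, rZero, rRun2, h1]
  · simp [rCn, rT1, rEE, rAb, rOne, rCb, rA1, rC1, rPP, rPass, rZero, rRun2, h1]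
  · simp [rCn, rT1, rEE, rAb, rOne, rCb, rA1, rC1, rPP, rPass, rZero, rRun2, h1]
  · simp [rCn, rT1, rEE, rAb, rOne, rCb, rA1, rC1, rPP, rPass, rZero, rRun2, h1, he]

/-- the loop -/
theorem loop_ex {S : ℕ} (hS : S < M) (good : ℕ → Bool) : ∀ (l : List ℕ) (s : St),
    s.reg rOne = 1 → s.reg rZero = 0 → s.reg rPass ≤ 1 → s.reg rCn < M →
    ListAt s.mem (fun a => a < S) (s.reg rPP) l →
    s.reg rEE = s.mem (s.reg rPP) → s.reg rRun2 = (if s.mem (s.reg rPP) = 0 then 0 else s.reg rCn) →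
    (∀ u ∈ l, s.reg rAb + u < S ∧ s.reg rCb + u < S ∧
      (good u = true ↔ s.mem (s.reg rAb + u) ≠ 0 ∧ s.mem (s.reg rCb + u) ≠ 0)) →
    EX M (Cmd.loop rRun2 scanBody) s (fun t s' => s'.mem = s.mem ∧
      Keep [rCn, rT1, rA1, rC1, rPass, rPP, rEE, rRun2] s s' ∧
      s'.reg rCn ≤ s.reg rCn ∧ t + 14 * s'.reg rCn ≤ 1 + 14 * s.reg rCn ∧
      s'.reg rCn = (scan good l (s.reg rCn, decide (s.reg rPass = 1))).1 ∧
      (if s'.reg rEE = 0 then s'.reg rPass else 0) =
        (if (scan good l (s.reg rCn, decide (s.reg rPass = 1))).2 = true then 1 else 0)) := by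
  intro l
  induction l with
  | nil =>
    intro s h1 hz hp hc hl he hr hg
    have hm : s.mem (s.reg rPP) = 0 := hl.1
    refine EX.loop0 (by rw [hr, if_pos hm]) ?_
    refine ⟨rfl, fun r _ => rfl, le_rfl, le_rfl, rfl, ?_⟩
    rw [he, if_pos hm]
    simp only [scan, decide_eq_true_eq]
    split_ifs <;> omega
  | cons v l ih =>
    intro s h1 hz hp hc hl he hr hg
    obtain ⟨hm, hQ, hl'⟩ := hl
    have hm0 : s.mem (s.reg rPP) ≠ 0 := by omega
    rw [if_neg hm0] at hr
    rcases Nat.eq_zero_or_pos (s.reg rCn) with h0 | h0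
    · refine EX.loop0 (by rw [hr, h0]) ?_
      refine ⟨rfl, fun r _ => rfl, le_rfl, le_rfl, ?_, ?_⟩
      · rw [h0]; simp [scan]
      · rw [he, if_neg hm0, h0]; simp [scan]
    · obtain ⟨c, hcc⟩ : ∃ c, s.reg rCn = c + 1 := ⟨s.reg rCn - 1, by omega⟩
      refine EX.loop1 (by rw [hr]; omega) ?_
      obtain ⟨hA, hC, hgv⟩ := hg v (by simp)
      refine EX.mono (body_ex hS h1 hz hc (by rw [he, hm]) hQ hA hC) ?_
      rintro t s' ⟨ht, hmem, hk, hcn, hpp, hee, hrun, hpass⟩
      have k1 : s'.reg rOne = 1 := by rw [hk rOne (by simp [rOne, rCn, rT1, rA1, rC1, rPass, rPP, rEE, rRun2])]; exact h1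
      have k2 : s'.reg rZero = 0 := by rw [hk rZero (by simp [rZero, rCn, rT1, rA1, rC1, rPass, rPP, rEE, rRun2])]; exact hz
      have k3 : s'.reg rAb = s.reg rAb := hk rAb (by simp [rAb, rCn, rT1, rA1, rC1, rPass, rPP, rEE, rRun2])
      have k4 : s'.reg rCb = s.reg rCb := hk rCb (by simp [rCb, rCn, rT1, rA1, rC1, rPass, rPP, rEE, rRun2])
      have hp' : s'.reg rPass ≤ 1 := by
        rw [hpass]; split_ifs <;> omega
      refine EX.mono (ih s' k1 k2 hp' (by omega) ?_ ?_ ?_ ?_) ?_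
      · rw [hmem, hpp]; exact hl'
      · rw [hmem, hpp, hee]
      · rw [hrun, hmem, hpp, hcn]
      · intro u hu
        rw [k3, k4, hmem]
        exact hg u (List.mem_cons_of_mem _ hu)
      · rintro t' s'' ⟨hmem', hk', hle, hcost, hcn', hpass'⟩
        have hsc : scan good (v :: l) (s.reg rCn, decide (s.reg rPass = 1)) =
            scan good l (s'.reg rCn, decide (s'.reg rPass = 1)) := by
          rw [hcc]
          simp only [scan]
          congr 2
          · rw [hcn, hcc]; rfl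
          · rw [hpass]
            by_cases hgg : good v = true
            · rw [if_pos (hgv.1 hgg), hgg]; simp
            · rw [if_neg (fun h => hgg (hgv.2 h))]
              simp [hgg]
        rw [hsc]
        refine ⟨hmem'.trans hmem, ?_, by omega, by omega, hcn', hpass'⟩
        intro r hr
        rw [hk' r hr, hk r hr]

end ScanAux

open ScanAux

theorem piece_scan : S_scan := by
  intro M S l good s hS h1 hz hp hc hl hg
  show EX M scanC s _
  unfold scanC
  refine EX.cons (EX.load (EX.cons (run_ex ?_ ?_ (EX.cons ?_))))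
  · simp only [rZero] at hz
    simp [rZero, rEE, hz]
  · simp only [rCn] at hc
    simp [rCn, rEE, hc]
  set s1 : St := (s.set rEE (s.mem (s.reg rPP))).set rRun2
    (if (s.set rEE (s.mem (s.reg rPP))).reg rEE = 0 then 0
      else (s.set rEE (s.mem (s.reg rPP))).reg rCn) with hs1
  have e1 : s1.reg rOne = s.reg rOne := by simp [hs1, rOne, rEE, rRun2]
  have e2 : s1.reg rZero = s.reg rZero := by simp [hs1, rZero, rEE, rRun2]
  have e3 : s1.reg rPass = s.reg rPass := by simp [hs1, rPass, rEE, rRun2]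
  have e4 : s1.reg rCn = s.reg rCn := by simp [hs1, rCn, rEE, rRun2]
  have e5 : s1.reg rPP = s.reg rPP := by simp [hs1, rPP, rEE, rRun2]
  have e6 : s1.reg rEE = s.mem (s.reg rPP) := by simp [hs1, rEE, rRun2]
  have e7 : s1.reg rRun2 = (if s.mem (s.reg rPP) = 0 then 0 else s.reg rCn) := by
    simp [hs1, rEE, rRun2, rCn]
  have e8 : s1.reg rAb = s.reg rAb := by simp [hs1, rAb, rEE, rRun2]
  have e9 : s1.reg rCb = s.reg rCb := by simp [hs1, rCb, rEE, rRun2]
  have e0 : s1.mem = s.mem := rfl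
  have ek : Keep [rCn, rT1, rA1, rC1, rPass, rPP, rEE, rRun2] s s1 := by
    intro r hr
    simp [rCn, rT1, rA1, rC1, rPass, rPP, rEE, rRun2] at hr
    simp [hs1, rEE, rRun2, hr]
  refine EX.mono (loop_ex hS good l s1 (by rw [e1]; exact h1) (by rw [e2]; exact hz)
    (by rw [e3]; exact hp) (by rw [e4]; exact hc) (by rw [e5, e0]; exact hl)
    (by rw [e6, e5, e0]) (by rw [e7, e5, e0, e4]) (by rw [e8, e9, e0]; exact hg)) ?_
  rintro t s' ⟨hmem, hk, hle, hcost, hcn, hpass⟩
  rw [e4] at hle hcost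
  rw [e3, e4] at hcn hpass
  by_cases hee : s'.reg rEE = 0
  · refine EX.last (EX.iteF hee (EX.skip ?_))
    rw [if_pos hee] at hpass
    refine ⟨by rw [hmem, e0], ?_, hle, by omega, hcn, hpass⟩
    intro r hr
    rw [hk r hr, ek r hr]
  · refine EX.last (EX.iteT hee (EX.const (by omega) ?_))
    rw [if_neg hee] at hpass
    have f1 : (s'.set rPass 0).reg rCn = s'.reg rCn := by simp [rPass, rCn]
    refine ⟨by rw [St.set_mem, hmem, e0], ?_, by rw [f1]; exact hle, by rw [f1]; omega,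
      by rw [f1]; exact hcn, by simpa using hpass⟩
    intro r hr
    have : r ≠ rPass := by
      rintro rfl
      simp at hr
    rw [St.set_reg, if_neg this, hk r hr, ek r hr]

end DDA
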