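import Pool.Agent.Lib.MP_dd2a0a_lc.OR.StmG

namespace DDA

open Finset Filter

private lemma scanF_one (good : ℕ → Bool) (l : List ℕ) : ∀ (c : ℕ) (ps : Bool),
    scan good l (c, ps) =
      if l.length ≤ c then (c - l.length, ps && l.all (fun u => !(good u))) else (0, false) := by
  induction l with
  | nil => intro c ps; simp [scan]
  | cons u l ih =>
    intro c ps
    cases c with
    | zero => simp [scan]
    | succ c =>
      rw [scan, ih]
      simp only [List.length_cons, List.all_cons, Nat.add_le_add_iff_right,
        Nat.add_sub_add_right, Bool.and_assoc]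

private lemma scanF_fold (b : ℕ) (row : ℕ → List ℕ) (good : ℕ → Bool) (K : ℕ) :
    (∑ i ∈ range K, (row i).length ≤ b →
      ((List.range K).foldl (fun s i => scan good (row i) s) (b, true)).1 =
        b - ∑ i ∈ range K, (row i).length ∧
      (((List.range K).foldl (fun s i => scan good (row i) s) (b, true)).2 = true ↔
        ∀ i < K, ∀ u ∈ row i, good u = false)) ∧
    (¬ (∑ i ∈ range K, (row i).length ≤ b) →
      (List.range K).foldl (fun s i => scan good (row i) s) (b, true) = (0, false)) := by
  induction K with
  | zero => simp
  | succ K ih =>
    rw [List.range_succ, List.foldl_append, List.foldl_cons, List.foldl_nil, sum_range_succ]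
    obtain ⟨ih1, ih2⟩ := ih
    set s := (List.range K).foldl (fun s i => scan good (row i) s) (b, true) with hs
    have hform := scanF_one good (row K) s.1 s.2
    rw [Prod.mk.eta] at hform
    rw [hform]
    by_cases hK : ∑ i ∈ range K, (row i).length ≤ b
    · obtain ⟨e1, e2⟩ := ih1 hK
      rw [e1]
      constructor
      · intro h
        have hle : (row K).length ≤ b - ∑ i ∈ range K, (row i).length := by omega
        rw [if_pos hle]
        refine ⟨by dsimp only; omega, ?_⟩
        simp only [Bool.and_eq_true, e2, List.all_eq_true, Bool.not_eq_true']
        constructor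
        · rintro ⟨h1, h2⟩ i hi u hu
          rcases Nat.lt_succ_iff_lt_or_eq.mp hi with h' | h'
          · exact h1 i h' u hu
          · subst h'
            exact h2 u hu
        · intro h1
          exact ⟨fun i hi => h1 i (Nat.lt_succ_of_lt hi), h1 K (Nat.lt_succ_self K)⟩
      · intro h
        have hle : ¬ ((row K).length ≤ b - ∑ i ∈ range K, (row i).length) := by omega
        rw [if_neg hle]
    · have e := ih2 hK
      rw [e]
      constructor
      · intro h
        exact absurd (le_trans (Nat.le_add_right _ _) h) hK
      · intro _
        by_cases hl : (row K).length ≤ 0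
        · rw [if_pos hl]
          simp
        · rw [if_neg hl]

theorem piece_scanF : S_scanF := by
  intro K b row good
  obtain ⟨h1, h2⟩ := scanF_fold b row good K
  by_cases hK : ∑ i ∈ range K, (row i).length ≤ b
  · rw [(h1 hK).2]
    exact ⟨fun h => ⟨hK, h⟩, fun h => h.2⟩
  · rw [h2 hK]
    constructor
    · intro h
      exact absurd h (by simp)
    · rintro ⟨h, -⟩
      exact absurd h hK

end DDA
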