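import Pool.Agent.Lib.MP_dd2a0a_lc.OR.RTool

namespace DDA

theorem mapInv_setval {mem : ℕ → ℕ} {S n c v j : ℕ} {val : ℕ → ℕ} (hI : MapInv mem S n c val)
    (hj : j < c) (hv : mem (S + n + j) = v) (mem' : ℕ → ℕ)
    (hm : ∀ a, mem' a = if a = S + n + n + j then 2 else mem a) :
    MapInv mem' S n c (Function.update val v 2) := by
  obtain ⟨hc, hk, hval⟩ := hI
  have lowL : ∀ i, i < n → mem' (S + i) = mem (S + i) := fun i hi => by
    rw [hm, if_neg (by omega)]
  have lowM : ∀ i, i < n → mem' (S + n + i) = mem (S + n + i) := fun i hi => by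
    rw [hm, if_neg (by omega)]
  have hjv : mem (S + v) = j := by have := (hk j hj).2.1; rwa [hv] at this
  refine ⟨hc, ?_, ?_⟩
  · intro i hi
    obtain ⟨h1, h2, h3⟩ := hk i hi
    refine ⟨?_, ?_, ?_⟩
    · rw [lowM i (by omega)]; exact h1
    · rw [lowM i (by omega), lowL _ h1]; exact h2
    · rw [hm]
      split_ifs with h
      · omega
      · exact h3
  · intro u hu
    have hu' := hval u hu
    rw [lowL u hu]
    by_cases hlt : mem (S + u) < c
    · rw [lowM _ (by omega)]
      by_cases heq : mem (S + n + mem (S + u)) = u
      · rw [if_pos ⟨hlt, heq⟩] at hu' ⊢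
        by_cases huv : u = v
        · subst huv
          rw [hjv, hm, if_pos rfl]
          simp
        · have hne : mem (S + u) ≠ j := by
            intro h
            rw [h] at heq
            exact huv (heq.symm.trans hv)
          rw [hm, if_neg (by omega), hu', Function.update_of_ne huv]
      · rw [if_neg (fun h => heq h.2)] at hu' ⊢
        have huv : u ≠ v := by
          intro h
          subst h
          rw [hjv] at heq
          exact heq hv
        rw [Function.update_of_ne huv, ← hu']
    · rw [if_neg (fun h => hlt h.1)] at hu' ⊢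
      have huv : u ≠ v := by
        intro h
        subst h
        rw [hjv] at hlt
        exact hlt hj
      rw [Function.update_of_ne huv, ← hu']

theorem piece_setval : S_setval := by
  intro M S n c v val s hI hv hM h1 h2 h3
  have hc := hI.1
  show EX M _ s _
  simp only [rSV, rY] at h1 h2 h3
  refine EX.cons (EX.add ?_ (EX.cons (EX.const ?_ (EX.last (EX.store ?_)))))
  · simp only [rSV, rY]; omega
  · omega
  refine ⟨?_, by simp, mapInv_setval hI h2 h3 _ ?_, ?_⟩
  · intro r hr
    simp [rT1, rT2] at hr ⊢
    simp [hr]
  · intro a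
    simp [rT1, rT2, rY, rSV, h1]
  · intro a ha
    simp [rT1, rT2, rY, rSV, h1]
    omega

end DDA
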