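import Pool.Agent.Lib.MP_dd2a0a_lc.OR.Stm

/-!
# MP_dd2a0a_lc : sifting
-/

namespace DDA

open Finset

noncomputable section

open Classical in
private theorem sift_dc (p : ℕ) (A : Mat) (W U : Finset ℕ) (hU : U.Nonempty)
    (Q : ℕ × ℕ → Prop) :
    ∑ v ∈ Fintype.piFinset (fun _ : Fin p => U),
      (((((W.filter (fun w => ∀ i, (w, v i) ∈ A)) ×ˢ
        (W.filter (fun w => ∀ i, (w, v i) ∈ A))).filter Q).card : ℕ) : ℝ) =
    (U.card : ℝ) ^ p * ∑ e ∈ (W ×ˢ W).filter Q, (jn A A U e.1 e.2) ^ p := by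
  have hU0 : (U.card : ℝ) ≠ 0 := by
    have := hU.card_pos
    positivity
  have e1 : ∀ v : Fin p → ℕ, (((((W.filter (fun w => ∀ i, (w, v i) ∈ A)) ×ˢ
        (W.filter (fun w => ∀ i, (w, v i) ∈ A))).filter Q).card : ℕ) : ℝ) =
      ∑ e ∈ (W ×ˢ W).filter Q, if (∀ i, (e.1, v i) ∈ A ∧ (e.2, v i) ∈ A) then (1 : ℝ) else 0 := by
    intro v
    rw [Finset.sum_boole, Finset.filter_filter]
    congr 2
    ext e
    simp only [Finset.mem_filter, Finset.mem_product]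
    constructor
    · rintro ⟨⟨⟨h1, h2⟩, h3, h4⟩, h5⟩
      exact ⟨⟨h1, h3⟩, h5, fun i => ⟨h2 i, h4 i⟩⟩
    · rintro ⟨⟨h1, h3⟩, h5, h6⟩
      exact ⟨⟨⟨h1, fun i => (h6 i).1⟩, h3, fun i => (h6 i).2⟩, h5⟩
  rw [Finset.sum_congr rfl fun v _ => e1 v, Finset.sum_comm, Finset.mul_sum]
  refine Finset.sum_congr rfl fun e _ => ?_
  rw [Finset.sum_boole]
  have e2 : (Fintype.piFinset (fun _ : Fin p => U)).filter
      (fun v => ∀ i, (e.1, v i) ∈ A ∧ (e.2, v i) ∈ A) =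
      Fintype.piFinset (fun _ : Fin p => U.filter (fun u => (e.1, u) ∈ A ∧ (e.2, u) ∈ A)) := by
    ext v
    simp only [Finset.mem_filter, Fintype.mem_piFinset]
    exact ⟨fun h i => ⟨h.1 i, h.2 i⟩, fun h => ⟨fun i => (h i).1, fun i => (h i).2⟩⟩
  rw [e2, Fintype.card_piFinset_const]
  unfold jn
  push_cast
  rw [← mul_pow, mul_div_cancel₀ _ hU0]

theorem piece_sift : S_sift := by
  classical
  intro p α A W U hp hα hα1 hW hU hmom
  set S : ℝ := (13 / 10 * α ^ 2) ^ p with hS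
  have hS0 : 0 < S := by positivity
  have hWc : (0 : ℝ) < W.card := by exact_mod_cast hW.card_pos
  have hUc : (0 : ℝ) < U.card := by exact_mod_cast hU.card_pos
  set V := Fintype.piFinset (fun _ : Fin p => U) with hV
  set Wv : (Fin p → ℕ) → Finset ℕ := fun v => W.filter (fun w => ∀ i, (w, v i) ∈ A) with hWv
  have hVc : (V.card : ℝ) = (U.card : ℝ) ^ p := by
    rw [hV, Fintype.card_piFinset_const]
    push_cast
    rfl
  have hVne : V.Nonempty := by
    rw [hV, Fintype.piFinset_nonempty]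
    exact fun _ => hU
  set Bad : ℕ × ℕ → Prop := fun e => jn A A U e.1 e.2 < 6 / 5 * α ^ 2 with hBad
  -- the key existence
  have key : ∃ v ∈ V, 1 / 2 * S * (W.card : ℝ) ^ 2 ≤ ((Wv v).card : ℝ) ^ 2 ∧
      ((((Wv v) ×ˢ (Wv v)).filter Bad).card : ℝ) ≤ 1 / 50 * ((Wv v).card : ℝ) ^ 2 := by
    by_contra hcon
    push Not at hcon
    have h1 : ∀ v ∈ V, ((Wv v).card : ℝ) ^ 2 <
        1 / 2 * S * (W.card : ℝ) ^ 2 + 50 * ((((Wv v) ×ˢ (Wv v)).filter Bad).card : ℝ) := by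
      intro v hv
      by_cases h : 1 / 2 * S * (W.card : ℝ) ^ 2 ≤ ((Wv v).card : ℝ) ^ 2
      · have h2 := hcon v hv h
        have h3 : 0 < 1 / 2 * S * (W.card : ℝ) ^ 2 := by positivity
        linarith
      · push Not at h
        have h3 : (0 : ℝ) ≤ ((((Wv v) ×ˢ (Wv v)).filter Bad).card : ℝ) := by positivity
        linarith
    have h2 := Finset.sum_lt_sum_of_nonempty hVne h1
    rw [Finset.sum_add_distrib, Finset.sum_const, nsmul_eq_mul, hVc, ← Finset.mul_sum] at h2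
    have h3 : ∑ v ∈ V, ((Wv v).card : ℝ) ^ 2 =
        (U.card : ℝ) ^ p * ∑ w ∈ W, ∑ w' ∈ W, (jn A A U w w') ^ p := by
      have h4 := sift_dc p A W U hU (fun _ => True)
      simp only [Finset.filter_true] at h4
      rw [← Finset.sum_product', ← h4]
      refine Finset.sum_congr rfl fun v _ => ?_
      rw [Finset.card_product]
      push_cast
      ring
    have h5 : ∑ v ∈ V, ((((Wv v) ×ˢ (Wv v)).filter Bad).card : ℝ) =
        (U.card : ℝ) ^ p * ∑ e ∈ (W ×ˢ W).filter Bad, (jn A A U e.1 e.2) ^ p :=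
      sift_dc p A W U hU Bad
    have h6 : ∑ e ∈ (W ×ˢ W).filter Bad, (jn A A U e.1 e.2) ^ p ≤
        (W.card : ℝ) ^ 2 * (6 / 5 * α ^ 2) ^ p := by
      have h7 : ∑ e ∈ (W ×ˢ W).filter Bad, (jn A A U e.1 e.2) ^ p ≤
          ∑ e ∈ (W ×ˢ W).filter Bad, (6 / 5 * α ^ 2) ^ p := by
        refine Finset.sum_le_sum fun e he => ?_
        have h8 : jn A A U e.1 e.2 < 6 / 5 * α ^ 2 := (Finset.mem_filter.1 he).2
        have h9 : 0 ≤ jn A A U e.1 e.2 := by unfold jn; positivity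
        exact pow_le_pow_left₀ h9 h8.le p
      refine h7.trans ?_
      rw [Finset.sum_const, nsmul_eq_mul]
      refine mul_le_mul_of_nonneg_right ?_ (by positivity)
      have h10 : ((W ×ˢ W).filter Bad).card ≤ W.card ^ 2 := by
        refine (Finset.card_filter_le _ _).trans ?_
        rw [Finset.card_product, sq]
      exact_mod_cast h10
    have h11 : (6 / 5 * α ^ 2) ^ p ≤ 1 / 100 * S := by
      have e1 : (6 / 5 * α ^ 2) ^ p = (12 / 13 : ℝ) ^ p * S := by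
        rw [hS, ← mul_pow]
        congr 1
        ring
      rw [e1]
      refine mul_le_mul_of_nonneg_right ?_ hS0.le
      calc (12 / 13 : ℝ) ^ p ≤ (12 / 13 : ℝ) ^ 58 :=
            pow_le_pow_of_le_one (by norm_num) (by norm_num) hp
        _ ≤ 1 / 100 := by norm_num
    rw [h3, h5] at h2
    have hUp : (0 : ℝ) < (U.card : ℝ) ^ p := by positivity
    have h12 : (U.card : ℝ) ^ p * (S * (W.card : ℝ) ^ 2) ≤
        (U.card : ℝ) ^ p * ∑ w ∈ W, ∑ w' ∈ W, (jn A A U w w') ^ p :=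
      mul_le_mul_of_nonneg_left hmom hUp.le
    have h13 : (U.card : ℝ) ^ p * ∑ e ∈ (W ×ˢ W).filter Bad, (jn A A U e.1 e.2) ^ p ≤
        (U.card : ℝ) ^ p * ((W.card : ℝ) ^ 2 * (1 / 100 * S)) :=
      mul_le_mul_of_nonneg_left (h6.trans (mul_le_mul_of_nonneg_left h11 (by positivity))) hUp.le
    nlinarith
  obtain ⟨v, hv, hv1, hv2⟩ := key
  have hcard : α ^ p / 2 * (W.card : ℝ) ≤ ((Wv v).card : ℝ) := by
    by_contra hcon
    push Not at hcon
    have h1 : ((Wv v).card : ℝ) ^ 2 < (α ^ p / 2 * (W.card : ℝ)) ^ 2 :=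
      pow_lt_pow_left₀ hcon (by positivity) (by norm_num)
    have h2 : (α ^ 2) ^ p ≤ S := by
      rw [hS, mul_pow]
      have h3 : (1 : ℝ) ≤ (13 / 10 : ℝ) ^ p := one_le_pow₀ (by norm_num)
      have h4 : 0 ≤ (α ^ 2) ^ p := by positivity
      nlinarith
    have h5 : (α ^ p / 2 * (W.card : ℝ)) ^ 2 = 1 / 4 * (α ^ 2) ^ p * (W.card : ℝ) ^ 2 := by
      rw [← pow_mul, mul_comm 2 p, pow_mul]
      ring
    rw [h5] at h1
    have h6 : 1 / 4 * (α ^ 2) ^ p * (W.card : ℝ) ^ 2 ≤ 1 / 2 * S * (W.card : ℝ) ^ 2 := by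
      refine mul_le_mul_of_nonneg_right ?_ (by positivity)
      have h7 : 0 ≤ (α ^ 2) ^ p := by positivity
      linarith
    linarith
  refine ⟨Wv v, Finset.filter_subset _ _, ?_, hcard, hv2⟩
  rw [← Finset.card_pos]
  have : (0 : ℝ) < ((Wv v).card : ℝ) := lt_of_lt_of_le (by positivity) hcard
  exact_mod_cast this

end

end DDA
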