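import Pool.Agent.Lib.MP_dd2a0a_lc.OR.GTool

/-! Piece G12: the size of the data structure. -/

namespace DDA

open Finset Filter

theorem gs_b {N g : ℕ} (hg : 0 < g) (h : g ^ 4 ≤ N) : N ≤ 2 * (N / g ^ 4) * g ^ 4 := by
  have h1 : 0 < g ^ 4 := Nat.pos_of_ne_zero (by positivity)
  have h2 : 1 ≤ N / g ^ 4 := (Nat.one_le_div_iff h1).mpr h
  have h3 : N < (N / g ^ 4 + 1) * g ^ 4 := by
    rw [mul_comm]
    exact Nat.lt_mul_div_succ N h1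
  nlinarith

theorem gs_E (n g : ℕ) (hg : 0 < g) : n ≤ (n / g + 1) * g := by
  have h1 := Nat.div_add_mod n g
  have h2 := Nat.mod_lt n hg
  nlinarith

theorem gs_pow16 (D : ℕ) : (2 ^ (D / 16)) ^ 16 ≤ 2 ^ D := by
  rw [← pow_mul]
  exact Nat.pow_le_pow_right (by norm_num) (Nat.div_mul_le_self _ _)

theorem gs_pD (n : ℕ) : pD n + 1 ≤ (pL n + 1) ^ 2 := by
  have h : pl n ≤ pL n := by
    unfold pl pL
    exact Nat.log_le_self _ _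
  unfold pD
  nlinarith

/-- the bound for `nb` -/
theorem gs_nb {n N g D E b nb : ℕ} (hn : 0 < n) (hN : 0 < N) (hE : n ≤ E * g) (hb : N ≤ 2 * b * g ^ 4)
    (hD : g ^ 16 ≤ 2 ^ D)
    (h : (nb : ℝ) * (E : ℝ) * (b : ℝ) ≤
      (6 * ((D : ℝ) + 1) ^ 2 + 1) * (1 / 2 : ℝ) ^ D * ((n : ℝ) * (N : ℝ) * (n : ℝ))) :
    nb * g ^ 11 ≤ 14 * (D + 1) ^ 2 * n := by
  have hE' : (n : ℝ) ≤ (E : ℝ) * g := by exact_mod_cast hE
  have hb' : (N : ℝ) ≤ 2 * (b : ℝ) * (g : ℝ) ^ 4 := by exact_mod_cast hb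
  have hD' : (g : ℝ) ^ 16 ≤ (2 : ℝ) ^ D := by exact_mod_cast hD
  have hn' : (0 : ℝ) < n := by exact_mod_cast hn
  have hN' : (0 : ℝ) < N := by exact_mod_cast hN
  have h1 : (nb : ℝ) * (n * N) ≤ (nb : ℝ) * (((E : ℝ) * g) * (2 * (b : ℝ) * (g : ℝ) ^ 4)) := by
    apply mul_le_mul_of_nonneg_left _ (by positivity)
    exact mul_le_mul hE' hb' (by positivity) (by positivity)
  have h2 : (nb : ℝ) * (((E : ℝ) * g) * (2 * (b : ℝ) * (g : ℝ) ^ 4)) ≤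
      2 * (g : ℝ) ^ 5 * ((6 * ((D : ℝ) + 1) ^ 2 + 1) * (1 / 2 : ℝ) ^ D * ((n : ℝ) * (N : ℝ) * (n : ℝ))) := by
    have := mul_le_mul_of_nonneg_left h (show (0 : ℝ) ≤ 2 * (g : ℝ) ^ 5 by positivity)
    calc _ = 2 * (g : ℝ) ^ 5 * ((nb : ℝ) * (E : ℝ) * (b : ℝ)) := by ring
      _ ≤ _ := this
  have h3 : (nb : ℝ) ≤ 2 * (g : ℝ) ^ 5 * ((6 * ((D : ℝ) + 1) ^ 2 + 1) * (1 / 2 : ℝ) ^ D) * n := by
    have h4 := h1.trans h2
    have h5 : (nb : ℝ) * (n * N) ≤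
        (2 * (g : ℝ) ^ 5 * ((6 * ((D : ℝ) + 1) ^ 2 + 1) * (1 / 2 : ℝ) ^ D) * n) * (n * N) := by
      refine h4.trans (le_of_eq (by ring))
    exact le_of_mul_le_mul_right h5 (by positivity)
  have h6 : (g : ℝ) ^ 16 * (1 / 2 : ℝ) ^ D ≤ 1 := by
    have : (2 : ℝ) ^ D * (1 / 2 : ℝ) ^ D = 1 := by
      rw [← mul_pow]; norm_num
    calc (g : ℝ) ^ 16 * (1 / 2 : ℝ) ^ D ≤ (2 : ℝ) ^ D * (1 / 2 : ℝ) ^ D :=
          mul_le_mul_of_nonneg_right hD' (by positivity)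
      _ = 1 := this
  have h7 : 6 * ((D : ℝ) + 1) ^ 2 + 1 ≤ 7 * ((D : ℝ) + 1) ^ 2 := by
    have : (0 : ℝ) ≤ D := by positivity
    nlinarith
  have h9 : (0 : ℝ) ≤ 2 * (6 * ((D : ℝ) + 1) ^ 2 + 1) * n := by positivity
  have h8 : (nb : ℝ) * (g : ℝ) ^ 11 ≤ 14 * ((D : ℝ) + 1) ^ 2 * n := by
    calc (nb : ℝ) * (g : ℝ) ^ 11
        ≤ (2 * (g : ℝ) ^ 5 * ((6 * ((D : ℝ) + 1) ^ 2 + 1) * (1 / 2 : ℝ) ^ D) * n) * (g : ℝ) ^ 11 :=
          mul_le_mul_of_nonneg_right h3 (by positivity)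
      _ = ((g : ℝ) ^ 16 * (1 / 2 : ℝ) ^ D) * (2 * (6 * ((D : ℝ) + 1) ^ 2 + 1) * n) := by ring
      _ ≤ 1 * (2 * (6 * ((D : ℝ) + 1) ^ 2 + 1) * n) :=
          mul_le_mul_of_nonneg_right h6 h9
      _ = (2 * (n : ℝ)) * (6 * ((D : ℝ) + 1) ^ 2 + 1) := by ring
      _ ≤ (2 * (n : ℝ)) * (7 * ((D : ℝ) + 1) ^ 2) := mul_le_mul_of_nonneg_left h7 (by linarith)
      _ = 14 * ((D : ℝ) + 1) ^ 2 * n := by ring
  exact_mod_cast h8

theorem gs_nb2 {n g L D k nb : ℕ} (hg : 1 ≤ g) (hD : D + 1 ≤ (L + 1) ^ 2)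
    (h112 : 112 * (L + 1) ^ (k + 4) ≤ g) (h : nb * g ^ 11 ≤ 14 * (D + 1) ^ 2 * n) :
    8 * nb * L ^ k ≤ n := by
  have h1 : (D + 1) ^ 2 ≤ (L + 1) ^ 4 := by
    calc (D + 1) ^ 2 ≤ ((L + 1) ^ 2) ^ 2 := Nat.pow_le_pow_left hD 2
      _ = (L + 1) ^ 4 := by ring
  have h2 : L ^ k ≤ (L + 1) ^ k := Nat.pow_le_pow_left (by omega) k
  have h3 : g ≤ g ^ 11 := by
    calc g = g ^ 1 := (pow_one g).symm
      _ ≤ g ^ 11 := Nat.pow_le_pow_right hg (by norm_num)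
  have h4 : g * (8 * nb * L ^ k) ≤ g * n := by
    calc g * (8 * nb * L ^ k) ≤ g ^ 11 * (8 * nb * (L + 1) ^ k) :=
          Nat.mul_le_mul h3 (Nat.mul_le_mul_left _ h2)
      _ = 8 * (L + 1) ^ k * (nb * g ^ 11) := by ring
      _ ≤ 8 * (L + 1) ^ k * (14 * (D + 1) ^ 2 * n) := Nat.mul_le_mul_left _ h
      _ ≤ 8 * (L + 1) ^ k * (14 * (L + 1) ^ 4 * n) :=
          Nat.mul_le_mul_left _ (Nat.mul_le_mul_right _ (Nat.mul_le_mul_left _ h1))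
      _ = (112 * (L + 1) ^ (k + 4)) * n := by ring
      _ ≤ g * n := Nat.mul_le_mul_right _ h112
  exact Nat.le_of_mul_le_mul_left h4 hg

theorem piece_size (h8 : S_dom) (h9 : S_KD) : S_size := by
  intro c0 k
  filter_upwards [gt_g 112 (k + 4), gt_N h8 h9 (100 + 8 * c0) 4 k, eventually_ge_atTop 2]
    with n hg hN hn K nb hK hnb
  have hg1 := gt_g1 n
  have hN4 := gt_N4 n
  have hpD := gs_pD n
  have hLk : (pL n) ^ k ≤ (pL n + 1) ^ k := Nat.pow_le_pow_left (by omega) k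
  have hLk1 : 1 ≤ (pL n + 1) ^ k := Nat.one_le_pow _ _ (by omega)
  -- powers of g
  have hg4 : 1 ≤ pg n ^ 4 := Nat.one_le_pow _ _ hg1
  have hNg : pg n ^ 4 ≤ pN n := by
    refine le_trans ?_ hN
    have h1 : 1 ≤ (100 + 8 * c0) * (KD (pD n) + 1) := Nat.one_le_iff_ne_zero.mpr (by positivity)
    calc pg n ^ 4 = 1 * pg n ^ 4 * 1 := by ring
      _ ≤ (100 + 8 * c0) * (KD (pD n) + 1) * pg n ^ 4 * (pL n + 1) ^ k :=
        Nat.mul_le_mul (Nat.mul_le_mul_right _ h1) hLk1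
  have hN1 : 1 ≤ pN n := hg4.trans hNg
  have hmain : (100 + 8 * c0) * (K + 1) * (pL n) ^ k ≤ pN n := by
    refine le_trans ?_ hN
    calc (100 + 8 * c0) * (K + 1) * (pL n) ^ k
        ≤ (100 + 8 * c0) * (KD (pD n) + 1) * (pL n + 1) ^ k :=
          Nat.mul_le_mul (Nat.mul_le_mul_left _ (by omega)) hLk
      _ = (100 + 8 * c0) * (KD (pD n) + 1) * 1 * (pL n + 1) ^ k := by ring
      _ ≤ (100 + 8 * c0) * (KD (pD n) + 1) * pg n ^ 4 * (pL n + 1) ^ k :=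
          Nat.mul_le_mul_right _ (Nat.mul_le_mul_left _ hg4)
  have hnb8 : 8 * nb * (pL n) ^ k ≤ n := by
    refine gs_nb2 hg1 hpD hg (gs_nb (n := n) (N := pN n) (E := pE n) (b := pb n) (by omega) hN1 ?_ ?_ ?_ hnb)
    · exact gs_E n (pg n) hg1
    · exact gs_b hg1 hNg
    · exact gs_pow16 (pD n)
  have hgL : 32 * (pL n) ^ k ≤ pg n := by
    refine le_trans ?_ hg
    have h1 : (pL n + 1) ^ k ≤ (pL n + 1) ^ (k + 4) := Nat.pow_le_pow_right (by omega) (by omega)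
    calc 32 * (pL n) ^ k ≤ 112 * (pL n) ^ k := Nat.mul_le_mul_right _ (by norm_num)
      _ ≤ 112 * (pL n + 1) ^ (k + 4) := Nat.mul_le_mul_left _ (hLk.trans h1)
  have hN2n : pN n * pN n ≤ n := by
    refine le_trans ?_ hN4
    calc pN n * pN n = pN n ^ 2 := by ring
      _ ≤ pN n ^ 4 := Nat.pow_le_pow_right hN1 (by norm_num)
  have hNn : pN n ≤ n := by nlinarith
  have hEdef : pE n = n / pg n + 1 := rfl
  have hdiv : pg n * (n / pg n) ≤ n := Nat.mul_div_le _ _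
  generalize hΛ : (pL n) ^ k = Λ at *
  generalize hNN : pN n = N at *
  have e1 : 100 * Λ ≤ N := by nlinarith [Nat.zero_le (c0 * Λ), Nat.zero_le (c0 * K * Λ), Nat.zero_le (K * Λ)]
  have e2 : 8 * c0 * Λ ≤ N := by nlinarith [Nat.zero_le (c0 * Λ), Nat.zero_le (c0 * K * Λ), Nat.zero_le (K * Λ)]
  have e3 : 100 * K * Λ ≤ N := by nlinarith [Nat.zero_le (c0 * Λ), Nat.zero_le (c0 * K * Λ), Nat.zero_le (K * Λ)]
  have t1 : 8 * (6 * Λ) ≤ n ^ 2 := by nlinarith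
  have t2 : 8 * (12 * n * Λ) ≤ n ^ 2 := by nlinarith
  have t3 : 8 * (nb * n * Λ) ≤ n ^ 2 := by nlinarith
  have t4 : 8 * (2 * n * (pE n + 1) * Λ) ≤ n ^ 2 := by
    rw [hEdef]
    have s1 : 32 * Λ * (n / pg n) ≤ n := (Nat.mul_le_mul_right _ hgL).trans hdiv
    have s2 : 16 * (n / pg n + 1 + 1) * Λ ≤ n := by nlinarith
    nlinarith
  have t5 : 8 * (c0 * n * Λ) ≤ n ^ 2 := by nlinarith
  have t6 : 8 * (2 * n * N * Λ) ≤ n ^ 2 := by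
    have s1 : 16 * Λ ≤ N := by omega
    have s2 : 16 * Λ * N ≤ n := (Nat.mul_le_mul_right _ s1).trans hN2n
    nlinarith
  have t7 : 8 * (2 * n * K * Λ) ≤ n ^ 2 := by
    have s1 : 16 * K * Λ ≤ n := by nlinarith
    nlinarith
  have t8 : 8 * (n * K * (N + 1) * Λ) ≤ n ^ 2 := by
    have s1 : 16 * K * Λ ≤ N := by nlinarith
    have s2 : 16 * K * Λ * N ≤ n := (Nat.mul_le_mul_right _ s1).trans hN2n
    have s3 : 8 * K * (N + 1) * Λ ≤ n := by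
      have : 8 * K * (N + 1) * Λ ≤ 8 * K * (2 * N) * Λ :=
        Nat.mul_le_mul_right _ (Nat.mul_le_mul_left _ (by omega))
      nlinarith
    nlinarith
  have expand : (6 + 12 * n + nb * n + 2 * n * (pE n + 1) + c0 * n + 2 * n * N + 2 * n * K
      + n * K * (N + 1)) * Λ = 6 * Λ + 12 * n * Λ + nb * n * Λ + 2 * n * (pE n + 1) * Λ +
        c0 * n * Λ + 2 * n * N * Λ + 2 * n * K * Λ + n * K * (N + 1) * Λ := by ring
  rw [expand]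
  omega

end DDA
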