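import Pool.Agent.Lib.MP_dd2a0a_lc.OR.Stm

set_option autoImplicit false

/-!
K7. Single matrix lemma: regularity bounds the moments of the covariance.
-/

namespace DDA

open Finset

private theorem sm_jn_le (A : Mat) (U : Finset ℕ) (w z : ℕ) : jn A A U w z ≤ 1 := by
  unfold jn
  apply div_le_one_of_le₀
  · exact_mod_cast Finset.card_filter_le _ _
  · positivity

private theorem sm_rd_nonneg (A : Mat) (U : Finset ℕ) (w : ℕ) : 0 ≤ rd A U w := by
  unfold rd
  positivity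

private theorem sm_one (h2 : S_odd) (h4 : S_tail) (D k : ℕ) (α : ℝ) (A : Mat)
    (W U : Finset ℕ) (hk : 20 ≤ k) (hk2 : Even k) (hU : U.Nonempty) (hα : 0 < α)
    (hαD : (1 / 2 : ℝ) ^ D ≤ α)
    (hlt : (9 / 20 * α ^ 2) ^ k * (W.card : ℝ) ^ 2 <
      ∑ w ∈ W, ∑ w' ∈ W, (cross A A U w w') ^ k) :
    (1 / 8 : ℝ) * (9 / 20 * (1 / 4 : ℝ) ^ D) ^ (k + 1) * (W.card : ℝ) ^ 2 ≤
      (((W ×ˢ W).filter (fun e => 63 / 160 * α ^ 2 ≤ cross A A U e.1 e.2)).card : ℝ) := by
  have hα2 : 0 < α ^ 2 := by positivity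
  have key : ∀ j : ℕ, ∑ e ∈ W ×ˢ W, (cross A A U e.1 e.2 / α ^ 2) ^ j =
      (∑ w ∈ W, ∑ w' ∈ W, (cross A A U w w') ^ j) / (α ^ 2) ^ j := by
    intro j
    rw [Finset.sum_product, Finset.sum_div]
    refine Finset.sum_congr rfl fun w _ => ?_
    rw [Finset.sum_div]
    exact Finset.sum_congr rfl fun w' _ => div_pow _ _ _
  have hc : ((W ×ˢ W).card : ℝ) = (W.card : ℝ) ^ 2 := by
    rw [Finset.card_product, Nat.cast_mul, sq]
  have h := h4 (W ×ˢ W) (fun e => cross A A U e.1 e.2 / α ^ 2) k D hk hk2 ?_ ?_ ?_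
  · rw [hc] at h
    refine h.trans (le_of_eq ?_)
    congr 2
    ext e
    simp only [Finset.mem_filter]
    rw [le_div_iff₀ hα2]
  · intro e _
    have h5 : (1 / 4 : ℝ) ^ D ≤ α ^ 2 := by
      have : (1 / 4 : ℝ) ^ D = ((1 / 2 : ℝ) ^ D) ^ 2 := by
        rw [← pow_mul, mul_comm, pow_mul]
        norm_num
      rw [this]
      exact pow_le_pow_left₀ (by positivity) hαD 2
    rw [div_le_iff₀ hα2]
    have h6 : cross A A U e.1 e.2 ≤ 1 := by
      unfold cross
      have := sm_jn_le A U e.1 e.2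
      have := mul_nonneg (sm_rd_nonneg A U e.1) (sm_rd_nonneg A U e.2)
      linarith
    have h7 : (4 : ℝ) ^ D * (1 / 4 : ℝ) ^ D = 1 := by
      rw [← mul_pow]
      norm_num
    calc cross A A U e.1 e.2 ≤ 1 := h6
      _ = (4 : ℝ) ^ D * (1 / 4 : ℝ) ^ D := h7.symm
      _ ≤ 4 ^ D * α ^ 2 := mul_le_mul_of_nonneg_left h5 (by positivity)
  · rw [key]
    exact div_nonneg (h2 A W U (k + 1) hU) (by positivity)
  · rw [key, hc, lt_div_iff₀ (by positivity)]
    refine lt_of_eq_of_lt ?_ hlt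
    rw [mul_pow]
    ring

private theorem sm_rho (D k : ℕ) (α : ℝ) (hαD : (1 / 2 : ℝ) ^ D ≤ α) :
    rho D k ≤ α ^ (pp D k + 1) / 20 := by
  unfold rho
  rw [pow_mul]
  have := pow_le_pow_left₀ (by positivity) hαD (pp D k + 1)
  linarith

private theorem sm_high (h1 : S_avg) (D k : ℕ) (c α : ℝ) (A : Mat) (W U : Finset ℕ)
    (hU : U.Nonempty) (hreg : Reg D k c α A W U) :
    ((W.filter (fun w => (1 + c) * α ≤ rd A U w)).card : ℝ) ≤
      α ^ (pp D k) / 20 * (W.card : ℝ) := by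
  obtain ⟨hαD, hα1, hc0, hc, hrow, hr⟩ := hreg
  have hα : 0 < α := lt_of_lt_of_le (by positivity) hαD
  set H := W.filter (fun w => (1 + c) * α ≤ rd A U w) with hH
  have hUc : (0 : ℝ) < U.card := by exact_mod_cast Finset.card_pos.2 hU
  rcases H.eq_empty_or_nonempty with h0 | h0
  · rw [h0]
    simp only [Finset.card_empty, Nat.cast_zero]
    positivity
  · have hHc : (0 : ℝ) < H.card := by exact_mod_cast Finset.card_pos.2 h0
    have h3 : (1 + c) * α ≤ dens A H U := by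
      rw [(h1 A H U h0 hU).1, le_div_iff₀ hHc]
      have : ∑ _w ∈ H, ((1 + c) * α) ≤ ∑ w ∈ H, rd A U w :=
        Finset.sum_le_sum fun w hw => (Finset.mem_filter.1 hw).2
      rw [Finset.sum_const, nsmul_eq_mul] at this
      linarith
    have h4 : ¬ (rho D k * ((W.card : ℝ) * (U.card : ℝ)) ≤ (H.card : ℝ) * (U.card : ℝ)) :=
      fun h5 => absurd (hr H (Finset.filter_subset _ _) U (Finset.Subset.refl _) h0 hU h5)
        (not_lt.2 h3)
    have h5 : (H.card : ℝ) < rho D k * W.card := by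
      rw [not_le, ← mul_assoc] at h4
      exact lt_of_mul_lt_mul_right h4 hUc.le
    have h6 := sm_rho D k α hαD
    have h7 : α ^ (pp D k + 1) ≤ α ^ (pp D k) := pow_le_pow_of_le_one hα.le hα1 (Nat.le_succ _)
    have h8 : rho D k ≤ α ^ (pp D k) / 20 := by linarith
    exact h5.le.trans (mul_le_mul_of_nonneg_right h8 (by positivity))

private theorem sm_bad (A : Mat) (U W' : Finset ℕ) (α : ℝ) (H : Finset ℕ)
    (hW' : W'.Nonempty) (hH : (H.card : ℝ) ≤ (W'.card : ℝ) / 10)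
    (hbad : (((W' ×ˢ W').filter (fun e => jn A A U e.1 e.2 < 6 / 5 * α ^ 2)).card : ℝ) ≤
      1 / 50 * (W'.card : ℝ) ^ 2) :
    ∃ w' ∈ W', w' ∉ H ∧
      ((W'.filter (fun w => jn A A U w w' < 6 / 5 * α ^ 2)).card : ℝ) ≤ (W'.card : ℝ) / 25 := by
  have hWc : (0 : ℝ) < W'.card := by exact_mod_cast Finset.card_pos.2 hW'
  by_contra hcon
  push Not at hcon
  have h1 : (((W' ×ˢ W').filter (fun e => jn A A U e.1 e.2 < 6 / 5 * α ^ 2)).card : ℝ) =
      ∑ w' ∈ W', ((W'.filter (fun w => jn A A U w w' < 6 / 5 * α ^ 2)).card : ℝ) := by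
    rw [Finset.card_filter, Finset.sum_product_right]
    push_cast
    refine Finset.sum_congr rfl fun w' _ => ?_
    rw [Finset.card_filter]
    push_cast
    rfl
  have h2 : ∑ w' ∈ W' \ H, ((W'.card : ℝ) / 25) ≤
      ∑ w' ∈ W' \ H, ((W'.filter (fun w => jn A A U w w' < 6 / 5 * α ^ 2)).card : ℝ) :=
    Finset.sum_le_sum fun w' hw' => (hcon w' (Finset.mem_sdiff.1 hw').1
      (Finset.mem_sdiff.1 hw').2).le
  have h3 : ∑ w' ∈ W' \ H, ((W'.filter (fun w => jn A A U w w' < 6 / 5 * α ^ 2)).card : ℝ) ≤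
      ∑ w' ∈ W', ((W'.filter (fun w => jn A A U w w' < 6 / 5 * α ^ 2)).card : ℝ) :=
    Finset.sum_le_sum_of_subset_of_nonneg Finset.sdiff_subset fun _ _ _ => by positivity
  have h4 : (W'.card : ℝ) ≤ ((W' \ H).card : ℝ) + H.card := by
    have := Finset.card_le_card_sdiff_add_card (s := W') (t := H)
    exact_mod_cast this
  rw [Finset.sum_const, nsmul_eq_mul] at h2
  have h5 : (9 / 10 : ℝ) * W'.card ≤ ((W' \ H).card : ℝ) := by linarith
  have h6 : (9 / 10 : ℝ) * W'.card * (W'.card / 25) ≤ 1 / 50 * (W'.card : ℝ) ^ 2 :=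
    calc (9 / 10 : ℝ) * W'.card * (W'.card / 25) ≤ ((W' \ H).card : ℝ) * (W'.card / 25) :=
          mul_le_mul_of_nonneg_right h5 (by positivity)
      _ ≤ _ := (h2.trans h3).trans (h1 ▸ hbad)
  nlinarith [mul_pos hWc hWc]

private theorem sm_card (A : Mat) (U : Finset ℕ) (w w' : ℕ) (hU : U.Nonempty) :
    (((U.filter (fun u => (w', u) ∈ A)).filter (fun u => (w, u) ∈ A)).card : ℝ) =
      jn A A U w w' * U.card := by
  have hUc : (0 : ℝ) < U.card := by exact_mod_cast Finset.card_pos.2 hU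
  unfold jn
  rw [div_mul_cancel₀ _ hUc.ne', Finset.filter_filter]
  congr 2
  ext u
  simp only [Finset.mem_filter]
  tauto

private theorem sm_jsum (A : Mat) (U W' : Finset ℕ) (α : ℝ) (w' : ℕ)
    (hw'b : ((W'.filter (fun w => jn A A U w w' < 6 / 5 * α ^ 2)).card : ℝ) ≤
      (W'.card : ℝ) / 25) :
    (24 / 25 * (W'.card : ℝ)) * (6 / 5 * α ^ 2) ≤ ∑ w ∈ W', jn A A U w w' := by
  have h9 : ((W'.filter (fun w => jn A A U w w' < 6 / 5 * α ^ 2)).card : ℝ) +
      ((W'.filter (fun w => ¬ jn A A U w w' < 6 / 5 * α ^ 2)).card : ℝ) = W'.card := by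
    rw [← Nat.cast_add, Finset.card_filter_add_card_filter_not]
  have h10 : ∑ w ∈ W'.filter (fun w => ¬ jn A A U w w' < 6 / 5 * α ^ 2), (6 / 5 * α ^ 2) ≤
      ∑ w ∈ W'.filter (fun w => ¬ jn A A U w w' < 6 / 5 * α ^ 2), jn A A U w w' :=
    Finset.sum_le_sum fun w hw => not_lt.1 (Finset.mem_filter.1 hw).2
  have h11 : ∑ w ∈ W'.filter (fun w => ¬ jn A A U w w' < 6 / 5 * α ^ 2), jn A A U w w' ≤
      ∑ w ∈ W', jn A A U w w' :=
    Finset.sum_le_sum_of_subset_of_nonneg (Finset.filter_subset _ _) fun w _ _ => by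
      unfold jn
      positivity
  rw [Finset.sum_const, nsmul_eq_mul] at h10
  have h12 : 24 / 25 * (W'.card : ℝ) ≤
      ((W'.filter (fun w => ¬ jn A A U w w' < 6 / 5 * α ^ 2)).card : ℝ) := by linarith
  calc _ ≤ ((W'.filter (fun w => ¬ jn A A U w w' < 6 / 5 * α ^ 2)).card : ℝ) *
        (6 / 5 * α ^ 2) := mul_le_mul_of_nonneg_right h12 (by positivity)
    _ ≤ _ := h10.trans h11

private theorem sm_num (α c x y s t r n : ℝ) (hα : 0 < α) (hx : 0 < x) (hy : 0 < y)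
    (hc0 : 0 ≤ c) (hc : c ≤ 1 / 100) (hn : 0 < n) (hd : s < (1 + c) * α * x)
    (hs : s * n = t * y) (ht : (24 / 25 * x) * (6 / 5 * α ^ 2) ≤ t) (hr : n = r * y)
    (hr2 : r < (1 + c) * α) : False := by
  have hd2 : s * n < (1 + c) * α * x * n := mul_lt_mul_of_pos_right hd hn
  have hd3 : (1 + c) * α * x * n ≤ (1 + c) * α * x * ((1 + c) * α * y) := by
    refine mul_le_mul_of_nonneg_left ?_ (by positivity)
    rw [hr]
    exact mul_le_mul_of_nonneg_right hr2.le hy.le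
  have hd4 : (24 / 25 * x) * (6 / 5 * α ^ 2) * y < (1 + c) ^ 2 * (α ^ 2 * x * y) :=
    calc _ ≤ t * y := mul_le_mul_of_nonneg_right ht hy.le
      _ = s * n := hs.symm
      _ < _ := hd2
      _ ≤ _ := hd3
      _ = _ := by ring
  have hpos : 0 < α ^ 2 * x * y := by positivity
  have hc2 : (1 + c) ^ 2 ≤ 1.0201 := by nlinarith
  have h13 : (1 + c) ^ 2 * (α ^ 2 * x * y) ≤ 1.0201 * (α ^ 2 * x * y) :=
    mul_le_mul_of_nonneg_right hc2 hpos.le
  nlinarith

private theorem sm_large (D k : ℕ) (α a b e f r : ℝ) (hα : 0 < α) (ha : 0 < a) (hb : 0 < b)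
    (hαD : (1 / 2 : ℝ) ^ D ≤ α) (he : α ^ (pp D k) / 2 * a ≤ e) (hf : f = r * b)
    (hr : 99 / 100 * α ≤ r) : rho D k * (a * b) ≤ e * f := by
  have h7 := sm_rho D k α hαD
  have h8 : 99 / 100 * α * b ≤ f := by
    rw [hf]
    exact mul_le_mul_of_nonneg_right hr hb.le
  have h9 : 0 < α ^ (pp D k) := by positivity
  calc rho D k * (a * b) ≤ α ^ (pp D k + 1) / 20 * (a * b) :=
        mul_le_mul_of_nonneg_right h7 (by positivity)
    _ ≤ (α ^ (pp D k) / 2 * a) * (99 / 100 * α * b) := by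
        rw [pow_succ]
        have : 0 ≤ α ^ (pp D k) * α * (a * b) := by positivity
        nlinarith
    _ ≤ e * f := mul_le_mul he h8 (by positivity) (le_trans (by positivity) he)

theorem piece_sm (h1 : S_avg) (h2 : S_odd) (h4 : S_tail) (h5 : S_moment) (h6 : S_sift) :
    S_sm := by
  intro D k c α A W U hk hk2 hW hU hreg
  by_contra hcon
  rw [not_le] at hcon
  have hreg' := hreg
  obtain ⟨hαD, hα1, hc0, hc, hrow, hr⟩ := hreg'
  have hα : 0 < α := lt_of_lt_of_le (by positivity) hαD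
  have hUc : (0 : ℝ) < U.card := by exact_mod_cast Finset.card_pos.2 hU
  have hWc : (0 : ℝ) < W.card := by exact_mod_cast Finset.card_pos.2 hW
  have hm := h5 D k α A W U hk hα hU hrow (sm_one h2 h4 D k α A W U hk hk2 hU hα hαD hcon)
  have hp : 58 ≤ pp D k := by
    unfold pp
    nlinarith [Nat.zero_le (k * D)]
  obtain ⟨W', hW'W, hW', hsize, hbad⟩ := h6 (pp D k) α A W U hp hα hα1 hW hU hm
  have hW'c : (0 : ℝ) < W'.card := by exact_mod_cast Finset.card_pos.2 hW'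
  have hH : ((W.filter (fun w => (1 + c) * α ≤ rd A U w)).card : ℝ) ≤ (W'.card : ℝ) / 10 := by
    have := sm_high h1 D k c α A W U hU hreg
    linarith
  obtain ⟨w', hw', hw'H, hw'b⟩ := sm_bad A U W' α _ hW' hH hbad
  have hw'W : w' ∈ W := hW'W hw'
  have hlow := hrow w' hw'W
  have hhigh : rd A U w' < (1 + c) * α := by
    by_contra h
    exact hw'H (Finset.mem_filter.2 ⟨hw'W, not_lt.1 h⟩)
  have hU'c : ((U.filter (fun u => (w', u) ∈ A)).card : ℝ) = rd A U w' * U.card := by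
    unfold rd
    rw [div_mul_cancel₀ _ hUc.ne']
  have hU's : U.filter (fun u => (w', u) ∈ A) ⊆ U := Finset.filter_subset _ _
  have hs0 : ∀ w, (((U.filter (fun u => (w', u) ∈ A)).filter (fun u => (w, u) ∈ A)).card : ℝ) =
      jn A A U w w' * U.card := fun w => sm_card A U w w' hU
  generalize U.filter (fun u => (w', u) ∈ A) = U' at hU'c hU's hs0
  have hU'pos : (0 : ℝ) < U'.card := by
    rw [hU'c]
    have : 0 < rd A U w' := lt_of_lt_of_le (by positivity) hlow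
    positivity
  have hU'ne : U'.Nonempty := by
    rw [← Finset.card_pos]
    exact_mod_cast hU'pos
  have hlarge : rho D k * ((W.card : ℝ) * (U.card : ℝ)) ≤ (W'.card : ℝ) * (U'.card : ℝ) :=
    sm_large D k α _ _ _ _ _ hα hWc hUc hαD hsize hU'c hlow
  have hd := hr W' hW'W U' hU's hW' hU'ne hlarge
  rw [(h1 A W' U' hW' hU'ne).1, div_lt_iff₀ hW'c] at hd
  have hs : (∑ w ∈ W', rd A U' w) * U'.card = (∑ w ∈ W', jn A A U w w') * U.card := by
    rw [Finset.sum_mul, Finset.sum_mul]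
    refine Finset.sum_congr rfl fun w _ => ?_
    rw [← hs0 w]
    unfold rd
    rw [div_mul_cancel₀ _ hU'pos.ne']
  exact sm_num α c _ _ _ _ _ _ hα hW'c hUc hc0 hc hU'pos hd hs
    (sm_jsum A U W' α w' hw'b) hU'c hhigh

end DDA
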