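import Pool.Agent.Lib.MP_dd2a0a_lc.OR.StmR
import Pool.Agent.Lib.MP_dd2a0a_lc.OR.RTool

set_option autoImplicit false

/-! One step of the exploration. -/

namespace DDA

private theorem sp_map {mem mem' : ℕ → ℕ} {S n c : ℕ} {val : ℕ → ℕ}
    (hm : ∀ a, a < S + 3 * n → mem' a = mem a) (h : MapInv mem S n c val) :
    MapInv mem' S n c val := by
  obtain ⟨hc, hk, hv⟩ := h
  refine ⟨hc, fun j hj => ?_, fun v hv' => ?_⟩
  · obtain ⟨h1, h2, h3⟩ := hk j hj
    rw [hm (S + n + j) (by omega), hm (S + n + n + j) (by omega),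
      hm (S + mem (S + n + j)) (by omega)]
    exact ⟨h1, h2, h3⟩
  · have h1 := hv v hv'
    rw [hm (S + v) (by omega)]
    by_cases h2 : mem (S + v) < c
    · rw [hm (S + n + mem (S + v)) (by omega), hm (S + n + n + mem (S + v)) (by omega)]
      exact h1
    · rw [if_neg (fun h => h2 h.1)] at h1 ⊢
      exact h1

private theorem sp_stack {mem mem' : ℕ → ℕ} {Q : ℕ → Prop} {base : ℕ}
    (hQ : ∀ a, Q a → mem' a = mem a) :
    ∀ st : List (List ℕ), (∀ a, base < a → a ≤ base + st.length → mem' a = mem a) →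
      StackAt mem Q base st → StackAt mem' Q base st
  | [], _, _ => trivial
  | l :: st, h, hs => by
    have e := h (base + st.length + 1) (by omega) (by simp only [List.length_cons]; omega)
    refine ⟨?_, sp_stack hQ st
      (fun a h1 h2 => h a h1 (by simp only [List.length_cons]; omega)) hs.2⟩
    rw [e]
    exact ListAt.congr hQ _ _ hs.1

private theorem sp_mk {I : Inst} {z S : ℕ} {rp : ℕ → ℕ} {f lp : ℕ → ℕ → ℕ} {s s' : St} {c : ℕ}
    {seen : ℕ → Bool} {st st' : List (List ℕ)} {fuel fuel' : ℕ}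
    (h : EInv I z S rp f lp s c seen st fuel)
    (hr : ∀ r ∈ [rOne, rZero, rZ, rK, rB, rSI, rSL, rSV, rCb, rQb, rCnt], s'.reg r = s.reg r)
    (hm : ∀ a, a < S + 3 * I.n → s'.mem a = s.mem a)
    (hsp : s'.reg rSp = S + 3 * I.n + 1 + st'.length) (hd : s'.reg rD = st'.length)
    (hf : s'.reg rFuel = fuel') (hs : StackAt s'.mem (fixQ S I.n) (S + 3 * I.n + 1) st')
    (hel : ∀ l ∈ st', ∀ v ∈ l, v < I.n) (hle : st'.length + fuel' ≤ I.B + 1) :
    EInv I z S rp f lp s' c seen st' fuel' where
  lay := h.lay.congr (fun a ha => hm a (by omega))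
  hz := h.hz
  one := (hr _ (by simp)).trans h.one
  zero := (hr _ (by simp)).trans h.zero
  rz := (hr _ (by simp)).trans h.rz
  k := (hr _ (by simp)).trans h.k
  b := (hr _ (by simp)).trans h.b
  si := (hr _ (by simp)).trans h.si
  sl := (hr _ (by simp)).trans h.sl
  sv := (hr _ (by simp)).trans h.sv
  cb := (hr _ (by simp)).trans h.cb
  qb := (hr _ (by simp)).trans h.qb
  sp := hsp
  d := hd
  cnt := (hr _ (by simp)).trans h.cnt
  fl := hf
  map := sp_map hm h.map
  stk := hs
  el := hel
  le := hle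

/-- the last instruction -/
private theorem sp_last {M S : ℕ} {I : Inst} {rp : ℕ → ℕ} {f lp : ℕ → ℕ → ℕ} {z c fuel : ℕ}
    {seen : ℕ → Bool} {st : List (List ℕ)} {s : St} (h : EInv I z S rp f lp s c seen st fuel)
    (hM : 4 * (S + I.n + I.b + I.K + I.B + 10) ≤ M) :
    EX M (Cmd.ite rD (Cmd.add rRun rFuel rZero) (Cmd.const rRun 0)) s (fun t s' => t = 2 ∧
      s' = s.set rRun (if st = [] then 0 else fuel) ∧
      EInv I z S rp f lp s' c seen st fuel) := by
  have hE : ∀ x, EInv I z S rp f lp (s.set rRun x) c seen st fuel := by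
    intro x
    refine sp_mk h ?_ (fun a _ => rfl) ?_ ?_ ?_ h.stk h.el h.le
    · intro r hr
      rw [St.set_reg, if_neg]
      rintro rfl
      simp [rOne, rZero, rZ, rK, rB, rSI, rSL, rSV, rCb, rQb, rCnt, rRun] at hr
    · rw [St.set_reg, if_neg (by decide)]
      exact h.sp
    · rw [St.set_reg, if_neg (by decide)]
      exact h.d
    · rw [St.set_reg, if_neg (by decide)]
      exact h.fl
  have hd := h.d
  have hfl := h.fl
  have hz := h.zero
  have hle := h.le
  by_cases h0 : st = []
  · refine EX.iteF ?_ (EX.const (by omega) ?_)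
    · rw [hd, h0]
      rfl
    · refine ⟨rfl, ?_, hE _⟩
      rw [if_pos h0]
  · refine EX.iteT ?_ (EX.add ?_ ?_)
    · rw [hd]
      exact fun e => h0 (List.length_eq_zero_iff.1 e)
    · rw [hfl, hz]
      omega
    · refine ⟨rfl, ?_, hE _⟩
      rw [if_neg h0, hfl, hz, Nat.add_zero]

theorem piece_step (h8 : S_touch) : S_step := by
  intro M S I E1 m nb rp f lp z c fuel seen st s hok hE hst hM
  obtain ⟨l, st0, rfl⟩ := List.exists_cons_of_ne_nil hst
  obtain ⟨hl, hst0⟩ := hE.stk
  have hone : s.reg 3 = 1 := hE.one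
  have hzero : s.reg 4 = 0 := hE.zero
  have hfl : s.reg 10 = fuel + 1 := hE.fl
  have hsp : s.reg 14 = S + 3 * I.n + 1 + st0.length + 1 := hE.sp
  have hd : s.reg 18 = st0.length + 1 := hE.d
  have hrz : s.reg 1 = z := hE.rz
  have hle : st0.length + 1 + (fuel + 1) ≤ I.B + 1 := hE.le
  have hzn := hE.hz
  have hel0 : ∀ l ∈ st0, ∀ v ∈ l, v < I.n := fun l hl => hE.el l (List.mem_cons_of_mem _ hl)
  show EX M stepC s _
  unfold stepC
  refine EX.cons (EX.sub (EX.cons (EX.load (EX.cons (EX.load ?_)))))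
  cases l with
  | nil =>
    obtain ⟨hp1, hp2⟩ := hl
    refine EX.cons (EX.iteF ?_ (EX.cons (EX.sub (EX.last (EX.sub ?_)))))
    · simp [rE, rP, rSp, rFuel, rOne, hsp, hp1]
    have hE' := sp_mk (s' := (((((s.set rFuel (s.reg rFuel - s.reg rOne)).set rP
        (s.mem (s.reg rSp))).set rE (s.mem (s.mem (s.reg rSp)))).set rSp
        (s.reg rSp - s.reg rOne)).set rD (s.reg rD - s.reg rOne))) (st' := st0) (fuel' := fuel)
        hE ?_ (fun a _ => rfl) ?_ ?_ ?_ hst0 hel0 (by omega)
    · refine EX.last ((sp_last hE' hM).mono ?_)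
      rintro t s' ⟨rfl, rfl, h3⟩
      refine ⟨by omega, Or.inr ⟨c, seen, st0, h3, ?_, ?_, ?_⟩⟩
      · simp [rRes, rRun, rD, rSp, rE, rP, rFuel]
      · simp [rRun]
      · rw [explore]
    · intro r hr
      simp only [St.set_reg]
      rw [if_neg, if_neg, if_neg, if_neg, if_neg] <;>
      · rintro rfl
        simp [rOne, rZero, rZ, rK, rB, rSI, rSL, rSV, rCb, rQb, rCnt, rD, rSp, rE, rP, rFuel] at hr
    · simp [rSp, rD, rOne, hsp, hone]
    · simp [rD, rOne, hd, hone]
    · simp [rD, rSp, rE, rP, rFuel, rOne, hfl, hone]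
  | cons v r =>
    obtain ⟨hp1, hp2, hp3⟩ := hl
    have hv : v < I.n := hE.el (v :: r) List.mem_cons_self v List.mem_cons_self
    have hpM : s.mem (S + 3 * I.n + 1 + st0.length + 1) + 1 < M := by
      rcases hp2 with h | h | h <;> omega
    set p := s.mem (S + 3 * I.n + 1 + st0.length + 1) with hp
    refine EX.cons (EX.iteT ?_ (EX.cons (EX.add ?_ (EX.cons (EX.store (EX.cons (EX.sub
      (EX.cons ?_))))))))
    · simp [rE, rP, rSp, rFuel, rOne, hsp, ← hp, hp1]
    · simp [rE, rP, rSp, rFuel, rOne, hsp, ← hp, hone, hpM]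
    unfold eqTest
    refine EX.cons (EX.sub (EX.cons (EX.sub (EX.last (EX.add ?_ (EX.last ?_))))))
    · simp [rE, rP, rSp, rFuel, rOne, rT1, rT2, rV, rZ, hsp, ← hp, hone, hp1, hrz]
      omega
    by_cases hvz : v = z
    · refine EX.iteF ?_ (EX.cons (EX.const (by omega) (EX.last (EX.const (by omega) ?_))))
      · simp [rE, rP, rSp, rFuel, rOne, rT1, rT2, rV, rZ, hsp, ← hp, hone, hp1, hrz, hvz]
      refine EX.last (EX.iteF ?_ (EX.const (by omega) ?_))
      · simp [rD]
      refine ⟨by omega, Or.inl ⟨?_, ?_, ?_, ?_⟩⟩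
      · simp [rD, rRun]
      · simp [rRun]
      · simp [rRes, rD, rRun]
      · rw [explore, if_pos hvz]
    · refine EX.iteT ?_ ?_
      · simp [rE, rP, rSp, rFuel, rOne, rT1, rT2, rV, rZ, hsp, ← hp, hone, hp1, hrz]
        omega
      have key : ∀ s1 : St,
          (∀ r ∈ [rOne, rZero, rZ, rK, rB, rSI, rSL, rSV, rCb, rQb, rCnt], s1.reg r = s.reg r) →
          s1.reg rRes = s.reg rRes → s1.reg rV = v → s1.reg rSp = s.reg rSp →
          s1.reg rD = s.reg rD → s1.reg rFuel = fuel →
          (∀ a, s1.mem a = if a = S + 3 * I.n + 1 + st0.length + 1 then p + 1 else s.mem a) →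
          EX M touchC s1 (fun t s' => t ≤ 60 + 20 * I.K + 14 * I.b ∧ s'.reg rRes = s.reg rRes ∧
            ∃ (c' : ℕ) (seen' : ℕ → Bool) (st' : List (List ℕ)),
              EInv I z S rp f lp s' c' seen' st' fuel ∧
              explore I.adj (I.tst z) z (fuel + 1) ((v :: r) :: st0) seen =
                explore I.adj (I.tst z) z fuel st' seen') := by
        intro s1 hr hres hv1 hsp1 hd1 hf1 hm1
        have hQ : ∀ a, fixQ S I.n a → s1.mem a = s.mem a := by
          intro a ha
          rw [hm1, if_neg]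
          rcases ha with h | h | h <;> omega
        have hE1 : EInv I z S rp f lp s1 c seen (r :: st0) fuel := by
          refine sp_mk hE hr (fun a ha => ?_) ?_ ?_ hf1 ?_ ?_ ?_
          · rw [hm1, if_neg (by omega)]
          · rw [hsp1]
            exact hE.sp
          · rw [hd1]
            exact hE.d
          · refine ⟨?_, sp_stack hQ st0 (fun a h1 h2 => by rw [hm1, if_neg (by omega)]) hst0⟩
            rw [hm1, if_pos rfl]
            exact ListAt.congr hQ _ _ hp3
          · intro l hl u hu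
            rcases List.mem_cons.1 hl with rfl | hl
            · exact hE.el (v :: l) List.mem_cons_self u (List.mem_cons_of_mem _ hu)
            · exact hel0 l hl u hu
          · simp only [List.length_cons]
            omega
        obtain ⟨t, s', c', seen', st', h1, h2, h3, h4, h5⟩ :=
          h8 M S I E1 m nb rp f lp z v c fuel seen (r :: st0) s1 hok hE1
            (by simp only [List.length_cons]; omega) hM hv hv1
        refine ⟨t, s', h1, h2, h3.trans hres, c', seen', st', h4, ?_⟩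
        rw [explore, if_neg hvz]
        rcases h5 with ⟨a1, a2, a3⟩ | ⟨a1, a2, a3, a4⟩ | ⟨a1, a2, a3, a4⟩
        · rw [if_pos a1, a2, a3]
        · rw [if_neg (by simp [a1]), if_pos a2, a3, a4]
        · rw [if_neg (by simp [a1]), if_neg (by simp [a2]), a3, a4]
      refine (key _ ?_ ?_ ?_ ?_ ?_ ?_ ?_).mono ?_
      · intro r hr
        simp only [St.set_reg, St.put_reg]
        rw [if_neg, if_neg, if_neg, if_neg, if_neg, if_neg, if_neg, if_neg] <;>
        · rintro rfl
          simp [rOne, rZero, rZ, rK, rB, rSI, rSL, rSV, rCb, rQb, rCnt, rE, rP, rFuel,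
            rT1, rT2, rV] at hr
      · simp [rRes, rT1, rT2, rV, rE, rP, rFuel]
      · simp [rT1, rT2, rV, rE, rP, rFuel, rSp, rOne, hsp, ← hp, hp1, hone]
      · simp [rT1, rT2, rV, rE, rP, rFuel, rSp]
      · simp [rT1, rT2, rV, rE, rP, rFuel, rD]
      · simp [rT1, rT2, rV, rE, rP, rFuel, rOne, hfl, hone]
      · intro a
        simp [rT1, rT2, rV, rE, rP, rFuel, rSp, rOne, hsp, ← hp, hone]
      · rintro t s' ⟨h1, h2, c', seen', st', h3, h4⟩
        refine EX.last ((sp_last h3 hM).mono ?_)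
        rintro t' s'' ⟨rfl, rfl, h5⟩
        refine ⟨by omega, Or.inr ⟨c', seen', st', h5, ?_, ?_, h4⟩⟩
        · rw [St.set_reg, if_neg (by decide)]
          exact h2
        · simp [rRun]

end DDA
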