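import Pool.Agent.Lib.MP_dd2a0a_lc.OR.Stm

/-!
Piece K16: the list structure for disjointness.
-/

namespace DDA

open Finset

noncomputable section

private def entA (b : Box) : Ent :=
  ⟨false, b.W, b.Z, fun w => b.U.filter (fun u => (w, u) ∈ b.A)⟩

private def entC (b : Box) : Ent :=
  ⟨true, b.W, b.Z, fun z => b.U.filter (fun u => (z, u) ∈ b.C)⟩

/-- cost of one entry -/
private def c1 (W U Z : Finset ℕ) (A C : Mat) (e : Ent) : ℝ :=
  ∑ w ∈ W, ∑ z ∈ Z, (open Classical in if Disj A C U w z then ((e.lst w z).card : ℝ) else 0)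

private theorem cost_eq (W U Z : Finset ℕ) (A C : Mat) (l : List Ent) :
    (∑ w ∈ W, ∑ z ∈ Z, (open Classical in if Disj A C U w z then (ecost l w z : ℝ) else 0)) =
      (l.map (c1 W U Z A C)).sum := by
  classical
  induction l with
  | nil => simp [ecost]
  | cons e l ih =>
    rw [List.map_cons, List.sum_cons, ← ih, c1, ← Finset.sum_add_distrib]
    refine Finset.sum_congr rfl fun w _ => ?_
    rw [← Finset.sum_add_distrib]
    refine Finset.sum_congr rfl fun z _ => ?_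
    by_cases h : Disj A C U w z
    · simp only [h, if_true]
      simp [ecost]
    · simp only [h, if_false]
      simp

private theorem list_le (c : Ent → ℝ) (en : Box → Ent) (k : ℝ) (bs : List Box)
    (h : ∀ b ∈ bs, c (en b) ≤ k * b.vol) : ((bs.map en).map c).sum ≤ k * vsum bs := by
  induction bs with
  | nil => simp [vsum]
  | cons b bs ih =>
    have h1 := h b (by simp)
    have h2 := ih (fun b' hb' => h b' (by simp [hb']))
    simp only [vsum, List.map_cons, List.sum_cons] at h2 ⊢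
    rw [mul_add]
    exact add_le_add h1 h2

private theorem sum_le' (W V : Finset ℕ) (f g : ℕ → ℝ) (hz : ∀ w, w ∉ V → f w = 0)
    (h : ∀ w ∈ V, f w ≤ g w) (hg : ∀ w ∈ V, 0 ≤ g w) :
    ∑ w ∈ W, f w ≤ ∑ w ∈ V, g w := by
  classical
  calc ∑ w ∈ W, f w = ∑ w ∈ W ∩ V, f w := by
        symm
        apply Finset.sum_subset Finset.inter_subset_left
        intro w hw hn
        apply hz
        intro hv
        exact hn (Finset.mem_inter.2 ⟨hw, hv⟩)
    _ ≤ ∑ w ∈ W ∩ V, g w := Finset.sum_le_sum fun w hw => h w (Finset.mem_inter.1 hw).2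
    _ ≤ ∑ w ∈ V, g w := by
        apply Finset.sum_le_sum_of_subset_of_nonneg Finset.inter_subset_right
        intro w hw _
        exact hg w hw

private theorem sum_rows (W U : Finset ℕ) (A : Mat) :
    ∑ w ∈ W, (U.filter (fun u => (w, u) ∈ A)).card ≤ A.card := by
  classical
  rw [← Finset.card_sigma]
  apply Finset.card_le_card_of_injOn (fun p => (p.1, p.2))
  · intro p hp
    have hp' := Finset.mem_coe.1 hp
    rw [Finset.mem_sigma, Finset.mem_filter] at hp'
    exact hp'.2.2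
  · rintro ⟨a, b⟩ _ ⟨c, d⟩ _ h
    simp only [Prod.mk.injEq] at h
    obtain ⟨h1, h2⟩ := h
    subst h1; subst h2
    rfl

/-- restriction of the sums to the box -/
private theorem c1_le (W U Z : Finset ℕ) (A C : Mat) (e : Ent) (g : ℕ → ℕ → ℝ)
    (hg : ∀ w ∈ e.W, ∀ z ∈ e.Z, 0 ≤ g w z)
    (h : ∀ w ∈ e.W, ∀ z ∈ e.Z, Disj A C U w z → ((e.lst w z).card : ℝ) ≤ g w z) :
    c1 W U Z A C e ≤ ∑ w ∈ e.W, ∑ z ∈ e.Z, g w z := by
  classical
  unfold c1
  apply sum_le'
  · intro w hw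
    apply Finset.sum_eq_zero
    intro z _
    simp [Ent.lst, hw]
  · intro w hw
    apply sum_le'
    · intro z hz
      simp [Ent.lst, hz]
    · intro z hz
      by_cases hd : Disj A C U w z
      · simp only [hd, if_true]
        exact h w hw z hz hd
      · simp only [hd, if_false]
        exact hg w hw z hz
    · intro z hz
      exact hg w hw z hz
  · intro w hw
    exact Finset.sum_nonneg fun z hz => hg w hw z hz

private theorem c_sa (D : ℕ) (W U Z : Finset ℕ) (A C : Mat) (b : Box) (hs : SparseA D b) :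
    c1 W U Z A C (entA b) ≤ (1 / 2 : ℝ) ^ D * b.vol := by
  classical
  refine (c1_le W U Z A C (entA b)
    (fun w _ => ((b.U.filter (fun u => (w, u) ∈ b.A)).card : ℝ)) ?_ ?_).trans ?_
  · intro w _ z _; positivity
  · intro w hw z hz _
    have hw' : w ∈ b.W := hw
    have hz' : z ∈ b.Z := hz
    simp [Ent.lst, entA, hw', hz']
  · have h1 : ∑ w ∈ (entA b).W, ∑ z ∈ (entA b).Z,
        ((b.U.filter (fun u => (w, u) ∈ b.A)).card : ℝ)
        = (b.Z.card : ℝ) * ((∑ w ∈ b.W, (b.U.filter (fun u => (w, u) ∈ b.A)).card : ℕ) : ℝ) := by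
      simp only [entA, Finset.sum_const, nsmul_eq_mul]
      rw [← Finset.mul_sum]
      push_cast
      rfl
    rw [h1]
    have h2 : ((∑ w ∈ b.W, (b.U.filter (fun u => (w, u) ∈ b.A)).card : ℕ) : ℝ) ≤ (b.A.card : ℝ) := by
      exact_mod_cast sum_rows b.W b.U b.A
    have h3 : (0 : ℝ) ≤ (b.Z.card : ℝ) := by positivity
    unfold SparseA at hs
    calc (b.Z.card : ℝ) * ((∑ w ∈ b.W, (b.U.filter (fun u => (w, u) ∈ b.A)).card : ℕ) : ℝ)
        ≤ (b.Z.card : ℝ) * ((1 / 2 : ℝ) ^ D * ((b.W.card : ℝ) * (b.U.card : ℝ))) :=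
          mul_le_mul_of_nonneg_left (h2.trans hs) h3
      _ = (1 / 2 : ℝ) ^ D * b.vol := by unfold Box.vol; ring

private theorem c_sc (D : ℕ) (W U Z : Finset ℕ) (A C : Mat) (b : Box) (hs : SparseC D b) :
    c1 W U Z A C (entC b) ≤ (1 / 2 : ℝ) ^ D * b.vol := by
  classical
  refine (c1_le W U Z A C (entC b)
    (fun _ z => ((b.U.filter (fun u => (z, u) ∈ b.C)).card : ℝ)) ?_ ?_).trans ?_
  · intro w _ z _; positivity
  · intro w hw z hz _
    have hw' : w ∈ b.W := hw
    have hz' : z ∈ b.Z := hz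
    simp [Ent.lst, entC, hw', hz']
  · have h1 : ∑ w ∈ (entC b).W, ∑ z ∈ (entC b).Z,
        ((b.U.filter (fun u => (z, u) ∈ b.C)).card : ℝ)
        = (b.W.card : ℝ) * ((∑ z ∈ b.Z, (b.U.filter (fun u => (z, u) ∈ b.C)).card : ℕ) : ℝ) := by
      simp only [entC, Finset.sum_const, nsmul_eq_mul]
      push_cast
      rfl
    rw [h1]
    have h2 : ((∑ z ∈ b.Z, (b.U.filter (fun u => (z, u) ∈ b.C)).card : ℕ) : ℝ) ≤ (b.C.card : ℝ) := by
      exact_mod_cast sum_rows b.Z b.U b.C
    have h3 : (0 : ℝ) ≤ (b.W.card : ℝ) := by positivity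
    unfold SparseC at hs
    calc (b.W.card : ℝ) * ((∑ z ∈ b.Z, (b.U.filter (fun u => (z, u) ∈ b.C)).card : ℕ) : ℝ)
        ≤ (b.W.card : ℝ) * ((1 / 2 : ℝ) ^ D * ((b.Z.card : ℝ) * (b.U.card : ℝ))) :=
          mul_le_mul_of_nonneg_left (h2.trans hs) h3
      _ = (1 / 2 : ℝ) ^ D * b.vol := by unfold Box.vol; ring

private theorem lstA_le (b : Box) (w z : ℕ) : (((entA b).lst w z).card : ℝ) ≤ (b.U.card : ℝ) := by
  classical
  have : ((entA b).lst w z).card ≤ b.U.card := by
    apply Finset.card_le_card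
    unfold Ent.lst entA
    split_ifs
    · exact Finset.filter_subset _ _
    · exact Finset.filter_subset _ _
    · exact Finset.empty_subset _
  exact_mod_cast this

private theorem c_lo (W U Z : Finset ℕ) (A C : Mat) (b : Box) :
    c1 W U Z A C (entA b) ≤ 1 * b.vol := by
  classical
  refine (c1_le W U Z A C (entA b) (fun _ _ => (b.U.card : ℝ)) ?_ ?_).trans ?_
  · intro w _ z _; positivity
  · intro w _ z _ _
    exact lstA_le b w z
  · simp only [entA, Finset.sum_const, nsmul_eq_mul]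
    apply le_of_eq
    unfold Box.vol
    ring

private theorem c_gd (D : ℕ) (W U Z : Finset ℕ) (A C : Mat) (hA : A ⊆ W ×ˢ U) (b : Box)
    (hbA : b.A ⊆ A) (hbC : b.C ⊆ C) (hs : GoodB D b) :
    c1 W U Z A C (entA b) ≤ (1 / 2 : ℝ) ^ D * b.vol := by
  classical
  refine (c1_le W U Z A C (entA b)
    (fun w z => if (∀ u ∈ b.U, ¬ ((w, u) ∈ b.A ∧ (z, u) ∈ b.C)) then (b.U.card : ℝ) else 0)
    ?_ ?_).trans ?_
  · intro w _ z _
    split_ifs <;> positivity
  · intro w _ z _ hd
    have h1 : ∀ u ∈ b.U, ¬ ((w, u) ∈ b.A ∧ (z, u) ∈ b.C) := by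
      rintro u _ ⟨h1, h2⟩
      have h3 := hbA h1
      have h4 := hbC h2
      have h5 : u ∈ U := (Finset.mem_product.1 (hA h3)).2
      exact hd u h5 ⟨h3, h4⟩
    rw [if_pos h1]
    exact lstA_le b w z
  · have h1 : ∑ w ∈ (entA b).W, ∑ z ∈ (entA b).Z,
        (if (∀ u ∈ b.U, ¬ ((w, u) ∈ b.A ∧ (z, u) ∈ b.C)) then (b.U.card : ℝ) else 0)
        = (((b.W ×ˢ b.Z).filter
            (fun p => ∀ u ∈ b.U, ¬ ((p.1, u) ∈ b.A ∧ (p.2, u) ∈ b.C))).card : ℝ) *
          (b.U.card : ℝ) := by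
      simp only [entA]
      rw [← Finset.sum_product', ← Finset.sum_filter, Finset.sum_const, nsmul_eq_mul]
    rw [h1]
    unfold GoodB at hs
    calc _ ≤ ((1 / 2 : ℝ) ^ D * ((b.W.card : ℝ) * (b.Z.card : ℝ))) * (b.U.card : ℝ) :=
          mul_le_mul_of_nonneg_right hs (by positivity)
      _ = (1 / 2 : ℝ) ^ D * b.vol := by unfold Box.vol; ring

theorem piece_sud (h15 : S_iter) : S_sud := by
  classical
  intro D hD W U Z A C hA hC
  obtain ⟨sa, sc, gd, lo, h1, h2, h3, h4, h5, h6, h7, h8⟩ := h15 D hD D ⟨W, U, Z, A, C⟩ ⟨hA, hC⟩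
  have hvol : (Box.mk W U Z A C).vol = (W.card : ℝ) * (U.card : ℝ) * (Z.card : ℝ) := rfl
  rw [hvol] at h6 h7
  refine ⟨sa.map entA ++ sc.map entC ++ gd.map entA ++ lo.map entA, ?_, ?_, ?_, ?_⟩
  · simpa using h8
  · intro e he x u hu
    simp only [List.mem_append, List.mem_map] at he
    have key : ∀ b' ∈ sa ++ sc ++ gd ++ lo, (u ∈ (entA b').L x ∨ u ∈ (entC b').L x) → u ∈ U := by
      intro b' hb' h
      obtain ⟨-, hs1, hs2⟩ := h1 b' hb'
      rcases h with h | h
      · have h9 : (x, u) ∈ b'.A := (Finset.mem_filter.1 h).2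
        exact (Finset.mem_product.1 (hA (hs1 h9))).2
      · have h9 : (x, u) ∈ b'.C := (Finset.mem_filter.1 h).2
        exact (Finset.mem_product.1 (hC (hs2 h9))).2
    rcases he with ((⟨b', hb', rfl⟩ | ⟨b', hb', rfl⟩) | ⟨b', hb', rfl⟩) | ⟨b', hb', rfl⟩
    · exact key b' (by simp [hb']) (Or.inl hu)
    · exact key b' (by simp [hb']) (Or.inr hu)
    · exact key b' (by simp [hb']) (Or.inl hu)
    · exact key b' (by simp [hb']) (Or.inl hu)
  · intro w u z hwu hzu
    obtain ⟨b', hb', h9, h10⟩ := h5 w u z hwu hzu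
    obtain ⟨⟨ok1, ok2⟩, -⟩ := h1 b' hb'
    have hw : w ∈ b'.W := (Finset.mem_product.1 (ok1 h9)).1
    have hu : u ∈ b'.U := (Finset.mem_product.1 (ok1 h9)).2
    have hz : z ∈ b'.Z := (Finset.mem_product.1 (ok2 h10)).1
    have hAe : u ∈ (entA b').lst w z := by
      simp [Ent.lst, entA, hw, hz, hu, h9]
    have hCe : u ∈ (entC b').lst w z := by
      simp [Ent.lst, entC, hw, hz, hu, h10]
    simp only [List.mem_append] at hb'
    rcases hb' with ((hb' | hb') | hb') | hb'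
    · exact ⟨entA b', by simp only [List.mem_append, List.mem_map]; exact Or.inl (Or.inl (Or.inl ⟨b', hb', rfl⟩)), hAe⟩
    · exact ⟨entC b', by simp only [List.mem_append, List.mem_map]; exact Or.inl (Or.inl (Or.inr ⟨b', hb', rfl⟩)), hCe⟩
    · exact ⟨entA b', by simp only [List.mem_append, List.mem_map]; exact Or.inl (Or.inr ⟨b', hb', rfl⟩), hAe⟩
    · exact ⟨entA b', by simp only [List.mem_append, List.mem_map]; exact Or.inr ⟨b', hb', rfl⟩, hAe⟩
  · rw [cost_eq]
    simp only [List.map_append, List.sum_append]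
    have e1 := list_le (c1 W U Z A C) entA ((1 / 2 : ℝ) ^ D) sa
      (fun b hb => c_sa D W U Z A C b (h2 b hb))
    have e2 := list_le (c1 W U Z A C) entC ((1 / 2 : ℝ) ^ D) sc
      (fun b hb => c_sc D W U Z A C b (h3 b hb))
    have e3 := list_le (c1 W U Z A C) entA ((1 / 2 : ℝ) ^ D) gd
      (fun b hb => c_gd D W U Z A C hA b (h1 b (by simp [hb])).2.1 (h1 b (by simp [hb])).2.2
        (h4 b hb))
    have e4 := list_le (c1 W U Z A C) entA 1 lo (fun b _ => c_lo W U Z A C b)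
    have e5 : vsum (sa ++ sc ++ gd) = vsum sa + vsum sc + vsum gd := by
      simp [vsum, add_assoc]
    rw [e5] at h6
    have hp : (0 : ℝ) ≤ (1 / 2 : ℝ) ^ D := by positivity
    have h6' := mul_le_mul_of_nonneg_left h6 hp
    nlinarith [e1, e2, e3, e4, h6', h7]

end

end DDA
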