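import Pool.Agent.Lib.MP_dd2a0a_lc.OR.Stm

/-!
# K4: upper tail
-/

namespace DDA

open Finset

private theorem tail_pos (x s : ℝ) (hs : 0 < s) (hx : 0 ≤ x) (k : ℕ) :
    x ^ k ≤ s ^ k + x ^ (k + 1) / s := by
  rcases le_total x s with h | h
  · have h1 : x ^ k ≤ s ^ k := pow_le_pow_left₀ hx h k
    have h2 : 0 ≤ x ^ (k + 1) / s := by positivity
    linarith
  · have h1 : x ^ k ≤ x ^ (k + 1) / s := by
      rw [le_div_iff₀ hs, pow_succ]
      exact mul_le_mul_of_nonneg_left h (by positivity)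
    have h2 : 0 ≤ s ^ k := by positivity
    linarith

private theorem tail_pt (x s : ℝ) (hs : 0 < s) (k : ℕ) (hk : Even k) :
    x ^ k ≤ s ^ k + (1 / s) * (2 * (max x 0) ^ (k + 1) - x ^ (k + 1)) := by
  rcases le_total 0 x with h | h
  · have h1 := tail_pos x s hs h k
    rw [max_eq_left h]
    have h2 : (1 / s) * (2 * x ^ (k + 1) - x ^ (k + 1)) = x ^ (k + 1) / s := by
      field_simp
      ring
    rw [h2]
    exact h1
  · have h1 := tail_pos (-x) s hs (by linarith) k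
    rw [max_eq_right h, zero_pow (by omega)]
    have h3 : (-x) ^ k = x ^ k := hk.neg_pow x
    have h4 : (-x) ^ (k + 1) = -(x ^ (k + 1)) := by
      rw [pow_succ, pow_succ, h3]
      ring
    rw [h3, h4] at h1
    have h5 : (1 / s) * (2 * 0 - x ^ (k + 1)) = -(x ^ (k + 1)) / s := by
      field_simp
      ring
    rw [h5]
    exact h1

private theorem tail_max (x : ℝ) (k D : ℕ) (hx : x ≤ 4 ^ D) :
    (max x 0) ^ (k + 1) ≤ (63 / 160 : ℝ) ^ (k + 1) +
      (if (63 / 160 : ℝ) ≤ x then ((4 : ℝ) ^ D) ^ (k + 1) else 0) := by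
  split_ifs with h
  · have h1 : (max x 0) ^ (k + 1) ≤ ((4 : ℝ) ^ D) ^ (k + 1) :=
      pow_le_pow_left₀ (le_max_right _ _) (max_le hx (by positivity)) _
    have h2 : (0 : ℝ) ≤ (63 / 160 : ℝ) ^ (k + 1) := by positivity
    linarith
  · have h1 : (max x 0) ^ (k + 1) ≤ (63 / 160 : ℝ) ^ (k + 1) :=
      pow_le_pow_left₀ (le_max_right _ _) (max_le (by linarith) (by norm_num)) _
    linarith

theorem piece_tail : S_tail := by
  intro P h k D hk hke hD hsum hmain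
  set s : ℝ := 27 / 80 with hs
  have hs0 : 0 < s := by rw [hs]; norm_num
  set n : ℝ := (P.card : ℝ) with hn
  set F : ℝ := ((P.filter (fun e => (63 / 160 : ℝ) ≤ h e)).card : ℝ) with hF
  set M : ℝ := ((4 : ℝ) ^ D) ^ (k + 1) with hM
  have hn0 : 0 ≤ n := by positivity
  have hM0 : 0 < M := by positivity
  -- pointwise bound summed up
  have h1 : ∑ e ∈ P, (h e) ^ k ≤ ∑ e ∈ P, (s ^ k + (1 / s) * (2 * ((63 / 160 : ℝ) ^ (k + 1) +
      (if (63 / 160 : ℝ) ≤ h e then M else 0)) - (h e) ^ (k + 1))) := by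
    refine Finset.sum_le_sum ?_
    intro e he
    refine (tail_pt (h e) s hs0 k hke).trans ?_
    have h2 := tail_max (h e) k D (hD e he)
    have h3 : (1 / s) * (2 * (max (h e) 0) ^ (k + 1) - (h e) ^ (k + 1)) ≤
        (1 / s) * (2 * ((63 / 160 : ℝ) ^ (k + 1) +
          (if (63 / 160 : ℝ) ≤ h e then M else 0)) - (h e) ^ (k + 1)) :=
      mul_le_mul_of_nonneg_left (by linarith) (by positivity)
    linarith
  have h2 : ∑ e ∈ P, (s ^ k + (1 / s) * (2 * ((63 / 160 : ℝ) ^ (k + 1) +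
      (if (63 / 160 : ℝ) ≤ h e then M else 0)) - (h e) ^ (k + 1))) =
      n * s ^ k + (1 / s) * (2 * (n * (63 / 160 : ℝ) ^ (k + 1) + F * M) -
        ∑ e ∈ P, (h e) ^ (k + 1)) := by
    have h4 : ∑ e ∈ P, (if (63 / 160 : ℝ) ≤ h e then M else 0) = F * M := by
      rw [← Finset.sum_filter, Finset.sum_const, nsmul_eq_mul]
    rw [Finset.sum_add_distrib, ← Finset.mul_sum, Finset.sum_sub_distrib, ← Finset.mul_sum,
      Finset.sum_add_distrib, h4, Finset.sum_const, Finset.sum_const, nsmul_eq_mul, nsmul_eq_mul]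
  rw [h2] at h1
  have h3 : (9 / 20 : ℝ) ^ k * n < n * s ^ k +
      (1 / s) * (2 * (n * (63 / 160 : ℝ) ^ (k + 1) + F * M)) := by
    have h4 : (1 / s) * (2 * (n * (63 / 160 : ℝ) ^ (k + 1) + F * M) -
        ∑ e ∈ P, (h e) ^ (k + 1)) ≤
        (1 / s) * (2 * (n * (63 / 160 : ℝ) ^ (k + 1) + F * M)) :=
      mul_le_mul_of_nonneg_left (by linarith) (by positivity)
    linarith
  -- numerical facts
  have e1 : s ^ k ≤ 1 / 4 * (9 / 20 : ℝ) ^ k := by
    have h5 : s = 3 / 4 * (9 / 20) := by rw [hs]; norm_num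
    rw [h5, mul_pow]
    refine mul_le_mul_of_nonneg_right ?_ (by positivity)
    calc (3 / 4 : ℝ) ^ k ≤ (3 / 4 : ℝ) ^ 20 :=
          pow_le_pow_of_le_one (by norm_num) (by norm_num) hk
      _ ≤ 1 / 4 := by norm_num
  have e2 : (63 / 160 : ℝ) ^ (k + 1) ≤ 9 / 320 * (9 / 20 : ℝ) ^ k := by
    have h5 : (63 / 160 : ℝ) = 7 / 8 * (9 / 20) := by norm_num
    rw [h5, mul_pow]
    have h6 : (7 / 8 : ℝ) ^ (k + 1) ≤ 1 / 16 := by
      calc (7 / 8 : ℝ) ^ (k + 1) ≤ (7 / 8 : ℝ) ^ 21 :=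
            pow_le_pow_of_le_one (by norm_num) (by norm_num) (by omega)
        _ ≤ 1 / 16 := by norm_num
    calc (7 / 8 : ℝ) ^ (k + 1) * (9 / 20 : ℝ) ^ (k + 1) ≤ 1 / 16 * (9 / 20 : ℝ) ^ (k + 1) :=
          mul_le_mul_of_nonneg_right h6 (by positivity)
      _ = 9 / 320 * (9 / 20 : ℝ) ^ k := by
          rw [pow_succ]
          ring
  set E : ℝ := (9 / 20 : ℝ) ^ k with hE
  have hE0 : 0 < E := by positivity
  have g1 : n * s ^ k ≤ n * (1 / 4 * E) := mul_le_mul_of_nonneg_left e1 hn0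
  have g2 : n * (63 / 160 : ℝ) ^ (k + 1) ≤ n * (9 / 320 * E) := mul_le_mul_of_nonneg_left e2 hn0
  have g3 : (1 / s) * (2 * (n * (63 / 160 : ℝ) ^ (k + 1) + F * M)) =
      160 / 27 * (n * (63 / 160 : ℝ) ^ (k + 1)) + 160 / 27 * (F * M) := by
    rw [hs]
    ring
  rw [g3] at h3
  have g4 : 1 / 8 * (9 / 20 * E) * n ≤ F * M := by
    have h5 : 0 ≤ n * E := by positivity
    nlinarith
  -- conclusion
  have g5 : (1 / 8 : ℝ) * (9 / 20 * (1 / 4 : ℝ) ^ D) ^ (k + 1) * n =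
      (1 / 8 * (9 / 20 * E) * n) / M := by
    rw [hM, hE, eq_div_iff (by positivity), mul_pow, one_div_pow, one_div_pow]
    have h6 : ((4 : ℝ) ^ D) ^ (k + 1) ≠ 0 := by positivity
    field_simp
    ring
  rw [g5, div_le_iff₀ hM0]
  exact g4

end DDA
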