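import Pool.Agent.Lib.MP_dd2a0a_lc.OR.RTool

namespace DDA

namespace TestAux

variable {M : ℕ}

theorem EXgen {P : Cmd} {s : St} {p : ℕ → St → Prop} (Q : St → Prop) (hQ : Q s)
    (h : ∀ s', Q s' → EX M P s' p) : EX M P s p := h s hQ

theorem sub1 : ∀ x ∈ [rCn, rT1, rA1, rC1, rPass, rPP, rEE, rRun2],
    x ∈ [rCn, rT1, rA1, rC1, rPass, rPP, rEE, rRun2, rI, rQ, rPz, rPw] := by decide

theorem sub2 : ∀ x ∈ [rI, rQ, rPP, rPz, rPw],
    x ∈ [rCn, rT1, rA1, rC1, rPass, rPP, rEE, rRun2, rI, rQ, rPz, rPw] := by decide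

theorem sub5 : ∀ x ∈ [rCn, rT1, rA1, rC1, rPass, rPP, rEE, rRun2, rI, rQ, rPz, rPw],
    x ∈ [rPass, rRv, rT3, rAb, rPw, rPz, rCn, rI, rQ, rPP, rEE, rRun2, rT1, rA1, rC1] := by decide

theorem sub4 : ∀ x ∈ [rPz, rCn, rI],
    x ∈ [rPass, rRv, rT3, rAb, rPw, rPz, rCn, rI, rQ, rPP, rEE, rRun2, rT1, rA1, rC1] := by decide

theorem sub3 : ∀ x ∈ [rPass, rT3, rRv, rAb, rPw],
    x ∈ [rPass, rRv, rT3, rAb, rPw, rPz, rCn, rI, rQ, rPP, rEE, rRun2, rT1, rA1, rC1] := by decide

theorem lp_lt {mem : ℕ → ℕ} {S p : ℕ} {l : List ℕ} (h : ListAt mem (fun a => a < S) p l) : p < S := by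
  cases l with
  | nil => exact h.2
  | cons v l => exact h.2.1

/-- one round of the loop -/
theorem body_ex (h3 : S_scan) {S : ℕ} {I : Inst} {rp : ℕ → ℕ} {f lp : ℕ → ℕ → ℕ} {z v i : ℕ}
    {s : St} (L : Lay I s.mem S rp f lp) (hN : ∀ i < I.K, ∀ v < I.n, ∀ u ∈ I.lst i v, u < I.N)
    (hM : 2 * S + I.b + I.K + 10 ≤ M) (hz : z < I.n) (hv : v < I.n) (h1 : s.reg rOne = 1)
    (h0 : s.reg rZero = 0) (hcb : s.reg rCb = f z 4) (hab : s.reg rAb = f v 7)
    (hpz : s.reg rPz = f z 5 + i) (hpw : s.reg rPw = f v 8 + i) (hp : s.reg rPass ≤ 1)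
    (hc : s.reg rCn ≤ I.b) (hi : i < I.K) :
    EX M testBody s (fun t s' => t + 14 * s'.reg rCn ≤ 19 + 14 * s.reg rCn ∧
      s'.reg rCn ≤ s.reg rCn ∧ s'.mem = s.mem ∧
      Keep [rCn, rT1, rA1, rC1, rPass, rPP, rEE, rRun2, rI, rQ, rPz, rPw] s s' ∧
      s'.reg rI = s.reg rI - 1 ∧ s'.reg rPz = s.reg rPz + 1 ∧ s'.reg rPw = s.reg rPw + 1 ∧
      s'.reg rCn = (scan (fun u => I.At v u && I.Ct z u) (I.row v z i)
        (s.reg rCn, decide (s.reg rPass = 1))).1 ∧
      s'.reg rPass = (if (scan (fun u => I.At v u && I.Ct z u) (I.row v z i)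
        (s.reg rCn, decide (s.reg rPass = 1))).2 = true then 1 else 0)) := by
  have q5 := L.f5 z hz i hi
  have q8 := L.f8 v hv i hi
  have lz := L.fl i hi z hz
  have lv := L.fl i hi v hv
  have lz' := lp_lt lz.1
  have lv' := lp_lt lv.1
  unfold testBody
  refine EX.cons (EX.sub (EX.cons (EX.load (EX.cons (EX.load (EX.cons (EX.add ?_
    (EX.cons (EX.add ?_ (EX.last ?_))))))))))
  · have a1 := hpz
    have a2 := h1
    simp only [rPz, rOne] at a1 a2
    simp [rI, rOne, rQ, rPP, rPz, a1, a2]; omega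
  · have a1 := hpw
    have a2 := h1
    simp only [rPw, rOne] at a1 a2
    simp [rI, rOne, rQ, rPP, rPz, rPw, a1, a2]; omega
  refine EXgen (fun s1 => s1.mem = s.mem ∧
      Keep [rI, rQ, rPP, rPz, rPw] s s1 ∧
      s1.reg rI = s.reg rI - 1 ∧ s1.reg rPz = s.reg rPz + 1 ∧ s1.reg rPw = s.reg rPw + 1 ∧
      s1.reg rQ = s.mem (f z 5 + i) ∧ s1.reg rPP = s.mem (f v 8 + i)) ?_ ?_
  · refine ⟨by simp, ?_, ?_, ?_, ?_, ?_, ?_⟩
    · intro r hr
      simp [rI, rQ, rPP, rPz, rPw] at hr ⊢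
      simp [hr]
    · have a2 := h1
      simp only [rOne] at a2
      simp [rI, rQ, rPP, rPz, rPw, rOne, a2]
    · have a2 := h1
      simp only [rOne] at a2
      simp [rI, rQ, rPP, rPz, rPw, rOne, a2]
    · have a2 := h1
      simp only [rOne] at a2
      simp [rI, rQ, rPP, rPz, rPw, rOne, a2]
    · have a1 := hpz
      simp only [rPz] at a1
      simp [rI, rQ, rPP, rPz, rPw, a1]
    · have a1 := hpw
      simp only [rPw] at a1
      simp [rI, rQ, rPP, rPz, rPw, a1]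
  rintro s1 ⟨m1, k1, eI, ePz, ePw, eQ, ePP⟩
  have kk : ∀ r, r ∉ [rI, rQ, rPP, rPz, rPw] → s1.reg r = s.reg r := k1
  have eCn : s1.reg rCn = s.reg rCn := kk _ (by simp [rI, rQ, rPP, rPz, rPw, rCn])
  have ePass : s1.reg rPass = s.reg rPass := kk _ (by simp [rI, rQ, rPP, rPz, rPw, rPass])
  have eOne : s1.reg rOne = 1 := by rw [kk _ (by simp [rI, rQ, rPP, rPz, rPw, rOne])]; exact h1
  have eZero : s1.reg rZero = 0 := by rw [kk _ (by simp [rI, rQ, rPP, rPz, rPw, rZero])]; exact h0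
  have eCb : s1.reg rCb = f z 4 := by rw [kk _ (by simp [rI, rQ, rPP, rPz, rPw, rCb])]; exact hcb
  have eAb : s1.reg rAb = f v 7 := by rw [kk _ (by simp [rI, rQ, rPP, rPz, rPw, rAb])]; exact hab
  have hpass : s.reg rPass = (if decide (s.reg rPass = 1) = true then 1 else 0) := by
    simp only [decide_eq_true_eq]
    split_ifs <;> omega
  -- the case of nothing
  have nothing : I.row v z i = [] → ∀ t, t ≤ 8 →
      (t + 14 * s1.reg rCn ≤ 19 + 14 * s.reg rCn ∧
      s1.reg rCn ≤ s.reg rCn ∧ s1.mem = s.mem ∧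
      Keep [rCn, rT1, rA1, rC1, rPass, rPP, rEE, rRun2, rI, rQ, rPz, rPw] s s1 ∧
      s1.reg rI = s.reg rI - 1 ∧ s1.reg rPz = s.reg rPz + 1 ∧ s1.reg rPw = s.reg rPw + 1 ∧
      s1.reg rCn = (scan (fun u => I.At v u && I.Ct z u) (I.row v z i)
        (s.reg rCn, decide (s.reg rPass = 1))).1 ∧
      s1.reg rPass = (if (scan (fun u => I.At v u && I.Ct z u) (I.row v z i)
        (s.reg rCn, decide (s.reg rPass = 1))).2 = true then 1 else 0)) := by
    intro hrow t ht
    rw [hrow]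
    refine ⟨by omega, by omega, m1, ?_, eI, ePz, ePw, ?_, ?_⟩
    · intro r hr
      exact kk r (fun h => hr (sub2 r h))
    · simp [scan, eCn]
    · rw [ePass]
      simpa [scan] using hpass
  by_cases cz : I.inZ i z = true
  · have hQ : s1.reg rQ = if I.typ i = true then lp i z else 1 := by
      rw [eQ, q5.1, if_pos cz]
    have hQ0 : s1.reg rQ ≠ 0 := by
      rw [hQ]; split_ifs <;> omega
    refine EX.iteT hQ0 ?_
    by_cases cw : I.inW i v = true
    · have hP : s1.reg rPP = if I.typ i = true then 1 else lp i v := by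
        rw [ePP, q8.1, if_pos cw]
      have hP0 : s1.reg rPP ≠ 0 := by
        rw [hP]; split_ifs <;> omega
      refine EX.iteT hP0 ?_
      have hsum : s1.reg rPP + s1.reg rQ < M := by
        rw [hP, hQ]; split_ifs <;> omega
      refine EX.cons (EX.add hsum (EX.cons (EX.sub (EX.last ?_))))
      obtain ⟨l, p, hl1, hl2, hl3, hl4⟩ : ∃ (l : List ℕ) (p : ℕ), I.row v z i = l ∧
          s1.reg rPP + s1.reg rQ - 1 = p ∧ ListAt s.mem (fun a => a < S) p l ∧
          ∀ u ∈ l, u < I.N := by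
        by_cases ct : I.typ i = true
        · refine ⟨I.lst i z, lp i z, ?_, ?_, lz.1, hN i hi z hz⟩
          · simp [Inst.row, cz, cw, ct]
          · rw [hP, hQ, if_pos ct, if_pos ct]; omega
        · refine ⟨I.lst i v, lp i v, ?_, ?_, lv.1, hN i hi v hv⟩
          · simp [Inst.row, cz, cw, ct]
          · rw [hP, hQ, if_neg ct, if_neg ct]; omega
      rw [hl1]
      refine EXgen (fun s2 => s2.mem = s.mem ∧ s2.reg rPP = p ∧ Keep [rPP] s1 s2) ?_ ?_
      · refine ⟨by simp [m1], ?_, ?_⟩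
        · rw [← hl2]
          have a2 := eOne
          simp only [rOne] at a2
          simp [rPP, rOne, a2]
        · intro r hr
          simp at hr
          simp [hr]
      rintro s2 ⟨m2, pp2, k2⟩
      have kk2 : ∀ r, r ≠ rPP → s2.reg r = s1.reg r := fun r hr => k2 r (by simpa using hr)
      have gOne : s2.reg rOne = 1 := by rw [kk2 _ (by simp [rOne, rPP])]; exact eOne
      have gZero : s2.reg rZero = 0 := by rw [kk2 _ (by simp [rZero, rPP])]; exact eZero
      have gPass : s2.reg rPass = s.reg rPass := by rw [kk2 _ (by simp [rPass, rPP])]; exact ePass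
      have gCn : s2.reg rCn = s.reg rCn := by rw [kk2 _ (by simp [rCn, rPP])]; exact eCn
      have gCb : s2.reg rCb = f z 4 := by rw [kk2 _ (by simp [rCb, rPP])]; exact eCb
      have gAb : s2.reg rAb = f v 7 := by rw [kk2 _ (by simp [rAb, rPP])]; exact eAb
      have h3' := h3 M S l (fun u => I.At v u && I.Ct z u) s2 (by omega) gOne gZero
        (by rw [gPass]; exact hp) (by rw [gCn]; omega) (by rw [m2, pp2]; exact hl3)
        (by
          intro u hu
          have hu' := hl4 u hu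
          have b7 := L.f7 v hv u hu'
          have b4 := L.f4 z hz u hu'
          rw [gAb, gCb, m2]
          refine ⟨b7.2, b4.2, ?_⟩
          rw [b7.1, b4.1]
          cases I.At v u <;> cases I.Ct z u <;> simp)
      refine EX.mono h3' ?_
      rintro t s' ⟨m3, k3, c1, c2, c3, c4⟩
      rw [gCn] at c1 c2 c3 c4
      rw [gPass] at c3 c4
      refine ⟨by omega, c1, m3.trans m2, ?_, ?_, ?_, ?_, c3, c4⟩
      · intro r hr
        have r1 : r ∉ [rCn, rT1, rA1, rC1, rPass, rPP, rEE, rRun2] := fun h => hr (sub1 r h)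
        have r2 : r ≠ rPP := by
          rintro rfl; apply hr; simp
        have r3 : r ∉ [rI, rQ, rPP, rPz, rPw] := fun h => hr (sub2 r h)
        rw [k3 r r1, kk2 r r2, kk r r3]
      · rw [k3 rI (by simp [rI, rCn, rT1, rA1, rC1, rPass, rPP, rEE, rRun2]),
          kk2 rI (by simp [rI, rPP]), eI]
      · rw [k3 rPz (by simp [rPz, rCn, rT1, rA1, rC1, rPass, rPP, rEE, rRun2]),
          kk2 rPz (by simp [rPz, rPP]), ePz]
      · rw [k3 rPw (by simp [rPw, rCn, rT1, rA1, rC1, rPass, rPP, rEE, rRun2]),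
          kk2 rPw (by simp [rPw, rPP]), ePw]
    · have hP : s1.reg rPP = 0 := by rw [ePP, q8.1, if_neg cw]
      refine EX.iteF hP (EX.skip ?_)
      exact nothing (by simp [Inst.row, cz, cw]) _ (by norm_num)
  · have hQ : s1.reg rQ = 0 := by rw [eQ, q5.1, if_neg cz]
    refine EX.iteF hQ (EX.skip ?_)
    exact nothing (by simp [Inst.row, cz]) _ (by norm_num)

/-- the state of the scan after `i` indices -/
def F (I : Inst) (v z : ℕ) (i : ℕ) : ℕ × Bool :=
  (List.range i).foldl (fun s i => scan (fun u => I.At v u && I.Ct z u) (I.row v z i) s)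
    (I.b, true)

theorem F_succ (I : Inst) (v z i : ℕ) : F I v z (i + 1) =
    scan (fun u => I.At v u && I.Ct z u) (I.row v z i) (F I v z i) := by
  simp [F, List.range_succ, List.foldl_append]

theorem loop_ex (h3 : S_scan) {S : ℕ} {I : Inst} {rp : ℕ → ℕ} {f lp : ℕ → ℕ → ℕ} {z v : ℕ}
    (hN : ∀ i < I.K, ∀ v < I.n, ∀ u ∈ I.lst i v, u < I.N)
    (hM : 2 * S + I.b + I.K + 10 ≤ M) (hz : z < I.n) (hv : v < I.n) : ∀ (k i : ℕ) (s : St),
    i + k = I.K → Lay I s.mem S rp f lp → s.reg rOne = 1 → s.reg rZero = 0 →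
    s.reg rCb = f z 4 → s.reg rAb = f v 7 → s.reg rPz = f z 5 + i → s.reg rPw = f v 8 + i →
    s.reg rI = k → s.reg rCn ≤ I.b → s.reg rCn = (F I v z i).1 →
    s.reg rPass = (if (F I v z i).2 = true then 1 else 0) →
    EX M (Cmd.loop rI testBody) s (fun t s' => t ≤ 1 + 20 * k + 14 * s.reg rCn ∧
      s'.mem = s.mem ∧
      Keep [rCn, rT1, rA1, rC1, rPass, rPP, rEE, rRun2, rI, rQ, rPz, rPw] s s' ∧
      s'.reg rPass = (if (F I v z I.K).2 = true then 1 else 0)) := by
  intro k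
  induction k with
  | zero =>
    intro i s hik L h1 h0 hcb hab hpz hpw hI hc hcn hp
    have : i = I.K := by omega
    subst this
    exact EX.loop0 hI ⟨by omega, rfl, fun r _ => rfl, hp⟩
  | succ k ih =>
    intro i s hik L h1 h0 hcb hab hpz hpw hI hc hcn hp
    refine EX.loop1 (by omega) ?_
    refine EX.mono (body_ex h3 L hN hM hz hv h1 h0 hcb hab hpz hpw
      (by rw [hp]; split_ifs <;> omega) hc (by omega : i < I.K)) ?_
    rintro t s' ⟨c1, c2, m1, k1, eI, ePz, ePw, eCn, ePass⟩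
    have hst : ((s.reg rCn, decide (s.reg rPass = 1)) : ℕ × Bool) = F I v z i := by
      rw [hcn, hp]
      cases hF : (F I v z i) with
      | mk a b => cases b <;> simp
    rw [hst, ← F_succ] at eCn ePass
    have gOne : s'.reg rOne = 1 := by
      rw [k1 rOne (by simp [rOne, rCn, rT1, rA1, rC1, rPass, rPP, rEE, rRun2, rI, rQ, rPz, rPw])]
      exact h1
    have gZero : s'.reg rZero = 0 := by
      rw [k1 rZero (by simp [rZero, rCn, rT1, rA1, rC1, rPass, rPP, rEE, rRun2, rI, rQ, rPz, rPw])]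
      exact h0
    have gCb : s'.reg rCb = f z 4 := by
      rw [k1 rCb (by simp [rCb, rCn, rT1, rA1, rC1, rPass, rPP, rEE, rRun2, rI, rQ, rPz, rPw])]
      exact hcb
    have gAb : s'.reg rAb = f v 7 := by
      rw [k1 rAb (by simp [rAb, rCn, rT1, rA1, rC1, rPass, rPP, rEE, rRun2, rI, rQ, rPz, rPw])]
      exact hab
    refine EX.mono (ih (i + 1) s' (by omega) (by rw [m1]; exact L) gOne gZero gCb gAb
      (by omega) (by omega) (by omega) (by omega) eCn ePass) ?_
    rintro t' s'' ⟨d1, m2, k2, d2⟩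
    refine ⟨by omega, m2.trans m1, ?_, d2⟩
    intro r hr
    rw [k2 r hr, k1 r hr]

end TestAux

open TestAux

theorem piece_test (h3 : S_scan) : S_test := by
  intro M S I rp f lp z v s L hN hM hz hv h1 h0 hV hcb hqb hB hK
  show EX M testC s _
  have r1 := L.rc v hv
  have g7 := L.fld v hv 7 (by norm_num)
  have g8 := L.fld v hv 8 (by norm_num)
  have b5 := L.fb z hz 5 (by norm_num)
  have b8 := L.fb v hv 8 (by norm_num)
  have s5 := L.s5
  unfold testC
  refine EX.cons (EX.const (by omega) (EX.cons (fetchRec_ex (by omega) ?_ (by simp [rV, rT3]) ?_)))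
  · have a1 := hV
    simp only [rV] at a1
    simp [rV, rPass, a1]; omega
  refine EXgen (fun s1 => s1.mem = s.mem ∧ s1.reg rPass = 1 ∧ s1.reg rRv = rp v ∧
    Keep [rPass, rT3, rRv] s s1) ?_ ?_
  · refine ⟨by simp, by simp [rPass, rRv, rT3], ?_, ?_⟩
    · have a1 := hV
      simp only [rV] at a1
      have a2 : s.mem (v + 6) = rp v := by rw [add_comm]; exact r1.1
      simp [rV, rPass, rRv, rT3, a1, a2]
    · intro r hr
      simp [rPass, rT3, rRv] at hr ⊢
      simp [hr]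
  rintro s1 ⟨m1, p1, v1, k1⟩
  refine EX.cons (field_ex (by omega) (by omega) (by simp [rRv, rT3]) ?_)
  refine EXgen (fun s2 => s2.mem = s.mem ∧ s2.reg rPass = 1 ∧ s2.reg rRv = rp v ∧
    s2.reg rAb = f v 7 ∧ Keep [rPass, rT3, rRv, rAb] s s2) ?_ ?_
  · refine ⟨by simp [m1], ?_, ?_, ?_, ?_⟩
    · have a1 := p1
      simp only [rPass] at a1
      simp [rPass, rAb, rT3, a1]
    · have a1 := v1
      simp only [rRv] at a1
      simp [rRv, rAb, rT3, a1]
    · have a1 := v1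
      simp only [rRv] at a1
      simp [rRv, rAb, rT3, a1, m1, g7.1]
    · intro r hr
      simp [rPass, rT3, rRv, rAb] at hr ⊢
      have := k1 r (by simp [rPass, rT3, rRv, hr])
      simp [hr, this]
  rintro s2 ⟨m2, p2, v2, a2, k2⟩
  refine EX.cons (field_ex (by omega) (by omega) (by simp [rRv, rT3]) ?_)
  refine EXgen (fun s3 => s3.mem = s.mem ∧ s3.reg rPass = 1 ∧
    s3.reg rAb = f v 7 ∧ s3.reg rPw = f v 8 ∧ Keep [rPass, rT3, rRv, rAb, rPw] s s3) ?_ ?_
  · refine ⟨by simp [m2], ?_, ?_, ?_, ?_⟩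
    · have a1 := p2
      simp only [rPass] at a1
      simp [rPass, rPw, rT3, a1]
    · have a1 := a2
      simp only [rAb] at a1
      simp [rPw, rAb, rT3, a1]
    · have a1 := v2
      simp only [rRv] at a1
      simp [rRv, rPw, rT3, a1, m2, g8.1]
    · intro r hr
      simp [rPass, rT3, rRv, rAb, rPw] at hr ⊢
      have := k2 r (by simp [rPass, rT3, rRv, rAb, hr])
      simp [hr, this]
  rintro s3 ⟨m3, p3, a3, w3, k3⟩
  have kk3 : ∀ r, r ∉ [rPass, rT3, rRv, rAb, rPw] → s3.reg r = s.reg r := k3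
  have cQb : s3.reg rQb = f z 5 := by
    rw [kk3 _ (by simp [rQb, rPass, rT3, rRv, rAb, rPw])]; exact hqb
  have cZero : s3.reg rZero = 0 := by
    rw [kk3 _ (by simp [rZero, rPass, rT3, rRv, rAb, rPw])]; exact h0
  have cOne : s3.reg rOne = 1 := by
    rw [kk3 _ (by simp [rOne, rPass, rT3, rRv, rAb, rPw])]; exact h1
  have cB : s3.reg rB = I.b := by
    rw [kk3 _ (by simp [rB, rPass, rT3, rRv, rAb, rPw])]; exact hB
  have cK : s3.reg rK = I.K := by
    rw [kk3 _ (by simp [rK, rPass, rT3, rRv, rAb, rPw])]; exact hK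
  have cCb : s3.reg rCb = f z 4 := by
    rw [kk3 _ (by simp [rCb, rPass, rT3, rRv, rAb, rPw])]; exact hcb
  refine EX.cons (EX.add (by rw [cQb, cZero]; omega) (EX.cons (EX.add ?_ (EX.cons (EX.add ?_
    (EX.last ?_))))))
  · have a1 := cB
    have a0 := cZero
    simp only [rB, rZero] at a1 a0
    simp [rB, rZero, rPz, a1, a0]; omega
  · have a1 := cK
    have a0 := cZero
    simp only [rK, rZero] at a1 a0
    simp [rK, rZero, rPz, rCn, a1, a0]; omega
  refine EXgen (fun s4 => s4.mem = s.mem ∧ s4.reg rPz = f z 5 ∧ s4.reg rCn = I.b ∧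
    s4.reg rI = I.K ∧ Keep [rPz, rCn, rI] s3 s4) ?_ ?_
  · refine ⟨by simp [m3], ?_, ?_, ?_, ?_⟩
    · have a1 := cQb
      have a0 := cZero
      simp only [rQb, rZero] at a1 a0
      simp [rPz, rCn, rI, rQb, rZero, a1, a0]
    · have a1 := cB
      have a0 := cZero
      simp only [rB, rZero] at a1 a0
      simp [rPz, rCn, rI, rB, rZero, a1, a0]
    · have a1 := cK
      have a0 := cZero
      simp only [rK, rZero] at a1 a0
      simp [rPz, rCn, rI, rK, rZero, a1, a0]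
    · intro r hr
      simp [rPz, rCn, rI] at hr ⊢
      simp [hr]
  rintro s4 ⟨m4, z4, c4, i4, k4⟩
  have kk4 : ∀ r, r ∉ [rPz, rCn, rI] → s4.reg r = s3.reg r := k4
  have e1 : s4.reg rOne = 1 := by rw [kk4 _ (by simp [rOne, rPz, rCn, rI])]; exact cOne
  have e0 : s4.reg rZero = 0 := by rw [kk4 _ (by simp [rZero, rPz, rCn, rI])]; exact cZero
  have e2 : s4.reg rCb = f z 4 := by rw [kk4 _ (by simp [rCb, rPz, rCn, rI])]; exact cCb
  have e3 : s4.reg rAb = f v 7 := by rw [kk4 _ (by simp [rAb, rPz, rCn, rI])]; exact a3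
  have e4 : s4.reg rPw = f v 8 := by rw [kk4 _ (by simp [rPw, rPz, rCn, rI])]; exact w3
  have e5 : s4.reg rPass = 1 := by rw [kk4 _ (by simp [rPass, rPz, rCn, rI])]; exact p3
  refine EX.mono (loop_ex h3 hN hM hz hv I.K 0 s4 (by omega) (by rw [m4]; exact L) e1 e0 e2 e3
    (by omega) (by omega) i4 (by omega) (by rw [c4]; rfl) (by rw [e5]; rfl)) ?_
  rintro t s5 ⟨t5, m5, k5, p5⟩
  refine ⟨m5.trans m4, ?_, by omega, p5⟩
  intro r hr
  have r5 : r ∉ [rCn, rT1, rA1, rC1, rPass, rPP, rEE, rRun2, rI, rQ, rPz, rPw] :=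
    fun h => hr (sub5 r h)
  have r4 : r ∉ [rPz, rCn, rI] := fun h => hr (sub4 r h)
  have r3 : r ∉ [rPass, rT3, rRv, rAb, rPw] := fun h => hr (sub3 r h)
  rw [k5 r r5, kk4 r r4, kk3 r r3]

end DDA
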