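import Pool.Agent.Lib.MP_dd2a0a_lc.OR.StmG

/-!
Piece G7: the trivial instance.
-/

namespace DDA

open Finset Filter

noncomputable section

open Classical in
private def trivI (n : ℕ) (G : Finset (ℕ × ℕ)) : Inst where
  n := n
  N := 0
  K := 0
  b := 0
  B := 0
  bad := fun _ => true
  col := fun z x => decide (Rch G x z)
  exc1 := fun _ => []
  exc2 := fun _ => []
  adj := fun _ => []
  At := fun _ _ => false
  Ct := fun _ _ => false
  typ := fun _ => false
  inW := fun _ _ => false
  inZ := fun _ _ => false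
  lst := fun _ _ => []

theorem piece_triv : S_triv := by
  intro n G
  refine ⟨trivI n G, rfl, ?_, ?_, ?_, ?_, ?_⟩
  · constructor
    · intro z _
      simp [trivI]
    · intro z _
      simp [trivI]
    · intro z _
      simp [trivI]
    · intro z _ x hx
      simp [trivI] at hx
    · intro z _ x hx
      simp [trivI] at hx
    · simp [trivI]
    · intro z _ x hx
      simp [trivI] at hx
    · intro i hi
      simp [trivI] at hi
    · intro i hi
      simp [trivI] at hi
    · simp [trivI]
  · intro x _ z _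
    simp [Inst.query, trivI]
  · simp only [Inst.sz, trivI]
    apply le_of_eq
    ring
  · simp only [Inst.tm, trivI]
    norm_num
  · simp only [Inst.wd, Inst.sz, trivI]
    have h1 : n < 2 ^ (Nat.log 2 n + 1) := Nat.lt_pow_succ_log_self (by norm_num) n
    have h2 : 2 ≤ 2 ^ (Nat.log 2 n + 1) := by
      calc 2 = 2 ^ 1 := by norm_num
        _ ≤ 2 ^ (Nat.log 2 n + 1) := Nat.pow_le_pow_right (by norm_num) (by omega)
    have h3 : 2 ^ (16 * (Nat.log 2 n + 1)) = (2 ^ (Nat.log 2 n + 1)) ^ 16 := by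
      rw [mul_comm, pow_mul]
    rw [h3]
    obtain ⟨x, hx⟩ : ∃ x, x = 2 ^ (Nat.log 2 n + 1) := ⟨_, rfl⟩
    rw [← hx] at h1 h2 ⊢
    have h4 : 2 ^ 14 * x ^ 2 ≤ x ^ 16 := by
      calc 2 ^ 14 * x ^ 2 ≤ x ^ 14 * x ^ 2 := Nat.mul_le_mul_right _ (Nat.pow_le_pow_left h2 14)
        _ = x ^ 16 := by rw [← pow_add]
    refine le_trans ?_ h4
    nlinarith [Nat.mul_le_mul h1.le h1.le, h1, h2]

end

end DDA
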