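import Pool.Agent.Lib.MP_dd2a0a_lc.OR.P_avg
import Pool.Agent.Lib.MP_dd2a0a_lc.OR.P_odd
import Pool.Agent.Lib.MP_dd2a0a_lc.OR.P_cs
import Pool.Agent.Lib.MP_dd2a0a_lc.OR.P_tail
import Pool.Agent.Lib.MP_dd2a0a_lc.OR.P_moment
import Pool.Agent.Lib.MP_dd2a0a_lc.OR.P_sift
import Pool.Agent.Lib.MP_dd2a0a_lc.OR.P_sm
import Pool.Agent.Lib.MP_dd2a0a_lc.OR.P_prod
import Pool.Agent.Lib.MP_dd2a0a_lc.OR.P_greedy
import Pool.Agent.Lib.MP_dd2a0a_lc.OR.P_deg
import Pool.Agent.Lib.MP_dd2a0a_lc.OR.P_low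
import Pool.Agent.Lib.MP_dd2a0a_lc.OR.P_regA
import Pool.Agent.Lib.MP_dd2a0a_lc.OR.P_regC
import Pool.Agent.Lib.MP_dd2a0a_lc.OR.P_one
import Pool.Agent.Lib.MP_dd2a0a_lc.OR.P_iter
import Pool.Agent.Lib.MP_dd2a0a_lc.OR.P_sud
import Pool.Agent.Lib.MP_dd2a0a_lc.OR.P_layout
import Pool.Agent.Lib.MP_dd2a0a_lc.OR.P_lay
import Pool.Agent.Lib.MP_dd2a0a_lc.OR.P_scan
import Pool.Agent.Lib.MP_dd2a0a_lc.OR.P_test
import Pool.Agent.Lib.MP_dd2a0a_lc.OR.P_lookup
import Pool.Agent.Lib.MP_dd2a0a_lc.OR.P_insert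
import Pool.Agent.Lib.MP_dd2a0a_lc.OR.P_setval
import Pool.Agent.Lib.MP_dd2a0a_lc.OR.P_touch
import Pool.Agent.Lib.MP_dd2a0a_lc.OR.P_step
import Pool.Agent.Lib.MP_dd2a0a_lc.OR.P_loop
import Pool.Agent.Lib.MP_dd2a0a_lc.OR.P_mark
import Pool.Agent.Lib.MP_dd2a0a_lc.OR.P_find
import Pool.Agent.Lib.MP_dd2a0a_lc.OR.P_explC
import Pool.Agent.Lib.MP_dd2a0a_lc.OR.P_ram
import Pool.Agent.Lib.MP_dd2a0a_lc.OR.P_det
import Pool.Agent.Lib.MP_dd2a0a_lc.OR.P_hit
import Pool.Agent.Lib.MP_dd2a0a_lc.OR.P_dc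
import Pool.Agent.Lib.MP_dd2a0a_lc.OR.P_exT
import Pool.Agent.Lib.MP_dd2a0a_lc.OR.P_exF
import Pool.Agent.Lib.MP_dd2a0a_lc.OR.P_scanF
import Pool.Agent.Lib.MP_dd2a0a_lc.OR.P_inst
import Pool.Agent.Lib.MP_dd2a0a_lc.OR.P_triv
import Pool.Agent.Lib.MP_dd2a0a_lc.OR.P_dom
import Pool.Agent.Lib.MP_dd2a0a_lc.OR.P_KD
import Pool.Agent.Lib.MP_dd2a0a_lc.OR.P_num1
import Pool.Agent.Lib.MP_dd2a0a_lc.OR.P_num2
import Pool.Agent.Lib.MP_dd2a0a_lc.OR.P_size
import Pool.Agent.Lib.MP_dd2a0a_lc.OR.P_time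
import Pool.Agent.Lib.MP_dd2a0a_lc.OR.P_final
import Pool.Agent.Lib.MP_dd2a0a_lc.OR.P2_touch
import Pool.Agent.Lib.MP_dd2a0a_lc.OR.P2_step
import Pool.Agent.Lib.MP_dd2a0a_lc.OR.P2_loop
import Pool.Agent.Lib.MP_dd2a0a_lc.OR.P2_explC
import Pool.Agent.Lib.MP_dd2a0a_lc.OR.P2_ram
import Pool.Agent.Lib.MP_dd2a0a_lc.OR.P2_final

namespace DDA

theorem all_sud : S_sud := by
  have hdeg := piece_deg piece_avg
  have hlow := piece_low piece_avg hdeg
  have hsm := piece_sm piece_avg piece_odd piece_tail piece_moment piece_sift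
  have hprod := piece_prod piece_cs hsm
  exact piece_sud (piece_iter (piece_one hprod piece_greedy hlow (piece_regA hlow) (piece_regC hdeg)))

theorem all_ram : S_ram := by
  have htouch := piece_touch (piece_test piece_scan) piece_lookup piece_insert piece_setval
  exact piece_ram (piece_lay piece_layout) piece_find
    (piece_explC (piece_loop (piece_step htouch)) (piece_mark piece_insert))

theorem all_final : Final :=
  piece_final all_ram piece_hit (piece_inst all_sud piece_dc piece_exT piece_exF piece_scanF)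
    piece_triv (piece_num1 piece_dom) piece_num2 (piece_size piece_dom piece_KD)
    (piece_time piece_dom piece_KD)

theorem all_ram2 : S_ram2 := by
  have htouch := piece_touch2 (piece_test piece_scan) piece_lookup piece_insert piece_setval
  exact piece_ram2 (piece_lay piece_layout) piece_find
    (piece_explC2 (piece_loop2 (piece_step2 htouch)) (piece_mark piece_insert))

theorem all_final2 : Final2 :=
  piece_final2 all_ram2 piece_hit (piece_inst all_sud piece_dc piece_exT piece_exF piece_scanF)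
    piece_triv (piece_num1 piece_dom) piece_num2 (piece_size piece_dom piece_KD)
    (piece_time piece_dom piece_KD)

end DDA
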