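import Mathlib

/-!
# MP_dd2a0a_lc : a reachability oracle with superpolylogarithmic savings in space and query time

Paper: /team-store/MP_dd2a0a_paper.md (sections 1 - 7).

Part K (combinatorics, Kelley-Meka type box decomposition): matrices are finite sets of pairs
`(row, column)` of natural numbers; `W` rows of `A`, `Z` rows of `C`, `U` common columns.
-/

namespace DDA

open Finset

noncomputable section

/-- matrices: finite sets of pairs `(row, column)` -/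
abbrev Mat := Finset (ℕ × ℕ)

/-- number of ones of `A` in the rectangle `W × U` -/
def cnt (A : Mat) (W U : Finset ℕ) : ℕ := ((W ×ˢ U).filter (fun e => e ∈ A)).card

/-- density of `A` in the rectangle `W × U` -/
def dens (A : Mat) (W U : Finset ℕ) : ℝ := (cnt A W U : ℝ) / ((W.card : ℝ) * (U.card : ℝ))

/-- density of row `w` in the columns `U` -/
def rd (A : Mat) (U : Finset ℕ) (w : ℕ) : ℝ :=
  ((U.filter (fun u => (w, u) ∈ A)).card : ℝ) / (U.card : ℝ)

/-- density of column `u` in the rows `W` -/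
def cd (A : Mat) (W : Finset ℕ) (u : ℕ) : ℝ :=
  ((W.filter (fun w => (w, u) ∈ A)).card : ℝ) / (W.card : ℝ)

/-- density of the common columns of row `w` of `A` and row `z` of `C` -/
def jn (A C : Mat) (U : Finset ℕ) (w z : ℕ) : ℝ :=
  ((U.filter (fun u => (w, u) ∈ A ∧ (z, u) ∈ C)).card : ℝ) / (U.card : ℝ)

/-- covariance of the rows `w` of `A` and `z` of `C` -/
def cross (A C : Mat) (U : Finset ℕ) (w z : ℕ) : ℝ := jn A C U w z - rd A U w * rd C U z

/-- maximality of a rectangle for `dens ^ q * area` among its subrectangles -/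
def QMax (q : ℕ) (A : Mat) (W U : Finset ℕ) : Prop :=
  ∀ W' ⊆ W, ∀ U' ⊆ U, W'.Nonempty → U'.Nonempty →
    (dens A W' U') ^ q * ((W'.card : ℝ) * (U'.card : ℝ)) ≤
      (dens A W U) ^ q * ((W.card : ℝ) * (U.card : ℝ))

/-- a piece of the greedy decomposition -/
structure Pc where
  W : Finset ℕ
  U : Finset ℕ
  A : Mat

/-- parameters -/
def pp (D k : ℕ) : ℕ := 100 * k * (D + 1)
def rho (D k : ℕ) : ℝ := (1 / 2 : ℝ) ^ (D * (pp D k + 1)) / 20
def kk (D : ℕ) : ℕ := 2 * D + 20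
def mm (D : ℕ) : ℕ := 800 * (D + 1) ^ 2
def q2 (D : ℕ) : ℕ := mm D * (D * (pp D (kk D) + 1) + 5)
def q1 (D : ℕ) : ℕ := mm D * (D * q2 D + D * (pp D (kk D) + 1) + 6)

/-- the regularity notion for a matrix with reference density `α` -/
def Reg (D k : ℕ) (c α : ℝ) (A : Mat) (W U : Finset ℕ) : Prop :=
  (1 / 2 : ℝ) ^ D ≤ α ∧ α ≤ 1 ∧ 0 ≤ c ∧ c ≤ 1 / 100 ∧
  (∀ w ∈ W, 99 / 100 * α ≤ rd A U w) ∧
  ∀ W' ⊆ W, ∀ U' ⊆ U, W'.Nonempty → U'.Nonempty →
    rho D k * ((W.card : ℝ) * (U.card : ℝ)) ≤ (W'.card : ℝ) * (U'.card : ℝ) →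
    dens A W' U' < (1 + c) * α

/-- boxes of the decomposition: `A ⊆ W × U`, `C ⊆ Z × U` -/
structure Box where
  W : Finset ℕ
  U : Finset ℕ
  Z : Finset ℕ
  A : Mat
  C : Mat

def Box.ok (b : Box) : Prop := b.A ⊆ b.W ×ˢ b.U ∧ b.C ⊆ b.Z ×ˢ b.U

def Box.sub (b' b : Box) : Prop := b'.A ⊆ b.A ∧ b'.C ⊆ b.C

def Box.vol (b : Box) : ℝ := (b.W.card : ℝ) * (b.U.card : ℝ) * (b.Z.card : ℝ)

def vsum (l : List Box) : ℝ := (l.map Box.vol).sum

/-- the matrix `A` of the box is sparse -/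
def SparseA (D : ℕ) (b : Box) : Prop :=
  (b.A.card : ℝ) ≤ (1 / 2 : ℝ) ^ D * ((b.W.card : ℝ) * (b.U.card : ℝ))

/-- the matrix `C` of the box is sparse -/
def SparseC (D : ℕ) (b : Box) : Prop :=
  (b.C.card : ℝ) ≤ (1 / 2 : ℝ) ^ D * ((b.Z.card : ℝ) * (b.U.card : ℝ))

/-- few pairs of rows of the box have no common column -/
def GoodB (D : ℕ) (b : Box) : Prop :=
  (((b.W ×ˢ b.Z).filter (fun p => ∀ u ∈ b.U, ¬ ((p.1, u) ∈ b.A ∧ (p.2, u) ∈ b.C))).card : ℝ)
    ≤ (1 / 2 : ℝ) ^ D * ((b.W.card : ℝ) * (b.Z.card : ℝ))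

/-- entries of the final list structure: for a pair `(w,z)` of `W × Z` the entry contributes the
list `L w` (if `typ = false`) or `L z` (if `typ = true`) -/
structure Ent where
  typ : Bool
  W : Finset ℕ
  Z : Finset ℕ
  L : ℕ → Finset ℕ

def Ent.lst (e : Ent) (w z : ℕ) : Finset ℕ :=
  if w ∈ e.W ∧ z ∈ e.Z then (if e.typ = true then e.L z else e.L w) else ∅

/-- number of list elements that belong to the pair `(w,z)` -/
def ecost (l : List Ent) (w z : ℕ) : ℕ := (l.map (fun e => (e.lst w z).card)).sum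

/-- the rows `w` of `A` and `z` of `C` have no common column -/
def Disj (A C : Mat) (U : Finset ℕ) (w z : ℕ) : Prop := ∀ u ∈ U, ¬ ((w, u) ∈ A ∧ (z, u) ∈ C)

end

end DDA
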