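import Pool.Agent.Lib.MP_dd2a0a_lc.OR.StmG

/-! Asymptotic facts about the parameters (used for the pieces `size` and `time`). -/

namespace DDA

open Finset Filter

theorem gt_l (m : ℕ) : ∀ᶠ n in atTop, m ≤ pl n := by
  filter_upwards [eventually_ge_atTop (2 ^ (2 ^ m))] with n hn
  unfold pl
  have h1 : 2 ^ m ≤ Nat.log 2 n := by
    have := Nat.log_mono_right (b := 2) hn
    rwa [Nat.log_pow (by norm_num)] at this
  have h2 := Nat.log_mono_right (b := 2) h1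
  rwa [Nat.log_pow (by norm_num)] at h2

theorem gt_L1 (n : ℕ) : pL n + 1 ≤ 2 ^ (pl n + 1) := by
  unfold pL pl
  exact Nat.lt_pow_succ_log_self (by norm_num) _

theorem gt_g (c k : ℕ) : ∀ᶠ n in atTop, c * (pL n + 1) ^ k ≤ pg n := by
  filter_upwards [gt_l (16 * (c + 2 * k) + 1)] with n hl
  have h1 := gt_L1 n
  have h2 : (pL n + 1) ^ k ≤ 2 ^ ((pl n + 1) * k) := by
    rw [pow_mul]
    exact Nat.pow_le_pow_left h1 k
  have h3 : c ≤ 2 ^ c := Nat.lt_two_pow_self.le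
  have h4 : c + (pl n + 1) * k ≤ pD n / 16 := by
    have h5 : pl n * (c + 2 * k) ≤ pD n / 16 := by
      rw [Nat.le_div_iff_mul_le (by norm_num)]
      unfold pD
      calc pl n * (c + 2 * k) * 16 = pl n * (16 * (c + 2 * k)) := by ring
        _ ≤ pl n * pl n := Nat.mul_le_mul_left _ (by omega)
        _ = pl n ^ 2 := by ring
    have h6 : 1 ≤ pl n := by omega
    nlinarith
  calc c * (pL n + 1) ^ k ≤ 2 ^ c * 2 ^ ((pl n + 1) * k) := Nat.mul_le_mul h3 h2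
    _ = 2 ^ (c + (pl n + 1) * k) := by rw [pow_add]
    _ ≤ 2 ^ (pD n / 16) := Nat.pow_le_pow_right (by norm_num) h4
    _ = pg n := rfl

theorem gt_N4 (n : ℕ) : pN n ^ 4 ≤ n := by
  unfold pN
  have h1 := Nat.sqrt_le' n
  have h2 := Nat.sqrt_le' (Nat.sqrt n)
  calc (n.sqrt.sqrt) ^ 4 = ((n.sqrt.sqrt) ^ 2) ^ 2 := by ring
    _ ≤ (n.sqrt) ^ 2 := Nat.pow_le_pow_left h2 2
    _ ≤ n := h1

theorem gt_Nlow {n : ℕ} (hn : 0 < n) : 2 ^ (pL n / 4) ≤ pN n := by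
  have h1 : n < (pN n + 1) ^ 4 := by
    unfold pN
    have h1 := Nat.lt_succ_sqrt' n
    have h2 := Nat.lt_succ_sqrt' (Nat.sqrt n)
    simp only [Nat.succ_eq_add_one] at h1 h2
    calc n < (n.sqrt + 1) ^ 2 := h1
      _ ≤ ((n.sqrt.sqrt + 1) ^ 2) ^ 2 := Nat.pow_le_pow_left h2 2
      _ = (n.sqrt.sqrt + 1) ^ 4 := by ring
  by_contra hcon
  push Not at hcon
  have h2 : (pN n + 1) ^ 4 ≤ (2 ^ (pL n / 4)) ^ 4 := Nat.pow_le_pow_left hcon 4
  rw [← pow_mul] at h2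
  have h3 : 2 ^ (pL n / 4 * 4) ≤ 2 ^ (pL n) :=
    Nat.pow_le_pow_right (by norm_num) (Nat.div_mul_le_self _ _)
  have h4 : 2 ^ (pL n) ≤ n := Nat.pow_log_le_self 2 hn.ne'
  omega

theorem gt_N (h8 : S_dom) (h9 : S_KD) (c e k : ℕ) :
    ∀ᶠ n in atTop, c * (KD (pD n) + 1) * pg n ^ e * (pL n + 1) ^ k ≤ pN n := by
  obtain ⟨c9, h9⟩ := h9
  filter_upwards [h8 (4 * (c + 1 + c9 + e + k)) (2 * c9 + 2), eventually_gt_atTop 0] with n h1 hn
  refine le_trans ?_ (gt_Nlow hn)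
  set m := pl n + 1 with hm
  have hm1 : 1 ≤ m := by omega
  have h2 : c ≤ 2 ^ c := Nat.lt_two_pow_self.le
  have h3 : KD (pD n) + 1 ≤ 2 ^ (c9 * m ^ (2 * c9) + 1) := by
    have h4 : KD (pD n) ≤ 2 ^ (c9 * m ^ (2 * c9)) := by
      refine (h9 (pD n)).trans (Nat.pow_le_pow_right (by norm_num) ?_)
      apply Nat.mul_le_mul_left
      rw [pow_mul]
      apply Nat.pow_le_pow_left
      unfold pD
      rw [hm]
      nlinarith
    have h5 : 1 ≤ 2 ^ (c9 * m ^ (2 * c9)) := Nat.one_le_two_pow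
    rw [pow_succ]
    omega
  have h4 : pg n ^ e ≤ 2 ^ (e * m ^ 2) := by
    unfold pg
    rw [← pow_mul]
    apply Nat.pow_le_pow_right (by norm_num)
    rw [mul_comm]
    apply Nat.mul_le_mul_left
    refine (Nat.div_le_self _ _).trans ?_
    unfold pD
    exact Nat.pow_le_pow_left (by omega) 2
  have h5 : (pL n + 1) ^ k ≤ 2 ^ (m * k) := by
    rw [pow_mul]
    exact Nat.pow_le_pow_left (gt_L1 n) k
  have hp : ∀ j, j ≤ 2 * c9 + 2 → m ^ j ≤ m ^ (2 * c9 + 2) := fun j hj =>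
    Nat.pow_le_pow_right hm1 hj
  have q1 := hp (2 * c9) (by omega)
  have q2 := hp 2 (by omega)
  have q3 := hp 1 (by omega)
  have q4 := hp 0 (by omega)
  rw [pow_one] at q3
  rw [pow_zero] at q4
  have h6 : c + (c9 * m ^ (2 * c9) + 1) + e * m ^ 2 + m * k ≤ pL n / 4 := by
    rw [Nat.le_div_iff_mul_le (by norm_num)]
    refine le_trans ?_ h1
    have r1 : c9 * m ^ (2 * c9) ≤ c9 * m ^ (2 * c9 + 2) := Nat.mul_le_mul_left _ q1
    have r2 : e * m ^ 2 ≤ e * m ^ (2 * c9 + 2) := Nat.mul_le_mul_left _ q2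
    have r3 : m * k ≤ k * m ^ (2 * c9 + 2) := by
      rw [mul_comm]
      exact Nat.mul_le_mul_left _ q3
    have r4 : c * 1 ≤ c * m ^ (2 * c9 + 2) := Nat.mul_le_mul_left _ q4
    calc (c + (c9 * m ^ (2 * c9) + 1) + e * m ^ 2 + m * k) * 4
        ≤ (c * m ^ (2 * c9 + 2) + (c9 * m ^ (2 * c9 + 2) + m ^ (2 * c9 + 2)) +
          e * m ^ (2 * c9 + 2) + k * m ^ (2 * c9 + 2)) * 4 := by
          apply Nat.mul_le_mul_right
          omega
      _ = 4 * (c + 1 + c9 + e + k) * m ^ (2 * c9 + 2) := by ring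
  calc c * (KD (pD n) + 1) * pg n ^ e * (pL n + 1) ^ k
      ≤ 2 ^ c * 2 ^ (c9 * m ^ (2 * c9) + 1) * 2 ^ (e * m ^ 2) * 2 ^ (m * k) :=
        Nat.mul_le_mul (Nat.mul_le_mul (Nat.mul_le_mul h2 h3) h4) h5
    _ = 2 ^ (c + (c9 * m ^ (2 * c9) + 1) + e * m ^ 2 + m * k) := by
        rw [← pow_add, ← pow_add, ← pow_add]
    _ ≤ 2 ^ (pL n / 4) := Nat.pow_le_pow_right (by norm_num) h6

theorem gt_g1 (n : ℕ) : 1 ≤ pg n := Nat.one_le_two_pow

end DDA
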