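import Mathlib

/-!
# MP_dd2a0a_lc : the word RAM (machine model)

A word RAM with structured programs. The memory cells and the registers contain natural numbers. `Exec M P s t s'` says:
the program `P`, started in the state `s`, halts after `t` steps in the state `s'`, and every number which is
computed on the way (constants and sums) is smaller than `M = 2 ^ (word length)`. Every elementary instruction and
every test costs one step.
-/

namespace DDA

/-- structured word RAM programs; `r`, `a`, `b` are register numbers -/
inductive Cmd where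
  /-- do nothing -/
  | skip : Cmd
  /-- register `r` := the constant `v` -/
  | const (r v : ℕ) : Cmd
  /-- register `r` := register `a` + register `b` -/
  | add (r a b : ℕ) : Cmd
  /-- register `r` := register `a` - register `b` (0 if negative) -/
  | sub (r a b : ℕ) : Cmd
  /-- register `r` := memory cell with address (register `a`) -/
  | load (r a : ℕ) : Cmd
  /-- memory cell with address (register `a`) := register `r` -/
  | store (a r : ℕ) : Cmd
  /-- first `c`, then `d` -/
  | seq (c d : Cmd) : Cmd
  /-- if register `r` is not 0 then `c` else `d` -/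
  | ite (r : ℕ) (c d : Cmd) : Cmd
  /-- while register `r` is not 0 do `c` -/
  | loop (r : ℕ) (c : Cmd) : Cmd

/-- states of the machine: contents of the registers and of the memory -/
structure St where
  reg : ℕ → ℕ
  mem : ℕ → ℕ

/-- write a register -/
def St.set (s : St) (r v : ℕ) : St := ⟨Function.update s.reg r v, s.mem⟩

/-- write a memory cell -/
def St.put (s : St) (a v : ℕ) : St := ⟨s.reg, Function.update s.mem a v⟩

/-- `Exec M P s t s'`: the program `P` started in `s` halts after `t` steps in the state `s'`; all computed numbers are `< M` -/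
inductive Exec (M : ℕ) : Cmd → St → ℕ → St → Prop
  | skip (s : St) : Exec M Cmd.skip s 1 s
  | const (r v : ℕ) (s : St) : v < M → Exec M (Cmd.const r v) s 1 (s.set r v)
  | add (r a b : ℕ) (s : St) : s.reg a + s.reg b < M →
      Exec M (Cmd.add r a b) s 1 (s.set r (s.reg a + s.reg b))
  | sub (r a b : ℕ) (s : St) : Exec M (Cmd.sub r a b) s 1 (s.set r (s.reg a - s.reg b))
  | load (r a : ℕ) (s : St) : Exec M (Cmd.load r a) s 1 (s.set r (s.mem (s.reg a)))
  | store (a r : ℕ) (s : St) : Exec M (Cmd.store a r) s 1 (s.put (s.reg a) (s.reg r))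
  | seq (c d : Cmd) (s s' s'' : St) (t t' : ℕ) : Exec M c s t s' → Exec M d s' t' s'' →
      Exec M (Cmd.seq c d) s (t + t') s''
  | ite_true (r : ℕ) (c d : Cmd) (s s' : St) (t : ℕ) : s.reg r ≠ 0 → Exec M c s t s' →
      Exec M (Cmd.ite r c d) s (t + 1) s'
  | ite_false (r : ℕ) (c d : Cmd) (s s' : St) (t : ℕ) : s.reg r = 0 → Exec M d s t s' →
      Exec M (Cmd.ite r c d) s (t + 1) s'
  | loop_stop (r : ℕ) (c : Cmd) (s : St) : s.reg r = 0 → Exec M (Cmd.loop r c) s 1 s
  | loop_step (r : ℕ) (c : Cmd) (s s' s'' : St) (t t' : ℕ) : s.reg r ≠ 0 → Exec M c s t s' →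
      Exec M (Cmd.loop r c) s' t' s'' → Exec M (Cmd.loop r c) s (t + 1 + t') s''

end DDA
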