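import Pool.Agent.Lib.MP_dd2a0a_lc.OR.Stm

namespace DDA

open Finset

private theorem cnt_rows (A : Mat) (W U : Finset ℕ) :
    cnt A W U = ∑ w ∈ W, (U.filter (fun u => (w, u) ∈ A)).card := by
  unfold cnt
  rw [Finset.card_filter, Finset.sum_product]
  refine Finset.sum_congr rfl (fun w _ => ?_)
  rw [Finset.card_filter]

private theorem cnt_cols (A : Mat) (W U : Finset ℕ) :
    cnt A W U = ∑ u ∈ U, (W.filter (fun w => (w, u) ∈ A)).card := by
  unfold cnt
  rw [Finset.card_filter, Finset.sum_product_right]
  refine Finset.sum_congr rfl (fun w _ => ?_)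
  rw [Finset.card_filter]

theorem piece_avg : S_avg := by
  intro A W U hW hU
  have h1 : ((W.card : ℕ) : ℝ) ≠ 0 := by
    have := hW.card_pos
    positivity
  have h2 : ((U.card : ℕ) : ℝ) ≠ 0 := by
    have := hU.card_pos
    positivity
  constructor
  · unfold dens rd
    rw [cnt_rows, ← Finset.sum_div]
    push_cast
    field_simp
  · unfold dens cd
    rw [cnt_cols, ← Finset.sum_div]
    push_cast
    field_simp

end DDA
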