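import Pool.Agent.Lib.MP_dd2a0a_lc.OR.StmG

/-! # [OR G2] double counting -/

namespace DDA

open Finset

open Classical in
theorem piece_dc : S_dc := by
  intro n m t B z G ps od hod ht
  set X : Finset ℕ := (range n).filter (fun x => ¬ Rch G x z ∧ B < xcost G n ps od x) with hX
  have h1 : X.card * B ≤ ∑ x ∈ X, xcost G n ps od x := by
    rw [← smul_eq_mul]
    apply card_nsmul_le_sum
    intro x hx
    exact (mem_filter.mp hx).2.2.le
  have h2 : ∑ x ∈ X, xcost G n ps od x =
      ∑ w ∈ (range n).filter ps, (1 + od w) * (X.filter (fun x => Rch G x w)).card := by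
    unfold xcost
    have e1 : ∀ x ∈ X, ∑ w ∈ (range n).filter (fun w => Rch G x w ∧ ps w), (1 + od w) =
        ∑ w ∈ (range n).filter ps, if Rch G x w then (1 + od w) else 0 := by
      intro x _
      rw [← sum_filter, filter_filter]
      apply sum_congr _ (fun _ _ => rfl)
      ext w
      simp only [mem_filter]
      tauto
    rw [sum_congr rfl e1, sum_comm]
    apply sum_congr rfl
    intro w _
    rw [← sum_filter, sum_const, smul_eq_mul, mul_comm]
  have h3 : ∀ w ∈ (range n).filter ps, (X.filter (fun x => Rch G x w)).card ≤ t := by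
    intro w hw
    rw [mem_filter, mem_range] at hw
    refine le_trans (card_le_card ?_) (ht w hw.1 hw.2)
    intro x hx
    rw [mem_filter] at hx
    have hx1 := mem_filter.mp hx.1
    rw [mem_sdiff]
    unfold anc
    rw [mem_filter, mem_filter]
    exact ⟨⟨hx1.1, hx.2⟩, fun h => hx1.2.1 h.2⟩
  calc X.card * B ≤ ∑ x ∈ X, xcost G n ps od x := h1
    _ = ∑ w ∈ (range n).filter ps, (1 + od w) * (X.filter (fun x => Rch G x w)).card := h2
    _ ≤ ∑ w ∈ (range n).filter ps, (1 + od w) * t :=
        sum_le_sum (fun w hw => Nat.mul_le_mul_left _ (h3 w hw))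
    _ ≤ ∑ w ∈ range n, (1 + od w) * t :=
        sum_le_sum_of_subset (filter_subset _ _)
    _ = t * (n + ∑ w ∈ range n, od w) := by
        rw [← sum_mul, sum_add_distrib, sum_const, card_range, smul_eq_mul, mul_one, mul_comm]
    _ ≤ t * (n + m) := Nat.mul_le_mul_left _ (Nat.add_le_add_left hod _)

end DDA
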