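import Pool.Agent.Lib.MP_dd2a0a_lc.OR.RTool

namespace DDA

private theorem ins_key_ne {mem : ℕ → ℕ} {S n c v : ℕ} {val : ℕ → ℕ}
    (hI : MapInv mem S n c val) (hv : v < n) (h0 : val v = 0) :
    ∀ j < c, mem (S + n + j) ≠ v := by
  intro j hj hjv
  obtain ⟨hc, hk, hval⟩ := hI
  obtain ⟨_, h2, h3⟩ := hk j hj
  have hvv := hval v hv
  rw [hjv] at h2
  rw [h2, if_pos ⟨hj, hjv⟩, h0] at hvv
  exact h3 hvv

private theorem ins_lt {mem : ℕ → ℕ} {S n c v : ℕ} {val : ℕ → ℕ}
    (hI : MapInv mem S n c val) (hv : v < n) (h0 : val v = 0) : c < n := by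
  have hne := ins_key_ne hI hv h0
  obtain ⟨hc, hk, hval⟩ := hI
  have hcard : (Finset.range c).card ≤ ((Finset.range n).erase v).card := by
    refine Finset.card_le_card_of_injOn (fun j => mem (S + n + j)) ?_ ?_
    · intro j hj
      have hj' : j < c := by simpa using hj
      simp only [Finset.coe_erase, Finset.coe_range, Set.mem_sdiff, Set.mem_Iio,
        Set.mem_singleton_iff]
      exact ⟨(hk j hj').1, hne j hj'⟩
    · intro a ha b hb hab
      have ha' : a < c := by simpa using ha
      have hb' : b < c := by simpa using hb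
      have h1 := (hk a ha').2.1
      have h2 := (hk b hb').2.1
      have hab' : mem (S + n + a) = mem (S + n + b) := hab
      rw [hab', h2] at h1
      exact h1.symm
  rw [Finset.card_erase_of_mem (Finset.mem_range.2 hv), Finset.card_range, Finset.card_range]
    at hcard
  omega

private theorem ins_inv {mem mem' : ℕ → ℕ} {S n c v k : ℕ} {val : ℕ → ℕ}
    (hI : MapInv mem S n c val) (hv : v < n) (h0 : val v = 0) (hk0 : k ≠ 0)
    (hm : ∀ a, mem' a = if a = S + n + n + c then k else if a = S + v then c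
      else if a = S + n + c then v else mem a) :
    MapInv mem' S n (c + 1) (Function.update val v k) := by
  have hne := ins_key_ne hI hv h0
  have hcn := ins_lt hI hv h0
  obtain ⟨hc, hk, hval⟩ := hI
  have e1 : mem' (S + n + n + c) = k := by rw [hm, if_pos rfl]
  have e2 : mem' (S + v) = c := by
    rw [hm, if_neg (by omega), if_pos rfl]
  have e3 : mem' (S + n + c) = v := by
    rw [hm, if_neg (by omega), if_neg (by omega), if_pos rfl]
  have e4 : ∀ j < n, j ≠ c → mem' (S + n + j) = mem (S + n + j) := by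
    intro j hj hjc
    rw [hm, if_neg (by omega), if_neg (by omega), if_neg (by omega)]
  have e5 : ∀ j < n, j ≠ c → mem' (S + n + n + j) = mem (S + n + n + j) := by
    intro j hj hjc
    rw [hm, if_neg (by omega), if_neg (by omega), if_neg (by omega)]
  have e6 : ∀ u < n, u ≠ v → mem' (S + u) = mem (S + u) := by
    intro u hu huv
    rw [hm, if_neg (by omega), if_neg (by omega), if_neg (by omega)]
  refine ⟨hcn, ?_, ?_⟩
  · intro j hj
    by_cases hjc : j = c
    · subst hjc
      rw [e3, e2, e1]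
      exact ⟨hv, rfl, hk0⟩
    · have hj' : j < c := by omega
      obtain ⟨h1, h2, h3⟩ := hk j hj'
      rw [e4 j (by omega) hjc, e6 _ h1 (hne j hj'), e5 j (by omega) hjc]
      exact ⟨h1, h2, h3⟩
  · intro u hu
    by_cases huv : u = v
    · subst huv
      rw [e2, e3, e1, if_pos ⟨by omega, rfl⟩, Function.update_self]
    · rw [Function.update_of_ne huv, ← hval u hu, e6 u hu huv]
      by_cases hx : mem (S + u) < c
      · rw [e4 _ (by omega) (by omega), e5 _ (by omega) (by omega)]
        by_cases hy : mem (S + n + mem (S + u)) = u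
        · rw [if_pos ⟨by omega, hy⟩, if_pos ⟨hx, hy⟩]
        · rw [if_neg (fun h => hy h.2), if_neg (fun h => hy h.2)]
      · by_cases hx2 : mem (S + u) = c
        · rw [hx2, e3, if_neg (fun h => huv h.2.symm), if_neg (fun h => absurd h.1 (by omega))]
        · rw [if_neg (fun h => absurd h.1 (by omega)), if_neg (fun h => hx h.1)]

theorem piece_insert : S_insert := by
  intro M S n c v k val s hI hv hk0 hkM h0 hM h1 h2 h3 h4 h5 h6
  have hcn := ins_lt hI hv h0
  show EX M (insertC k) s _
  simp only [rSI, rSL, rSV, rCnt, rV, rOne] at h1 h2 h3 h4 h5 h6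
  unfold insertC
  refine EX.cons (EX.add ?_ (EX.cons (EX.store (EX.cons (EX.add ?_ (EX.cons (EX.store
    (EX.cons (EX.add ?_ (EX.cons (EX.const hkM (EX.cons (EX.store (EX.last
      (EX.add ?_ ?_)))))))))))))))
  · simp only [rSL, rCnt]; omega
  · simp [rT1, rSI, rV, h1, h5]; omega
  · simp [rT1, rSV, rCnt, h3, h4]; omega
  · simp [rT1, rT2, rCnt, rOne, h4, h6]; omega
  refine ⟨?_, by simp, ?_, ?_, ?_⟩
  · intro r hr
    simp [rT1, rT2, rCnt] at hr ⊢
    simp [hr]
  · simp [rT1, rT2, rCnt, rOne, h4, h6]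
  · refine ins_inv hI hv h0 hk0 ?_
    intro a
    simp [rT1, rT2, rCnt, rOne, rSI, rSL, rSV, rV, h1, h2, h3, h4, h5, h6]
  · intro a ha
    simp [rT1, rT2, rCnt, rOne, rSI, rSL, rSV, rV, h1, h2, h3, h4, h5, h6]
    rw [if_neg (by omega), if_neg (by omega), if_neg (by omega)]

end DDA
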