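import Pool.Agent.Lib.MP_dd2a0a_lc.OR.Stm

set_option autoImplicit false

namespace DDA

open Finset

private theorem low_rd_le (A : Mat) (U : Finset ℕ) (w : ℕ) : rd A U w ≤ 1 := by
  unfold rd
  refine div_le_one_of_le₀ ?_ (Nat.cast_nonneg _)
  exact_mod_cast Finset.card_filter_le _ _

private theorem low_mm_pos (D : ℕ) : 0 < mm D := by
  unfold mm
  positivity

private theorem low_pow2 (m : ℕ) (hm : 0 < m) (e : ℕ) :
    (2 : ℝ) ^ e ≤ (1 + 1 / (m : ℝ)) ^ (m * e) := by
  have hm' : (0 : ℝ) < m := by exact_mod_cast hm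
  have h1 : 1 + (m : ℝ) * (1 / (m : ℝ)) ≤ (1 + 1 / (m : ℝ)) ^ m :=
    one_add_mul_le_pow (by
      have : 0 < 1 / (m : ℝ) := by positivity
      linarith) m
  have h2 : (2 : ℝ) ≤ (1 + 1 / (m : ℝ)) ^ m := by
    have : (m : ℝ) * (1 / (m : ℝ)) = 1 := by field_simp
    linarith
  rw [pow_mul]
  exact pow_le_pow_left₀ (by norm_num) h2 e

private theorem low_big (D : ℕ) (hD : 1 ≤ D) :
    (mm D : ℝ) ≤ 2 ^ (D * pp D (kk D) + 6) := by
  have h1 : 2 * (D + 1) + 10 ≤ D * pp D (kk D) + 6 := by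
    unfold pp kk
    nlinarith [Nat.zero_le (D * D), Nat.zero_le (D * D * D)]
  have h2 : (2 : ℝ) ^ (2 * (D + 1) + 10) ≤ 2 ^ (D * pp D (kk D) + 6) :=
    pow_le_pow_right₀ (by norm_num) h1
  refine le_trans ?_ h2
  have h3 : ((D : ℝ) + 1) ≤ 2 ^ (D + 1) := by
    have : D + 1 ≤ 2 ^ (D + 1) := Nat.lt_two_pow_self.le
    exact_mod_cast this
  have h4 : ((D : ℝ) + 1) ^ 2 ≤ (2 ^ (D + 1)) ^ 2 := pow_le_pow_left₀ (by positivity) h3 2
  have h5 : (2 : ℝ) ^ (2 * (D + 1) + 10) = (2 ^ (D + 1)) ^ 2 * 1024 := by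
    rw [pow_add, mul_comm 2 (D + 1), pow_mul]
    norm_num
  rw [h5]
  unfold mm
  push_cast
  nlinarith [sq_nonneg ((D : ℝ) + 1)]

theorem piece_low (h1 : S_avg) (h10 : S_deg) : S_low := by
  classical
  intro D A W U U' hD hW hU' hUU hmax hα hUc
  have hU : U.Nonempty := hU'.mono hUU
  have hm : 0 < mm D := low_mm_pos D
  have hq1 : mm D ≤ q1 D := by
    unfold q1
    exact Nat.le_mul_of_pos_right _ (by omega)
  have hq1pos : 1 ≤ q1 D := hm.trans_le hq1
  have hE : (2 : ℝ) ^ (D * q2 D + D * (pp D (kk D) + 1) + 6) ≤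
      (1 + 1 / (mm D : ℝ)) ^ (q1 D) := low_pow2 (mm D) hm _
  have hBig := low_big D hD
  have hmmv : (mm D : ℝ) = 800 * ((D : ℝ) + 1) ^ 2 := by
    unfold mm
    push_cast
    ring
  generalize mm D = m at *
  generalize q1 D = q at *
  generalize q2 D = Q at *
  generalize pp D (kk D) = p at *
  set α := dens A W U with hαdef
  have hα0 : 0 < α := lt_trans (by positivity) hα
  have hmR : (0 : ℝ) < m := by exact_mod_cast hm
  have hq1R : (0 : ℝ) < q := by exact_mod_cast hq1pos
  have hWc : (0 : ℝ) < W.card := by exact_mod_cast Finset.card_pos.2 hW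
  have hUc0 : (0 : ℝ) < U.card := by exact_mod_cast Finset.card_pos.2 hU
  have hUc' : (0 : ℝ) < U'.card := by exact_mod_cast Finset.card_pos.2 hU'
  -- (a) the average of the rows
  have ha : (1 - 1 / (q : ℝ)) * α * W.card ≤ ∑ w ∈ W, rd A U' w := by
    have e1 := (h1 A W U' hW hU').1
    have e2 := (h1 A W U' hW hU').2
    have e3 : (1 - 1 / (q : ℝ)) * α ≤ dens A W U' := by
      rw [e2, le_div_iff₀ hUc']
      have := (h10 q A W U hq1pos hW hU hα0 hmax).1
      calc (1 - 1 / (q : ℝ)) * α * U'.card = ∑ _u ∈ U', (1 - 1 / (q : ℝ)) * α := by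
            rw [Finset.sum_const, nsmul_eq_mul]
            ring
        _ ≤ ∑ u ∈ U', cd A W u := Finset.sum_le_sum fun u hu => this u (hUU hu)
    rw [e1, le_div_iff₀ hWc] at e3
    exact e3
  -- (b) the heavy rows
  set H := W.filter (fun w => (1 + 1 / (m : ℝ)) * α ≤ rd A U' w) with hH
  set L := W.filter (fun w => rd A U' w < 99 / 100 * α) with hL
  have hb : (H.card : ℝ) * 2 ^ (D * (p + 1) + 6) ≤ W.card := by
    rcases H.eq_empty_or_nonempty with h | h
    · rw [h, Finset.card_empty, Nat.cast_zero, zero_mul]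
      exact hWc.le
    · have hHc : (0 : ℝ) < H.card := by exact_mod_cast Finset.card_pos.2 h
      have e1 : (1 + 1 / (m : ℝ)) * α ≤ dens A H U' := by
        rw [(h1 A H U' h hU').1, le_div_iff₀ hHc]
        calc (1 + 1 / (m : ℝ)) * α * H.card = ∑ _w ∈ H, (1 + 1 / (m : ℝ)) * α := by
              rw [Finset.sum_const, nsmul_eq_mul]
              ring
          _ ≤ ∑ w ∈ H, rd A U' w :=
              Finset.sum_le_sum fun w hw => (Finset.mem_filter.1 hw).2
      have e2 := hmax H (Finset.filter_subset _ _) U' hUU h hU'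
      have e3 : ((1 + 1 / (m : ℝ)) * α) ^ q ≤ (dens A H U') ^ q :=
        pow_le_pow_left₀ (by positivity) e1 _
      have e4 : ((1 + 1 / (m : ℝ)) * α) ^ q * ((H.card : ℝ) * U'.card) ≤
          α ^ q * ((W.card : ℝ) * U.card) :=
        (mul_le_mul_of_nonneg_right e3 (by positivity)).trans e2
      rw [mul_pow] at e4
      have e5 : (1 + 1 / (m : ℝ)) ^ q * ((H.card : ℝ) * U'.card) ≤
          (W.card : ℝ) * U.card := by
        have hαq : 0 < α ^ q := by positivity
        refine le_of_mul_le_mul_left ?_ hαq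
        calc α ^ q * ((1 + 1 / (m : ℝ)) ^ q * ((H.card : ℝ) * U'.card)) =
            (1 + 1 / (m : ℝ)) ^ q * α ^ q * ((H.card : ℝ) * U'.card) := by ring
          _ ≤ _ := e4
      have e6 := hE
      have e7 : (U.card : ℝ) ≤ 2 ^ (D * Q) * U'.card := by
        have : (U.card : ℝ) = 2 ^ (D * Q) * ((1 / 2 : ℝ) ^ (D * Q) * (U.card : ℝ)) := by
          rw [← mul_assoc, ← mul_pow]
          norm_num
        rw [this]
        exact mul_le_mul_of_nonneg_left hUc (by positivity)
      have e8 : (2 : ℝ) ^ (D * Q + D * (p + 1) + 6) * ((H.card : ℝ) * U'.card) ≤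
          (W.card : ℝ) * (2 ^ (D * Q) * U'.card) :=
        (mul_le_mul_of_nonneg_right e6 (by positivity)).trans
          (e5.trans (mul_le_mul_of_nonneg_left e7 hWc.le))
      have e9 : (2 : ℝ) ^ (D * Q + D * (p + 1) + 6) =
          2 ^ (D * Q) * 2 ^ (D * (p + 1) + 6) := by
        rw [← pow_add]
        congr 1
      rw [e9] at e8
      have hpos : (0 : ℝ) < 2 ^ (D * Q) * U'.card := by positivity
      refine le_of_mul_le_mul_right ?_ hpos
      calc (H.card : ℝ) * 2 ^ (D * (p + 1) + 6) * (2 ^ (D * Q) * U'.card) =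
          2 ^ (D * Q) * 2 ^ (D * (p + 1) + 6) * ((H.card : ℝ) * U'.card) := by ring
        _ ≤ _ := e8
  -- (c) upper bound of the sum
  have hc : ∑ w ∈ W, rd A U' w ≤
      L.card * (99 / 100 * α) + ((W.card : ℝ) - L.card) * ((1 + 1 / (m : ℝ)) * α) + H.card := by
    have e1 : ∀ w ∈ W, rd A U' w ≤ (if rd A U' w < 99 / 100 * α then 99 / 100 * α
        else (1 + 1 / (m : ℝ)) * α) + (if (1 + 1 / (m : ℝ)) * α ≤ rd A U' w then 1 else 0) := by
      intro w _
      have hr := low_rd_le A U' w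
      have hp : 0 < (1 + 1 / (m : ℝ)) * α := by positivity
      split_ifs with a b b
      · linarith
      · linarith
      · linarith
      · push Not at b
        linarith
    refine (Finset.sum_le_sum e1).trans (le_of_eq ?_)
    rw [Finset.sum_add_distrib, Finset.sum_ite, Finset.sum_const, Finset.sum_const,
      nsmul_eq_mul, nsmul_eq_mul, Finset.sum_boole]
    have e2 : ((W.filter (fun w => ¬ rd A U' w < 99 / 100 * α)).card : ℝ) =
        (W.card : ℝ) - L.card := by
      have := Finset.card_filter_add_card_filter_not (s := W) (fun w => rd A U' w < 99 / 100 * α)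
      have h : ((W.card : ℕ) : ℝ) = (L.card : ℝ) +
          ((W.filter (fun w => ¬ rd A U' w < 99 / 100 * α)).card : ℝ) := by
        rw [← this]
        push_cast
        rfl
      linarith
    rw [e2]
  -- (d) conclusion
  have hd1 : (H.card : ℝ) ≤ α * W.card / m := by
    have e1 : (2 : ℝ) ^ (D * (p + 1) + 6) = 2 ^ D * 2 ^ (D * p + 6) := by
      rw [← pow_add]
      congr 1
      ring
    rw [e1] at hb
    have e2 : (1 : ℝ) ≤ α * 2 ^ D := by
      have : (1 / 2 : ℝ) ^ D * 2 ^ D = 1 := by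
        rw [← mul_pow]
        norm_num
      have h3 : (1 / 2 : ℝ) ^ D * 2 ^ D ≤ α * 2 ^ D :=
        mul_le_mul_of_nonneg_right hα.le (by positivity)
      linarith
    have e3 := hBig
    rw [le_div_iff₀ hmR]
    have e4 : (H.card : ℝ) * (m : ℝ) ≤ H.card * 2 ^ (D * p + 6) :=
      mul_le_mul_of_nonneg_left e3 (Nat.cast_nonneg _)
    have e5 : (H.card : ℝ) * 2 ^ (D * p + 6) ≤
        α * 2 ^ D * (H.card * 2 ^ (D * p + 6)) := by
      have : 0 ≤ (H.card : ℝ) * 2 ^ (D * p + 6) := by positivity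
      nlinarith
    have e6 : α * 2 ^ D * (H.card * 2 ^ (D * p + 6)) ≤ α * W.card := by
      have := mul_le_mul_of_nonneg_left hb hα0.le
      calc α * 2 ^ D * (H.card * 2 ^ (D * p + 6)) =
          α * (H.card * (2 ^ D * 2 ^ (D * p + 6))) := by ring
        _ ≤ _ := this
    linarith
  have hd2 : 1 / (q : ℝ) ≤ 1 / (m : ℝ) :=
    one_div_le_one_div_of_le hmR (by exact_mod_cast hq1)
  have hLn : (0 : ℝ) ≤ L.card := Nat.cast_nonneg _
  have key : α * (L.card : ℝ) / 100 ≤ α * (3 * W.card / m) := by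
    have e1 := ha.trans hc
    have e2 : (1 - 1 / (m : ℝ)) * α * W.card ≤ (1 - 1 / (q : ℝ)) * α * W.card := by
      have : 0 < α * W.card := by positivity
      nlinarith
    have e3 : α * W.card / m = 1 / (m : ℝ) * (α * W.card) := by ring
    have e4 : α * (3 * W.card / m) = 3 * (1 / (m : ℝ) * (α * W.card)) := by ring
    have e5 : 0 ≤ 1 / (m : ℝ) * (α * L.card) := by positivity
    rw [e3] at hd1
    rw [e4]
    nlinarith
  have key2 : (L.card : ℝ) / 100 ≤ 3 * W.card / m := by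
    refine le_of_mul_le_mul_left ?_ hα0
    calc α * ((L.card : ℝ) / 100) = α * (L.card : ℝ) / 100 := by ring
      _ ≤ _ := key
  have e1 : 3 * (W.card : ℝ) / m = 3 / (8 * ((D : ℝ) + 1) ^ 2) * W.card / 100 := by
    rw [hmmv]
    have : (0 : ℝ) < (D : ℝ) + 1 := by positivity
    field_simp
    ring
  rw [e1] at key2
  linarith

end DDA
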