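import Pool.Agent.Lib.MP_dd2a0a_lc.OR.P_size

/-! Piece G13: the query time. -/

namespace DDA

open Finset Filter

theorem gq_main {c0 K n N g t b L Λ : ℕ} (hg : 1 ≤ g) (hn : 1 ≤ n)
    (htdef : t = 4 * (L + 1) * n / N + 1) (hbdef : b = N / g ^ 4)
    (hK : g ^ 4 * (K + 1) ≤ N) (hNn : N ≤ n) (hN : 1 ≤ N) (hgL : 200000 * (1 + c0) * (L + 1) * Λ ≤ g) :
    2000 * ((g * t * (1 + c0) + 1 + 2 + 1) * (K + b + 1)) * Λ ≤ n := by
  have h1 : N * t ≤ 5 * (L + 1) * n := by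
    rw [htdef]
    have h2 : N * (4 * (L + 1) * n / N) ≤ 4 * (L + 1) * n := Nat.mul_div_le _ _
    calc N * (4 * (L + 1) * n / N + 1) = N * (4 * (L + 1) * n / N) + N := by ring
      _ ≤ 4 * (L + 1) * n + n := by omega
      _ ≤ 5 * (L + 1) * n := by nlinarith
  have h3 : g ^ 4 * (K + b + 1) ≤ 2 * N := by
    have h4 : g ^ 4 * b ≤ N := by rw [hbdef]; exact Nat.mul_div_le _ _
    calc g ^ 4 * (K + b + 1) = g ^ 4 * (K + 1) + g ^ 4 * b := by ring
      _ ≤ 2 * N := by omega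
  have ht : 1 ≤ t := by rw [htdef]; exact Nat.le_add_left 1 _
  have h5 : g * t * (1 + c0) + 1 + 2 + 1 ≤ 5 * (g * t * (1 + c0)) := by
    have : 1 ≤ g * t * (1 + c0) := Nat.one_le_iff_ne_zero.mpr (by positivity)
    omega
  have h6 : N * (g ^ 3 * ((g * t * (1 + c0) + 1 + 2 + 1) * (K + b + 1))) ≤
      N * (50 * (1 + c0) * (L + 1) * n) := by
    calc N * (g ^ 3 * ((g * t * (1 + c0) + 1 + 2 + 1) * (K + b + 1)))
        ≤ N * (g ^ 3 * ((5 * (g * t * (1 + c0))) * (K + b + 1))) :=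
          Nat.mul_le_mul_left _ (Nat.mul_le_mul_left _ (Nat.mul_le_mul_right _ h5))
      _ = (5 * (1 + c0)) * ((N * t) * (g ^ 4 * (K + b + 1))) := by ring
      _ ≤ (5 * (1 + c0)) * ((5 * (L + 1) * n) * (2 * N)) :=
          Nat.mul_le_mul_left _ (Nat.mul_le_mul h1 h3)
      _ = N * (50 * (1 + c0) * (L + 1) * n) := by ring
  have h7 : g ^ 3 * ((g * t * (1 + c0) + 1 + 2 + 1) * (K + b + 1)) ≤ 50 * (1 + c0) * (L + 1) * n :=
    Nat.le_of_mul_le_mul_left h6 hN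
  have h8 : g * (2000 * ((g * t * (1 + c0) + 1 + 2 + 1) * (K + b + 1)) * Λ) ≤ g * n := by
    have h9 : g ≤ g ^ 3 := by
      calc g = g ^ 1 := (pow_one g).symm
        _ ≤ g ^ 3 := Nat.pow_le_pow_right hg (by norm_num)
    generalize hX : (g * t * (1 + c0) + 1 + 2 + 1) * (K + b + 1) = X at *
    calc g * (2000 * X * Λ) ≤ g ^ 3 * (2000 * X * Λ) := Nat.mul_le_mul_right _ h9
      _ = 2000 * Λ * (g ^ 3 * X) := by ring
      _ ≤ 2000 * Λ * (50 * (1 + c0) * (L + 1) * n) := Nat.mul_le_mul_left _ h7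
      _ = (100000 * (1 + c0) * (L + 1) * Λ) * n := by ring
      _ ≤ (200000 * (1 + c0) * (L + 1) * Λ) * n :=
          Nat.mul_le_mul_right _ (Nat.mul_le_mul_right _ (Nat.mul_le_mul_right _
            (Nat.mul_le_mul_right _ (by norm_num))))
      _ ≤ g * n := Nat.mul_le_mul_right _ hgL
  exact Nat.le_of_mul_le_mul_left h8 hg

theorem piece_time (h8 : S_dom) (h9 : S_KD) : S_time := by
  intro c0 k
  filter_upwards [gt_g (200000 * (1 + c0)) (k + 1), gt_N h8 h9 10000 4 k, eventually_ge_atTop 2]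
    with n hg hN hn K hK
  have hg1 := gt_g1 n
  have hN4 := gt_N4 n
  have hLk : (pL n) ^ k ≤ (pL n + 1) ^ k := Nat.pow_le_pow_left (by omega) k
  have hLk1 : 1 ≤ (pL n + 1) ^ k := Nat.one_le_pow _ _ (by omega)
  have hg4 : 1 ≤ pg n ^ 4 := Nat.one_le_pow _ _ hg1
  have hNK : pg n ^ 4 * (K + 1) ≤ pN n := by
    refine le_trans ?_ hN
    calc pg n ^ 4 * (K + 1) ≤ pg n ^ 4 * (KD (pD n) + 1) := Nat.mul_le_mul_left _ (by omega)
      _ = 1 * (KD (pD n) + 1) * pg n ^ 4 * 1 := by ring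
      _ ≤ 10000 * (KD (pD n) + 1) * pg n ^ 4 * (pL n + 1) ^ k :=
        Nat.mul_le_mul (Nat.mul_le_mul_right _ (Nat.mul_le_mul_right _ (by norm_num))) hLk1
  have hN1 : 1 ≤ pN n := by
    refine le_trans ?_ hNK
    exact Nat.one_le_iff_ne_zero.mpr (by positivity)
  have hmain : 10000 * (pL n) ^ k ≤ pN n := by
    refine le_trans ?_ hN
    calc 10000 * (pL n) ^ k ≤ 10000 * (pL n + 1) ^ k := Nat.mul_le_mul_left _ hLk
      _ = 10000 * 1 * 1 * (pL n + 1) ^ k := by ring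
      _ ≤ 10000 * (KD (pD n) + 1) * pg n ^ 4 * (pL n + 1) ^ k :=
        Nat.mul_le_mul_right _ (Nat.mul_le_mul (Nat.mul_le_mul_left _ (by omega)) hg4)
  have hNn : pN n ≤ n := by
    refine le_trans ?_ hN4
    calc pN n = pN n ^ 1 := (pow_one _).symm
      _ ≤ pN n ^ 4 := Nat.pow_le_pow_right hN1 (by norm_num)
  have hgL : 200000 * (1 + c0) * (pL n + 1) * (pL n) ^ k ≤ pg n := by
    refine le_trans ?_ hg
    calc 200000 * (1 + c0) * (pL n + 1) * (pL n) ^ k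
        ≤ 200000 * (1 + c0) * (pL n + 1) * (pL n + 1) ^ k := Nat.mul_le_mul_left _ hLk
      _ = 200000 * (1 + c0) * (pL n + 1) ^ (k + 1) := by ring
  have hA := gq_main (c0 := c0) (K := K) (n := n) (N := pN n) (g := pg n) (t := pt n) (b := pb n)
    (L := pL n) (Λ := (pL n) ^ k) hg1 (by omega) rfl rfl hNK hNn hN1 hgL
  have hEdef : pE n = n / pg n + 1 := rfl
  have hBdef : pB c0 n = pg n * pt n * (1 + c0) + 1 := rfl
  have hdiv : pg n * (n / pg n) ≤ n := Nat.mul_div_le _ _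
  have hg4000 : 4000 * (pL n) ^ k ≤ pg n := by
    refine le_trans ?_ hgL
    apply Nat.mul_le_mul_right
    nlinarith [Nat.zero_le (c0 * pL n)]
  rw [hEdef, hBdef]
  generalize hΛ : (pL n) ^ k = Λ at *
  have s1 : 4000 * Λ * (n / pg n) ≤ n := (Nat.mul_le_mul_right _ hg4000).trans hdiv
  have s2 : 8000 * Λ ≤ n := by omega
  have s3 : 2000 * (n / pg n + 1 + 1) * Λ ≤ n := by nlinarith
  generalize (pg n * pt n * (1 + c0) + 1 + 2 + 1) * (K + pb n + 1) = X at *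
  nlinarith

end DDA
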