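import Pool.Agent.Lib.MP_dd2a0a_lc.OR.Defs

/-!
Statements of part K. Every `S_xx` is one Lean piece; a complete proof is in the docstring.
-/

namespace DDA

open Finset

noncomputable section

/-- K1. The density of a rectangle is the average of the row densities and of the column densities.
Proof: count the pairs row by row (column by column); `cnt A W U = sum over w in W of the number of
u in U with (w,u) in A` (`Finset.card_filter`, `Finset.sum_product`). -/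
def S_avg : Prop := ∀ (A : Mat) (W U : Finset ℕ), W.Nonempty → U.Nonempty →
  dens A W U = (∑ w ∈ W, rd A U w) / (W.card : ℝ) ∧
  dens A W U = (∑ u ∈ U, cd A W u) / (U.card : ℝ)

/-- K2. Odd (all) moments of the covariance are nonnegative.
Proof: for `U` nonempty `cross A A U w w' = (1/|U|) sum_{u in U} (a(w,u) - a_w)(a(w',u) - a_w')` where `a(w,u)` is
the indicator of `(w,u) ∈ A` and `a_w = rd A U w`. Hence
`cross^j = |U|^(-j) sum over v : Fin j → U of prod_i (a(w,v_i) - a_w)(a(w',v_i) - a_w')`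
(`Finset.sum_pow'` / `Finset.prod_univ_sum` with `Fintype.piFinset`), and summing over `w, w'` gives
`|U|^(-j) sum_v (sum_w prod_i (a(w,v_i) - a_w))^2 ≥ 0`. -/
def S_odd : Prop := ∀ (A : Mat) (W U : Finset ℕ) (j : ℕ), U.Nonempty →
  0 ≤ ∑ w ∈ W, ∑ w' ∈ W, (cross A A U w w') ^ j

/-- K3. Decoupling (Cauchy-Schwarz).
Proof: as in `S_odd`, `cross A C U w z = (1/|U|) sum_u (a(w,u) - a_w)(c(z,u) - c_z)`, so
`sum_w sum_z cross^k = |U|^(-k) sum_v F(v) G(v)` with `F(v) = sum_w prod_i (a(w,v_i) - a_w)`,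
`G(v) = sum_z prod_i (c(z,v_i) - c_z)`, and `(sum F G)^2 ≤ (sum F^2)(sum G^2)`
(`Finset.sum_mul_sq_le_sq_mul_sq`), where `|U|^(-k) sum_v F(v)^2 = sum_w sum_w' (cross A A)^k`. -/
def S_cs : Prop := ∀ (A C : Mat) (W Z U : Finset ℕ) (k : ℕ), U.Nonempty →
  (∑ w ∈ W, ∑ z ∈ Z, (cross A C U w z) ^ k) ^ 2 ≤
    (∑ w ∈ W, ∑ w' ∈ W, (cross A A U w w') ^ k) *
    (∑ z ∈ Z, ∑ z' ∈ Z, (cross C C U z z') ^ k)

/-- K4. Upper tail (pure real inequality for a finite family of numbers `h e`, `e ∈ P`).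
Proof (`η = 9/20`, `s = 3η/4 = 27/80`; write `x₊ = max x 0`, `x₋ = max (-x) 0`): `k` is even, so
`h^k = h₊^k + h₋^k`; `h^(k+1) = h₊^(k+1) - h₋^(k+1)`. For `x ≥ 0`: `x^k ≤ s^k + x^(k+1)/s` (case `x < s`, case `x ≥ s`).
So `η^k |P| < sum h^k ≤ 2 s^k |P| + (1/s)(sum h₊^(k+1) + sum h₋^(k+1)) ≤ 2 s^k |P| + (2/s) sum h₊^(k+1)` by the
hypothesis `0 ≤ sum h^(k+1)`. `2 (3/4)^k ≤ 1/2` for `k ≥ 20`, so `sum h₊^(k+1) ≥ (s/2)(η^k/2)|P| = (3/16) η^(k+1) |P|`.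
The elements with `h < 7η/8 = 63/160` contribute at most `(7/8)^(k+1) η^(k+1) |P| ≤ (1/16) η^(k+1) |P|`
(`(7/8)^21 ≤ 1/16`). So `sum over {h ≥ 63/160} of h^(k+1) ≥ (1/8) η^(k+1) |P|` and each term is at most `4^(D(k+1))`. -/
def S_tail : Prop := ∀ (P : Finset (ℕ × ℕ)) (h : ℕ × ℕ → ℝ) (k D : ℕ), 20 ≤ k → Even k →
  (∀ e ∈ P, h e ≤ 4 ^ D) → 0 ≤ ∑ e ∈ P, (h e) ^ (k + 1) →
  (9 / 20 : ℝ) ^ k * (P.card : ℝ) < ∑ e ∈ P, (h e) ^ k →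
  (1 / 8 : ℝ) * (9 / 20 * (1 / 4 : ℝ) ^ D) ^ (k + 1) * (P.card : ℝ) ≤
    ((P.filter (fun e => (63 / 160 : ℝ) ≤ h e)).card : ℝ)

/-- K5. Large moments of the codegree.
Proof: let `P` be the set of pairs of the hypothesis, where `cross ≥ 63/160 α^2`; there
`jn = cross + rd w * rd w' ≥ (63/160 + (99/100)^2) α^2 ≥ 1.37 α^2`, so with `p = pp D k = 100 k (D+1)`
`sum jn^p ≥ |P| (1.37 α^2)^p ≥ (1/8)(9/20 4^(-D))^(k+1) |W|^2 (1.37 α^2)^p ≥ (1.3 α^2)^p |W|^2`, because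
`8 (20/9 4^D)^(k+1) ≤ 8 (4^(D+1))^(2k) ≤ 128^(k(D+1)) ≤ (1.05)^(100 k (D+1)) ≤ (1.37/1.3)^p`
(`1.05^100 ≥ 128`: `1.05^15 ≥ 2.07 > 2`, `1.05^90 ≥ 64`, `1.05^100 ≥ 1.05^90 * 1.6 `; `norm_num` computes it). -/
def S_moment : Prop := ∀ (D k : ℕ) (α : ℝ) (A : Mat) (W U : Finset ℕ), 20 ≤ k → 0 < α → U.Nonempty →
  (∀ w ∈ W, 99 / 100 * α ≤ rd A U w) →
  (1 / 8 : ℝ) * (9 / 20 * (1 / 4 : ℝ) ^ D) ^ (k + 1) * (W.card : ℝ) ^ 2 ≤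
    (((W ×ˢ W).filter (fun e => 63 / 160 * α ^ 2 ≤ cross A A U e.1 e.2)).card : ℝ) →
  (13 / 10 * α ^ 2) ^ (pp D k) * (W.card : ℝ) ^ 2 ≤
    ∑ w ∈ W, ∑ w' ∈ W, (jn A A U w w') ^ (pp D k)

/-- K6. Sifting.
Proof: for `v : Fin p → U` let `W_v = {w ∈ W : ∀ i, (w, v i) ∈ A}`. Then
`sum_v |W_v|^2 = sum_{w,w'} (|U| jn w w')^p ≥ |U|^p (1.3 α^2)^p |W|^2` and, `Bad = {(w,w') : jn < 1.2 α^2}`,
`sum_v |Bad ∩ W_v^2| = sum_{(w,w') ∈ Bad} (|U| jn)^p ≤ |U|^p |W|^2 (1.2 α^2)^p ≤ (1/100) |U|^p |W|^2 (1.3 α^2)^p`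
(`(12/13)^58 ≤ 1/100`). If for all `v` either `|W_v|^2 < (1/2)(1.3 α^2)^p |W|^2` or `|Bad ∩ W_v^2| > |W_v|^2/50`, then
`|W_v|^2 < (1/2)(1.3α^2)^p |W|^2 + 50 |Bad ∩ W_v^2|` in both cases, and summing over the `|U|^p` functions `v`:
`sum |W_v|^2 < (1/2 + 50/100) |U|^p (1.3 α^2)^p |W|^2`, contradiction. For the good `v`:
`|W_v|^2 ≥ (1/2)(1.3)^p α^(2p) |W|^2 ≥ (1/4) α^(2p) |W|^2`, so `|W_v| ≥ α^p |W| / 2 > 0`. -/
def S_sift : Prop := ∀ (p : ℕ) (α : ℝ) (A : Mat) (W U : Finset ℕ), 58 ≤ p → 0 < α → α ≤ 1 →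
  W.Nonempty → U.Nonempty →
  (13 / 10 * α ^ 2) ^ p * (W.card : ℝ) ^ 2 ≤ ∑ w ∈ W, ∑ w' ∈ W, (jn A A U w w') ^ p →
  ∃ W' ⊆ W, W'.Nonempty ∧ α ^ p / 2 * (W.card : ℝ) ≤ (W'.card : ℝ) ∧
    (((W' ×ˢ W').filter (fun e => jn A A U e.1 e.2 < 6 / 5 * α ^ 2)).card : ℝ) ≤
      1 / 50 * (W'.card : ℝ) ^ 2

/-- K7. Single matrix lemma: regularity bounds the moments of the covariance.
Proof. Suppose the conclusion fails. Put `h (w,w') = cross / α^2` on `P = W × W`. `h ≤ 1/α^2 ≤ 4^D` (`jn ≤ 1`,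
`α ≥ 2^(-D)`), `sum h^(k+1) ≥ 0` (K2), `sum h^k > (9/20)^k |P|`. K4, K5 give the hypothesis of K6 with `p = pp D k ≥ 58`.
Let `W' = W_v` from K6. The set `H` of rows `w ∈ W` with `rd ≥ (1+c)α`: if nonempty then `dens A H U ≥ (1+c) α` (K1), so by
`Reg` `|H||U| < rho |W||U|`, `|H| < rho |W| ≤ (α^p/20)|W| ≤ |W'|/10` (`rho ≤ α^(p+1)/20 ≤ α^p/20` as `α ≥ 2^(-D)`, `α ≤ 1`).
Fewer than `|W'|/2` (in fact at most half) of the `w' ∈ W'` have more than `|W'|/25` partners `w ∈ W'` with `jn < 1.2 α^2`.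
So there is `w' ∈ W'`, `w' ∉ H`, with at most `|W'|/25` bad partners. `U'' = {u ∈ U : (w',u) ∈ A}`, `|U''| = rd w' |U|`,
`0.99 α ≤ rd w' < (1+c) α`. For `w ∈ W'`: `rd A U'' w = jn w w' / rd w'`. So
`dens A W' U'' = avg over w ∈ W' of jn w w' / rd w' ≥ (24/25)(1.2 α^2)/((1+c)α) = 1.152 α/(1+c) ≥ (1+c) α` (`c ≤ 1/100`),
while `|W'||U''| ≥ (α^p/2)(0.99 α)|W||U| ≥ rho |W||U|`: contradicts `Reg`. -/
def S_sm : Prop := ∀ (D k : ℕ) (c α : ℝ) (A : Mat) (W U : Finset ℕ), 20 ≤ k → Even k →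
  W.Nonempty → U.Nonempty → Reg D k c α A W U →
  ∑ w ∈ W, ∑ w' ∈ W, (cross A A U w w') ^ k ≤ (9 / 20 * α ^ 2) ^ k * (W.card : ℝ) ^ 2

/-- K8. Product lemma: almost all pairs of rows have a common column.
Proof: K3 + K7: `(sum cross A C ^k)^2 ≤ ((9/20)α^2)^k |W|^2 ((9/20)κ^2)^k |Z|^2`, so
`sum_{w,z} cross^k ≤ ((9/20) α κ)^k |W||Z|` (the sum is nonnegative, `k` even; square root). For a pair without common column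
`jn = 0`, so `cross^k = (rd w * rd z)^k ≥ ((99/100)^2 α κ)^k`. So the number `X` of these pairs satisfies
`X ((99/100)^2 α κ)^k ≤ ((9/20) α κ)^k |W||Z|` and `(9/20)/(99/100)^2 ≤ 1/2`. -/
def S_prod : Prop := ∀ (D k : ℕ) (c α κ : ℝ) (A C : Mat) (W Z U : Finset ℕ), 20 ≤ k → Even k →
  W.Nonempty → Z.Nonempty → U.Nonempty → Reg D k c α A W U → Reg D k c κ C Z U →
  (((W ×ˢ Z).filter (fun p => ∀ u ∈ U, ¬ ((p.1, u) ∈ A ∧ (p.2, u) ∈ C))).card : ℝ) ≤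
    (1 / 2 : ℝ) ^ k * ((W.card : ℝ) * (Z.card : ℝ))

/-- K9. Greedy decomposition of one matrix.
Proof by strong induction on `A.card`. Let `a = A.card/(|W||U|) = dens A W U`. If `a ≤ 2^(-D)` take the empty list.
Otherwise among all pairs of nonempty `W₁ ⊆ W`, `U₁ ⊆ U` (finite, nonempty family) take one which maximises
`F = (dens A W₁ U₁)^q |W₁||U₁|`, `α = dens A W₁ U₁`, `μ = |W₁||U₁|/(|W||U|)`; output the piece `(W₁, U₁, A ∩ (W₁ × U₁))`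
and apply the induction hypothesis to `A' = A \ (W₁ × U₁)` (smaller, because `α > 0`).
`QMax` for the piece: subrectangles of `W₁ × U₁` see the same entries. `F ≥ F(W,U)`: `α^q μ ≥ a^q`, so `α ≥ a > 2^(-D)`
(`μ ≤ 1`) and `μ ≥ (a/α)^q ≥ a^q ≥ 2^(-Dq)` (`α ≤ 1`). Sum: prove the stronger bound
`sum ≤ (1 + log(a 2^D)) |W||U|` for `a > 2^(-D)` (and `0` for `a ≤ 2^(-D)`): `a - a' = α μ`, so
`μ ≤ (a - a')/a ≤ log(a/a')` if `a' > 2^(-D)`; if `a' ≤ 2^(-D)` the rest of the list is empty and `μ ≤ 1`.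
Finally `log(a 2^D) ≤ D log 2 ≤ D`. Length: every step removes `α μ ≥ 2^(-D) 2^(-Dq)` of the density, total at most `a ≤ 1`:
stronger bound `length ≤ a 2^(D(q+1))`. -/
def S_greedy : Prop := ∀ (D q : ℕ) (A : Mat) (W U : Finset ℕ), 1 ≤ q → W.Nonempty → U.Nonempty →
  A ⊆ W ×ˢ U → ∃ l : List Pc,
    (∀ P ∈ l, P.W ⊆ W ∧ P.U ⊆ U ∧ P.W.Nonempty ∧ P.U.Nonempty ∧ P.A ⊆ A ∧ P.A ⊆ P.W ×ˢ P.U ∧
      QMax q P.A P.W P.U ∧ (1 / 2 : ℝ) ^ D < dens P.A P.W P.U ∧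
      (1 / 2 : ℝ) ^ (D * q) * ((W.card : ℝ) * (U.card : ℝ)) ≤ (P.W.card : ℝ) * (P.U.card : ℝ)) ∧
    ((A.filter (fun e => ∀ P ∈ l, e ∉ P.A)).card : ℝ) ≤
      (1 / 2 : ℝ) ^ D * ((W.card : ℝ) * (U.card : ℝ)) ∧
    (l.map (fun P => (P.W.card : ℝ) * (P.U.card : ℝ))).sum ≤
      (1 + (D : ℝ)) * ((W.card : ℝ) * (U.card : ℝ)) ∧
    (l.length : ℝ) ≤ 2 ^ (D * (q + 1))

/-- K10. Minimal degrees in a maximal rectangle.
Proof for a column `u`: `m = |U|`. If `m = 1` then `cd A W u = dens` (K1). If `m ≥ 2` and `cd A W u < (1 - 1/q) α`, `α = dens A W U`,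
remove `u`: `dens A W (U.erase u) = (α m - cd u)/(m-1) > α (1 + 1/(q(m-1)))`, so
`(dens')^q (m-1) > α^q (1 + 1/(q(m-1)))^q (m-1) ≥ α^q (1 + 1/(m-1)) (m-1) = α^q m` (Bernoulli `one_add_mul_le_pow`),
which contradicts `QMax`. Rows in the same way (or transpose the matrix). -/
def S_deg : Prop := ∀ (q : ℕ) (A : Mat) (W U : Finset ℕ), 1 ≤ q → W.Nonempty → U.Nonempty →
  0 < dens A W U → QMax q A W U →
  (∀ u ∈ U, (1 - 1 / (q : ℝ)) * dens A W U ≤ cd A W u) ∧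
  (∀ w ∈ W, (1 - 1 / (q : ℝ)) * dens A W U ≤ rd A U w)

/-- K11. Few rows of a maximal rectangle are thin in a not too small set of columns.
Proof: `α = dens A W U`, `m = mm D`, `p = pp D (kk D)`. (`(1+1/m)^m ≥ 2`, so `(1+1/m)^(q1 D) ≥ 2^(D q2 + D(p+1) + 6)`.)
Average over `w ∈ W` of `rd A U' w` = average over `u ∈ U'` of `cd A W u` (K1 twice) `≥ (1 - 1/q1) α` (K10).
`H = {w ∈ W : rd A U' w ≥ (1+1/m) α}`: if nonempty, `dens A H U' ≥ (1+1/m)α`, `QMax` gives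
`(1+1/m)^(q1) |H||U'| ≤ |W||U| ≤ 2^(D q2)|W||U'|`, so `|H| ≤ 2^(-D(p+1)-6) |W|`. With `L` the set of the conclusion
`(1-1/q1) α |W| ≤ |L| (99/100) α + (|W| - |L|)(1+1/m) α + |H|`, hence
`|L| (1/100) ≤ |W| (1/m + 1/q1 + 2^(-D p - 6)) ≤ 3|W|/m` (`α > 2^(-D)`; `q1 ≥ m`; `2^(D p + 6) ≥ m` as `D ≥ 1`, `p ≥ 2000(D+1)`),
`|L| ≤ 300 |W| / m = 3|W|/(8 (D+1)^2)`. -/
def S_low : Prop := ∀ (D : ℕ) (A : Mat) (W U U' : Finset ℕ), 1 ≤ D → W.Nonempty → U'.Nonempty → U' ⊆ U →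
  QMax (q1 D) A W U → (1 / 2 : ℝ) ^ D < dens A W U →
  (1 / 2 : ℝ) ^ (D * q2 D) * (U.card : ℝ) ≤ (U'.card : ℝ) →
  ((W.filter (fun w => rd A U' w < 99 / 100 * dens A W U)).card : ℝ) ≤
    3 / (8 * ((D : ℝ) + 1) ^ 2) * (W.card : ℝ)

/-- K12. Regularity of the rest of the rows.
Proof: `W₁ = W \ W_low`, `|W₁| ≥ |W|/2` by K11 (`3/(8(D+1)^2) ≤ 1/2`). If `W'' ⊆ W₁`, `U'' ⊆ U'` are nonempty with
`rho |W₁||U'| ≤ |W''||U''|` and `dens A W'' U'' ≥ (1+1/m) α` then by `QMax`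
`(1+1/m)^(q1) |W''||U''| ≤ |W||U| ≤ 2 |W₁| 2^(D q2) |U'|`, `|W''||U''| ≤ 2^(1 + D q2) 2^(-(D q2 + D(p+1) + 6)) |W₁||U'|
= 2^(-D(p+1)) /32 |W₁||U'| < rho |W₁||U'|`, contradiction. (`dens ≤ 1`, `1/m ≤ 1/100`.) -/
def S_regA : Prop := ∀ (D : ℕ) (A : Mat) (W U U' : Finset ℕ), 1 ≤ D → W.Nonempty → U'.Nonempty → U' ⊆ U →
  QMax (q1 D) A W U → (1 / 2 : ℝ) ^ D < dens A W U →
  (1 / 2 : ℝ) ^ (D * q2 D) * (U.card : ℝ) ≤ (U'.card : ℝ) →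
  (W.filter (fun w => ¬ (rd A U' w < 99 / 100 * dens A W U))).Nonempty ∧
  Reg D (kk D) (1 / (mm D : ℝ)) (dens A W U) A
    (W.filter (fun w => ¬ (rd A U' w < 99 / 100 * dens A W U))) U'

/-- K13. Regularity of a maximal rectangle with exponent `q2`.
Proof: rows by K10 (`1/q2 ≤ 1/100`); if `rho |Z||U| ≤ |Z'||U'|` and `dens ≥ (1+1/m) κ` then
`(1+1/m)^(q2) |Z'||U'| ≤ |Z||U|`, `(1+1/m)^(q2) ≥ 2^(D(p+1)+5)`, so `|Z'||U'| ≤ 2^(-D(p+1))/32 |Z||U| < rho |Z||U|`. -/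
def S_regC : Prop := ∀ (D : ℕ) (C : Mat) (Z U : Finset ℕ), 1 ≤ D → Z.Nonempty → U.Nonempty →
  QMax (q2 D) C Z U → (1 / 2 : ℝ) ^ D < dens C Z U →
  Reg D (kk D) (1 / (mm D : ℝ)) (dens C Z U) C Z U

/-- K14. One level of the box decomposition.
Proof: if one of `W, U, Z` is empty then `A` or `C` is empty and four empty lists work. Otherwise K9 for `A` on `W × U` with `q1`:
pieces `P = (W_l, U_l, A_l)`; `sa = [(W, U, Z, A_rest, C)]`. For each `P` K9 for `C_P = C.filter (column ∈ U_l)` on `Z × U_l` with `q2`: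
pieces `R = (Z_lm, U_lm, C_lm)` (first component `R.W` is a set of rows `z`), rest `C_(l,rest)`;
`sc` = the boxes `(W_l, U_l, Z, A_l, C_(l,rest))`. `|U_lm| ≥ 2^(-D q2)|U_l|` because `|Z_lm| ≤ |Z|`.
With `α = dens A_l W_l U_l`, `W_low = {w ∈ W_l : rd A_l U_lm w < 99/100 α}`:
`lo` = the boxes `(W_low, U_lm, Z_lm, A_l ∩ (W_low × U_lm), C_lm)`, `gd` = the boxes
`(W_l \ W_low, U_lm, Z_lm, A_l ∩ ((W_l \ W_low) × U_lm), C_lm)`; these are good with error `2^(-kk D) ≤ 2^(-D)` by K8, K12, K13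
(restricting `A` to the box does not change the condition). Cover: clear. Volumes:
`vsum sa ≤ vol`, `vsum sc ≤ (1+D) vol`, `vsum gd ≤ (1+D)^2 vol`, `vsum lo ≤ 3/(8(D+1)^2) (1+D)^2 vol ≤ vol/2`.
Number: `1 + L + 2 L L' ≤ 4 * 2^(D(q1+1)) 2^(D(q2+1))`. -/
def S_one : Prop := ∀ (D : ℕ), 1 ≤ D → ∀ b : Box, b.ok → ∃ sa sc gd lo : List Box,
  (∀ b' ∈ sa ++ sc ++ gd ++ lo, b'.ok ∧ b'.sub b) ∧
  (∀ b' ∈ sa, SparseA D b') ∧ (∀ b' ∈ sc, SparseC D b') ∧ (∀ b' ∈ gd, GoodB D b') ∧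
  (∀ w u z, (w, u) ∈ b.A → (z, u) ∈ b.C →
    ∃ b' ∈ sa ++ sc ++ gd ++ lo, (w, u) ∈ b'.A ∧ (z, u) ∈ b'.C) ∧
  vsum (sa ++ sc ++ gd) ≤ 3 * ((D : ℝ) + 1) ^ 2 * b.vol ∧
  vsum lo ≤ 1 / 2 * b.vol ∧
  (sa ++ sc ++ gd ++ lo).length ≤ 2 ^ (D * (q1 D + q2 D + 2) + 2)

/-- K15. `r` levels. Proof: induction on `r`; `r = 0`: `lo = [b]`. Step: apply `S_one` to `b` and the induction hypothesis to
every box of its list `lo` (choose the lists, concatenate with `List.flatMap`). Volumes: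
`3 (D+1)^2 vol + 6 (D+1)^2 (vol/2) = 6 (D+1)^2 vol`, `lo`: `(1/2)^r (vol/2)`. Number: `N_0 = 1`, `N_(r+1) ≤ X (1 + N_r) ≤ 2 X N_r`
with `X = 2^(D(q1+q2+2)+2)`, so `N_r ≤ (2X)^r`. -/
def S_iter : Prop := ∀ (D : ℕ), 1 ≤ D → ∀ (r : ℕ) (b : Box), b.ok → ∃ sa sc gd lo : List Box,
  (∀ b' ∈ sa ++ sc ++ gd ++ lo, b'.ok ∧ b'.sub b) ∧
  (∀ b' ∈ sa, SparseA D b') ∧ (∀ b' ∈ sc, SparseC D b') ∧ (∀ b' ∈ gd, GoodB D b') ∧
  (∀ w u z, (w, u) ∈ b.A → (z, u) ∈ b.C →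
    ∃ b' ∈ sa ++ sc ++ gd ++ lo, (w, u) ∈ b'.A ∧ (z, u) ∈ b'.C) ∧
  vsum (sa ++ sc ++ gd) ≤ 6 * ((D : ℝ) + 1) ^ 2 * b.vol ∧
  vsum lo ≤ (1 / 2 : ℝ) ^ r * b.vol ∧
  (sa ++ sc ++ gd ++ lo).length ≤ (2 * 2 ^ (D * (q1 D + q2 D + 2) + 2)) ^ r

/-- K16. The list structure for disjointness.
Proof: `S_iter` with `r = D` for the box `(W, U, Z, A, C)`. Entries: for `b'` in `sa`, `gd`, `lo`: `typ = false`, `W = b'.W`, `Z = b'.Z`,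
`L w = {u ∈ b'.U : (w,u) ∈ b'.A}`; for `b'` in `sc`: `typ = true`, `L z = {u ∈ b'.U : (z,u) ∈ b'.C}`. Cover: clear (`b'.ok`).
Cost: exchange the sums. `sa`: `sum_{w ∈ b'.W} sum_{z ∈ b'.Z} |row w| ≤ |b'.A||b'.Z| ≤ 2^(-D) vol b'`; `sc` the same;
`gd`: a pair `(w,z)` with `Disj A C U w z` is also without common column for `b'.A ⊆ A`, `b'.C ⊆ C` (`b'.ok` and `b'.U ⊆ U` are not needed: a common
column `u` of the box satisfies `(w,u) ∈ A ⊆ W × U`), at most `2^(-D)|b'.W||b'.Z|` pairs, each costs `≤ |b'.U|`; `lo`: `≤ vol b'`.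
Total `≤ 2^(-D) 6 (D+1)^2 vol + 2^(-D) vol`. -/
def S_sud : Prop := ∀ (D : ℕ), 1 ≤ D → ∀ (W U Z : Finset ℕ) (A C : Mat), A ⊆ W ×ˢ U → C ⊆ Z ×ˢ U →
  ∃ l : List Ent,
    l.length ≤ (2 * 2 ^ (D * (q1 D + q2 D + 2) + 2)) ^ D ∧
    (∀ e ∈ l, ∀ x, e.L x ⊆ U) ∧
    (∀ w u z, (w, u) ∈ A → (z, u) ∈ C → ∃ e ∈ l, u ∈ e.lst w z) ∧
    (∑ w ∈ W, ∑ z ∈ Z, (open Classical in if Disj A C U w z then (ecost l w z : ℝ) else 0)) ≤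
      (6 * ((D : ℝ) + 1) ^ 2 + 1) * (1 / 2 : ℝ) ^ D *
        ((W.card : ℝ) * (U.card : ℝ) * (Z.card : ℝ))

end

end DDA
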